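import Pool.Agent.Work.MP_aef1a0_co.Bd.B01

/-! Bundle of small proof modules (one section per former module). -/

section

/-!
D14, D15, D16: the ideal phase (a giant clique hosts everything).
-/

set_option autoImplicit false

namespace MPaef1a0

open SimpleGraph

namespace IdealPh

/-! ## Monotonicity -/

theorem emb_of_hom {W W' : Type} {F : SimpleGraph W} {F' : SimpleGraph W'} (h : W → W')
    (hi : Function.Injective h) (hh : ∀ a b, F.Adj a b → F'.Adj (h a) (h b)) (hE : Emb F') :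
    Emb F := by
  obtain ⟨E, Γ, hΓ, f, hf1, hf2⟩ := hE
  exact ⟨E, Γ, hΓ, fun a => f (h a), fun a b hab => hi (hf1 hab),
    fun a b hab => hf2 _ _ (hh a b hab)⟩

theorem twoEC_mono {V : Type} {G G' : SimpleGraph V} {X : Set V} (h : G ≤ G')
    (hX : TwoECOn G X) : TwoECOn G' X := by
  intro A h1 h2 h3
  obtain ⟨a, b, a', b', ha, hb, ha', hb', e1, e2, hne⟩ := hX A h1 h2 h3
  exact ⟨a, b, a', b', ha, hb, ha', hb', h e1, h e2, hne⟩

theorem clq_mono {V : Type} {G G' : SimpleGraph V} {X : Set V} (h : G ≤ G')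
    (hX : Clq G X) : Clq G' X := fun x hx y hy hxy => h (hX x hx y hy hxy)

theorem closed_anti {V : Type} {G G' : SimpleGraph V} {X : Set V} (h : G ≤ G')
    (hX : Closed G' X) : Closed G X := fun x hx y hxy => hX x hx y (h hxy)

theorem step_le (hstep : stStep) (m : ℕ) {V : Type} [Fintype V] (G : SimpleGraph V) :
    G ≤ step (HG m) G := by
  intro u v huv
  exact (hstep V (Comp m) (CV m) (CG m) G u v).mpr (Or.inl huv)

theorem proc_le (hstep : stStep) (m : ℕ) {V : Type} [Fintype V] (G : SimpleGraph V) :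
    ∀ t, G ≤ proc (HG m) G t := by
  intro t
  induction t with
  | zero => exact le_rfl
  | succ t ih => exact ih.trans (step_le hstep m _)

theorem proc_add {V W : Type} [Fintype V] (H : SimpleGraph W) (G : SimpleGraph V) (a : ℕ) :
    ∀ b, proc H (proc H G a) b = proc H G (b + a) := by
  intro b
  induction b with
  | zero => rw [Nat.zero_add]; rfl
  | succ b ih =>
    rw [show b + 1 + a = (b + a) + 1 by omega]
    show step H (proc H (proc H G a) b) = step H (proc H G (b + a))
    rw [ih]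

/-! ## Labelling -/

theorem label {V : Type} [Fintype V] (G : SimpleGraph V) (X : Set V) (hQ : QOn G X) :
    ∃ σ : Fin X.ncard → V, Function.Injective σ ∧ Set.range σ = X ∧ IsQ (G.comap σ) := by
  classical
  have hcard : Fintype.card X = X.ncard := by
    rw [← Nat.card_coe_set_eq, Nat.card_eq_fintype_card]
  obtain ⟨ε⟩ : Nonempty (Fin X.ncard ≃ X) :=
    ⟨(Fintype.equivFinOfCardEq hcard).symm⟩
  have hinj : Function.Injective (fun i => (ε i : V)) := fun a b hab =>
    ε.injective (Subtype.ext hab)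
  have hran : Set.range (fun i => (ε i : V)) = X := by
    ext x
    constructor
    · rintro ⟨i, rfl⟩
      exact (ε i).2
    · intro hx
      exact ⟨ε.symm ⟨x, hx⟩, by simp⟩
  refine ⟨fun i => (ε i : V), hinj, hran, ?_, ?_⟩
  · intro A _ hA hA'
    obtain ⟨a0, ha0⟩ := hA
    obtain ⟨b0, hb0⟩ := hA'
    obtain ⟨a, b, a', b', ha, hb, ha', hb', e1, e2, hne⟩ :=
      hQ.1 ((fun i => (ε i : V)) '' A) (by rintro x ⟨i, _, rfl⟩; exact (ε i).2)
        ⟨_, a0, ha0, rfl⟩ ⟨(ε b0 : V), (ε b0).2, by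
          rintro ⟨i, hi, hib⟩
          exact hb0.2 (hinj hib ▸ hi)⟩
    obtain ⟨i, hi, rfl⟩ := ha
    obtain ⟨i', hi', rfl⟩ := ha'
    have hbX := hb.1
    have hbX' := hb'.1
    rw [← hran] at hbX hbX'
    obtain ⟨j, rfl⟩ := hbX
    obtain ⟨j', rfl⟩ := hbX'
    refine ⟨i, j, i', j', hi, ⟨Set.mem_univ _, fun h => hb.2 ⟨j, h, rfl⟩⟩, hi',
      ⟨Set.mem_univ _, fun h => hb'.2 ⟨j', h, rfl⟩⟩, e1, e2, ?_⟩
    rcases hne with hne | hne
    · exact Or.inl (fun h => hne (by rw [h]))
    · exact Or.inr (fun h => hne (by rw [h]))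
  · intro a b hab hE
    refine hQ.2 _ (ε a).2 _ (ε b).2 hab ?_
    refine emb_of_hom (fun x : X => ε.symm x) ε.symm.injective ?_ hE
    intro x y hxy
    simp only [SimpleGraph.comap_adj, SimpleGraph.deleteEdges_adj, Function.Embedding.subtype_apply,
      Set.mem_singleton_iff] at hxy ⊢
    refine ⟨by simpa using hxy.1, ?_⟩
    intro h
    apply hxy.2
    rw [Sym2.eq_iff] at h ⊢
    rcases h with ⟨h1, h2⟩ | ⟨h1, h2⟩
    · left
      rw [← h1, ← h2]
      simp
    · right
      rw [← h1, ← h2]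
      simp

/-! ## D14 -/

theorem card_comp_le (m : ℕ) (c : Comp m) : Fintype.card (CV m c) ≤ hN m := by
  unfold hN
  exact Fintype.card_le_of_injective (fun a : CV m c => (⟨c, a⟩ : Σ c, CV m c))
    (fun a b hab => by simpa using hab)

end IdealPh

open IdealPh in
theorem ideal : stIdeal := by
  classical
  intro m V _ G W hW hcard c f
  have h1 : (Set.range f).ncard ≤ hN m := by
    rw [← Set.image_univ]
    refine (Set.ncard_image_le Set.finite_univ).trans ?_
    rw [Set.ncard_univ, Nat.card_eq_fintype_card]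
    exact card_comp_le m c
  have h2 : hN m ≤ (W \ Set.range f).ncard := by
    have := Set.le_ncard_sdiff (Set.range f) W (Set.toFinite _)
    omega
  have h3 : Fintype.card (Σ c, CV m c) ≤ Fintype.card (W \ Set.range f : Set V) := by
    rw [← Nat.card_eq_fintype_card (α := (W \ Set.range f : Set V)), Nat.card_coe_set_eq]
    exact h2
  obtain ⟨ε⟩ := Function.Embedding.nonempty_of_card_le h3
  refine ⟨fun p => (ε p : V), ?_, ?_, ?_⟩
  · intro p q _ _ hpq
    exact ε.injective (Subtype.ext hpq)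
  · intro i a b _ hab
    refine hW _ (ε _).2.1 _ (ε _).2.1 ?_
    intro h
    have := ε.injective (Subtype.ext h)
    have hab' : a = b := by simpa using this
    exact hab.ne hab'
  · intro p _
    exact (ε p).2.2

namespace IdealPh

/-! ## Infection through a set, in the ideal phase -/

theorem infX (hstep : stStep) (hideal : stIdeal) (m : ℕ) {V : Type} [Fintype V]
    (G : SimpleGraph V) (W : Set V) (hW : Clq G W) (hcard : 2 * hN m ≤ W.ncard) (X : Set V)
    (u v : V) (hu : u ∈ X) (hv : v ∈ X) (huv : u ≠ v) (h14 : 14 ≤ X.ncard) (hm : X.ncard ≤ m)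
    (hQ : QOn (G ⊔ SimpleGraph.edge u v) X) : (step (HG m) G).Adj u v := by
  obtain ⟨σ, hinj, hran, hIs⟩ := label _ X hQ
  let q : QIdx m := ⟨⟨⟨X.ncard, by omega⟩, (G ⊔ SimpleGraph.edge u v).comap σ⟩, h14, hIs⟩
  refine (hstep V (Comp m) (CV m) (CG m) G u v).mpr (Or.inr ⟨.inr q, σ, ?_, ?_⟩)
  · refine ⟨hinj, ?_, ?_⟩
    · intro a b hab
      have hab' : (G ⊔ SimpleGraph.edge u v).Adj (σ a) (σ b) := hab
      rw [SimpleGraph.sup_adj, SimpleGraph.edge_adj] at hab'
      rcases hab' with h | h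
      · exact Or.inl h
      · right
        rw [Sym2.eq_iff]
        exact h.1
    · rw [← hran] at hu hv
      obtain ⟨a, ha⟩ := hu
      obtain ⟨b, hb⟩ := hv
      refine ⟨a, b, ?_, ha, hb⟩
      show (G ⊔ SimpleGraph.edge u v).Adj (σ a) (σ b)
      rw [SimpleGraph.sup_adj, SimpleGraph.edge_adj, ha, hb]
      exact Or.inr ⟨Or.inl ⟨rfl, rfl⟩, huv⟩
  · exact hideal m V G W hW hcard (.inr q) σ

theorem qon_of_K12 (hK : stK12Bad) {V : Type} (G : SimpleGraph V) (X : Set V)
    (h2 : TwoECOn G X) (g : Fin 12 → V) (hg : Function.Injective g) (hgX : ∀ i, g i ∈ X)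
    (hadj : ∀ i j, i ≠ j → G.Adj (g i) (g j)) : QOn G X := by
  refine ⟨h2, ?_⟩
  intro a ha b hb _ hE
  refine hK X _ (fun i => ⟨g i, hgX i⟩) s(⟨a, ha⟩, ⟨b, hb⟩)
    (fun i j hij => hg (by simpa using hij)) ?_ hE
  intro i j hij hne
  simp only [SimpleGraph.comap_adj, SimpleGraph.deleteEdges_adj,
    Function.Embedding.subtype_apply, Set.mem_singleton_iff]
  refine ⟨hadj i j hij, ?_⟩
  intro h
  apply hne
  rw [Sym2.eq_iff] at h ⊢
  rcases h with ⟨h1, h2⟩ | ⟨h1, h2⟩
  · exact Or.inl ⟨Subtype.ext h1, Subtype.ext h2⟩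
  · exact Or.inr ⟨Subtype.ext h1, Subtype.ext h2⟩

theorem exists_g12 {V : Type} [Fintype V] (T : Set V) (h : 12 ≤ T.ncard) :
    ∃ g : Fin 12 → V, Function.Injective g ∧ ∀ i, g i ∈ T := by
  classical
  have h3 : Fintype.card (Fin 12) ≤ Fintype.card T := by
    rw [← Nat.card_eq_fintype_card (α := T), Nat.card_coe_set_eq, Fintype.card_fin]
    exact h
  obtain ⟨ε⟩ := Function.Embedding.nonempty_of_card_le h3
  exact ⟨fun i => ε i, fun i j hij => ε.injective (Subtype.ext hij), fun i => (ε i).2⟩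

/-- a clique together with a vertex that has two neighbours in it -/
theorem twoEC_clique_insert {V : Type} (G : SimpleGraph V) (Y : Set V) (u w w' : V)
    (hY : Clq G Y) (h3 : 3 ≤ Y.ncard) (hw : w ∈ Y) (hw' : w' ∈ Y) (hne : w ≠ w')
    (huY : u ∉ Y) (h1 : G.Adj u w) (h2 : G.Adj u w') : TwoECOn G (insert u Y) := by
  intro A hA hA1 hA2
  by_cases hc1 : (A ∩ Y).Nonempty
  · by_cases hc2 : (Y \ A).Nonempty
    · obtain ⟨a, haA, haY⟩ := hc1
      obtain ⟨b, hbY, hbA⟩ := hc2
      have hab : a ≠ b := fun h => hbA (h ▸ haA)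
      have hfin : Y.Finite := Set.finite_of_ncard_pos (by omega)
      obtain ⟨c, hcY, hc⟩ : ∃ c ∈ Y, c ∉ ({a, b} : Set V) := by
        by_contra hcon
        push Not at hcon
        have hsub : Y ⊆ {a, b} := fun x hx => hcon x hx
        have h4 := Set.ncard_le_ncard hsub (Set.toFinite _)
        have h5 : ({a, b} : Set V).ncard ≤ 2 := Set.ncard_insert_le a {b} |>.trans (by simp)
        omega
      rw [Set.mem_insert_iff, Set.mem_singleton_iff, not_or] at hc
      by_cases hcA : c ∈ A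
      · exact ⟨a, b, c, b, haA, ⟨Or.inr hbY, hbA⟩, hcA, ⟨Or.inr hbY, hbA⟩,
          hY a haY b hbY hab, hY c hcY b hbY hc.2, Or.inl (fun h => hc.1 h.symm)⟩
      · exact ⟨a, b, a, c, haA, ⟨Or.inr hbY, hbA⟩, haA, ⟨Or.inr hcY, hcA⟩,
          hY a haY b hbY hab, hY a haY c hcY (fun h => hc.1 h.symm), Or.inr (fun h => hc.2 h.symm)⟩
    · -- Y ⊆ A, u ∉ A
      have hYA : Y ⊆ A := by
        intro y hy
        by_contra hcon
        exact hc2 ⟨y, hy, hcon⟩
      obtain ⟨b, hb1, hb2⟩ := hA2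
      have hbu : b = u := by
        rcases hb1 with h | h
        · exact h
        · exact absurd (hYA h) hb2
      subst hbu
      exact ⟨w, b, w', b, hYA hw, ⟨Or.inl rfl, hb2⟩, hYA hw', ⟨Or.inl rfl, hb2⟩, h1.symm, h2.symm,
        Or.inl hne⟩
  · obtain ⟨a, ha⟩ := hA1
    have hau : a = u := by
      rcases hA ha with h | h
      · exact h
      · exact absurd ⟨a, ha, h⟩ hc1
    subst hau
    have hn : ∀ y ∈ Y, y ∉ A := fun y hy hyA => hc1 ⟨y, hyA, hy⟩
    exact ⟨a, w, a, w', ha, ⟨Or.inr hw, hn w hw⟩, ha, ⟨Or.inr hw', hn w' hw'⟩, h1, h2, Or.inr hne⟩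

/-- one absorption -/
theorem absorb (hstep : stStep) (hideal : stIdeal) (hK : stK12Bad) (m : ℕ) (hm : 3000 ≤ m)
    {V : Type} [Fintype V] (G : SimpleGraph V) (W : Set V) (hW : Clq G W)
    (hcard : 2 * hN m ≤ W.ncard) (X : Set V) (hX : Clq G X) (h14 : 14 ≤ X.ncard) (u w' : V)
    (hu : u ∉ X) (hw' : w' ∈ X) (huw : G.Adj u w') :
    Clq (step (HG m) G) (insert u X) := by
  classical
  have key : ∀ w ∈ X, (step (HG m) G).Adj u w := by
    intro w hw
    by_cases hadj : G.Adj u w
    · exact step_le hstep m G hadj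
    have hne : w ≠ w' := fun h => hadj (h ▸ huw)
    -- 13 vertices of X
    have hfin : X.Finite := Set.toFinite _
    obtain ⟨Y, hY1, hY2, hY3⟩ := Finset.exists_subsuperset_card_eq (s := {w, w'})
      (t := hfin.toFinset) (n := 13) (by
        intro x hx
        rw [Finset.mem_insert, Finset.mem_singleton] at hx
        rw [Set.Finite.mem_toFinset]
        rcases hx with hx | hx
        · rw [hx]; exact hw
        · rw [hx]; exact hw')
      ((Finset.card_insert_le _ _).trans (by simp)) (by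
        rw [← Set.ncard_eq_toFinset_card X hfin]
        omega)
    have hYX : (Y : Set V) ⊆ X := by
      intro x hx
      have := hY2 hx
      rwa [Set.Finite.mem_toFinset] at this
    have huY : u ∉ (Y : Set V) := fun h => hu (hYX h)
    have hYn : (Y : Set V).ncard = 13 := by rw [Set.ncard_coe_finset, hY3]
    have hYc : Clq (G ⊔ SimpleGraph.edge u w) (Y : Set V) :=
      clq_mono le_sup_left (fun x hx y hy hxy => hX x (hYX hx) y (hYX hy) hxy)
    have hwY : w ∈ (Y : Set V) := hY1 (by simp)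
    have hwY' : w' ∈ (Y : Set V) := hY1 (by simp)
    have huw' : u ≠ w := fun h => hu (h ▸ hw)
    have h2 : TwoECOn (G ⊔ SimpleGraph.edge u w) (insert u (Y : Set V)) := by
      refine twoEC_clique_insert _ _ u w w' hYc (by omega) hwY hwY' hne huY ?_ (Or.inl huw)
      rw [SimpleGraph.sup_adj, SimpleGraph.edge_adj]
      exact Or.inr ⟨Or.inl ⟨rfl, rfl⟩, huw'⟩
    have hcardX : (insert u (Y : Set V)).ncard = 14 := by
      rw [Set.ncard_insert_of_notMem huY (Set.toFinite _), hYn]
    obtain ⟨g, hg1, hg2⟩ := exists_g12 (Y : Set V) (by omega)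
    refine infX hstep hideal m G W hW hcard (insert u (Y : Set V)) u w (Or.inl rfl)
      (Or.inr hwY) huw' (by omega) (by omega) ?_
    exact qon_of_K12 hK _ _ h2 g hg1 (fun i => Or.inr (hg2 i))
      (fun i j hij => hYc _ (hg2 i) _ (hg2 j) (fun h => hij (hg1 h)))
  intro x hx y hy hxy
  rcases hx with hx | hx <;> rcases hy with hy | hy
  · exact absurd (hx.trans hy.symm) hxy
  · rw [hx]; exact key y hy
  · rw [hy]; exact (key x hx).symm
  · exact step_le hstep m G (hX x hx y hy hxy)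

end IdealPh

open IdealPh in
theorem idealGrow (hstep : stStep) (hideal : stIdeal) (hK : stK12Bad) : stIdealGrow := by
  classical
  intro m hm V _ G W hW hcard X hX h14
  have key : ∀ t, ∃ K : Set V, X ⊆ K ∧ Clq (proc (HG m) G t) K ∧
      (Closed G K ∨ 14 + t ≤ K.ncard) := by
    intro t
    induction t with
    | zero => exact ⟨X, subset_rfl, hX, Or.inr (by omega)⟩
    | succ t ih =>
      obtain ⟨K, hXK, hKc, hK'⟩ := ih
      by_cases hcl : Closed (proc (HG m) G t) K
      · exact ⟨K, hXK, clq_mono (step_le hstep m _) hKc,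
          Or.inl (closed_anti (proc_le hstep m G t) hcl)⟩
      · unfold Closed at hcl
        push Not at hcl
        obtain ⟨x, hx, y, hxy, hy⟩ := hcl
        rcases hK' with hK' | hK'
        · exact ⟨K, hXK, clq_mono (step_le hstep m _) hKc, Or.inl hK'⟩
        · refine ⟨insert y K, hXK.trans (Set.subset_insert _ _), ?_, Or.inr ?_⟩
          · exact absorb hstep hideal hK m hm _ W (clq_mono (proc_le hstep m G t) hW) hcard K hKc
              (by omega) y x hy hx hxy.symm
          · rw [Set.ncard_insert_of_notMem hy (Set.toFinite _)]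
            omega
  obtain ⟨K, hXK, hKc, hK'⟩ := key (Fintype.card V)
  refine ⟨K, ?_, hXK, hKc⟩
  rcases hK' with hK' | hK'
  · exact hK'
  · exfalso
    have h1 : K.ncard ≤ Fintype.card V := by
      rw [← Nat.card_eq_fintype_card, ← Set.ncard_univ]
      exact Set.ncard_le_ncard (Set.subset_univ _) Set.finite_univ
    omega

open IdealPh in
theorem idealBad (hstep : stStep) (hideal : stIdeal) (hT : stTagBad) (hK : stK12Bad)
    (hgrow : stIdealGrow) : stIdealBad := by
  classical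
  intro m hm V _ G W hW hcard X hbad
  obtain ⟨h14, h216, hX2, ⟨α, ⟨hα1, hα2⟩, hαX⟩, hnE⟩ := hbad
  have hle := step_le hstep m G
  have hle2 := step_le hstep m (step (HG m) G)
  -- step 1: the tag becomes complete
  have hstep1 : ∀ a b, a ≠ b → (step (HG m) G).Adj (α a) (α b) := by
    intro a b hab
    by_cases hadj : G.Adj (α a) (α b)
    · exact hle hadj
    have htag : ¬ tag.Adj a b := fun h => hadj (hα2 a b h)
    have hne : α a ≠ α b := fun h => hab (hα1 h)
    refine infX hstep hideal m G W hW hcard X (α a) (α b) (hαX a) (hαX b) hne h14 (by omega) ?_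
    refine ⟨twoEC_mono le_sup_left hX2, ?_⟩
    intro x hx y hy _ hE
    by_cases hxy' : s(x, y) = s(α a, α b)
    · apply hnE
      refine emb_of_hom (fun z : X => z) (fun _ _ h => h) ?_ hE
      intro p q hpq
      simp only [SimpleGraph.comap_adj, SimpleGraph.deleteEdges_adj,
        Function.Embedding.subtype_apply, Set.mem_singleton_iff, SimpleGraph.sup_adj] at hpq ⊢
      refine ⟨Or.inl hpq, ?_⟩
      intro h
      rw [hxy', Sym2.eq_iff] at h
      rcases h with ⟨h1, h2⟩ | ⟨h1, h2⟩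
      · rw [h1, h2] at hpq
        exact hadj hpq
      · rw [h1, h2] at hpq
        exact hadj hpq.symm
    · refine hT X _ (fun i => ⟨α i, hαX i⟩) a b s(⟨x, hx⟩, ⟨y, hy⟩)
        (fun i j hij => hα1 (by simpa using hij)) hab htag ?_ ?_ ?_ hE
      · intro h
        apply hxy'
        rw [Sym2.eq_iff] at h ⊢
        rcases h with ⟨h1, h2⟩ | ⟨h1, h2⟩
        · exact Or.inl ⟨(congrArg Subtype.val h1).symm, (congrArg Subtype.val h2).symm⟩
        · exact Or.inr ⟨(congrArg Subtype.val h2).symm, (congrArg Subtype.val h1).symm⟩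
      · simp only [SimpleGraph.comap_adj, SimpleGraph.deleteEdges_adj,
          Function.Embedding.subtype_apply, Set.mem_singleton_iff, SimpleGraph.sup_adj,
          SimpleGraph.edge_adj]
        refine ⟨Or.inr ⟨Or.inl ?_, hne⟩, fun h => hxy' h.symm⟩
        simp
      · intro i j hij hne'
        simp only [SimpleGraph.comap_adj, SimpleGraph.deleteEdges_adj,
          Function.Embedding.subtype_apply, Set.mem_singleton_iff, SimpleGraph.sup_adj]
        refine ⟨Or.inl (hα2 i j hij), ?_⟩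
        intro h
        apply hne'
        rw [Sym2.eq_iff] at h ⊢
        rcases h with ⟨h1, h2⟩ | ⟨h1, h2⟩
        · exact Or.inl ⟨Subtype.ext h1, Subtype.ext h2⟩
        · exact Or.inr ⟨Subtype.ext h1, Subtype.ext h2⟩
  -- step 2: X becomes complete
  have hclq2 : Clq (step (HG m) (step (HG m) G)) X := by
    intro u hu v hv huv
    refine infX hstep hideal m _ W (clq_mono hle hW) hcard X u v hu hv huv h14 (by omega) ?_
    refine qon_of_K12 hK _ X (twoEC_mono le_sup_left (twoEC_mono hle hX2)) α hα1 hαX ?_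
    intro i j hij
    exact Or.inl (hstep1 i j hij)
  obtain ⟨K, hKc, hXK, hKq⟩ := hgrow m hm V (proc (HG m) G 2) W
    (clq_mono (proc_le hstep m G 2) hW) hcard X hclq2 h14
  refine ⟨K, closed_anti (proc_le hstep m G 2) hKc, hXK, ?_⟩
  rw [proc_add] at hKq
  exact hKq

end MPaef1a0

end

section

/-!
Labelling a vertex set `X` by `Fin X.ncard` (used by D9 and D10).
-/

set_option autoImplicit false

namespace MPaef1a0

open SimpleGraph

/-- Transport of 2-edge-connectedness to a labelling. -/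
theorem twoEC_comap {V W : Type} (G : SimpleGraph V) (X : Set V) (σ : W → V)
    (hσ : Function.Injective σ) (hr : Set.range σ = X) (h : TwoECOn G X) :
    TwoEC (G.comap σ) := by
  intro A _ hA hA'
  obtain ⟨x, hx⟩ := hA
  obtain ⟨y, hy⟩ := hA'
  have h1 : σ '' A ⊆ X := by
    rintro _ ⟨z, _, rfl⟩
    rw [← hr]
    exact ⟨z, rfl⟩
  have h2 : (X \ (σ '' A)).Nonempty := by
    refine ⟨σ y, ?_, ?_⟩
    · rw [← hr]
      exact ⟨y, rfl⟩
    · rintro ⟨z, hz, hzy⟩
      rw [hσ hzy] at hz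
      exact hy.2 hz
  obtain ⟨a, b, a', b', ha, hb, ha', hb', h3, h4, h5⟩ := h (σ '' A) h1 ⟨σ x, x, hx, rfl⟩ h2
  obtain ⟨a, ha, rfl⟩ := ha
  obtain ⟨a', ha', rfl⟩ := ha'
  have hb0 : b ∈ Set.range σ := by rw [hr]; exact hb.1
  have hb0' : b' ∈ Set.range σ := by rw [hr]; exact hb'.1
  obtain ⟨b, rfl⟩ := hb0
  obtain ⟨b', rfl⟩ := hb0'
  refine ⟨a, b, a', b', ha, ⟨Set.mem_univ _, fun h => hb.2 ⟨b, h, rfl⟩⟩, ha',
    ⟨Set.mem_univ _, fun h => hb'.2 ⟨b', h, rfl⟩⟩, h3, h4, ?_⟩
  rcases h5 with h5 | h5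
  · exact Or.inl fun h => h5 (by rw [h])
  · exact Or.inr fun h => h5 (by rw [h])

/-- The labelling lemma. -/
theorem labelX {V : Type} [Finite V] (G : SimpleGraph V) (X : Set V) (h : QOn G X) :
    ∃ σ : Fin X.ncard → V, Function.Injective σ ∧ Set.range σ = X ∧ IsQ (G.comap σ) := by
  have hcard : Nat.card X = X.ncard := Nat.card_coe_set_eq X
  let e : X ≃ Fin X.ncard := Finite.equivFinOfCardEq hcard
  let σ : Fin X.ncard → V := fun i => (e.symm i : V)
  have hσ : Function.Injective σ := fun i j hij => e.symm.injective (Subtype.ext hij)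
  have hr : Set.range σ = X := by
    ext x
    constructor
    · rintro ⟨i, rfl⟩
      exact (e.symm i).2
    · intro hx
      exact ⟨e ⟨x, hx⟩, by simp [σ]⟩
  refine ⟨σ, hσ, hr, twoEC_comap G X σ hσ hr h.1, ?_⟩
  intro a b hab hE
  apply h.2 (σ a) (hr ▸ ⟨a, rfl⟩) (σ b) (hr ▸ ⟨b, rfl⟩) hab
  obtain ⟨E, Γ, hax, f, hf, hf'⟩ := hE
  refine ⟨E, Γ, hax, fun x => f (e x), fun x y hxy => e.injective (hf hxy), ?_⟩
  intro x y hxy
  apply hf'
  rw [SimpleGraph.deleteEdges_adj, Set.mem_singleton_iff]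
  rw [SimpleGraph.comap_adj, SimpleGraph.deleteEdges_adj, Set.mem_singleton_iff] at hxy
  have h1 : σ (e x) = (x : V) := by simp [σ]
  have h2 : σ (e y) = (y : V) := by simp [σ]
  refine ⟨?_, ?_⟩
  · rw [SimpleGraph.comap_adj, h1, h2]
    exact hxy.1
  · intro h3
    apply hxy.2
    have h4 := congrArg (Sym2.map σ) h3
    rw [Sym2.map_mk, Sym2.map_mk, h1, h2] at h4
    exact h4

/-- The near copy given by a labelling. -/
theorem nearLabel {V W : Type} (G : SimpleGraph V) (X : Set V) (σ : W → V) (u v : V)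
    (hσ : Function.Injective σ) (hr : Set.range σ = X) (hu : u ∈ X) (hv : v ∈ X) (huv : u ≠ v) :
    Near ((G ⊔ SimpleGraph.edge u v).comap σ) G σ u v := by
  refine ⟨hσ, ?_, ?_⟩
  · intro a b hab
    rw [SimpleGraph.comap_adj, SimpleGraph.sup_adj, SimpleGraph.edge_adj] at hab
    rcases hab with h | h
    · exact Or.inl h
    · right
      rcases h.1 with ⟨h1, h2⟩ | ⟨h1, h2⟩
      · rw [h1, h2]
      · rw [h1, h2, Sym2.eq_swap]
  · rw [← hr] at hu hv
    obtain ⟨a, rfl⟩ := hu
    obtain ⟨b, rfl⟩ := hv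
    refine ⟨a, b, ?_, rfl, rfl⟩
    rw [SimpleGraph.comap_adj, SimpleGraph.sup_adj, SimpleGraph.edge_adj]
    exact Or.inr ⟨Or.inl ⟨rfl, rfl⟩, huv⟩

end MPaef1a0

end

section

/-!
D10: rehosting for sets meeting exactly one `Q`-host, of the same size.
-/

set_option autoImplicit false

namespace MPaef1a0

open SimpleGraph

namespace RH2

/-- `Emb` passes to graphs that map injectively. -/
theorem emb_of_copy {W W' : Type} {F : SimpleGraph W} {F' : SimpleGraph W'} (g : W → W')
    (hg : IsCopy F F' g) (h : Emb F') : Emb F := by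
  obtain ⟨E, Γ, hΓ, f, hf⟩ := h
  exact ⟨E, Γ, hΓ, f ∘ g, hf.1.comp hg.1, fun a b hab => hf.2 _ _ (hg.2 a b hab)⟩

/-- The labelled graph of a `Q`-set is a `Q`-graph. -/
theorem isQ_of_QOn {V : Type} {G : SimpleGraph V} {X : Set V} {n : ℕ} (e : Fin n ≃ X)
    (h : QOn G X) : IsQ (G.comap (fun a : Fin n => (e a : V))) := by
  constructor
  · intro A _ hA hA'
    have h1 := h.1 ((fun a : Fin n => (e a : V)) '' A)
      (by rintro _ ⟨a, _, rfl⟩; exact (e a).2)
      (hA.image _)
      (by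
        obtain ⟨b, _, hb⟩ := hA'
        refine ⟨(e b : V), (e b).2, ?_⟩
        rintro ⟨a, ha, hab⟩
        have : a = b := e.injective (Subtype.ext hab)
        exact hb (this ▸ ha))
    obtain ⟨a, b, a', b', ⟨a0, ha0, rfl⟩, ⟨hbX, hbA⟩, ⟨a0', ha0', rfl⟩, ⟨hbX', hbA'⟩, h2, h3,
      h4⟩ := h1
    have key : ∀ (b : V) (hb : b ∈ X), b ∉ (fun a : Fin n => (e a : V)) '' A →
        e.symm ⟨b, hb⟩ ∉ A := by
      intro b hb hn hm
      exact hn ⟨_, hm, by simp⟩
    refine ⟨a0, e.symm ⟨b, hbX⟩, a0', e.symm ⟨b', hbX'⟩, ha0, ⟨trivial, key b hbX hbA⟩, ha0',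
      ⟨trivial, key b' hbX' hbA'⟩, ?_, ?_, ?_⟩
    · show G.Adj (e a0 : V) (e (e.symm ⟨b, hbX⟩) : V)
      rw [e.apply_symm_apply]
      exact h2
    · show G.Adj (e a0' : V) (e (e.symm ⟨b', hbX'⟩) : V)
      rw [e.apply_symm_apply]
      exact h3
    · rcases h4 with h4 | h4
      · left
        intro h5
        exact h4 (by rw [h5])
      · right
        intro h5
        have h6 := e.symm.injective h5
        exact h4 (congrArg Subtype.val h6)
  · intro a b hab hE
    refine h.2 (e a : V) (e a).2 (e b : V) (e b).2 hab ?_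
    refine emb_of_copy (fun x : X => e.symm x) ⟨e.symm.injective, ?_⟩ hE
    intro x y hxy
    have h1 : (G.deleteEdges {s((e a : V), (e b : V))}).Adj (x : V) (y : V) := hxy
    rw [SimpleGraph.deleteEdges_adj] at h1 ⊢
    constructor
    · show G.Adj (e (e.symm x) : V) (e (e.symm y) : V)
      rw [e.apply_symm_apply, e.apply_symm_apply]
      exact h1.1
    · intro h2
      apply h1.2
      rw [Set.mem_singleton_iff] at h2 ⊢
      have h3 : s((x : V), (y : V)) =
          Sym2.map (fun a : Fin n => (e a : V)) s(e.symm x, e.symm y) := by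
        simp
      rw [h3, h2]
      simp

/-- Hosts of different components are disjoint. -/
theorem mem_host {V : Type} {m : ℕ} {φ : (Σ c, CV m c) → V} (hφ : Function.Injective φ)
    {i c : Comp m} {a : CV m i} (h : φ ⟨i, a⟩ ∈ host φ c) : i = c := by
  obtain ⟨b, hb⟩ := h
  have := hφ hb
  exact (congrArg Sigma.fst this).symm

theorem host_ncard {V : Type} {m : ℕ} {φ : (Σ c, CV m c) → V} (hφ : Function.Injective φ)
    (q : QIdx m) : (host φ (.inr q)).ncard = (q.1.1 : ℕ) := by
  have h1 : Function.Injective (fun a : CV m (.inr q) => φ ⟨.inr q, a⟩) := by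
    intro a b hab
    have := hφ hab
    simpa using this
  unfold host
  rw [← Set.image_univ, Set.ncard_image_of_injective _ h1, Set.ncard_univ]
  show Nat.card (Fin q.1.1) = _
  simp

end RH2

open RH2 in
/-- D10. -/
theorem rh2 : stStep → stRH2 := by
  intro hstep m V _ G φ hφ X u v q' hu hv huv hX hr hq hQ
  classical
  -- the labelled graph
  have hfin : X.Finite := X.toFinite
  obtain ⟨e⟩ : Nonempty (Fin (q'.1.1 : ℕ) ≃ X) := by
    rw [← hX]
    have : Fintype X := Fintype.ofFinite X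
    rw [← Nat.card_coe_set_eq]
    exact ⟨(Finite.equivFin X).symm⟩
  set Q : SimpleGraph (Fin (q'.1.1 : ℕ)) :=
    (G ⊔ SimpleGraph.edge u v).comap (fun a => (e a : V)) with hQdef
  have hQQ : IsQ Q := isQ_of_QOn e hQ
  let c : QIdx m := ⟨⟨q'.1.1, Q⟩, q'.2.1, hQQ⟩
  let f : CV m (.inr c) → V := fun a => (e a : V)
  have hrange : Set.range f = X := by
    ext x
    constructor
    · rintro ⟨a, rfl⟩
      exact (e a).2
    · intro hx
      exact ⟨e.symm ⟨x, hx⟩, by simp [f]⟩
  refine (hstep V (Comp m) (CV m) (CG m) G u v).2 (Or.inr ⟨.inr c, f, ⟨?_, ?_, ?_⟩, ?_⟩)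
  · intro a b hab
    exact e.injective (Subtype.ext hab)
  · intro a b hab
    have h1 : (G ⊔ SimpleGraph.edge u v).Adj (e a : V) (e b : V) := hab
    rw [SimpleGraph.sup_adj, SimpleGraph.edge_adj] at h1
    rcases h1 with h1 | ⟨h1, _⟩
    · exact Or.inl h1
    · right
      show s((e a : V), (e b : V)) = s(u, v)
      rw [Sym2.eq_iff]
      rcases h1 with h1 | h1
      · exact Or.inl h1
      · exact Or.inr h1
  · refine ⟨e.symm ⟨u, hu⟩, e.symm ⟨v, hv⟩, ?_, by simp [f], by simp [f]⟩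
    show (G ⊔ SimpleGraph.edge u v).Adj (e (e.symm ⟨u, hu⟩) : V) (e (e.symm ⟨v, hv⟩) : V)
    rw [e.apply_symm_apply, e.apply_symm_apply, SimpleGraph.sup_adj, SimpleGraph.edge_adj]
    exact Or.inr ⟨Or.inl ⟨rfl, rfl⟩, huv⟩
  · rw [hrange]
    set Z : Set V := host φ (.inr q') with hZ
    set Zc : Set V := host φ (.inr c) with hZc
    have cZ : Z.ncard = (q'.1.1 : ℕ) := host_ncard hφ.inj q'
    have cZc : Zc.ncard = (q'.1.1 : ℕ) := host_ncard hφ.inj c
    have : Nonempty V := ⟨u⟩
    obtain ⟨τ1, m1, i1⟩ : ∃ τ : V → V, (X \ Z) ⊆ τ ⁻¹' (Z \ X) ∧ Set.InjOn τ (X \ Z) := by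
      refine (Set.toFinite (X \ Z)).exists_injOn_of_encard_le ?_
      rw [← (Set.toFinite (X \ Z)).cast_ncard_eq, ← (Set.toFinite (Z \ X)).cast_ncard_eq]
      have h1 := Set.ncard_inter_add_ncard_sdiff_eq_ncard X Z
      have h2 := Set.ncard_inter_add_ncard_sdiff_eq_ncard Z X
      rw [Set.inter_comm] at h2
      have h3 : (X \ Z).ncard ≤ (Z \ X).ncard := by omega
      exact_mod_cast h3
    obtain ⟨τ2, m2, i2⟩ : ∃ τ : V → V, Z ⊆ τ ⁻¹' Zc ∧ Set.InjOn τ Z := by
      refine (Set.toFinite Z).exists_injOn_of_encard_le ?_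
      rw [← (Set.toFinite Z).cast_ncard_eq, ← (Set.toFinite Zc).cast_ncard_eq, cZ, cZc]
    set σ : V → V := fun x => if x ∈ Z then τ2 x else if x ∈ X then τ1 x else x with hσ
    have σ1 : ∀ x, x ∈ Z → σ x = τ2 x := fun x hx => by simp only [hσ, if_pos hx]
    have σ2 : ∀ x, x ∉ Z → x ∈ X → σ x = τ1 x := fun x hx hx' => by
      simp only [hσ, if_neg hx, if_pos hx']
    have σ3 : ∀ x, x ∉ Z → x ∉ X → σ x = x := fun x hx hx' => by
      simp only [hσ, if_neg hx, if_neg hx']
    -- facts on points outside of the host of `c`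
    have notZ : ∀ p : Σ i, CV m i, p.1 ≠ .inr q' → φ p ∉ Z := by
      rintro ⟨i, a⟩ hp h
      exact hp (mem_host hφ.inj h)
    have notZc : ∀ p : Σ i, CV m i, p.1 ≠ .inr c → φ p ∉ Zc := by
      rintro ⟨i, a⟩ hp h
      exact hp (mem_host hφ.inj h)
    have inZ : ∀ p : Σ i, CV m i, φ p ∈ Z → p.1 = .inr q' := by
      rintro ⟨i, a⟩ h
      exact mem_host hφ.inj h
    have disjZ : (Sum.inr q' : Comp m) ≠ .inr c → Disjoint Z Zc := by
      intro hne
      rw [Set.disjoint_left]
      rintro _ ⟨a, rfl⟩ h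
      exact hne (mem_host hφ.inj h)
    have cliq : ∀ (q : QIdx m) (x y : V), x ∈ host φ (.inr q) → y ∈ host φ (.inr q) → x ≠ y →
        G.Adj x y := by
      rintro q _ _ ⟨a, rfl⟩ ⟨b, rfl⟩ hab
      exact hφ.clq q a b (fun h => hab (by rw [h]))
    have ginj : ∀ p q : Σ i, CV m i, p.1 ≠ .inr c → q.1 ≠ .inr c → σ (φ p) = σ (φ q) →
        p = q := by
      -- classes
      have main : ∀ p q : Σ i, CV m i, p.1 ≠ .inr c → q.1 ≠ .inr c → σ (φ p) = σ (φ q) →
          φ p = φ q := by
        intro p q hp hq' h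
        have hpc := notZc p hp
        have hqc := notZc q hq'
        by_cases p1 : φ p ∈ Z
        · have hne : (Sum.inr q' : Comp m) ≠ .inr c := by rw [← inZ p p1]; exact hp
          have hd := disjZ hne
          by_cases q1 : φ q ∈ Z
          · rw [σ1 _ p1, σ1 _ q1] at h
            exact i2 p1 q1 h
          · by_cases q2 : φ q ∈ X
            · rw [σ1 _ p1, σ2 _ q1 q2] at h
              exact absurd (h ▸ m2 p1) (Set.disjoint_left.1 hd (m1 ⟨q2, q1⟩).1)
            · rw [σ1 _ p1, σ3 _ q1 q2] at h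
              exact absurd (h ▸ m2 p1) hqc
        · by_cases p2 : φ p ∈ X
          · by_cases q1 : φ q ∈ Z
            · have hne : (Sum.inr q' : Comp m) ≠ .inr c := by rw [← inZ q q1]; exact hq'
              have hd := disjZ hne
              rw [σ2 _ p1 p2, σ1 _ q1] at h
              exact absurd (h.symm ▸ m2 q1) (Set.disjoint_left.1 hd (m1 ⟨p2, p1⟩).1)
            · by_cases q2 : φ q ∈ X
              · rw [σ2 _ p1 p2, σ2 _ q1 q2] at h
                exact i1 ⟨p2, p1⟩ ⟨q2, q1⟩ h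
              · rw [σ2 _ p1 p2, σ3 _ q1 q2] at h
                exact absurd (h ▸ (m1 ⟨p2, p1⟩).1) q1
          · by_cases q1 : φ q ∈ Z
            · rw [σ3 _ p1 p2, σ1 _ q1] at h
              exact absurd (h.symm ▸ m2 q1) hpc
            · by_cases q2 : φ q ∈ X
              · rw [σ3 _ p1 p2, σ2 _ q1 q2] at h
                exact absurd (h.symm ▸ (m1 ⟨q2, q1⟩).1) p1
              · rw [σ3 _ p1 p2, σ3 _ q1 q2] at h
                exact h
      intro p q hp hq' h
      exact hφ.inj (main p q hp hq' h)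
    refine ⟨fun p => σ (φ p), ginj, ?_, ?_⟩
    · intro i a b hi hab
      have hne : σ (φ ⟨i, a⟩) ≠ σ (φ ⟨i, b⟩) := by
        intro h
        have h1 := ginj _ _ hi hi h
        have h2 : a = b := by simpa using h1
        exact ((CG m i).ne_of_adj hab) h2
      have hGadj := hφ.hom i a b hab
      have hostmem : ∀ x : CV m i, φ ⟨i, x⟩ ∈ host φ i := fun x => ⟨x, rfl⟩
      have same : (∀ x : CV m i, φ ⟨i, x⟩ ∉ Z) → (∀ x : CV m i, φ ⟨i, x⟩ ∉ X) →
          G.Adj (σ (φ ⟨i, a⟩)) (σ (φ ⟨i, b⟩)) := by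
        intro h1 h2
        rw [σ3 _ (h1 a) (h2 a), σ3 _ (h1 b) (h2 b)]
        exact hGadj
      rcases i with r | q
      · have hnZ : ∀ x : CV m (.inl r), φ ⟨.inl r, x⟩ ∉ Z := fun x =>
          notZ ⟨.inl r, x⟩ (by simp)
        rcases hr r with h | h
        · have hXX : ∀ x : CV m (.inl r), φ ⟨.inl r, x⟩ ∈ X := fun x => h (hostmem x)
          refine cliq q' (σ (φ ⟨.inl r, a⟩)) (σ (φ ⟨.inl r, b⟩)) ?_ ?_ hne
          · rw [σ2 _ (hnZ a) (hXX a)]
            exact (m1 ⟨hXX a, hnZ a⟩).1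
          · rw [σ2 _ (hnZ b) (hXX b)]
            exact (m1 ⟨hXX b, hnZ b⟩).1
        · exact same hnZ (fun x => Set.disjoint_left.1 h (hostmem x))
      · by_cases hqq : q = q'
        · subst hqq
          refine cliq c (σ (φ ⟨.inr q, a⟩)) (σ (φ ⟨.inr q, b⟩)) ?_ ?_ hne
          · rw [σ1 _ (hostmem a)]
            exact m2 (hostmem a)
          · rw [σ1 _ (hostmem b)]
            exact m2 (hostmem b)
        · exact same (fun x => notZ ⟨.inr q, x⟩ (by simpa using hqq))
            (fun x => Set.disjoint_left.1 (hq q hqq) (hostmem x))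
    · intro p hp hX'
      by_cases p1 : φ p ∈ Z
      · have hne : (Sum.inr q' : Comp m) ≠ .inr c := by rw [← inZ p p1]; exact hp
        have hne' : c ≠ q' := fun h => hne (by rw [h])
        rw [show (fun p => σ (φ p)) p = σ (φ p) from rfl, σ1 _ p1] at hX'
        exact Set.disjoint_left.1 (hq c hne') (m2 p1) hX'
      · by_cases p2 : φ p ∈ X
        · rw [show (fun p => σ (φ p)) p = σ (φ p) from rfl, σ2 _ p1 p2] at hX'
          exact (m1 ⟨p2, p1⟩).2 hX'
        · rw [show (fun p => σ (φ p)) p = σ (φ p) from rfl, σ3 _ p1 p2] at hX'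
          exact p2 hX'

end MPaef1a0

end

section

/-!
Blocks D17 and D18: skew set pairs and changes of availability.
-/

set_option autoImplicit false

namespace MPaef1a0

open SimpleGraph

theorem skew_aux (V : Type) [DecidableEq V] (a : ℕ) (A : ℕ → Finset V) :
    ∀ (b : ℕ) (I : Finset ℕ) (S : ℕ → Finset V),
      (∀ i ∈ I, (A i).card ≤ a ∧ (S i).card ≤ b ∧ Disjoint (A i) (S i)) →
      (∀ i ∈ I, ∀ j ∈ I, i < j → ¬ Disjoint (A i) (S j)) → I.card ≤ (a + 1) ^ b := by
  intro b
  induction b with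
  | zero =>
    intro I S h1 h2
    rw [pow_zero, Finset.card_le_one]
    intro i hi j hj
    by_contra hne
    rcases lt_or_gt_of_ne hne with h | h
    · apply h2 i hi j hj h
      have : S j = ∅ := Finset.card_eq_zero.mp (Nat.le_zero.mp (h1 j hj).2.1)
      rw [this]; exact Finset.disjoint_empty_right _
    · apply h2 j hj i hi h
      have : S i = ∅ := Finset.card_eq_zero.mp (Nat.le_zero.mp (h1 i hi).2.1)
      rw [this]; exact Finset.disjoint_empty_right _
  | succ b ih =>
    intro I S h1 h2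
    rcases I.eq_empty_or_nonempty with rfl | hne
    · simp
    obtain ⟨i0, hi0, hmin⟩ : ∃ i0 ∈ I, ∀ j ∈ I, i0 ≤ j :=
      ⟨I.min' hne, I.min'_mem hne, fun j hj => I.min'_le j hj⟩
    have hcov : I.erase i0 ⊆
        (A i0).biUnion (fun v => (I.erase i0).filter (fun j => v ∈ S j)) := by
      intro j hj
      have hj' := Finset.mem_erase.mp hj
      have hlt : i0 < j := lt_of_le_of_ne (hmin j hj'.2) (Ne.symm hj'.1)
      have := h2 i0 hi0 j hj'.2 hlt
      rw [Finset.not_disjoint_iff] at this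
      obtain ⟨v, hv1, hv2⟩ := this
      rw [Finset.mem_biUnion]
      exact ⟨v, hv1, Finset.mem_filter.mpr ⟨hj, hv2⟩⟩
    have hpart : ∀ v ∈ A i0, ((I.erase i0).filter (fun j => v ∈ S j)).card ≤ (a + 1) ^ b := by
      intro v _
      apply ih _ (fun j => (S j).erase v)
      · intro j hj
        have hj' := Finset.mem_filter.mp hj
        have hjI := Finset.mem_of_mem_erase hj'.1
        obtain ⟨q1, q2, q3⟩ := h1 j hjI
        refine ⟨q1, ?_, ?_⟩
        · rw [Finset.card_erase_of_mem hj'.2]; omega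
        · exact Finset.disjoint_of_subset_right (Finset.erase_subset _ _) q3
      · intro i hi j hj hij
        have hi' := Finset.mem_filter.mp hi
        have hiI := Finset.mem_of_mem_erase hi'.1
        have hj' := Finset.mem_filter.mp hj
        have hjI := Finset.mem_of_mem_erase hj'.1
        have := h2 i hiI j hjI hij
        rw [Finset.not_disjoint_iff] at this ⊢
        obtain ⟨w, hw1, hw2⟩ := this
        refine ⟨w, hw1, Finset.mem_erase.mpr ⟨?_, hw2⟩⟩
        rintro rfl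
        exact Finset.disjoint_left.mp (h1 i hiI).2.2 hw1 hi'.2
    have hc1 : (I.erase i0).card ≤ (A i0).card * (a + 1) ^ b :=
      (Finset.card_le_card hcov).trans (Finset.card_biUnion_le_card_mul _ _ _ hpart)
    have hc2 : (A i0).card * (a + 1) ^ b ≤ a * (a + 1) ^ b :=
      Nat.mul_le_mul_right _ (h1 i0 hi0).1
    have hc3 : I.card = (I.erase i0).card + 1 := (Finset.card_erase_add_one hi0).symm
    have hc4 : 1 ≤ (a + 1) ^ b := Nat.one_le_pow _ _ (Nat.succ_pos a)
    calc I.card = (I.erase i0).card + 1 := hc3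
      _ ≤ a * (a + 1) ^ b + (a + 1) ^ b := by omega
      _ = (a + 1) ^ (b + 1) := by ring

theorem skew : stSkew := by
  intro V _ a b I A S h1 h2
  exact skew_aux V a A b I S h1 h2

theorem change : stSkew → stChange := by
  classical
  intro hS V ι _ _ F _ R Gs hmono J hJ
  have hmono' : Monotone Gs := monotone_nat_of_le_succ hmono
  have hcov : J ⊆ (Finset.univ : Finset ι).biUnion (fun c => J.filter (fun t =>
      ∃ f : F c → V, Free R (Gs (t + 1)) c (Set.range f) ∧ ¬ Free R (Gs t) c (Set.range f))) := by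
    intro t ht
    obtain ⟨c, f, hf⟩ := hJ t ht
    exact Finset.mem_biUnion.mpr ⟨c, Finset.mem_univ _, Finset.mem_filter.mpr ⟨ht, f, hf⟩⟩
  have hpart : ∀ c ∈ (Finset.univ : Finset ι), (J.filter (fun t =>
      ∃ f : F c → V, Free R (Gs (t + 1)) c (Set.range f) ∧
        ¬ Free R (Gs t) c (Set.range f))).card ≤
      (Fintype.card (Σ i, F i) + 1) ^ (Fintype.card (Σ i, F i)) := by
    intro c _
    set Jc := J.filter (fun t =>
      ∃ f : F c → V, Free R (Gs (t + 1)) c (Set.range f) ∧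
        ¬ Free R (Gs t) c (Set.range f)) with hJc
    have hex : ∀ t : ℕ, ∃ A S : Finset V, t ∈ Jc →
        ((A.card ≤ Fintype.card (Σ i, F i) ∧ S.card ≤ Fintype.card (Σ i, F i) ∧ Disjoint A S) ∧
        (¬ Free R (Gs t) c (S : Set V)) ∧
        (∃ g : (Σ i, F i) → V, (∀ p q, p.1 ≠ c → q.1 ≠ c → g p = g q → p = q) ∧
          (∀ i a b, i ≠ c → (R i).Adj a b → (Gs (t + 1)).Adj (g ⟨i, a⟩) (g ⟨i, b⟩)) ∧
          (∀ p, p.1 ≠ c → g p ∈ A))) := by
      intro t
      by_cases ht : t ∈ Jc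
      · obtain ⟨-, f, ⟨g, g1, g2, g3⟩, f2⟩ := Finset.mem_filter.mp ht
        refine ⟨(Finset.univ.filter (fun p : (Σ i, F i) => p.1 ≠ c)).image g,
          Finset.univ.image f, fun _ => ⟨⟨?_, ?_, ?_⟩, ?_, g, g1, g2, ?_⟩⟩
        · exact Finset.card_image_le.trans (Finset.card_le_univ _)
        · refine Finset.card_image_le.trans ?_
          rw [Finset.card_univ]
          exact Fintype.card_le_of_injective (fun x => (⟨c, x⟩ : Σ i, F i))
            (fun x y hxy => by simpa using hxy)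
        · rw [Finset.disjoint_left]
          intro v hv1 hv2
          obtain ⟨p, hp, rfl⟩ := Finset.mem_image.mp hv1
          obtain ⟨x, -, hx⟩ := Finset.mem_image.mp hv2
          exact g3 p (Finset.mem_filter.mp hp).2 ⟨x, hx⟩
        · simpa using f2
        · intro p hp
          exact Finset.mem_image_of_mem _ (Finset.mem_filter.mpr ⟨Finset.mem_univ _, hp⟩)
      · exact ⟨∅, ∅, fun h => absurd h ht⟩
    choose A S hAS using hex
    apply hS V _ _ Jc A S
    · intro i hi
      exact (hAS i hi).1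
    · intro i hi j hj hij hdis
      obtain ⟨-, -, g, g1, g2, g3⟩ := hAS i hi
      obtain ⟨-, hn, -⟩ := hAS j hj
      apply hn
      refine ⟨g, g1, ?_, ?_⟩
      · intro k a b hk hab
        exact hmono' (Nat.succ_le_of_lt hij) (g2 k a b hk hab)
      · intro p hp hmem
        exact Finset.disjoint_left.mp hdis (g3 p hp) (Finset.mem_coe.mp hmem)
  calc J.card ≤ _ := Finset.card_le_card hcov
    _ ≤ (Finset.univ : Finset ι).card *
        (Fintype.card (Σ i, F i) + 1) ^ (Fintype.card (Σ i, F i)) :=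
      Finset.card_biUnion_le_card_mul _ _ _ hpart
    _ = _ := by rw [Finset.card_univ]

end MPaef1a0

end

section

/-!
One step of the process for a disjoint union.
-/

set_option autoImplicit false

namespace MPaef1a0

open SimpleGraph

namespace StepAux

variable {V ι : Type} {F : ι → Type} (R : ∀ i, SimpleGraph (F i)) (G : SimpleGraph V)

theorem famAdj_iff {i : ι} {a b : F i} : (famG R).Adj ⟨i, a⟩ ⟨i, b⟩ ↔ (R i).Adj a b := by
  constructor
  · intro h
    cases h with
    | mk i a b h => exact h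
  · exact fun h => FamAdj.mk i a b h

theorem near_famG (u v : V) :
    (∃ f : (Σ i, F i) → V, Near (famG R) G f u v) ↔
      ∃ (c : ι) (f : F c → V), InfBy R G c f u v := by
  classical
  constructor
  · rintro ⟨f, hinj, hom, p, q, hpq, hp, hq⟩
    cases hpq with
    | mk c a b hab =>
      have key : ∀ i, i ≠ c → ∀ x : F i, f ⟨i, x⟩ ≠ u ∧ f ⟨i, x⟩ ≠ v := by
        intro i hi x
        constructor
        · intro h
          have := hinj (h.trans hp.symm)
          exact hi (congrArg Sigma.fst this)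
        · intro h
          have := hinj (h.trans hq.symm)
          exact hi (congrArg Sigma.fst this)
      refine ⟨c, fun x => f ⟨c, x⟩, ⟨?_, ?_, a, b, hab, hp, hq⟩, f, ?_, ?_, ?_⟩
      · intro x y hxy
        have := hinj hxy
        exact eq_of_heq (Sigma.mk.inj this).2
      · intro x y hxy
        exact hom ⟨c, x⟩ ⟨c, y⟩ (FamAdj.mk c x y hxy)
      · intro p q _ _ h
        exact hinj h
      · intro i x y hi hxy
        rcases hom ⟨i, x⟩ ⟨i, y⟩ (FamAdj.mk i x y hxy) with h | h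
        · exact h
        · rcases Sym2.eq_iff.1 h with h | h
          · exact absurd h.1 (key i hi x).1
          · exact absurd h.1 (key i hi x).2
      · rintro p hp' ⟨x, hx⟩
        have := hinj hx
        exact hp' (congrArg Sigma.fst this).symm
  · rintro ⟨c, f, ⟨hinj, hom, a, b, hab, ha, hb⟩, g, g1, g2, g3⟩
    let f0 : (Σ i, F i) → V := fun p => if h : p.1 = c then f (h ▸ p.2) else g p
    have e1 : ∀ x : F c, f0 ⟨c, x⟩ = f x := by
      intro x
      exact dif_pos (c := (⟨c, x⟩ : Σ i, F i).1 = c) rfl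
    have e2 : ∀ p : (Σ i, F i), p.1 ≠ c → f0 p = g p := by
      intro p hp
      exact dif_neg hp
    refine ⟨f0, ?_, ?_, ⟨c, a⟩, ⟨c, b⟩, FamAdj.mk c a b hab, ?_, ?_⟩
    · rintro ⟨i, x⟩ ⟨j, y⟩ h
      by_cases hi : i = c <;> by_cases hj : j = c
      · subst hi
        subst hj
        rw [e1, e1] at h
        rw [hinj h]
      · subst hi
        rw [e1, e2 _ hj] at h
        exact absurd ⟨x, h⟩ (g3 ⟨j, y⟩ hj)
      · subst hj
        rw [e1, e2 _ hi] at h
        exact absurd ⟨y, h.symm⟩ (g3 ⟨i, x⟩ hi)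
      · rw [e2 _ hi, e2 _ hj] at h
        exact g1 _ _ hi hj h
    · intro p q hpq
      cases hpq with
      | mk i x y hxy =>
        by_cases hi : i = c
        · subst hi
          rw [e1, e1]
          exact hom x y hxy
        · rw [e2 _ hi, e2 _ hi]
          exact Or.inl (g2 i x y hi hxy)
    · rw [e1]
      exact ha
    · rw [e1]
      exact hb

end StepAux

open StepAux in
/-- One step of the process for a disjoint union. -/
theorem stepThm : stCount → stStep := by
  intro hcount V ι _ _ F _ R G u v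
  rw [← near_famG]
  unfold step
  rw [SimpleGraph.fromRel_adj]
  by_cases hG : G.Adj u v
  · exact iff_of_true ⟨hG.ne, Or.inl (Or.inl hG)⟩ (Or.inl hG)
  · have hG' : ¬ G.Adj v u := fun h => hG h.symm
    rw [or_iff_right hG, or_iff_right hG', or_iff_right hG]
    rw [SimpleGraph.edge_comm v u, or_self, hcount V _ (famG R) G u v hG]
    constructor
    · exact fun h => h.2
    · intro h
      refine ⟨?_, h⟩
      rintro rfl
      obtain ⟨f, hinj, -, p, q, hpq, hp, hq⟩ := h
      exact hpq.ne (hinj (hp.trans hq.symm))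

end MPaef1a0

end

section

/-!
Statements, block E: good components, typed worlds inside them, chains in good components;
block F: assembly of the upper bound.
-/

set_option autoImplicit false

namespace MPaef1a0

open SimpleGraph

/-- No bad window inside `K`. -/
def Good {V : Type} (G : SimpleGraph V) (K : Set V) : Prop := ∀ X : Set V, X ⊆ K → ¬ BadWin G X

/-- A complete copy of a rule inside `K`. -/
def RCopy {V : Type} (G : SimpleGraph V) (K : Set V) (r : RK) (f : Fin (ne r) × Fin 12 → V) :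
    Prop :=
  IsCopy (Phi (pat r)) G f ∧ ∀ p, f p ∈ K

/-- E1: two meeting rule copies in a good set have a joint typed image. -/
def stJoint : Prop :=
  ∀ (V : Type) [Fintype V] (G : SimpleGraph V) (K : Set V), Good G K →
    ∀ (r1 r2 : RK) (f1 : Fin (ne r1) × Fin 12 → V) (f2 : Fin (ne r2) × Fin 12 → V),
      RCopy G K r1 f1 → RCopy G K r2 f2 → (∃ p q, f1 p = f2 q) →
      ∃ (E : Type) (Γ : TStr E) (ψ1 : Fin (ne r1) → E) (ψ2 : Fin (ne r2) → E), Ax Γ ∧
        Function.Injective ψ1 ∧ Function.Injective ψ2 ∧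
        (∀ x a y b, f1 (x, a) = f2 (y, b) ↔ (ψ1 x = ψ2 y ∧ a = b)) ∧
        (∀ k x y, (pat r1).lk k x y → Γ.lk k (ψ1 x) (ψ1 y)) ∧
        (∀ d x y, (pat r1).dy d x y → Γ.dy d (ψ1 x) (ψ1 y)) ∧
        (∀ k x y, (pat r2).lk k x y → Γ.lk k (ψ2 x) (ψ2 y)) ∧
        (∀ d x y, (pat r2).dy d x y → Γ.dy d (ψ2 x) (ψ2 y))

/-- The elements (tags) visible in a good set. -/
def Elt {V : Type} (G : SimpleGraph V) (K : Set V) : Type :=
  {α : Fin 12 → V // ∃ (r : RK) (f : Fin (ne r) × Fin 12 → V) (x : Fin (ne r)),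
    RCopy G K r f ∧ ∀ a, α a = f (x, a)}

/-- E2: different tags are disjoint. -/
def stElt : Prop :=
  ∀ (V : Type) [Fintype V] (G : SimpleGraph V) (K : Set V), Good G K →
    ∀ (α β : Elt G K) (a b : Fin 12), α.1 a = β.1 b → α = β ∧ a = b

/-- E3: the typed world of a good set. -/
def stWorld : Prop :=
  ∀ (V : Type) [Fintype V] (G : SimpleGraph V) (K : Set V), Good G K →
    ∃ w : World (Elt G K),
      (∀ k α β, w.lk k α β ↔ ∃ (r : RK) (f : Fin (ne r) × Fin 12 → V) (x y : Fin (ne r)),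
        RCopy G K r f ∧ (pat r).lk k x y ∧ (∀ a, α.1 a = f (x, a)) ∧ (∀ a, β.1 a = f (y, a))) ∧
      (∀ z1 z2 z3 z4, w.bs z1 z2 z3 z4 ↔ ∃ f : Fin (ne .BaseX) × Fin 12 → V,
        RCopy G K .BaseX f ∧ (∀ a, z1.1 a = f (⟨0, by decide⟩, a)) ∧
        (∀ a, z2.1 a = f (⟨1, by decide⟩, a)) ∧ (∀ a, z3.1 a = f (⟨2, by decide⟩, a)) ∧
        (∀ a, z4.1 a = f (⟨3, by decide⟩, a)))

/-- E4: static copies in a good set are determined by one vertex. -/
def stStaticUniq : Prop :=
  ∀ (V : Type) [Fintype V] (G : SimpleGraph V) (K : Set V), Good G K →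
    ∀ (r : RK) (f f' : Fin (ne r) × Fin 12 → V) (p : Fin (ne r) × Fin 12), isStatic r = true →
      RCopy G K r f → RCopy G K r f' → f p = f' p → f = f'

/-- E5: the number of static edges is linear; the number of edges of static copies meeting a set
`Hs` is at most a constant times its size. -/
def stStaticCount : Prop :=
  ∃ C : ℕ, ∀ (V : Type) [Fintype V] [DecidableEq V] (G : SimpleGraph V) (K : Set V), Good G K →
    (∀ J : Finset (Sym2 V),
      (∀ e ∈ J, ∃ (r : RK) (f : Fin (ne r) × Fin 12 → V) (p q : Fin (ne r) × Fin 12),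
        isStatic r = true ∧ RCopy G K r f ∧ e = s(f p, f q)) → J.card ≤ C * Fintype.card V) ∧
    (∀ (Hs : Finset V) (J : Finset (Sym2 V)),
      (∀ e ∈ J, ∃ (r : RK) (f : Fin (ne r) × Fin 12 → V) (p q x : Fin (ne r) × Fin 12),
        isStatic r = true ∧ RCopy G K r f ∧ e = s(f p, f q) ∧ f x ∈ Hs) →
      J.card ≤ C * Hs.card)

/-- `uv` is an edge of the copy `f`. -/
def InE {V : Type} (r : RK) (f : Fin (ne r) × Fin 12 → V) (u v : V) : Prop :=
  ∃ p q, (Phi (pat r)).Adj p q ∧ f p = u ∧ f q = v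

/-- `uv` is a dynamic edge of the copy `f`. -/
def DynIn {V : Type} (r : RK) (f : Fin (ne r) × Fin 12 → V) (u v : V) : Prop :=
  ∃ d x y, (pat r).dy d x y ∧
    ((f (x, pp d) = u ∧ f (y, rp d) = v) ∨ (f (x, pp d) = v ∧ f (y, rp d) = u))

/-- E6: the role of an edge does not depend on the copy. -/
def stRole : Prop :=
  ∀ (V : Type) [Fintype V] (G : SimpleGraph V) (K : Set V), Good G K →
    ∀ (r1 r2 : RK) (f1 : Fin (ne r1) × Fin 12 → V) (f2 : Fin (ne r2) × Fin 12 → V) (u v : V),
      RCopy G K r1 f1 → RCopy G K r2 f2 → InE r1 f1 u v → InE r2 f2 u v →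
      DynIn r1 f1 u v → DynIn r2 f2 u v

/-- E7: the non-dynamic edges of a copy lie in a static copy that is a typed part of it. -/
def stStaticPart : Prop :=
  ∀ (r : RK) (p q : Fin (ne r) × Fin 12), (Phi (pat r)).Adj p q →
    (∀ d, ¬ ((pat r).dy d p.1 q.1 ∧ p.2 = pp d ∧ q.2 = rp d)) →
    (∀ d, ¬ ((pat r).dy d q.1 p.1 ∧ q.2 = pp d ∧ p.2 = rp d)) →
    ∃ (r' : RK) (j : Fin (ne r') → Fin (ne r)) (p' q' : Fin (ne r') × Fin 12),
      isStatic r' = true ∧ Function.Injective j ∧
      (∀ k x y, (pat r').lk k x y → (pat r).lk k (j x) (j y)) ∧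
      (Phi (pat r')).Adj p' q' ∧ (j p'.1, p'.2) = p ∧ (j q'.1, q'.2) = q

/-- E8: pure dynamic runs in a good set. -/
def stPure : Prop :=
  ∀ (V : Type) [Fintype V] (G : SimpleGraph V) (K : Set V), Good G K →
    ∀ (r : ℕ) (eu ev : ℕ → V) (c : ℕ → RK) (f : ∀ i, Fin (ne (c i)) × Fin 12 → V),
      (∀ i, 1 ≤ i → i ≤ r → RCopy G K (c i) (f i) ∧ DynIn (c i) (f i) (eu i) (ev i) ∧
        DynIn (c i) (f i) (eu (i - 1)) (ev (i - 1))) →
      (∀ i j, i ≤ r → j ≤ r → s(eu i, ev i) = s(eu j, ev j) → i = j) →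
      ∀ Q : ℕ, 1 ≤ Q → (∀ l, 2 ≤ l → 2 ^ (2 ^ l + 1) ≤ Fintype.card V → 2 ^ (2 ^ l + 1) ≤ Q) →
        r ≤ (2 * Q + 6) * Fintype.card V

/-- E9: a counting lemma: `r + 1` positions, at most `n` outside `P`, at most `b` places where `P`
is left, every block inside `P` has at most `a + 1` positions. -/
def stBlocks : Prop :=
  ∀ (r a b n : ℕ) (P : ℕ → Prop) [DecidablePred P],
    (∀ i j, i ≤ j → j ≤ r → (∀ k, i ≤ k → k ≤ j → P k) → j - i ≤ a) →
    ((Finset.range (r + 1)).filter (fun i => ¬ P i)).card ≤ n →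
    ((Finset.range r).filter (fun i => P i ∧ ¬ P (i + 1))).card ≤ b →
    r + 1 ≤ n + (b + 1) * (a + 1)

/-- E10: chains in a good set. -/
def stGoodChain : Prop :=
  ∃ C : ℕ, ∀ (V : Type) [Fintype V] [DecidableEq V] (G : SimpleGraph V) (K : Set V), Good G K →
    ∀ (Hs : Finset V) (r : ℕ) (eu ev : ℕ → V) (c : ℕ → RK)
      (f : ∀ i, Fin (ne (c i)) × Fin 12 → V),
      (∀ i, 1 ≤ i → i ≤ r → RCopy G K (c i) (f i) ∧ InE (c i) (f i) (eu i) (ev i) ∧
        InE (c i) (f i) (eu (i - 1)) (ev (i - 1))) →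
      (∀ i j, i ≤ r → j ≤ r → s(eu i, ev i) = s(eu j, ev j) → i = j) →
      (∀ i, 1 ≤ i → i ≤ r → isStatic (c i) = false →
        ∀ (r' : RK) (j : Fin (ne r') → Fin (ne (c i))), isStatic r' = true →
          Function.Injective j → (∀ k x y, (pat r').lk k x y → (pat (c i)).lk k (j x) (j y)) →
          InE r' (fun p => f i (j p.1, p.2)) (eu i) (ev i) →
          ∃ p : Fin (ne r') × Fin 12, f i (j p.1, p.2) ∈ Hs) →
      ∀ Q : ℕ, 1 ≤ Q → (∀ l, 2 ≤ l → 2 ^ (2 ^ l + 1) ≤ Fintype.card V → 2 ^ (2 ^ l + 1) ≤ Q) →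
        r ≤ C * (Hs.card + 1) * ((Fintype.card V + 1) * Q)

/-! ## Block F: assembly of the upper bound -/

/-- Abbreviation: all special numbers up to `n` are at most `Q`, and `1 ≤ Q`. -/
def QB (n Q : ℕ) : Prop :=
  1 ≤ Q ∧ ∀ l, 2 ≤ l → 2 ^ (2 ^ l + 1) ≤ n → 2 ^ (2 ^ l + 1) ≤ Q

/-- F1: non-ideal phase: an interval without changes of availability is short. -/
def stNonIdeal : Prop :=
  ∀ (m : ℕ), 3000 ≤ m → ∃ C : ℕ, ∀ (V : Type) [Fintype V] (G : SimpleGraph V)
    (φ : (Σ c, CV m c) → V), HS m G φ → ∀ Q, QB (Fintype.card V) Q →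
    ∀ a b : ℕ, a ≤ b → 2 * (2 * hN m * Fintype.card (QIdx m)) ≤ a →
      (∀ t, a ≤ t → t < b → ¬ Chg (CG m) (proc (HG m) G) t) →
      (∀ K : Set V, Clq (proc (HG m) G (b + 4 * hN m + 2)) K → K.ncard < 2 * hN m) →
      proc (HG m) G b ≠ proc (HG m) G (b + 1) →
      b - a ≤ C * ((Fintype.card V + 1) * Q)

/-- F2: ideal phase. -/
def stIdealTime : Prop :=
  ∀ (m : ℕ), 3000 ≤ m → ∃ C : ℕ, ∀ (V : Type) [Fintype V] (G : SimpleGraph V) (W : Set V),
    Clq G W → 2 * hN m ≤ W.ncard → ∀ Q, QB (Fintype.card V) Q →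
      ∃ τ, τ ≤ C * ((Fintype.card V + 1) * Q) ∧ proc (HG m) G τ = proc (HG m) G (τ + 1)

/-- F3: the upper bound. -/
def stUpper : Prop :=
  ∀ (m : ℕ), 3000 ≤ m → ∃ C : ℕ, ∀ (V : Type) [Fintype V] (G : SimpleGraph V) (Q : ℕ),
    QB (Fintype.card V) Q → runTime (HG m) G ≤ C * ((Fintype.card V + 1) * Q)

end MPaef1a0

end

section

/-!
Items D6, D7, D8: swapping, existence of host systems.
-/

set_option autoImplicit false

namespace MPaef1a0

open SimpleGraph

theorem Emb.mono {W : Type} {F F' : SimpleGraph W} (h : F ≤ F') (hE : Emb F') : Emb F := by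
  obtain ⟨E, Γ, hA, f, hf, hc⟩ := hE
  exact ⟨E, Γ, hA, f, hf, fun a b hab => hc a b (h hab)⟩

theorem TwoECOn.mono {V : Type} {G G' : SimpleGraph V} {S : Set V} (h : G ≤ G')
    (hG : TwoECOn G S) : TwoECOn G' S := by
  intro A h1 h2 h3
  obtain ⟨a, b, a', b', e1, e2, e3, e4, e5, e6, e7⟩ := hG A h1 h2 h3
  exact ⟨a, b, a', b', e1, e2, e3, e4, h e5, h e6, e7⟩

/-- Adding an edge to a bad graph. -/
theorem IsQ.add {n : ℕ} (hn : 2 ≤ n) {Q : SimpleGraph (Fin n)} (hQ : IsQ Q) {a b : Fin n}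
    (hab : ¬ Q.Adj a b) : IsQ (Q ⊔ SimpleGraph.edge a b) := by
  refine ⟨TwoECOn.mono le_sup_left hQ.1, fun x y hxy hE => ?_⟩
  by_cases h : Q.Adj x y
  · refine hQ.2 x y h (hE.mono ?_)
    intro p q hpq
    rw [SimpleGraph.deleteEdges_adj] at hpq ⊢
    exact ⟨Or.inl hpq.1, hpq.2⟩
  · -- the new pair is `ab`
    obtain ⟨x0, y0, -, -, -, -, -, -, h0, -, -⟩ := hQ.1 {(⟨0, by omega⟩ : Fin n)}
      (Set.subset_univ _) ⟨_, rfl⟩
      ⟨(⟨1, by omega⟩ : Fin n), Set.mem_univ _, by
        intro h1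
        have := congrArg Fin.val (Set.mem_singleton_iff.1 h1)
        simp at this⟩
    refine hQ.2 x0 y0 h0 (hE.mono ?_)
    intro p q hpq
    rw [SimpleGraph.deleteEdges_adj] at hpq ⊢
    refine ⟨Or.inl hpq.1, fun hmem => h ?_⟩
    rw [Set.mem_singleton_iff, Sym2.eq_iff] at hmem
    rcases hmem with ⟨rfl, rfl⟩ | ⟨rfl, rfl⟩
    · exact hpq.1
    · exact hpq.1.symm

/-- The glued copy. -/
theorem swGlue (hS : stStep) {V ι : Type} [Fintype V] [Fintype ι] {F : ι → Type}
    [∀ i, Fintype (F i)] {R : ∀ i, SimpleGraph (F i)} {G : SimpleGraph V} {c : ι} {f : F c → V}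
    {u v : V} (h : InfBy R G c f u v) : ∃ φ : (Σ i, F i) → V, Function.Injective φ ∧
      (∀ i a b, (R i).Adj a b → (step (famG R) G).Adj (φ ⟨i, a⟩) (φ ⟨i, b⟩)) ∧
      ∀ a, φ ⟨c, a⟩ = f a := by
  classical
  obtain ⟨⟨hinj, hcov, -⟩, g, hg1, hg2, hg3⟩ := id h
  have huv : (step (famG R) G).Adj u v := (hS V ι F R G u v).2 (Or.inr ⟨c, f, h⟩)
  have hle : ∀ x y, G.Adj x y → (step (famG R) G).Adj x y := fun x y hxy =>
    (hS V ι F R G x y).2 (Or.inl hxy)
  set φ : (Σ i, F i) → V := fun p =>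
    if h : p.1 = c then f (cast (congrArg F h) p.2) else g p with hφ
  have e1 : ∀ a, φ ⟨c, a⟩ = f a := fun a => by
    rw [hφ]
    simp
  have e2 : ∀ i a, i ≠ c → φ ⟨i, a⟩ = g ⟨i, a⟩ := fun i a hi => by
    rw [hφ]
    simp [hi]
  refine ⟨φ, ?_, ?_, e1⟩
  · rintro ⟨i, x⟩ ⟨j, y⟩ hxy
    by_cases hi : i = c
    · subst hi
      by_cases hj : j = i
      · subst hj
        rw [e1, e1] at hxy
        rw [hinj hxy]
      · rw [e1, e2 j y hj] at hxy
        exact absurd ⟨x, hxy⟩ (hg3 ⟨j, y⟩ hj)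
    · by_cases hj : j = c
      · subst hj
        rw [e1, e2 i x hi] at hxy
        exact absurd ⟨y, hxy.symm⟩ (hg3 ⟨i, x⟩ hi)
      · rw [e2 i x hi, e2 j y hj] at hxy
        exact hg1 _ _ hi hj hxy
  · intro i x y hR
    by_cases hi : i = c
    · subst hi
      rw [e1, e1]
      rcases hcov x y hR with h1 | h1
      · exact hle _ _ h1
      · rw [Sym2.eq_iff] at h1
        rcases h1 with ⟨h1, h2⟩ | ⟨h1, h2⟩
        · rw [h1, h2]; exact huv
        · rw [h1, h2]; exact huv.symm
    · rw [e2 i x hi, e2 i y hi]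
      exact hle _ _ (hg2 i x y hi hR)

theorem swap (hS : stStep) : stSwap := by
  intro m V _ G φ hφ hhom q a b hab
  classical
  have hstep := hS V (Comp m) (CV m) (CG m) G (φ ⟨.inr q, a⟩) (φ ⟨.inr q, b⟩)
  refine hstep.2 ?_
  by_cases hQab : q.1.2.Adj a b
  · exact Or.inl (hhom (.inr q) a b hQab)
  · right
    have hn2 : 2 ≤ (q.1.1 : ℕ) := le_trans (by norm_num) q.2.1
    set Q' : SimpleGraph (Fin (q.1.1 : ℕ)) := q.1.2 ⊔ SimpleGraph.edge a b with hQ'
    have hIs : IsQ Q' := q.2.2.add hn2 hQab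
    set q' : QIdx m := ⟨⟨q.1.1, Q'⟩, q.2.1, hIs⟩ with hq'
    have hQ'ab : Q'.Adj a b := Or.inr (by
      rw [SimpleGraph.edge_adj]
      exact ⟨Or.inl ⟨rfl, rfl⟩, hab⟩)
    have hne : q' ≠ q := by
      intro h
      apply hQab
      have h2 : (⟨q.1.1, Q'⟩ : Σ n : Fin (m + 1), SimpleGraph (Fin n)) = ⟨q.1.1, q.1.2⟩ :=
        congrArg Subtype.val h
      have h3 : Q' = q.1.2 := eq_of_heq (Sigma.mk.inj h2).2
      rw [← h3]
      exact hQ'ab
    set g : (Σ c, CV m c) → V := fun p =>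
      if h : p.1 = .inr q then φ ⟨.inr q', (cast (congrArg (CV m) h) p.2 : CV m (.inr q))⟩
      else φ p with hg
    have e1 : ∀ x : CV m (.inr q), g ⟨.inr q, x⟩ = φ ⟨.inr q', x⟩ := fun x => by
      rw [hg]
      simp
    have e2 : ∀ c (x : CV m c), c ≠ .inr q → g ⟨c, x⟩ = φ ⟨c, x⟩ := fun c x hc => by
      rw [hg]
      simp [hc]
    have hinjc : ∀ c c' (x : CV m c) (y : CV m c'), φ ⟨c, x⟩ = φ ⟨c', y⟩ → c = c' :=
      fun c c' x y h => congrArg Sigma.fst (hφ h)
    have hinjx : ∀ c (x y : CV m c), φ ⟨c, x⟩ = φ ⟨c, y⟩ → x = y :=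
      fun c x y h => eq_of_heq (Sigma.mk.inj (hφ h)).2
    have hneI : (Sum.inr q' : Comp m) ≠ .inr q := fun h => hne (Sum.inr_injective h)
    refine ⟨.inr q', (fun x : CV m (.inr q) => φ ⟨.inr q, x⟩ : CV m (.inr q') → V),
      ⟨fun x y h => hinjx (.inr q) x y h, fun x y hxy => ?_, a, b, hQ'ab, rfl, rfl⟩, g, ?_, ?_, ?_⟩
    · have hxy' : Q'.Adj x y := hxy
      rw [hQ', SimpleGraph.sup_adj, SimpleGraph.edge_adj] at hxy'
      rcases hxy' with h | ⟨⟨h1, h2⟩ | ⟨h1, h2⟩, -⟩
      · exact Or.inl (hhom (.inr q) x y h)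
      · right
        rw [h1, h2]
      · right
        rw [h1, h2, Sym2.eq_swap]
    · rintro ⟨c, x⟩ ⟨c', y⟩ hc hc' hxy
      by_cases hcq : c = .inr q
      · subst hcq
        by_cases hcq' : c' = .inr q
        · subst hcq'
          rw [e1, e1] at hxy
          have := hinjx (.inr q') x y hxy
          rw [this]
        · rw [e1, e2 c' y hcq'] at hxy
          exact absurd (hinjc _ _ _ _ hxy).symm hc'
      · by_cases hcq' : c' = .inr q
        · subst hcq'
          rw [e1, e2 c x hcq] at hxy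
          exact absurd (hinjc _ _ _ _ hxy) hc
        · rw [e2 c x hcq, e2 c' y hcq'] at hxy
          exact hφ hxy
    · intro c x y hc hR
      by_cases hcq : c = .inr q
      · subst hcq
        rw [e1, e1]
        refine hhom (.inr q') x y ?_
        exact (Or.inl hR : Q'.Adj x y)
      · rw [e2 c x hcq, e2 c y hcq]
        exact hhom c x y hR
    · rintro ⟨c, x⟩ hc ⟨y, hy⟩
      by_cases hcq : c = .inr q
      · subst hcq
        rw [e1] at hy
        exact hneI (hinjc _ _ _ _ hy).symm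
      · rw [e2 c x hcq] at hy
        exact hcq (hinjc _ _ _ _ hy).symm

theorem step_ge (hS : stStep) (m : ℕ) {V : Type} [Fintype V] (G : SimpleGraph V) :
    G ≤ step (HG m) G := fun x y hxy =>
  (hS V (Comp m) (CV m) (CG m) G x y).2 (Or.inl hxy)

theorem hsExists (hS : stStep) (hW : stSwap) : stHS := by
  intro m V _ G hne
  have hex : ∃ u v, (step (HG m) G).Adj u v ∧ ¬ G.Adj u v := by
    by_contra h
    push Not at h
    exact hne (le_antisymm (fun u v huv => h u v huv) (step_ge hS m G))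
  obtain ⟨u, v, h1, h2⟩ := hex
  rcases (hS V (Comp m) (CV m) (CG m) G u v).1 h1 with h3 | ⟨c, f, h3⟩
  · exact absurd h3 h2
  · obtain ⟨φ, e1, e2, -⟩ := swGlue hS h3
    exact ⟨φ, e1, fun c a b hab => step_ge hS m _ (e2 c a b hab),
      fun q a b hab => hW m V (step (HG m) G) φ e1 e2 q a b hab⟩

theorem qclq (hS : stStep) (hW : stSwap) : stQclq := by
  intro m V _ G q f u v h
  obtain ⟨φ, e1, e2, e3⟩ := swGlue hS h
  rintro _ ⟨a, rfl⟩ _ ⟨b, rfl⟩ hab
  have h1 := hW m V (step (HG m) G) φ e1 e2 q a b (fun h => hab (by rw [h]))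
  rw [e3, e3] at h1
  exact h1

end MPaef1a0

end

section

/-!
E9: the counting lemma for blocks.
-/

set_option autoImplicit false

namespace MPaef1a0

theorem blocks_aux (P : ℕ → Prop) [DecidablePred P] (a : ℕ) : ∀ r : ℕ,
    (∀ i j, i ≤ j → j ≤ r → (∀ k, i ≤ k → k ≤ j → P k) → j - i ≤ a) →
    (¬ P r → r + 1 ≤ ((Finset.range (r + 1)).filter (fun i => ¬ P i)).card +
      ((Finset.range r).filter (fun i => P i ∧ ¬ P (i + 1))).card * (a + 1)) ∧
    (P r → ∃ s, s ≤ r ∧ (∀ k, s ≤ k → k ≤ r → P k) ∧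
      r + 1 ≤ ((Finset.range (r + 1)).filter (fun i => ¬ P i)).card +
        ((Finset.range r).filter (fun i => P i ∧ ¬ P (i + 1))).card * (a + 1) + (r - s + 1)) := by
  intro r
  induction r with
  | zero =>
    intro _
    refine ⟨fun h => ?_, fun h => ⟨0, le_rfl, ?_, ?_⟩⟩
    · simp [Finset.filter_singleton, h]
    · intro k _ hk
      rw [Nat.le_zero.1 hk]
      exact h
    · simp
  | succ r ih =>
    intro h
    obtain ⟨ih1, ih2⟩ := ih (fun i j hij hj => h i j hij (by omega))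
    have hN : ((Finset.range (r + 1 + 1)).filter (fun i => ¬ P i)).card =
        ((Finset.range (r + 1)).filter (fun i => ¬ P i)).card + (if P (r + 1) then 0 else 1) := by
      rw [Finset.range_add_one (n := r + 1), Finset.filter_insert]
      by_cases h1 : P (r + 1)
      · rw [if_neg (fun h2 => h2 h1), if_pos h1, add_zero]
      · rw [if_pos h1, if_neg h1, Finset.card_insert_of_notMem (by simp)]
    have hT : ((Finset.range (r + 1)).filter (fun i => P i ∧ ¬ P (i + 1))).card =
        ((Finset.range r).filter (fun i => P i ∧ ¬ P (i + 1))).card +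
          (if P r ∧ ¬ P (r + 1) then 1 else 0) := by
      rw [Finset.range_add_one (n := r), Finset.filter_insert]
      split_ifs with h1
      · rw [Finset.card_insert_of_notMem (by simp)]
      · rfl
    set N := ((Finset.range (r + 1)).filter (fun i => ¬ P i)).card with hNdef
    set T := ((Finset.range r).filter (fun i => P i ∧ ¬ P (i + 1))).card with hTdef
    rw [hN, hT]
    refine ⟨fun h1 => ?_, fun h1 => ?_⟩
    · rw [if_neg h1]
      by_cases h2 : P r
      · rw [if_pos ⟨h2, h1⟩]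
        obtain ⟨s, hs, hsP, hle⟩ := ih2 h2
        have h3 := h s r hs (by omega) hsP
        have h4 : (T + 1) * (a + 1) = T * (a + 1) + (a + 1) := by ring
        rw [h4]
        omega
      · rw [if_neg (fun h3 => h2 h3.1)]
        have := ih1 h2
        rw [add_zero]
        omega
    · rw [if_pos h1, if_neg (fun h3 => h3.2 h1)]
      by_cases h2 : P r
      · obtain ⟨s, hs, hsP, hle⟩ := ih2 h2
        refine ⟨s, by omega, ?_, ?_⟩
        · intro k hk hk'
          rcases Nat.lt_or_ge k (r + 1) with h5 | h5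
          · exact hsP k hk (by omega)
          · rw [le_antisymm hk' h5]
            exact h1
        · rw [add_zero, add_zero]
          omega
      · have := ih1 h2
        refine ⟨r + 1, le_rfl, ?_, ?_⟩
        · intro k hk hk'
          rw [le_antisymm hk' hk]
          exact h1
        · rw [add_zero, add_zero]
          omega

theorem blocks : stBlocks := by
  intro r a b n P _ h hn hb
  obtain ⟨h1, h2⟩ := blocks_aux P a r h
  by_cases hP : P r
  · obtain ⟨s, hs, hsP, hle⟩ := h2 hP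
    have h3 := h s r hs le_rfl hsP
    have h4 := Nat.mul_le_mul_right (a + 1) hb
    have h5 : (b + 1) * (a + 1) = b * (a + 1) + (a + 1) := by ring
    rw [h5]
    omega
  · have h6 := h1 hP
    have h4 := Nat.mul_le_mul_right (a + 1) hb
    have h5 : (b + 1) * (a + 1) = b * (a + 1) + (a + 1) := by ring
    rw [h5]
    omega

end MPaef1a0

end

section

/-!
Item E10: chains in a good set.
-/

set_option autoImplicit false

namespace MPaef1a0

namespace GoodChainAux

/-- Static patterns have no dynamic links. -/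
theorem static_dl (r : RK) (h : isStatic r = true) : dl r = [] := by
  cases r <;> first | rfl | (simp [isStatic] at h)

theorem static_of_dy {r : RK} {d : Bool} {x y : Fin (ne r)} (h : (pat r).dy d x y) :
    isStatic r = false := by
  by_contra hc
  have hs : isStatic r = true := by
    cases hr : isStatic r with
    | true => rfl
    | false => exact absurd hr hc
  have h' : (d, x.val, y.val) ∈ dl r := h
  rw [static_dl r hs] at h'
  simp at h'

/-- A static typed part of a copy is a copy. -/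
theorem rcopy_part {V : Type} {G : SimpleGraph V} {K : Set V} {r r' : RK}
    {F : Fin (ne r) × Fin 12 → V} (hF : RCopy G K r F) (hs : isStatic r' = true)
    (j : Fin (ne r') → Fin (ne r)) (hj : Function.Injective j)
    (hl : ∀ k x y, (pat r').lk k x y → (pat r).lk k (j x) (j y)) :
    RCopy G K r' (fun p => F (j p.1, p.2)) := by
  refine ⟨⟨?_, ?_⟩, fun p => hF.2 _⟩
  · intro p q h
    have h' := hF.1.1 h
    have h1 : j p.1 = j q.1 := (Prod.mk.inj h').1
    have h2 : p.2 = q.2 := (Prod.mk.inj h').2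
    exact Prod.ext (hj h1) h2
  · intro p q h
    apply hF.1.2
    have hc : ∀ (x : Fin (ne r')) (a : Fin 12) (y : Fin (ne r')) (b : Fin 12),
        Conn (pat r') x a y b → Conn (pat r) (j x) a (j y) b := by
      intro x a y b h
      rcases h with ⟨k, hk, ha⟩ | ⟨d, hd, _⟩
      · exact Or.inl ⟨k, hl k x y hk, ha⟩
      · exfalso
        have := static_of_dy hd
        rw [hs] at this
        exact absurd this (by decide)
    rcases h with ⟨h1, h2⟩ | ⟨h1, h2⟩
    · exact Or.inl ⟨by simp [h1], h2⟩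
    · refine Or.inr ⟨fun h => h1 (hj h), ?_⟩
      rcases h2 with h2 | h2
      · exact Or.inl (hc _ _ _ _ h2)
      · exact Or.inr (hc _ _ _ _ h2)

/-- A non-dynamic edge of a copy lies in a static part. -/
theorem static_part (hSP : stStaticPart) {V : Type} {G : SimpleGraph V} {K : Set V} {r : RK}
    {F : Fin (ne r) × Fin 12 → V} (hF : RCopy G K r F) {u v : V} (hE : InE r F u v)
    (hD : ¬ DynIn r F u v) :
    ∃ (r' : RK) (j : Fin (ne r') → Fin (ne r)), isStatic r' = true ∧ Function.Injective j ∧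
      (∀ k x y, (pat r').lk k x y → (pat r).lk k (j x) (j y)) ∧
      RCopy G K r' (fun p => F (j p.1, p.2)) ∧ InE r' (fun p => F (j p.1, p.2)) u v := by
  obtain ⟨p, q, hpq, hp, hq⟩ := hE
  obtain ⟨r', j, p', q', hs, hj, hl, hadj, hp', hq'⟩ := hSP r p q hpq
    (by
      rintro d ⟨hd, h1, h2⟩
      apply hD
      refine ⟨d, p.1, q.1, hd, Or.inl ⟨?_, ?_⟩⟩
      · rw [← h1]; exact hp
      · rw [← h2]; exact hq)
    (by
      rintro d ⟨hd, h1, h2⟩
      apply hD
      refine ⟨d, q.1, p.1, hd, Or.inr ⟨?_, ?_⟩⟩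
      · rw [← h1]; exact hq
      · rw [← h2]; exact hp)
  refine ⟨r', j, hs, hj, hl, rcopy_part hF hs j hj hl, p', q', hadj, ?_, ?_⟩
  · show F (j p'.1, p'.2) = u
    rw [hp', hp]
  · show F (j q'.1, q'.2) = v
    rw [hq', hq]

end GoodChainAux

open GoodChainAux in
/-- E10. -/
theorem goodChain : stRole → stStaticPart → stStaticCount → stPure → stBlocks → stGoodChain := by
  intro hRole hSP hSC hPure hBl
  obtain ⟨C1, hC1⟩ := hSC
  refine ⟨C1 + 8 * (C1 + 1), ?_⟩
  intro V _ _ G K hG Hs r eu ev c f hcopy hinj hHs Q hQ1 hQ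
  rcases Nat.eq_zero_or_pos r with hr0 | hr
  · subst hr0; exact Nat.zero_le _
  classical
  obtain ⟨hJ1, hJ2⟩ := hC1 V G K hG
  set n := Fintype.card V with hn
  -- the dynamic positions
  set P : ℕ → Prop := fun i => if i = 0 then DynIn (c 1) (f 1) (eu 0) (ev 0)
    else DynIn (c i) (f i) (eu i) (ev i) with hP
  have hP1 : ∀ i, 1 ≤ i → (P i ↔ DynIn (c i) (f i) (eu i) (ev i)) := by
    intro i hi
    have : i ≠ 0 := by omega
    simp [hP, this]
  have hP2 : ∀ i, i < r → (P i ↔ DynIn (c (i + 1)) (f (i + 1)) (eu i) (ev i)) := by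
    intro i hi
    rcases Nat.eq_zero_or_pos i with h0 | h0
    · subst h0; simp [hP]
    · rw [hP1 i h0]
      obtain ⟨a1, a2, _⟩ := hcopy i h0 (by omega)
      obtain ⟨b1, _, b3⟩ := hcopy (i + 1) (by omega) (by omega)
      have b3' : InE (c (i + 1)) (f (i + 1)) (eu i) (ev i) := by simpa using b3
      exact ⟨fun h => hRole V G K hG _ _ _ _ _ _ a1 b1 a2 b3' h,
        fun h => hRole V G K hG _ _ _ _ _ _ b1 a1 b3' a2 h⟩
  -- first bound
  have hN : ((Finset.range (r + 1)).filter (fun i => ¬ P i)).card ≤ C1 * n := by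
    have hcard : (((Finset.range (r + 1)).filter (fun i => ¬ P i)).image
        (fun i => s(eu i, ev i))).card = ((Finset.range (r + 1)).filter (fun i => ¬ P i)).card := by
      apply Finset.card_image_of_injOn
      intro i hi j hj h
      simp only [Finset.coe_filter, Finset.mem_range, Set.mem_ofPred_eq] at hi hj
      exact hinj i j (by omega) (by omega) h
    rw [← hcard]
    apply hJ1
    intro e he
    rw [Finset.mem_image] at he
    obtain ⟨i, hi, rfl⟩ := he
    rw [Finset.mem_filter, Finset.mem_range] at hi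
    obtain ⟨hi, hnP⟩ := hi
    rcases Nat.eq_zero_or_pos i with h0 | h0
    · subst h0
      obtain ⟨b1, _, b3⟩ := hcopy 1 le_rfl hr
      have b3' : InE (c 1) (f 1) (eu 0) (ev 0) := by simpa using b3
      obtain ⟨r', j, hs, hj, hl, hc, p, q, _, hp, hq⟩ := static_part hSP b1 b3'
        (fun h => hnP ((hP2 0 hr).2 h))
      exact ⟨r', _, p, q, hs, hc, by rw [← hp, ← hq]⟩
    · obtain ⟨b1, b2, _⟩ := hcopy i h0 (by omega)
      obtain ⟨r', j, hs, hj, hl, hc, p, q, _, hp, hq⟩ := static_part hSP b1 b2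
        (fun h => hnP ((hP1 i h0).2 h))
      exact ⟨r', _, p, q, hs, hc, by rw [← hp, ← hq]⟩
  -- second bound
  have hB : ((Finset.range r).filter (fun i => P i ∧ ¬ P (i + 1))).card ≤ C1 * Hs.card := by
    have hcard : (((Finset.range r).filter (fun i => P i ∧ ¬ P (i + 1))).image
        (fun i => s(eu (i + 1), ev (i + 1)))).card =
        ((Finset.range r).filter (fun i => P i ∧ ¬ P (i + 1))).card := by
      apply Finset.card_image_of_injOn
      intro i hi j hj h
      simp only [Finset.coe_filter, Finset.mem_range, Set.mem_ofPred_eq] at hi hj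
      have := hinj (i + 1) (j + 1) (by omega) (by omega) h
      omega
    rw [← hcard]
    apply hJ2
    intro e he
    rw [Finset.mem_image] at he
    obtain ⟨i, hi, rfl⟩ := he
    rw [Finset.mem_filter, Finset.mem_range] at hi
    obtain ⟨hi, hPi, hnP⟩ := hi
    obtain ⟨b1, b2, _⟩ := hcopy (i + 1) (by omega) (by omega)
    obtain ⟨r', j, hs, hj, hl, hc, hE⟩ := static_part hSP b1 b2
      (fun h => hnP ((hP1 (i + 1) (by omega)).2 h))
    have hst : isStatic (c (i + 1)) = false := by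
      obtain ⟨d, x, y, hd, _⟩ := (hP2 i hi).1 hPi
      exact static_of_dy hd
    obtain ⟨x, hx⟩ := hHs (i + 1) (by omega) (by omega) hst r' j hs hj hl hE
    obtain ⟨p, q, _, hp, hq⟩ := hE
    exact ⟨r', _, p, q, x, hs, hc, by rw [← hp, ← hq], hx⟩
  -- blocks
  have hblock : ∀ i j, i ≤ j → j ≤ r → (∀ k, i ≤ k → k ≤ j → P k) → j - i ≤ (2 * Q + 6) * n := by
    intro i j hij hjr hPk
    refine hPure V G K hG (j - i) (fun k => eu (i + k)) (fun k => ev (i + k)) (fun k => c (i + k))
      (fun k => f (i + k)) ?_ ?_ Q hQ1 hQ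
    · intro k hk1 hk2
      obtain ⟨b1, _, _⟩ := hcopy (i + k) (by omega) (by omega)
      refine ⟨b1, (hP1 (i + k) (by omega)).1 (hPk _ (by omega) (by omega)), ?_⟩
      have h := (hP2 (i + k - 1) (by omega)).1 (hPk _ (by omega) (by omega))
      have e1 : i + k - 1 + 1 = i + k := by omega
      have e2 : i + k - 1 = i + (k - 1) := by omega
      rw [e1] at h
      rw [e2] at h
      exact h
    · intro a b ha hb h
      have := hinj (i + a) (i + b) (by omega) (by omega) h
      omega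
  have hmain := hBl r ((2 * Q + 6) * n) (C1 * Hs.card) (C1 * n) P hblock hN hB
  have h1 : (2 * Q + 6) * n + 1 ≤ 8 * ((n + 1) * Q) := by nlinarith
  have h2 : C1 * Hs.card + 1 ≤ (C1 + 1) * (Hs.card + 1) := by nlinarith
  have h3 : (C1 * Hs.card + 1) * ((2 * Q + 6) * n + 1) ≤
      ((C1 + 1) * (Hs.card + 1)) * (8 * ((n + 1) * Q)) := Nat.mul_le_mul h2 h1
  have h4 : C1 * n ≤ C1 * (Hs.card + 1) * ((n + 1) * Q) := by
    have e1 : n ≤ (Hs.card + 1) * ((n + 1) * Q) := by
      have e2 : n ≤ (n + 1) * Q := by nlinarith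
      nlinarith
    calc C1 * n ≤ C1 * ((Hs.card + 1) * ((n + 1) * Q)) := Nat.mul_le_mul_left _ e1
      _ = _ := by ring
  calc r ≤ C1 * n + (C1 * Hs.card + 1) * ((2 * Q + 6) * n + 1) := by omega
    _ ≤ C1 * (Hs.card + 1) * ((n + 1) * Q) + ((C1 + 1) * (Hs.card + 1)) * (8 * ((n + 1) * Q)) :=
        Nat.add_le_add h4 h3
    _ = (C1 + 8 * (C1 + 1)) * (Hs.card + 1) * ((n + 1) * Q) := by ring

end MPaef1a0

end

section

/-!
MP_aef1a0_co, item F2: the ideal phase is short.
-/

set_option autoImplicit false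

namespace MPaef1a0

open SimpleGraph

namespace IdealT

theorem le_step {V W : Type} [Fintype V] (H : SimpleGraph W) (G : SimpleGraph V) :
    G ≤ step H G := by
  intro u v h
  unfold step
  rw [SimpleGraph.fromRel_adj]
  exact ⟨h.ne, Or.inl (Or.inl h)⟩

theorem proc_mono {V W : Type} [Fintype V] (H : SimpleGraph W) (G : SimpleGraph V) :
    Monotone (proc H G) :=
  monotone_nat_of_le_succ (fun t => le_step H (proc H G t))

theorem proc_add {V W : Type} [Fintype V] (H : SimpleGraph W) (G : SimpleGraph V) (s t : ℕ) :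
    proc H (proc H G s) t = proc H G (s + t) := by
  induction t with
  | zero => rfl
  | succ t ih =>
    change step H (proc H (proc H G s) t) = step H (proc H G (s + t))
    rw [ih]

theorem clq_mono {V : Type} {G G' : SimpleGraph V} {K : Set V}
    (hG : G ≤ G') (h : Clq G K) : Clq G' K :=
  fun x hx y hy hxy => hG (h x hx y hy hxy)

theorem closed_anti {V : Type} {G G' : SimpleGraph V} {K : Set V}
    (hG : G ≤ G') (h : Closed G' K) : Closed G K :=
  fun x hx y hxy => h x hx y (hG hxy)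

theorem twoEC_CG (hP : stPatTwoEC) (m : ℕ) (c : Comp m) : TwoEC (CG m c) := by
  cases c with
  | inl r => exact hP r
  | inr q => exact q.2.2.1

theorem twoECOn_of_clq {V : Type} {G : SimpleGraph V} {X : Set V} (h : Clq G X)
    (h3 : 3 ≤ X.ncard) : TwoECOn G X := by
  classical
  rintro A hA ⟨a, ha⟩ ⟨b, hbX, hbA⟩
  have hab : a ≠ b := fun e => hbA (e ▸ ha)
  have hlt : ({a, b} : Set V).ncard < X.ncard := by
    have h1 := Set.ncard_insert_le a ({b} : Set V)
    rw [Set.ncard_singleton] at h1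
    omega
  obtain ⟨c, hcX, hc⟩ := Set.exists_mem_notMem_of_ncard_lt_ncard hlt
  have hca : c ≠ a := fun e => hc (by rw [e]; exact Set.mem_insert _ _)
  have hcb : c ≠ b := fun e => hc (by rw [e]; exact Set.mem_insert_of_mem _ rfl)
  by_cases hcA : c ∈ A
  · exact ⟨a, b, c, b, ha, ⟨hbX, hbA⟩, hcA, ⟨hbX, hbA⟩, h a (hA ha) b hbX hab,
      h c hcX b hbX hcb, Or.inl hca.symm⟩
  · exact ⟨a, b, a, c, ha, ⟨hbX, hbA⟩, ha, ⟨hcX, hcA⟩, h a (hA ha) b hbX hab,
      h a (hA ha) c hcX hca.symm, Or.inr hcb.symm⟩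

/-- A clique with 14 vertices contains a bad window. -/
theorem badWin_of_clq (hK : stK12Bad) {V : Type} [Fintype V] {G : SimpleGraph V} {Y : Set V}
    (h : Clq G Y) (h14 : 14 ≤ Y.ncard) : ∃ X : Set V, X ⊆ Y ∧ BadWin G X := by
  classical
  obtain ⟨X, hXY, hX⟩ := Set.exists_subset_card_eq h14
  have hc : Clq G X := fun x hx y hy hxy => h x (hXY hx) y (hXY hy) hxy
  have hcard : Fintype.card X = 14 := by
    rw [← Nat.card_eq_fintype_card, Nat.card_coe_set_eq, hX]
  obtain ⟨α⟩ : Nonempty (Fin 12 ↪ X) := by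
    apply Function.Embedding.nonempty_of_card_le
    rw [hcard, Fintype.card_fin]
    omega
  refine ⟨X, hXY, by omega, by omega, twoECOn_of_clq hc (by omega), ⟨fun a => (α a : V), ?_, ?_⟩,
    ?_⟩
  · refine ⟨fun a b hab => α.injective (Subtype.ext hab), ?_⟩
    intro a b hab
    refine hc _ (α a).2 _ (α b).2 ?_
    intro e
    exact hab.ne (α.injective (Subtype.ext e))
  · intro a
    exact (α a).2
  · intro hE
    refine hK X (G.induce X) α s(α 0, α 0) α.injective ?_ hE
    intro a b hab _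
    exact hc _ (α a).2 _ (α b).2 (fun e => hab (α.injective (Subtype.ext e)))

theorem static_dl (r : RK) (h : isStatic r = true) : dl r = [] := by
  cases r <;> first | rfl | (exact absurd h (by decide))

/-- A typed part of a pattern is a subgraph. -/
theorem phi_part {r r' : RK} (j : Fin (ne r') → Fin (ne r)) (hs : isStatic r' = true)
    (hj : Function.Injective j)
    (hl : ∀ k x y, (pat r').lk k x y → (pat r).lk k (j x) (j y))
    (p q : Fin (ne r') × Fin 12) (h : (Phi (pat r')).Adj p q) :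
    (Phi (pat r)).Adj (j p.1, p.2) (j q.1, q.2) := by
  have hconn : ∀ (x : Fin (ne r')) (a : Fin 12) (y : Fin (ne r')) (b : Fin 12),
      Conn (pat r') x a y b → Conn (pat r) (j x) a (j y) b := by
    rintro x a y b (⟨k, hk, ha, hb⟩ | ⟨d, hd, ha, hb⟩)
    · exact Or.inl ⟨k, hl k x y hk, ha, hb⟩
    · exfalso
      have hd' : (d, x.val, y.val) ∈ dl r' := hd
      rw [static_dl r' hs] at hd'
      exact absurd hd' (by simp)
  rcases h with ⟨h1, h2⟩ | ⟨h1, h2 | h2⟩
  · exact Or.inl ⟨congrArg j h1, h2⟩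
  · exact Or.inr ⟨fun e => h1 (hj e), Or.inl (hconn _ _ _ _ h2)⟩
  · exact Or.inr ⟨fun e => h1 (hj e), Or.inr (hconn _ _ _ _ h2)⟩

/-- Closed sets contain the reachability classes of their elements. -/
theorem reach_closed {V : Type} {G : SimpleGraph V} {K : Set V} (h : Closed G K) {x y : V}
    (hx : x ∈ K) (hr : G.Reachable x y) : y ∈ K := by
  obtain ⟨w⟩ := hr
  induction w with
  | nil => exact hx
  | cons hadj _ ih => exact ih (h _ hx _ hadj)

end IdealT

open IdealT in
/-- F2: the ideal phase is short. -/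
theorem idealTime : stStep → stNearClosed → stStepClosed → stPatTwoEC → stQclq → stK12Bad →
    stIdeal → stIdealBad → stChain → stGoodChain → stIdealTime := by
  classical
  intro hStep hNear hStepC hP hQ hK12 hId hIdB hChain hGood m hm
  obtain ⟨C, hC⟩ := hGood
  refine ⟨C + 5, ?_⟩
  intro V _ G W hW hcard Q hQB
  by_contra hcon
  push Not at hcon
  set n := Fintype.card V with hn
  set L := (n + 1) * Q with hL
  have hQ1 : 1 ≤ Q := hQB.1
  have hLn : n + 1 ≤ L := by
    rw [hL]
    exact Nat.le_mul_of_pos_right _ (by omega)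
  set b := (C + 5) * L with hb
  have hb2 : b = C * L + 5 * L := by rw [hb]; ring
  have hbn : 5 * (n + 1) ≤ b := by
    have : 5 * (n + 1) ≤ 5 * L := Nat.mul_le_mul_left 5 hLn
    omega
  obtain ⟨b', hb'⟩ : ∃ b', b = b' + (n + 2) := ⟨b - (n + 2), by omega⟩
  have hmono := proc_mono (HG m) G
  -- a new pair at time b
  have hne := hcon b le_rfl
  obtain ⟨u, v, huv, huv'⟩ : ∃ u v, ¬ (proc (HG m) G b).Adj u v ∧
      (proc (HG m) G (b + 1)).Adj u v := by
    by_contra hno
    push Not at hno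
    apply hne
    refine le_antisymm (hmono (Nat.le_succ b)) ?_
    intro x y hxy
    by_contra hxy'
    exact hno x y hxy' hxy
  have hfree : ∀ (t : ℕ) (c : Comp m) (f : CV m c → V),
      Free (CG m) (proc (HG m) G t) c (Set.range f) := by
    intro t c f
    exact hId m V (proc (HG m) G t) W (clq_mono (hmono (Nat.zero_le t)) hW) hcard c f
  obtain ⟨eu, ev, c, f, hbu, hbv, hch⟩ := hChain V (Comp m) (CV m) (CG m)
    (fun c => ∃ r, c = Sum.inl r ∧ isStatic r = true) G 0 b (Nat.zero_le b)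
    (by
      rintro t - - ⟨c, f, -, hnf⟩
      exact hnf (hfree t c f)) u v huv huv'
  have hch' : ∀ t, t ≤ b →
      ¬ (proc (HG m) G t).Adj (eu t) (ev t) ∧
      InfBy (CG m) (proc (HG m) G t) (c t) (f t) (eu t) (ev t) ∧
      ((∃ (c' : Comp m) (f' : CV m c' → V), (∃ r, c' = Sum.inl r ∧ isStatic r = true) ∧
        InfBy (CG m) (proc (HG m) G t) c' f' (eu t) (ev t)) →
          ∃ r, c t = Sum.inl r ∧ isStatic r = true) ∧
      (0 < t → ∃ x y, (CG m (c t)).Adj x y ∧ f t x = eu (t - 1) ∧ f t y = ev (t - 1)) :=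
    fun t ht => hch t (Nat.zero_le t) ht
  clear hch
  -- the reachability class
  set K : Set V := {x | (proc (HG m) G b).Reachable u x} with hKdef
  have hKb : Closed (proc (HG m) G b) K := by
    intro x hx y hxy
    exact Reachable.trans hx hxy.reachable
  have hKt : ∀ t, t ≤ b → Closed (proc (HG m) G t) K :=
    fun t ht => closed_anti (hmono ht) hKb
  have hfK : ∀ s, s ≤ b → ∀ a, f (b - s) a ∈ K := by
    intro s
    induction s with
    | zero =>
      intro _
      obtain ⟨-, ⟨hN, -⟩, -, -⟩ := hch' b le_rfl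
      have hN' := hN
      obtain ⟨-, -, x, y, -, hx, hy⟩ := hN
      rcases hNear V (CV m (c b)) (CG m (c b)) _ (f b) _ _ K (twoEC_CG hP m (c b)) hN'
        (hKt b le_rfl) with h | h
      · exact h
      · exfalso
        apply h x
        rw [hx, hbu]
        exact Reachable.refl u
    | succ s ih =>
      intro hs
      have ih' := ih (by omega)
      obtain ⟨-, ⟨hN, -⟩, -, -⟩ := hch' (b - (s + 1)) (by omega)
      obtain ⟨-, -, -, hprev⟩ := hch' (b - s) (by omega)
      obtain ⟨x, y, -, hx, -⟩ := hprev (by omega)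
      have hmem : eu (b - (s + 1)) ∈ K := by
        have : b - s - 1 = b - (s + 1) := by omega
        rw [← this, ← hx]
        exact ih' x
      have hN' := hN
      obtain ⟨-, -, x', y', -, hx', -⟩ := hN
      rcases hNear V (CV m (c (b - (s + 1)))) (CG m (c (b - (s + 1)))) _ (f (b - (s + 1))) _ _ K
        (twoEC_CG hP m _) hN' (hKt _ (by omega)) with h | h
      · exact h
      · exfalso
        apply h x'
        rw [hx']
        exact hmem
  have hfK' : ∀ t, t ≤ b → ∀ a, f t a ∈ K := by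
    intro t ht
    have := hfK (b - t) (by omega)
    rwa [show b - (b - t) = t by omega] at this
  have hvK : v ∈ K := by
    obtain ⟨-, ⟨⟨-, -, x, y, -, hx, hy⟩, -⟩, -, -⟩ := hch' b le_rfl
    rw [← hbv, ← hy]
    exact hfK' b le_rfl y
  -- the class is good
  have hgood : Good (proc (HG m) G b') K := by
    intro X hXK hX
    obtain ⟨K', hK'c, hXK', hK'q⟩ := hIdB m hm V (proc (HG m) G b') W
      (clq_mono (hmono (Nat.zero_le b')) hW) hcard X hX
    rw [proc_add, ← hn, ← hb'] at hK'q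
    have hK'b : Closed (proc (HG m) G b) K' := by
      have := hStepC V (Comp m) (CV m) (CG m) (proc (HG m) G b') K' (twoEC_CG hP m) hK'c (n + 2)
      have h2 : proc (famG (CG m)) (proc (HG m) G b') (n + 2) = proc (HG m) G b := by
        rw [hb']
        exact proc_add (HG m) G b' (n + 2)
      rwa [h2] at this
    have hXne : X.Nonempty := by
      rw [← Set.ncard_pos (Set.toFinite X)]
      have := hX.1
      omega
    obtain ⟨x, hx⟩ := hXne
    have hux : (proc (HG m) G b).Reachable u x := hXK hx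
    have huK' : u ∈ K' := reach_closed hK'b (hXK' hx) hux.symm
    have hvK' : v ∈ K' := reach_closed hK'b huK' hvK
    exact huv (hK'q u huK' v hvK' huv'.ne)
  -- components are rules
  have hrule : ∀ i, ∃ (r : RK) (g : Fin (ne r) × Fin 12 → V), i + 2 ≤ b' →
      (InfBy (CG m) (proc (HG m) G i) (Sum.inl r) g (eu i) (ev i) ∧
      ((∃ (c' : Comp m) (f' : CV m c' → V), (∃ r, c' = Sum.inl r ∧ isStatic r = true) ∧
        InfBy (CG m) (proc (HG m) G i) c' f' (eu i) (ev i)) → isStatic r = true) ∧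
      (0 < i → ∃ x y, (Phi (pat r)).Adj x y ∧ g x = eu (i - 1) ∧ g y = ev (i - 1)) ∧
      (∀ a, g a ∈ K)) := by
    intro i
    by_cases hi : i + 2 ≤ b'
    · obtain ⟨-, h2, h3, h4⟩ := hch' i (by omega)
      have h5 := hfK' i (by omega)
      have key : ∀ (cc : Comp m) (ff : CV m cc → V),
          InfBy (CG m) (proc (HG m) G i) cc ff (eu i) (ev i) →
          ((∃ (c' : Comp m) (f' : CV m c' → V), (∃ r, c' = Sum.inl r ∧ isStatic r = true) ∧
            InfBy (CG m) (proc (HG m) G i) c' f' (eu i) (ev i)) →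
              ∃ r, cc = Sum.inl r ∧ isStatic r = true) →
          (0 < i → ∃ x y, (CG m cc).Adj x y ∧ ff x = eu (i - 1) ∧ ff y = ev (i - 1)) →
          (∀ a, ff a ∈ K) →
          ∃ (r : RK) (g : Fin (ne r) × Fin 12 → V), i + 2 ≤ b' →
          (InfBy (CG m) (proc (HG m) G i) (Sum.inl r) g (eu i) (ev i) ∧
          ((∃ (c' : Comp m) (f' : CV m c' → V), (∃ r, c' = Sum.inl r ∧ isStatic r = true) ∧
            InfBy (CG m) (proc (HG m) G i) c' f' (eu i) (ev i)) → isStatic r = true) ∧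
          (0 < i → ∃ x y, (Phi (pat r)).Adj x y ∧ g x = eu (i - 1) ∧ g y = ev (i - 1)) ∧
          (∀ a, g a ∈ K)) := by
        intro cc
        cases cc with
        | inl r =>
          intro ff k2 k3 k4 k5
          refine ⟨r, ff, fun _ => ⟨k2, ?_, k4, k5⟩⟩
          intro hex
          obtain ⟨r', hr', hs'⟩ := k3 hex
          rw [Sum.inl.inj hr']
          exact hs'
        | inr q =>
          intro ff k2 _ _ k5
          exfalso
          have hcl := hQ m V (proc (HG m) G i) q ff (eu i) (ev i) k2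
          have hcl' : Clq (proc (HG m) G b') (Set.range ff) :=
            clq_mono (hmono hi) hcl
          have hcrd : 14 ≤ (Set.range ff).ncard := by
            have hinj : Function.Injective (fun a : Fin q.1.1 => ff a) := k2.1.1
            have h1 : Set.range ff = (fun a : Fin q.1.1 => ff a) '' Set.univ := by
              rw [Set.image_univ]; rfl
            rw [h1, Set.ncard_image_of_injective _ hinj, Set.ncard_univ,
              Nat.card_eq_fintype_card, Fintype.card_fin]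
            exact q.2.1
          obtain ⟨X, hXY, hX⟩ := badWin_of_clq hK12 hcl' hcrd
          refine hgood X (hXY.trans ?_) hX
          rintro _ ⟨a, rfl⟩
          exact k5 a
      exact key (c i) (f i) h2 h3 h4 h5
    · exact ⟨RK.SS, fun _ => u, fun h => absurd h hi⟩
  choose c' g hg using hrule
  -- the new pairs are edges afterwards
  have hnew : ∀ i, i ≤ b → (proc (HG m) G (i + 1)).Adj (eu i) (ev i) := by
    intro i hi
    obtain ⟨-, h2, -, -⟩ := hch' i hi
    exact (hStep V (Comp m) (CV m) (CG m) (proc (HG m) G i) (eu i) (ev i)).2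
      (Or.inr ⟨c i, f i, h2⟩)
  have hdist : ∀ i j, i < j → j ≤ b → s(eu i, ev i) ≠ s(eu j, ev j) := by
    intro i j hij hj he
    have h1 : (proc (HG m) G j).Adj (eu i) (ev i) := hmono hij (hnew i (by omega))
    have h2 := (hch' j hj).1
    rw [← SimpleGraph.mem_edgeSet, he, SimpleGraph.mem_edgeSet] at h1
    exact h2 h1
  have hr := hC V (proc (HG m) G b') K hgood ∅ (b' - 2) eu ev c' g ?_ ?_ ?_ Q hQB.1 hQB.2
  · rw [Finset.card_empty, Nat.zero_add, Nat.mul_one, ← hn, ← hL] at hr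
    omega
  · intro i hi1 hi2
    obtain ⟨h2, -, h4, h5⟩ := hg i (by omega)
    refine ⟨⟨⟨h2.1.1, ?_⟩, h5⟩, h2.1.2.2, h4 hi1⟩
    intro x y hxy
    rcases h2.1.2.1 x y hxy with h | h
    · exact hmono (by omega) h
    · have h6 : (proc (HG m) G b').Adj (eu i) (ev i) := hmono (by omega) (hnew i (by omega))
      rw [← SimpleGraph.mem_edgeSet, ← h, SimpleGraph.mem_edgeSet] at h6
      exact h6
  · intro i j hi hj he
    rcases lt_trichotomy i j with h | h | h
    · exact absurd he (hdist i j h (by omega))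
    · exact h
    · exact absurd he.symm (hdist j i h (by omega))
  · intro i hi1 hi2 hst r' j hs' hj hl hE
    exfalso
    obtain ⟨h2, h3, -, -⟩ := hg i (by omega)
    have : isStatic (c' i) = true := by
      apply h3
      refine ⟨Sum.inl r', fun p => g i (j p.1, p.2), ⟨r', rfl, hs'⟩, ⟨?_, ?_, ?_⟩, hfree i _ _⟩
      · intro p q hpq
        have h6 := h2.1.1 hpq
        obtain ⟨h7, h8⟩ := Prod.mk.injEq _ _ _ _ ▸ h6
        exact Prod.ext (hj h7) h8
      · intro p q hpq
        exact h2.1.2.1 _ _ (phi_part j hs' hj hl p q hpq)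
      · exact hE
    rw [hst] at this
    exact absurd this (by decide)

end MPaef1a0

end

section

/-!
E1: two meeting rule copies in a good set have a joint typed image.
-/

set_option autoImplicit false

namespace MPaef1a0

open SimpleGraph

namespace Joint

theorem pat_lk_ne : ∀ (r : RK) (k : SK) (x y : Fin (ne r)), (pat r).lk k x y → x ≠ y := by
  intro r k x y h hxy
  subst hxy
  revert h
  revert x k
  cases r <;> decide

theorem pat_dy_ne : ∀ (r : RK) (d : Bool) (x y : Fin (ne r)), (pat r).dy d x y → x ≠ y := by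
  intro r k x y h hxy
  subst hxy
  revert h
  revert x k
  cases r <;> decide

theorem ne_pos2 : ∀ r : RK, 2 ≤ ne r ∧ ne r ≤ 9 := by
  intro r
  cases r <;> decide

theorem joint (hR : stRigid) (hP : stPatTwoEC) (hU : stUnion) : stJoint := by
  intro V _ G K hG r1 r2 f1 f2 h1 h2 hmeet
  classical
  obtain ⟨h1c, h1K⟩ := h1
  obtain ⟨h2c, h2K⟩ := h2
  obtain ⟨hr1, hr1'⟩ := ne_pos2 r1
  obtain ⟨hr2, hr2'⟩ := ne_pos2 r2
  set X : Set V := Set.range f1 ∪ Set.range f2 with hX
  have hXK : X ⊆ K := by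
    rintro v (⟨p, rfl⟩ | ⟨p, rfl⟩)
    · exact h1K p
    · exact h2K p
  have card1 : (Set.range f1).ncard = 12 * ne r1 := by
    rw [← Set.image_univ, Set.ncard_image_of_injective _ h1c.1, Set.ncard_univ,
      Nat.card_eq_fintype_card, Fintype.card_prod, Fintype.card_fin, Fintype.card_fin]
    ring
  have card2 : (Set.range f2).ncard = 12 * ne r2 := by
    rw [← Set.image_univ, Set.ncard_image_of_injective _ h2c.1, Set.ncard_univ,
      Nat.card_eq_fintype_card, Fintype.card_prod, Fintype.card_fin, Fintype.card_fin]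
    ring
  have hcardle : X.ncard ≤ 216 := by
    have := Set.ncard_union_le (Set.range f1) (Set.range f2)
    rw [← hX] at this
    omega
  have hcardge : 14 ≤ X.ncard := by
    have : (Set.range f1).ncard ≤ X.ncard :=
      Set.ncard_le_ncard Set.subset_union_left (Set.toFinite _)
    omega
  have hTE : TwoECOn G X := by
    refine hU V G _ _ (Bad.twoEC_range _ _ _ h1c.2 h1c.1 (hP r1))
      (Bad.twoEC_range _ _ _ h2c.2 h2c.1 (hP r2)) ?_
    obtain ⟨p, q, hpq⟩ := hmeet
    exact ⟨f1 p, ⟨p, rfl⟩, ⟨q, hpq.symm⟩⟩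
  have htag : ∃ α : Fin 12 → V, IsCopy tag G α ∧ ∀ a, α a ∈ X := by
    refine ⟨fun a => f1 (⟨0, by omega⟩, a), ⟨?_, ?_⟩, ?_⟩
    · intro a b hab
      have := h1c.1 hab
      simpa using this
    · intro a b hab
      exact h1c.2 _ _ (Or.inl ⟨rfl, hab⟩)
    · intro a
      exact Or.inl ⟨_, rfl⟩
  have hEmb : EmbOn G X := by
    by_contra hno
    exact hG X hXK ⟨hcardge, hcardle, hTE, htag, hno⟩
  obtain ⟨E, Γ, hAx, θ, hθinj, hθhom⟩ := hEmb
  have m1 : ∀ p, f1 p ∈ X := fun p => Or.inl ⟨p, rfl⟩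
  have m2 : ∀ p, f2 p ∈ X := fun p => Or.inr ⟨p, rfl⟩
  have inj1 : Function.Injective (fun p => θ ⟨f1 p, m1 p⟩) := by
    intro p q hpq
    have := hθinj hpq
    exact h1c.1 (by simpa using this)
  have inj2 : Function.Injective (fun p => θ ⟨f2 p, m2 p⟩) := by
    intro p q hpq
    have := hθinj hpq
    exact h2c.1 (by simpa using this)
  have e1 : Fin (ne r1) × Fin 12 := (⟨0, by omega⟩, 0)
  have e2 : Fin (ne r2) × Fin 12 := (⟨0, by omega⟩, 0)
  obtain ⟨ψ1, hψ1i, hψ1, hlk1, hdy1⟩ := hR _ _ (pat r1) Γ hAx (pat_lk_ne r1) (pat_dy_ne r1)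
    (fun p => θ ⟨f1 p, m1 p⟩) s(e1, e1) inj1 (by
      intro p q hpq _
      exact hθhom ⟨f1 p, m1 p⟩ ⟨f1 q, m1 q⟩ (h1c.2 _ _ hpq))
  obtain ⟨ψ2, hψ2i, hψ2, hlk2, hdy2⟩ := hR _ _ (pat r2) Γ hAx (pat_lk_ne r2) (pat_dy_ne r2)
    (fun p => θ ⟨f2 p, m2 p⟩) s(e2, e2) inj2 (by
      intro p q hpq _
      exact hθhom ⟨f2 p, m2 p⟩ ⟨f2 q, m2 q⟩ (h2c.2 _ _ hpq))
  refine ⟨E, Γ, ψ1, ψ2, hAx, hψ1i, hψ2i, ?_, hlk1, ?_, hlk2, ?_⟩
  · intro x a y b
    have k1 := hψ1 x a
    have k2 := hψ2 y b
    constructor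
    · intro hxy
      have : θ ⟨f1 (x, a), m1 _⟩ = θ ⟨f2 (y, b), m2 _⟩ := by
        congr 1
        exact Subtype.ext hxy
      rw [k1, k2] at this
      exact Prod.mk.inj this
    · rintro ⟨hxy, hab⟩
      have : θ ⟨f1 (x, a), m1 _⟩ = θ ⟨f2 (y, b), m2 _⟩ := by
        rw [k1, k2, hxy, hab]
      have := hθinj this
      simpa using this
  · intro d x y h
    refine hdy1 d x y h ?_
    intro he
    have hne := pat_dy_ne r1 d x y h
    rw [Sym2.eq_iff] at he
    rcases he with ⟨ha, hb⟩ | ⟨ha, hb⟩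
    · exact hne ((congrArg Prod.fst ha).trans (congrArg Prod.fst hb).symm)
    · exact hne ((congrArg Prod.fst ha).trans (congrArg Prod.fst hb).symm)
  · intro d x y h
    refine hdy2 d x y h ?_
    intro he
    have hne := pat_dy_ne r2 d x y h
    rw [Sym2.eq_iff] at he
    rcases he with ⟨ha, hb⟩ | ⟨ha, hb⟩
    · exact hne ((congrArg Prod.fst ha).trans (congrArg Prod.fst hb).symm)
    · exact hne ((congrArg Prod.fst ha).trans (congrArg Prod.fst hb).symm)

end Joint

theorem joint (hR : stRigid) (hP : stPatTwoEC) (hU : stUnion) : stJoint :=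
  Joint.joint hR hP hU

end MPaef1a0

end

section

/-!
F1: the non-ideal phase.
-/

set_option autoImplicit false

namespace MPaef1a0

open SimpleGraph

namespace NonIdeal

variable {V : Type}

/-- The rule of a component (junk value for the further components). -/
def toRK {m : ℕ} : Comp m → RK
  | .inl r => r
  | .inr _ => .SS

/-- The copy, as a copy of a rule graph (junk value for the further components). -/
def toF {m : ℕ} (d : V) : ∀ c : Comp m, (CV m c → V) → (Fin (ne (toRK c)) × Fin 12 → V)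
  | .inl _, g => g
  | .inr _, _ => fun _ => d

/-- The component is a rule. -/
def isRule {m : ℕ} (c : Comp m) : Prop := ∃ r, c = .inl r

theorem near_toF {m : ℕ} (G : SimpleGraph V) (d u v : V) : ∀ (c : Comp m) (g : CV m c → V),
    isRule c → Near (CG m c) G g u v → Near (Phi (pat (toRK c))) G (toF d c g) u v
  | .inl _, _, _, h => h
  | .inr _, _, ⟨_, hr⟩, _ => by cases hr

theorem inE_toF {m : ℕ} (d u v : V) : ∀ (c : Comp m) (g : CV m c → V),
    isRule c → (∃ x y, (CG m c).Adj x y ∧ g x = u ∧ g y = v) → InE (toRK c) (toF d c g) u v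
  | .inl _, _, _, h => h
  | .inr _, _, ⟨_, hr⟩, _ => by cases hr

theorem mem_toF {m : ℕ} (d : V) (K : Set V) : ∀ (c : Comp m) (g : CV m c → V),
    isRule c → (∀ a, g a ∈ K) → ∀ p, toF d c g p ∈ K
  | .inl _, _, _, h => h
  | .inr _, _, ⟨_, hr⟩, _ => by cases hr

/-- Preferred components: static rules. -/
def pref {m : ℕ} (c : Comp m) : Prop := ∃ r, c = .inl r ∧ isStatic r = true

theorem pref_toRK {m : ℕ} : ∀ c : Comp m, pref c → isStatic (toRK c) = true
  | .inl _, ⟨_, hr, h⟩ => by cases hr; exact h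
  | .inr _, ⟨_, hr, _⟩ => by cases hr

theorem comp_twoEC (h6 : stPatTwoEC) {m : ℕ} : ∀ c : Comp m, TwoEC (CG m c)
  | .inl r => h6 r
  | .inr q => q.2.2.1

theorem proc_add {W : Type} [Fintype V] (H : SimpleGraph W) (G : SimpleGraph V) (s t : ℕ) :
    proc H (proc H G s) t = proc H G (s + t) := by
  induction t with
  | zero => rfl
  | succ t ih =>
    show step H (proc H (proc H G s) t) = step H (proc H G (s + t))
    rw [ih]

/-- The connected component of `u`. -/
def cls (G : SimpleGraph V) (u : V) : Set V := {x | G.Reachable u x}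

theorem cls_closed (G : SimpleGraph V) (u : V) : Closed G (cls G u) := fun _ hx _ hxy =>
  SimpleGraph.Reachable.trans hx hxy.reachable

theorem closed_reach {G : SimpleGraph V} {K : Set V} (hK : Closed G K) {x y : V}
    (h : G.Reachable x y) (hx : x ∈ K) : y ∈ K := by
  obtain ⟨w⟩ := h
  induction w with
  | nil => exact hx
  | cons h _ ih => exact ih (hK _ hx _ h)

theorem cls_sub {G : SimpleGraph V} {K : Set V} {u x : V} (hK : Closed G K)
    (hx : x ∈ cls G u) (hxK : x ∈ K) : cls G u ⊆ K := fun _ hy =>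
  closed_reach hK (SimpleGraph.Reachable.trans (SimpleGraph.Reachable.symm hx) hy) hxK

theorem closed_mono {G G' : SimpleGraph V} (h : G ≤ G') {K : Set V} (hK : Closed G' K) :
    Closed G K := fun x hx y hxy => hK x hx y (h hxy)

theorem count_pairs [Fintype V] (K : Set V) (a b : ℕ) (eu ev : ℕ → V)
    (h1 : ∀ t, a ≤ t → t ≤ b → eu t ∈ K ∧ ev t ∈ K)
    (h2 : ∀ s t, a ≤ s → s ≤ b → a ≤ t → t ≤ b → s(eu s, ev s) = s(eu t, ev t) → s = t) :
    b - a ≤ K.ncard ^ 2 := by
  have h3 : ((fun t => (eu t, ev t)) '' (Set.Icc a b)) ⊆ K ×ˢ K := by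
    rintro _ ⟨t, ht, rfl⟩
    exact h1 t ht.1 ht.2
  have h4 : Set.InjOn (fun t => (eu t, ev t)) (Set.Icc a b) := by
    intro s hs t ht hst
    refine h2 s t hs.1 hs.2 ht.1 ht.2 ?_
    have e1 := congrArg Prod.fst hst
    have e2 := congrArg Prod.snd hst
    simp only at e1 e2
    rw [e1, e2]
  have h5 := Set.ncard_le_ncard h3 (Set.toFinite _)
  rw [h4.ncard_image, Set.ncard_prod] at h5
  have h6 : (Set.Icc a b).ncard = b + 1 - a := by
    rw [Set.ncard_eq_toFinset_card', Set.toFinset_Icc, Nat.card_Icc]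
  rw [h6] at h5
  rw [pow_two]
  omega

theorem clique_bad (h5 : stK12Bad) [Fintype V] (G : SimpleGraph V) (n : ℕ) (hn : 14 ≤ n)
    (g : Fin n → V) (hg : Function.Injective g) (hc : Clq G (Set.range g)) :
    BadWin G (Set.range (fun i : Fin 14 => g (Fin.castLE hn i))) := by
  have hinj : Function.Injective (fun i : Fin 14 => g (Fin.castLE hn i)) := by
    intro i j hij
    have := hg hij
    exact Fin.castLE_injective hn this
  have hcard : (Set.range (fun i : Fin 14 => g (Fin.castLE hn i))).ncard = 14 := by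
    rw [← Set.image_univ, Set.ncard_image_of_injective _ hinj, Set.ncard_univ,
      Nat.card_eq_fintype_card, Fintype.card_fin]
  have hsub : Set.range (fun i : Fin 14 => g (Fin.castLE hn i)) ⊆ Set.range g := by
    rintro _ ⟨i, rfl⟩
    exact ⟨_, rfl⟩
  have hcl : Clq G (Set.range (fun i : Fin 14 => g (Fin.castLE hn i))) :=
    fun x hx y hy hxy => hc x (hsub hx) y (hsub hy) hxy
  have htagmem : ∀ i : Fin 12, g (Fin.castLE hn (Fin.castLE (by norm_num) i)) ∈
      Set.range (fun i : Fin 14 => g (Fin.castLE hn i)) := fun i => ⟨Fin.castLE (by norm_num) i, rfl⟩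
  have htaginj : Function.Injective
      (fun i : Fin 12 => g (Fin.castLE hn (Fin.castLE (by norm_num) i))) := by
    intro i j hij
    have := hinj hij
    exact Fin.castLE_injective _ this
  refine ⟨hcard.ge, by rw [hcard]; norm_num, ?_, ?_, ?_⟩
  · intro A hA hn' hc'
    obtain ⟨a, ha⟩ := hn'
    obtain ⟨b, hb, hbA⟩ := hc'
    have h2 : ({a, b} : Set V).ncard < (Set.range (fun i : Fin 14 => g (Fin.castLE hn i))).ncard := by
      rw [hcard]
      have : ({a, b} : Set V).ncard ≤ 2 := (Set.ncard_insert_le a {b}).trans (by simp)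
      omega
    obtain ⟨c, hcX, hcab⟩ := Set.exists_mem_notMem_of_ncard_lt_ncard h2
    have hca : c ≠ a := fun h => hcab (by simp [h])
    have hcb : c ≠ b := fun h => hcab (by simp [h])
    have hab : a ≠ b := fun h => hbA (h ▸ ha)
    by_cases hcA : c ∈ A
    · exact ⟨a, b, c, b, ha, ⟨hb, hbA⟩, hcA, ⟨hb, hbA⟩, hcl a (hA ha) b hb hab,
        hcl c hcX b hb hcb, Or.inl hca.symm⟩
    · exact ⟨a, b, a, c, ha, ⟨hb, hbA⟩, ha, ⟨hcX, hcA⟩, hcl a (hA ha) b hb hab,
        hcl a (hA ha) c hcX hca.symm, Or.inr hcb.symm⟩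
  · refine ⟨fun i : Fin 12 => g (Fin.castLE hn (Fin.castLE (by norm_num) i)), ⟨htaginj, ?_⟩,
      htagmem⟩
    intro i j hij
    exact hcl _ (htagmem i) _ (htagmem j) (fun h => hij.ne (htaginj h))
  · refine h5 _ _ (fun i : Fin 12 => ⟨g (Fin.castLE hn (Fin.castLE (by norm_num) i)), htagmem i⟩)
      s(⟨_, htagmem 0⟩, ⟨_, htagmem 0⟩) ?_ ?_
    · intro i j hij
      exact htaginj (Subtype.mk.inj hij)
    · intro i j hij _
      exact hcl _ (htagmem i) _ (htagmem j) (fun h => hij (htaginj h))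

/-- Adjacency in a typed part. -/
theorem part_adj {r r' : RK} (hst : isStatic r' = true) (j : Fin (ne r') → Fin (ne r))
    (hj : Function.Injective j) (hlk : ∀ k x y, (pat r').lk k x y → (pat r).lk k (j x) (j y))
    (p q : Fin (ne r') × Fin 12) (h : (Phi (pat r')).Adj p q) :
    (Phi (pat r)).Adj (j p.1, p.2) (j q.1, q.2) := by
  have hdy : ∀ d x y, ¬ (pat r').dy d x y := by
    intro d x y hd
    cases r' <;> simp [isStatic, pat, dl] at hst hd
  have hconn : ∀ x a y b, Conn (pat r') x a y b → Conn (pat r) (j x) a (j y) b := by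
    intro x a y b hc
    rcases hc with ⟨k, h1, h2, h3⟩ | ⟨d, h1, _⟩
    · exact Or.inl ⟨k, hlk k x y h1, h2, h3⟩
    · exact absurd h1 (hdy d x y)
  rcases h with ⟨h1, h2⟩ | ⟨h1, h2⟩
  · left
    exact ⟨by rw [h1], h2⟩
  · right
    refine ⟨fun h => h1 (hj h), ?_⟩
    rcases h2 with h2 | h2
    · exact Or.inl (hconn _ _ _ _ h2)
    · exact Or.inr (hconn _ _ _ _ h2)

end NonIdeal

open NonIdeal in
theorem nonIdeal (hStep : stStep) (hNear : stNearClosed) (hClosed : stStepClosed)
    (hPat : stPatTwoEC) (hQclq : stQclq) (hK12 : stK12Bad) (hDich : stDich) (hBad : stBad)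
    (hChain : stChain) (hGood : stGoodChain) : stNonIdeal := by
  classical
  intro m hm
  obtain ⟨C0, hC0⟩ := hGood
  refine ⟨(2 * hN m * Fintype.card (QIdx m)) ^ 2 + (2 * hN m) ^ 2 + C0 * (hN m + 1) + 2, ?_⟩
  intro V _ G φ hs Q hQ a b hab haN hchg hclq hne
  have hone : 1 ≤ (Fintype.card V + 1) * Q := Nat.mul_pos (Nat.succ_pos _) hQ.1
  have hmono : ∀ {s t : ℕ}, s ≤ t → proc (HG m) G s ≤ proc (HG m) G t :=
    fun h => Bad.proc_mono (HG m) G h
  have hGt : ∀ t, G ≤ proc (HG m) G t := fun t => Bad.proc_mono (HG m) G (Nat.zero_le t)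
  -- the exceptional set
  rcases hDich m hm V G φ hs (2 * hN m) with ⟨K, hK1, hK2⟩ | ⟨KF, hKF, hQKF, hKFc⟩
  · exfalso
    have := hclq K (Bad.Clq_mono (hmono (by omega)) hK1)
    omega
  have hKFt : ∀ t, Closed (proc (HG m) G t) KF := fun t =>
    hClosed V (Comp m) (CV m) (CG m) G KF (comp_twoEC hPat) hKF t
  -- a new edge
  obtain ⟨u, v, huv, huv'⟩ : ∃ u v, ¬ (proc (HG m) G b).Adj u v ∧
      (proc (HG m) G (b + 1)).Adj u v := by
    by_contra hcon
    push Not at hcon
    apply hne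
    refine le_antisymm (hmono (Nat.le_succ b)) ?_
    intro x y hxy
    by_contra h
    exact hcon x y h hxy
  obtain ⟨eu, ev, c, f, hu, hv, hch⟩ := hChain V (Comp m) (CV m) (CG m) pref G a b hab hchg u v
    huv huv'
  have hNadj : ∀ t, a ≤ t → t ≤ b → ¬ (proc (HG m) G t).Adj (eu t) (ev t) :=
    fun t h1 h2 => (hch t h1 h2).1
  have hInf : ∀ t, a ≤ t → t ≤ b → InfBy (CG m) (proc (HG m) G t) (c t) (f t) (eu t) (ev t) :=
    fun t h1 h2 => (hch t h1 h2).2.1
  have hPref : ∀ t, a ≤ t → t ≤ b → (∃ (c' : Comp m) (f' : CV m c' → V), pref c' ∧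
      InfBy (CG m) (proc (HG m) G t) c' f' (eu t) (ev t)) → pref (c t) :=
    fun t h1 h2 => (hch t h1 h2).2.2.1
  have hPrev : ∀ t, a < t → t ≤ b → ∃ x y, (CG m (c t)).Adj x y ∧ f t x = eu (t - 1) ∧
      f t y = ev (t - 1) := fun t h1 h2 => (hch t h1.le h2).2.2.2 h1
  have hAdj : ∀ t, a ≤ t → t ≤ b → (proc (HG m) G (t + 1)).Adj (eu t) (ev t) :=
    fun t h1 h2 => (hStep V (Comp m) (CV m) (CG m) (proc (HG m) G t) (eu t) (ev t)).2
      (Or.inr ⟨c t, f t, hInf t h1 h2⟩)
  -- the pairs are distinct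
  have hlt : ∀ s t, a ≤ s → s < t → t ≤ b → s(eu s, ev s) ≠ s(eu t, ev t) := by
    intro s t h1 h2 h3 h
    have h4 : (proc (HG m) G t).Adj (eu s) (ev s) := hmono h2 (hAdj s h1 (by omega))
    apply hNadj t (by omega) h3
    rw [Sym2.eq_iff] at h
    rcases h with ⟨e1, e2⟩ | ⟨e1, e2⟩
    · rw [← e1, ← e2]; exact h4
    · rw [← e1, ← e2]; exact h4.symm
  have hdist : ∀ s t, a ≤ s → s ≤ b → a ≤ t → t ≤ b → s(eu s, ev s) = s(eu t, ev t) → s = t := by
    intro s t h1 h2 h3 h4 h
    rcases lt_trichotomy s t with h5 | h5 | h5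
    · exact absurd h (hlt s t h1 h5 h4)
    · exact h5
    · exact absurd h.symm (hlt t s h3 h5 h2)
  -- the component of `u`
  set K := cls (proc (HG m) G b) u with hKd
  have hKcl : Closed (proc (HG m) G b) K := cls_closed _ _
  have hKclt : ∀ t, t ≤ b → Closed (proc (HG m) G t) K := fun t ht =>
    closed_mono (hmono ht) hKcl
  have hin : ∀ s, s ≤ b - a → ∀ x, f (b - s) x ∈ K := by
    intro s
    induction s with
    | zero =>
      intro _
      have h1 := hInf b hab le_rfl
      obtain ⟨x0, y0, h2, h3, h4⟩ := h1.1.2.2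
      rcases hNear V _ (CG m (c b)) (proc (HG m) G b) (f b) (eu b) (ev b) K (comp_twoEC hPat _)
        h1.1 hKcl with h5 | h5
      · exact h5
      · exfalso
        apply h5 x0
        rw [h3, hu]
        exact SimpleGraph.Reachable.refl _
    | succ s ih =>
      intro hsb
      have h1 := ih (by omega)
      have e : b - s = (b - (s + 1)) + 1 := by omega
      have h2 := hInf (b - (s + 1)) (by omega) (by omega)
      obtain ⟨x0, y0, h3, h4, h5⟩ := hPrev (b - s) (by omega) (by omega)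
      have h6 : eu (b - (s + 1)) ∈ K := by
        have : eu (b - s - 1) ∈ K := by rw [← h4]; exact h1 x0
        rw [show b - (s + 1) = b - s - 1 by omega]
        exact this
      obtain ⟨x1, y1, h7, h8, h9⟩ := h2.1.2.2
      rcases hNear V _ (CG m (c (b - (s + 1)))) (proc (HG m) G (b - (s + 1))) (f (b - (s + 1)))
        (eu (b - (s + 1))) (ev (b - (s + 1))) K (comp_twoEC hPat _) h2.1
        (hKclt _ (by omega)) with h10 | h10
      · exact h10
      · exact absurd (h8.symm ▸ h6) (h10 x1)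
  have hin' : ∀ t, a ≤ t → t ≤ b → ∀ x, f t x ∈ K := by
    intro t h1 h2
    have := hin (b - t) (by omega)
    rw [show b - (b - t) = t by omega] at this
    exact this
  have hmem : ∀ t, a ≤ t → t ≤ b → eu t ∈ K ∧ ev t ∈ K := by
    intro t h1 h2
    obtain ⟨x0, y0, -, h4, h5⟩ := (hInf t h1 h2).1.2.2
    exact ⟨h4 ▸ hin' t h1 h2 x0, h5 ▸ hin' t h1 h2 y0⟩
  have hcount : b - a ≤ K.ncard ^ 2 := count_pairs K a b eu ev hmem hdist
  by_cases hKKF : (K ∩ KF).Nonempty
  · -- case 1
    obtain ⟨x, hx, hxF⟩ := hKKF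
    have h1 : K ⊆ KF := cls_sub (hKFt b) hx hxF
    have h2 : K.ncard ≤ 2 * hN m * Fintype.card (QIdx m) :=
      (Set.ncard_le_ncard h1 (Set.toFinite _)).trans hKFc
    have h3 : b - a ≤ (2 * hN m * Fintype.card (QIdx m)) ^ 2 :=
      hcount.trans (Nat.pow_le_pow_left h2 2)
    calc b - a ≤ ((2 * hN m * Fintype.card (QIdx m)) ^ 2 + (2 * hN m) ^ 2 + C0 * (hN m + 1) + 2) *
        1 := by omega
      _ ≤ _ := Nat.mul_le_mul_left _ hone
  by_cases hbw : Good (proc (HG m) G b) K
  swap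
  · -- case 2
    simp only [Good, not_forall, not_not] at hbw
    obtain ⟨X, hXK, hX⟩ := hbw
    have hXKF : Disjoint X KF := by
      rw [Set.disjoint_left]
      intro x hx hxF
      exact hKKF ⟨x, hXK hx, hxF⟩
    rcases hBad m hm V (proc (HG m) G b) φ (Bad.HS_mono (hGt b) hs) KF (hKFt b) hQKF X hX hXKF
      (2 * hN m) with ⟨K', hK1, hK2⟩ | ⟨K', hK1, hK2, hK3⟩
    · exfalso
      rw [proc_add] at hK1
      have := hclq K' (Bad.Clq_mono (hmono (by omega)) hK1)
      omega
    · have hne' : X.Nonempty := by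
        by_contra hn
        rw [Set.not_nonempty_iff_eq_empty] at hn
        have := hX.1
        rw [hn, Set.ncard_empty] at this
        omega
      obtain ⟨x, hx⟩ := hne'
      have h1 : K ⊆ K' := cls_sub hK1 (hXK hx) (hK2 hx)
      have h2 : K.ncard ≤ 2 * hN m :=
        (Set.ncard_le_ncard h1 (Set.toFinite _)).trans hK3.le
      have h3 : b - a ≤ (2 * hN m) ^ 2 := hcount.trans (Nat.pow_le_pow_left h2 2)
      calc b - a ≤ ((2 * hN m * Fintype.card (QIdx m)) ^ 2 + (2 * hN m) ^ 2 +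
          C0 * (hN m + 1) + 2) * 1 := by omega
        _ ≤ _ := Nat.mul_le_mul_left _ hone
  -- case 3
  have hrule : ∀ t, a ≤ t → t + 2 ≤ b → isRule (c t) := by
    intro t h1 h2
    have h3 := hInf t h1 (by omega)
    have h4 : ∀ x, f t x ∈ K := hin' t h1 (by omega)
    revert h3 h4
    generalize f t = g
    revert g
    generalize c t = ct
    intro g h3 h4
    cases ct with
    | inl r => exact ⟨r, rfl⟩
    | inr q =>
      exfalso
      have h5 := hQclq m V (proc (HG m) G t) q g (eu t) (ev t) h3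
      have h6 : Clq (proc (HG m) G b) (Set.range g) :=
        Bad.Clq_mono (hmono h2) h5
      refine hbw _ ?_ (clique_bad hK12 (proc (HG m) G b) (q.1.1 : ℕ) q.2.1 g h3.1.1 h6)
      rintro _ ⟨i, rfl⟩
      exact h4 _
  set Hs : Finset V := Finset.univ.image φ with hHs
  have hHsc : Hs.card ≤ hN m := by
    refine Finset.card_image_le.trans ?_
    rw [Finset.card_univ]
    rfl
  have key := hC0 V (proc (HG m) G b) K hbw Hs (b - a - 2) (fun i => eu (a + i))
    (fun i => ev (a + i)) (fun i => toRK (c (a + i))) (fun i => toF u (c (a + i)) (f (a + i)))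
    (by
      intro i hi1 hi2
      have h1 := hrule (a + i) (by omega) (by omega)
      have h2 := hInf (a + i) (by omega) (by omega)
      have h3 := near_toF (proc (HG m) G (a + i)) u _ _ _ _ h1 h2.1
      refine ⟨⟨⟨h3.1, ?_⟩, ?_⟩, ?_, ?_⟩
      · intro p q hpq
        rcases h3.2.1 p q hpq with h4 | h4
        · exact hmono (by omega) h4
        · have h5 : (proc (HG m) G b).Adj (eu (a + i)) (ev (a + i)) :=
            hmono (by omega) (hAdj (a + i) (by omega) (by omega))
          rw [Sym2.eq_iff] at h4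
          rcases h4 with ⟨e1, e2⟩ | ⟨e1, e2⟩
          · rw [e1, e2]; exact h5
          · rw [e1, e2]; exact h5.symm
      · exact mem_toF u K _ _ h1 (hin' (a + i) (by omega) (by omega))
      · exact h3.2.2
      · have h4 := hPrev (a + i) (by omega) (by omega)
        rw [show a + i - 1 = a + (i - 1) by omega] at h4
        exact inE_toF u _ _ _ _ h1 h4)
    (by
      intro i j hi hj hij
      by_cases hba : b - a - 2 = 0
      · omega
      have := hdist (a + i) (a + j) (by omega) (by omega) (by omega) (by omega) hij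
      omega)
    (by
      intro i hi1 hi2 hst r' j hr' hj hlk hE
      by_contra hcon
      push Not at hcon
      have h1 := hrule (a + i) (by omega) (by omega)
      have h2 := hInf (a + i) (by omega) (by omega)
      have h3 := near_toF (proc (HG m) G (a + i)) u _ _ _ _ h1 h2.1
      have h4 : InfBy (CG m) (proc (HG m) G (a + i)) (.inl r')
          (fun p : Fin (ne r') × Fin 12 => toF u (c (a + i)) (f (a + i)) (j p.1, p.2))
          (eu (a + i)) (ev (a + i)) := by
        refine ⟨⟨?_, ?_, hE⟩, φ, ?_, ?_, ?_⟩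
        · intro p q hpq
          have h5 := h3.1 hpq
          have h6 : j p.1 = j q.1 := (Prod.mk.inj h5).1
          have h7 : p.2 = q.2 := (Prod.mk.inj h5).2
          exact Prod.ext (hj h6) h7
        · intro p q hpq
          exact h3.2.1 _ _ (part_adj hr' j hj hlk p q hpq)
        · intro p q _ _ hpq
          exact hs.inj hpq
        · intro c' x y _ hxy
          exact hGt _ (hs.hom c' x y hxy)
        · rintro p _ ⟨q, hq⟩
          apply hcon q
          rw [hHs, Finset.mem_image]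
          exact ⟨p, Finset.mem_univ _, hq.symm⟩
      have h5 := pref_toRK _ (hPref (a + i) (by omega) (by omega) ⟨_, _, ⟨r', rfl, hr'⟩, h4⟩)
      rw [hst] at h5
      exact Bool.noConfusion h5)
    Q hQ.1 hQ.2
  have h1 : C0 * (Hs.card + 1) * ((Fintype.card V + 1) * Q) ≤
      C0 * (hN m + 1) * ((Fintype.card V + 1) * Q) :=
    Nat.mul_le_mul_right _ (Nat.mul_le_mul_left _ (by omega))
  have h2 : 2 ≤ 2 * ((Fintype.card V + 1) * Q) := by omega
  have h3 : b - a ≤ (C0 * (hN m + 1) + 2) * ((Fintype.card V + 1) * Q) := by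
    rw [add_mul]
    omega
  exact h3.trans (Nat.mul_le_mul_right _ (by omega))

end MPaef1a0

end

section

/-!
E8: pure dynamic runs in a good set.
-/

set_option autoImplicit false

namespace MPaef1a0

open SimpleGraph

namespace PureRun

variable {V : Type} {G : SimpleGraph V} {K : Set V}

/-- The element `x` of a copy. -/
def elt {r : RK} {f : Fin (ne r) × Fin 12 → V} (hf : RCopy G K r f) (x : Fin (ne r)) :
    Elt G K :=
  ⟨fun a => f (x, a), r, f, x, hf, fun _ => rfl⟩

/-- The pair `uv` is the dynamic edge given by the state. -/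
def Rep (u v : V) (σ : Bool × Elt G K × Elt G K) : Prop :=
  (σ.2.1.1 (pp σ.1) = u ∧ σ.2.2.1 (rp σ.1) = v) ∨ (σ.2.1.1 (pp σ.1) = v ∧ σ.2.2.1 (rp σ.1) = u)

theorem ppRp (d d' : Bool) : pp d ≠ rp d' := by
  cases d <;> cases d' <;> decide

theorem ppInj {d d' : Bool} (h : pp d = pp d') : d = d' := by
  revert h
  cases d <;> cases d' <;> decide

theorem repUniq (hE : ∀ (α β : Elt G K) (a b : Fin 12), α.1 a = β.1 b → α = β ∧ a = b)
    {u v : V} {σ τ : Bool × Elt G K × Elt G K} (h1 : Rep u v σ) (h2 : Rep u v τ) : σ = τ := by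
  obtain ⟨d, X, Y⟩ := σ
  obtain ⟨d', X', Y'⟩ := τ
  unfold Rep at h1 h2
  simp only at h1 h2
  rcases h1 with ⟨h1, h3⟩ | ⟨h1, h3⟩ <;> rcases h2 with ⟨h2, h4⟩ | ⟨h2, h4⟩
  · obtain ⟨hX, hd⟩ := hE X X' _ _ (h1.trans h2.symm)
    obtain ⟨hY, _⟩ := hE Y Y' _ _ (h3.trans h4.symm)
    rw [hX, hY, ppInj hd]
  · exact absurd (hE X Y' _ _ (h1.trans h4.symm)).2 (ppRp _ _)
  · exact absurd (hE X Y' _ _ (h1.trans h4.symm)).2 (ppRp _ _)
  · obtain ⟨hX, hd⟩ := hE X X' _ _ (h1.trans h2.symm)
    obtain ⟨hY, _⟩ := hE Y Y' _ _ (h3.trans h4.symm)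
    rw [hX, hY, ppInj hd]

theorem repPair {u v u' v' : V} {σ : Bool × Elt G K × Elt G K} (h1 : Rep u v σ)
    (h2 : Rep u' v' σ) : s(u, v) = s(u', v') := by
  unfold Rep at h1 h2
  rcases h1 with ⟨h1, h3⟩ | ⟨h1, h3⟩ <;> rcases h2 with ⟨h2, h4⟩ | ⟨h2, h4⟩
  · rw [← h1, ← h2, ← h3, ← h4]
  · rw [← h1, ← h2, ← h3, ← h4, Sym2.eq_swap]
  · rw [← h1, ← h2, ← h3, ← h4, Sym2.eq_swap]
  · rw [← h1, ← h2, ← h3, ← h4]

theorem dynRep {r : RK} {f : Fin (ne r) × Fin 12 → V} (hf : RCopy G K r f) {u v : V}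
    (h : DynIn r f u v) : ∃ d x y, (pat r).dy d x y ∧ Rep u v (d, elt hf x, elt hf y) := by
  obtain ⟨d, x, y, h1, h2⟩ := h
  exact ⟨d, x, y, h1, h2⟩

/-- The static part of a base rule. -/
theorem baseCopy {f : Fin (ne .Base) × Fin 12 → V} (hf : RCopy G K .Base f) :
    RCopy G K .BaseX (fun p => f (Fin.castLE (by decide) p.1, p.2)) := by
  refine ⟨⟨?_, ?_⟩, fun p => hf.2 _⟩
  · rintro ⟨x, a⟩ ⟨y, b⟩ h
    have h1 := hf.1.1 h
    simp only [Prod.mk.injEq] at h1
    rw [Fin.castLE_injective _ h1.1, h1.2]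
  · rintro ⟨x, a⟩ ⟨y, b⟩ h
    apply hf.1.2
    have hlk : ∀ k (x y : Fin (ne .BaseX)), (pat .BaseX).lk k x y →
        (pat .Base).lk k (Fin.castLE (by decide) x) (Fin.castLE (by decide) y) := by
      decide
    have hdy : ∀ d (x y : Fin (ne .BaseX)), ¬ (pat .BaseX).dy d x y := by
      decide
    have hconn : ∀ (x y : Fin (ne .BaseX)) (a b : Fin 12), Conn (pat .BaseX) x a y b →
        Conn (pat .Base) (Fin.castLE (by decide) x) a (Fin.castLE (by decide) y) b := by
      intro x y a b h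
      rcases h with ⟨k, h1, h2⟩ | ⟨d, h1, _⟩
      · exact Or.inl ⟨k, hlk k x y h1, h2⟩
      · exact absurd h1 (hdy d x y)
    rcases h with ⟨h1, h2⟩ | ⟨h1, h2⟩
    · exact Or.inl ⟨by rw [show x = y from h1], h2⟩
    · refine Or.inr ⟨fun h3 => h1 (Fin.castLE_injective (by decide) h3), ?_⟩
      rcases h2 with h2 | h2
      · exact Or.inl (hconn _ _ _ _ h2)
      · exact Or.inr (hconn _ _ _ _ h2)

theorem stpOf (w : World (Elt G K))
    (hw1 : ∀ k α β, w.lk k α β ↔ ∃ (r : RK) (f : Fin (ne r) × Fin 12 → V) (x y : Fin (ne r)),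
        RCopy G K r f ∧ (pat r).lk k x y ∧ (∀ a, α.1 a = f (x, a)) ∧ (∀ a, β.1 a = f (y, a)))
    (hw2 : ∀ z1 z2 z3 z4, w.bs z1 z2 z3 z4 ↔ ∃ f : Fin (ne .BaseX) × Fin 12 → V,
        RCopy G K .BaseX f ∧ (∀ a, z1.1 a = f (⟨0, by decide⟩, a)) ∧
        (∀ a, z2.1 a = f (⟨1, by decide⟩, a)) ∧ (∀ a, z3.1 a = f (⟨2, by decide⟩, a)) ∧
        (∀ a, z4.1 a = f (⟨3, by decide⟩, a)))
    {r : RK} {f : Fin (ne r) × Fin 12 → V} (hf : RCopy G K r f) {d d' : Bool}
    {x y x' y' : Fin (ne r)} (h : (pat r).dy d x y) (h' : (pat r).dy d' x' y')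
    (hne : (d, x, y) ≠ (d', x', y')) :
    Stp w (d, elt hf x, elt hf y) (d', elt hf x', elt hf y') ∨
      Stp w (d', elt hf x', elt hf y') (d, elt hf x, elt hf y) := by
  have lkOf : ∀ k (x y : Fin (ne r)), (pat r).lk k x y → w.lk k (elt hf x) (elt hf y) :=
    fun k x y h => (hw1 _ _ _).mpr ⟨r, f, x, y, hf, h, fun _ => rfl, fun _ => rfl⟩
  cases r with
  | Du =>
    have key : Stp w (false, elt hf ⟨0, by decide⟩, elt hf ⟨5, by decide⟩)
        (false, elt hf ⟨2, by decide⟩, elt hf ⟨5, by decide⟩) :=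
      Stp.du _ (elt hf ⟨1, by decide⟩) _ (elt hf ⟨3, by decide⟩) (elt hf ⟨4, by decide⟩) _
        (lkOf _ _ _ (by decide)) (lkOf _ _ _ (by decide)) (lkOf _ _ _ (by decide))
        (lkOf _ _ _ (by decide)) (lkOf _ _ _ (by decide)) (lkOf _ _ _ (by decide))
        (lkOf _ _ _ (by decide)) (lkOf _ _ _ (by decide))
    simp only [pat, dl, List.mem_cons, Prod.mk.injEq, List.not_mem_nil, or_false] at h h'
    rcases h with ⟨rfl, hx, hy⟩ | ⟨rfl, hx, hy⟩ <;> rcases h' with ⟨rfl, hx', hy'⟩ | ⟨rfl, hx', hy'⟩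
    · exact absurd (by rw [Fin.ext (hx.trans hx'.symm), Fin.ext (hy.trans hy'.symm)]) hne
    · left
      rw [show x = ⟨0, by decide⟩ from Fin.ext hx, show y = ⟨5, by decide⟩ from Fin.ext hy,
        show x' = ⟨2, by decide⟩ from Fin.ext hx', show y' = ⟨5, by decide⟩ from Fin.ext hy']
      exact key
    · right
      rw [show x = ⟨2, by decide⟩ from Fin.ext hx, show y = ⟨5, by decide⟩ from Fin.ext hy,
        show x' = ⟨0, by decide⟩ from Fin.ext hx', show y' = ⟨5, by decide⟩ from Fin.ext hy']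
      exact key
    · exact absurd (by rw [Fin.ext (hx.trans hx'.symm), Fin.ext (hy.trans hy'.symm)]) hne
  | Dm =>
    have key : Stp w (false, elt hf ⟨0, by decide⟩, elt hf ⟨7, by decide⟩)
        (false, elt hf ⟨2, by decide⟩, elt hf ⟨7, by decide⟩) :=
      Stp.dm _ (elt hf ⟨1, by decide⟩) _ (elt hf ⟨3, by decide⟩) (elt hf ⟨4, by decide⟩)
        (elt hf ⟨5, by decide⟩) (elt hf ⟨6, by decide⟩) _
        (lkOf _ _ _ (by decide)) (lkOf _ _ _ (by decide)) (lkOf _ _ _ (by decide))
        (lkOf _ _ _ (by decide)) (lkOf _ _ _ (by decide)) (lkOf _ _ _ (by decide))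
        (lkOf _ _ _ (by decide)) (lkOf _ _ _ (by decide)) (lkOf _ _ _ (by decide))
        (lkOf _ _ _ (by decide)) (lkOf _ _ _ (by decide))
    simp only [pat, dl, List.mem_cons, Prod.mk.injEq, List.not_mem_nil, or_false] at h h'
    rcases h with ⟨rfl, hx, hy⟩ | ⟨rfl, hx, hy⟩ <;> rcases h' with ⟨rfl, hx', hy'⟩ | ⟨rfl, hx', hy'⟩
    · exact absurd (by rw [Fin.ext (hx.trans hx'.symm), Fin.ext (hy.trans hy'.symm)]) hne
    · left
      rw [show x = ⟨0, by decide⟩ from Fin.ext hx, show y = ⟨7, by decide⟩ from Fin.ext hy,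
        show x' = ⟨2, by decide⟩ from Fin.ext hx', show y' = ⟨7, by decide⟩ from Fin.ext hy']
      exact key
    · right
      rw [show x = ⟨2, by decide⟩ from Fin.ext hx, show y = ⟨7, by decide⟩ from Fin.ext hy,
        show x' = ⟨0, by decide⟩ from Fin.ext hx', show y' = ⟨7, by decide⟩ from Fin.ext hy']
      exact key
    · exact absurd (by rw [Fin.ext (hx.trans hx'.symm), Fin.ext (hy.trans hy'.symm)]) hne
  | Top =>
    have key : Stp w (false, elt hf ⟨0, by decide⟩, elt hf ⟨3, by decide⟩)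
        (true, elt hf ⟨0, by decide⟩, elt hf ⟨3, by decide⟩) :=
      Stp.top _ (elt hf ⟨1, by decide⟩) (elt hf ⟨2, by decide⟩) _
        (lkOf _ _ _ (by decide)) (lkOf _ _ _ (by decide)) (lkOf _ _ _ (by decide))
        (lkOf _ _ _ (by decide))
    simp only [pat, dl, List.mem_cons, Prod.mk.injEq, List.not_mem_nil, or_false] at h h'
    rcases h with ⟨rfl, hx, hy⟩ | ⟨rfl, hx, hy⟩ <;> rcases h' with ⟨rfl, hx', hy'⟩ | ⟨rfl, hx', hy'⟩
    · exact absurd (by rw [Fin.ext (hx.trans hx'.symm), Fin.ext (hy.trans hy'.symm)]) hne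
    · left
      rw [show x = ⟨0, by decide⟩ from Fin.ext hx, show y = ⟨3, by decide⟩ from Fin.ext hy,
        show x' = ⟨0, by decide⟩ from Fin.ext hx', show y' = ⟨3, by decide⟩ from Fin.ext hy']
      exact key
    · right
      rw [show x = ⟨0, by decide⟩ from Fin.ext hx, show y = ⟨3, by decide⟩ from Fin.ext hy,
        show x' = ⟨0, by decide⟩ from Fin.ext hx', show y' = ⟨3, by decide⟩ from Fin.ext hy']
      exact key
    · exact absurd (by rw [Fin.ext (hx.trans hx'.symm), Fin.ext (hy.trans hy'.symm)]) hne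
  | Dn =>
    have key : Stp w (true, elt hf ⟨0, by decide⟩, elt hf ⟨2, by decide⟩)
        (true, elt hf ⟨1, by decide⟩, elt hf ⟨2, by decide⟩) :=
      Stp.dn _ _ _ (lkOf _ _ _ (by decide))
    simp only [pat, dl, List.mem_cons, Prod.mk.injEq, List.not_mem_nil, or_false] at h h'
    rcases h with ⟨rfl, hx, hy⟩ | ⟨rfl, hx, hy⟩ <;> rcases h' with ⟨rfl, hx', hy'⟩ | ⟨rfl, hx', hy'⟩
    · exact absurd (by rw [Fin.ext (hx.trans hx'.symm), Fin.ext (hy.trans hy'.symm)]) hne
    · left
      rw [show x = ⟨0, by decide⟩ from Fin.ext hx, show y = ⟨2, by decide⟩ from Fin.ext hy,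
        show x' = ⟨1, by decide⟩ from Fin.ext hx', show y' = ⟨2, by decide⟩ from Fin.ext hy']
      exact key
    · right
      rw [show x = ⟨1, by decide⟩ from Fin.ext hx, show y = ⟨2, by decide⟩ from Fin.ext hy,
        show x' = ⟨0, by decide⟩ from Fin.ext hx', show y' = ⟨2, by decide⟩ from Fin.ext hy']
      exact key
    · exact absurd (by rw [Fin.ext (hx.trans hx'.symm), Fin.ext (hy.trans hy'.symm)]) hne
  | Base =>
    have hbs : w.bs (elt hf ⟨0, by decide⟩) (elt hf ⟨1, by decide⟩) (elt hf ⟨2, by decide⟩)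
        (elt hf ⟨3, by decide⟩) :=
      (hw2 _ _ _ _).mpr ⟨_, baseCopy hf, fun _ => rfl, fun _ => rfl, fun _ => rfl, fun _ => rfl⟩
    have key : Stp w (true, elt hf ⟨3, by decide⟩, elt hf ⟨4, by decide⟩)
        (false, elt hf ⟨3, by decide⟩, elt hf ⟨5, by decide⟩) :=
      Stp.base _ _ _ _ _ _ hbs (lkOf _ _ _ (by decide))
    simp only [pat, dl, List.mem_cons, Prod.mk.injEq, List.not_mem_nil, or_false] at h h'
    rcases h with ⟨rfl, hx, hy⟩ | ⟨rfl, hx, hy⟩ <;> rcases h' with ⟨rfl, hx', hy'⟩ | ⟨rfl, hx', hy'⟩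
    · exact absurd (by rw [Fin.ext (hx.trans hx'.symm), Fin.ext (hy.trans hy'.symm)]) hne
    · left
      rw [show x = ⟨3, by decide⟩ from Fin.ext hx, show y = ⟨4, by decide⟩ from Fin.ext hy,
        show x' = ⟨3, by decide⟩ from Fin.ext hx', show y' = ⟨5, by decide⟩ from Fin.ext hy']
      exact key
    · right
      rw [show x = ⟨3, by decide⟩ from Fin.ext hx, show y = ⟨5, by decide⟩ from Fin.ext hy,
        show x' = ⟨3, by decide⟩ from Fin.ext hx', show y' = ⟨4, by decide⟩ from Fin.ext hy']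
      exact key
    · exact absurd (by rw [Fin.ext (hx.trans hx'.symm), Fin.ext (hy.trans hy'.symm)]) hne
  | DuX => simp [pat, dl] at h
  | DmX => simp [pat, dl] at h
  | TopX => simp [pat, dl] at h
  | SS => simp [pat, dl] at h
  | BaseX => simp [pat, dl] at h

end PureRun

open PureRun in
theorem pureRun : stRun → stJoint → stElt → stWorld → stSplit → stPure := by
  intro hRun _ hElt hWorld _ V _ G K hG r eu ev c f h1 h2 Q hQ1 hQ
  classical
  rcases Nat.eq_zero_or_pos r with rfl | hr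
  · exact Nat.zero_le _
  have hE := hElt V G K hG
  obtain ⟨w, hw1, hw2⟩ := hWorld V G K hG
  have hinj : Function.Injective (fun α : Elt G K => α.1 0) := fun α β h => (hE α β 0 0 h).1
  have : Fintype (Elt G K) := Fintype.ofInjective _ hinj
  have hcard : Fintype.card (Elt G K) ≤ Fintype.card V := Fintype.card_le_of_injective _ hinj
  have hex : ∀ i, i ≤ r → ∃ σ : Bool × Elt G K × Elt G K, Rep (eu i) (ev i) σ := by
    intro i hi
    rcases Nat.eq_zero_or_pos i with rfl | hi0
    · obtain ⟨hf, _, h3⟩ := h1 1 le_rfl hr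
      obtain ⟨d, x, y, _, h4⟩ := dynRep hf h3
      exact ⟨_, h4⟩
    · obtain ⟨hf, h3, _⟩ := h1 i hi0 hi
      obtain ⟨d, x, y, _, h4⟩ := dynRep hf h3
      exact ⟨_, h4⟩
  obtain ⟨σ0, _⟩ := hex 0 (Nat.zero_le _)
  let s : ℕ → Bool × Elt G K × Elt G K := fun i =>
    if h : ∃ σ : Bool × Elt G K × Elt G K, Rep (eu i) (ev i) σ then h.choose else σ0
  have hs : ∀ i, i ≤ r → Rep (eu i) (ev i) (s i) := by
    intro i hi
    have h3 := hex i hi
    have h4 : s i = h3.choose := dif_pos h3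
    rw [h4]
    exact h3.choose_spec
  have hmain := hRun (Elt G K) w r s ?_ ?_
  · rcases hmain with h3 | ⟨l, hl, h3, h4⟩
    · nlinarith
    · have h5 : 2 ^ (2 ^ l + 1) ≤ Q := hQ l hl (h3.trans hcard)
      have h6 : 2 * 2 ^ (2 ^ l + 1) * Fintype.card (Elt G K) ≤ 2 * Q * Fintype.card V :=
        Nat.mul_le_mul (Nat.mul_le_mul_left 2 h5) hcard
      have h7 : 2 * Q * Fintype.card V ≤ (2 * Q + 6) * Fintype.card V :=
        Nat.mul_le_mul_right _ (by omega)
      omega
  · intro i j hi hj hij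
    apply h2 i j hi hj
    have h3 := hs i hi
    rw [hij] at h3
    exact repPair h3 (hs j hj)
  · intro i hi
    obtain ⟨hf, h3, h4⟩ := h1 (i + 1) (by omega) (by omega)
    obtain ⟨d, x, y, h5, h6⟩ := dynRep hf h3
    obtain ⟨d', x', y', h7, h8⟩ := dynRep hf h4
    have h9 : s (i + 1) = (d, elt hf x, elt hf y) := repUniq hE (hs (i + 1) (by omega)) h6
    have h10 : s i = (d', elt hf x', elt hf y') := by
      have h11 := hs i (by omega)
      rw [Nat.add_sub_cancel] at h8
      exact repUniq hE h11 h8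
    have hne : (d', x', y') ≠ (d, x, y) := by
      intro h11
      simp only [Prod.mk.injEq] at h11
      obtain ⟨rfl, rfl, rfl⟩ := h11
      have h12 := repPair h6 h8
      rw [Nat.add_sub_cancel] at h12
      have := h2 (i + 1) i (by omega) (by omega) h12
      omega
    rw [h9, h10]
    exact stpOf w hw1 hw2 hf h7 h5 hne

end MPaef1a0

end

section

/-!
D9: rehosting for saturated sets.
-/

set_option autoImplicit false

namespace MPaef1a0

open SimpleGraph

theorem rh1 : stStep → stRH1 := by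
  intro hStep m V _ G φ hφ X u v hu hv huv h14 hm hsat hQ
  classical
  have hst := hStep V (Comp m) (CV m) (CG m) G u v
  change (step (famG (CG m)) G).Adj u v
  rw [hst]
  by_cases hadj : G.Adj u v
  · exact Or.inl hadj
  right
  obtain ⟨σ, hσ, hr, hIsQ⟩ := labelX (G ⊔ SimpleGraph.edge u v) X hQ
  let q : QIdx m := ⟨⟨⟨X.ncard, by omega⟩, (G ⊔ SimpleGraph.edge u v).comap σ⟩, h14, hIsQ⟩
  let c : Comp m := .inr q
  have hcard : Fintype.card (CV m c) = X.ncard := Fintype.card_fin X.ncard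
  -- the host of `c` is disjoint from `X`
  have hdisj : Disjoint (host φ c) X := by
    rcases hsat c with h | h
    · exfalso
      have h1 : (host φ c).ncard = X.ncard := by
        unfold host
        rw [Set.ncard_eq_toFinset_card' ]
        rw [Set.toFinset_range, Finset.card_image_of_injective]
        · exact hcard
        · intro a b hab
          have := hφ.inj hab
          exact eq_of_heq (Sigma.mk.inj this).2
      have h2 : host φ c = X := Set.eq_of_subset_of_ncard_le h h1.ge (Set.toFinite X)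
      have hu' : u ∈ host φ c := by rw [h2]; exact hu
      have hv' : v ∈ host φ c := by rw [h2]; exact hv
      obtain ⟨a, ha⟩ := hu'
      obtain ⟨b, hb⟩ := hv'
      have h3 : G.Adj (φ ⟨c, a⟩) (φ ⟨c, b⟩) := hφ.clq q a b (fun hab => huv (by
        rw [← ha, ← hb, hab]))
      have ha' : φ ⟨c, a⟩ = u := ha
      have hb' : φ ⟨c, b⟩ = v := hb
      rw [ha', hb'] at h3
      exact hadj h3
    · exact h
  let σ' : CV m c → V := σ
  have hr' : Set.range σ' = X := hr
  refine ⟨c, σ', nearLabel G X σ u v hσ hr hu hv huv, ?_⟩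
  rw [hr']
  -- the components which are hosted inside `X`
  let B : Set (Σ c, CV m c) := {p | p.1 ≠ c ∧ host φ p.1 ⊆ X}
  have hB : Nat.card B ≤ Nat.card (CV m c) := by
    rw [Nat.card_eq_fintype_card (α := CV m c), hcard, ← Nat.card_coe_set_eq X]
    refine Nat.card_le_card_of_injective
      (fun p : B => (⟨φ p.1, p.2.2 ⟨p.1.2, rfl⟩⟩ : X)) ?_
    intro p p' h
    exact Subtype.ext (hφ.inj (Subtype.mk.inj h))
  obtain ⟨h, hh⟩ : ∃ h : B → CV m c, Function.Injective h := by
    rw [Nat.card_eq_fintype_card, Nat.card_eq_fintype_card] at hB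
    exact ⟨_, (Function.Embedding.nonempty_of_card_le hB).some.injective⟩
  refine ⟨fun p => if hp : p ∈ B then φ ⟨c, h ⟨p, hp⟩⟩ else φ p, ?_, ?_, ?_⟩
  · intro p p' hpc hpc' heq
    by_cases hp : p ∈ B
    · by_cases hp' : p' ∈ B
      · simp only [dif_pos hp, dif_pos hp'] at heq
        have h1 := eq_of_heq (Sigma.mk.inj (hφ.inj heq)).2
        exact Subtype.mk.inj (hh h1)
      · simp only [dif_pos hp, dif_neg hp'] at heq
        have h1 := hφ.inj heq
        exact absurd (congrArg Sigma.fst h1).symm hpc'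
    · by_cases hp' : p' ∈ B
      · simp only [dif_neg hp, dif_pos hp'] at heq
        have h1 := hφ.inj heq
        exact absurd (congrArg Sigma.fst h1) hpc
      · simp only [dif_neg hp, dif_neg hp'] at heq
        exact hφ.inj heq
  · intro i a b hi hab
    by_cases hX : host φ i ⊆ X
    · have ha : (⟨i, a⟩ : Σ c, CV m c) ∈ B := ⟨hi, hX⟩
      have hb : (⟨i, b⟩ : Σ c, CV m c) ∈ B := ⟨hi, hX⟩
      simp only [dif_pos ha, dif_pos hb]
      apply hφ.clq q
      intro heq
      have h1 := Subtype.mk.inj (hh heq)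
      have h2 := eq_of_heq (Sigma.mk.inj h1).2
      rw [h2] at hab
      exact (CG m i).loopless.irrefl _ hab
    · have ha : (⟨i, a⟩ : Σ c, CV m c) ∉ B := fun hh => hX hh.2
      have hb : (⟨i, b⟩ : Σ c, CV m c) ∉ B := fun hh => hX hh.2
      simp only [dif_neg ha, dif_neg hb]
      exact hφ.hom i a b hab
  · intro p hpc
    by_cases hp : p ∈ B
    · simp only [dif_pos hp]
      exact Set.disjoint_left.mp hdisj ⟨_, rfl⟩
    · simp only [dif_neg hp]
      have h1 : ¬ host φ p.1 ⊆ X := fun h2 => hp ⟨hpc, h2⟩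
      rcases hsat p.1 with h2 | h2
      · exact absurd h2 h1
      · exact Set.disjoint_left.mp h2 ⟨p.2, rfl⟩

end MPaef1a0

end

section

/-!
Block E, item E6: role consistency.
-/

set_option autoImplicit false

namespace MPaef1a0

open SimpleGraph

theorem RO_pp_op (d : Bool) (k : SK) : pp d ≠ op k := by
  cases d <;> cases k <;> decide

theorem RO_rp_op (d : Bool) (k : SK) : rp d ≠ op k := by
  cases d <;> cases k <;> decide

theorem RO_rp_pp (d d' : Bool) : rp d ≠ pp d' := by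
  cases d <;> cases d' <;> decide

theorem RO_pp_inj (d d' : Bool) (h : pp d = pp d') : d = d' := by
  cases d <;> cases d' <;> first | rfl | exact absurd h (by decide)

theorem RO_decode {E : Type} (Γ : TStr E) (x y : E) (d : Bool) (hxy : x ≠ y)
    (h : (Phi Γ).Adj (x, pp d) (y, rp d)) : Γ.dy d x y := by
  rcases h with ⟨h1, -⟩ | ⟨-, h1 | h1⟩
  · exact absurd h1 hxy
  · rcases h1 with ⟨k, -, h2, -⟩ | ⟨d', h2, h3, -⟩
    · exact absurd h2 (RO_pp_op d k)
    · rw [RO_pp_inj d d' h3]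
      exact h2
  · rcases h1 with ⟨k, -, h2, -⟩ | ⟨d', -, h3, -⟩
    · exact absurd h2 (RO_rp_op d k)
    · exact absurd h3 (RO_rp_pp d d')

theorem role : stJoint → stRole := by
  intro hJ V _ G K hG r1 r2 f1 f2 u v hf1 hf2 _ hE2 hD
  obtain ⟨⟨x', a'⟩, ⟨y', b'⟩, hadj, hu, hv⟩ := hE2
  obtain ⟨d, x, y, hd, h⟩ := hD
  rcases h with ⟨h1, h2⟩ | ⟨h1, h2⟩
  · obtain ⟨E, Γ, ψ1, ψ2, hAx, -, -, hiff, -, hdy1, -, -⟩ :=
      hJ V G K hG r1 r2 f1 f2 hf1 hf2 ⟨(x, pp d), (x', a'), h1.trans hu.symm⟩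
    obtain ⟨e1, e2⟩ := (hiff x (pp d) x' a').1 (h1.trans hu.symm)
    obtain ⟨e3, e4⟩ := (hiff y (rp d) y' b').1 (h2.trans hv.symm)
    have hne : x' ≠ y' := by
      intro h
      exact hAx.dy_ne d _ _ (hdy1 d x y hd) (by rw [e1, e3, h])
    subst e2
    subst e4
    exact ⟨d, x', y', RO_decode _ _ _ d hne hadj, Or.inl ⟨hu, hv⟩⟩
  · obtain ⟨E, Γ, ψ1, ψ2, hAx, -, -, hiff, -, hdy1, -, -⟩ :=
      hJ V G K hG r1 r2 f1 f2 hf1 hf2 ⟨(x, pp d), (y', b'), h1.trans hv.symm⟩
    obtain ⟨e1, e2⟩ := (hiff x (pp d) y' b').1 (h1.trans hv.symm)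
    obtain ⟨e3, e4⟩ := (hiff y (rp d) x' a').1 (h2.trans hu.symm)
    have hne : y' ≠ x' := by
      intro h
      exact hAx.dy_ne d _ _ (hdy1 d x y hd) (by rw [e1, e3, h])
    subst e2
    subst e4
    exact ⟨d, y', x', RO_decode _ _ _ d hne hadj.symm, Or.inr ⟨hv, hu⟩⟩

end MPaef1a0

end

section

/-!
E4, E5: static copies are determined by one vertex; counting static edges.
-/

set_option autoImplicit false

namespace MPaef1a0

open SimpleGraph

/-- E4. -/
theorem staticUniq : stJoint → stPatConn → stStaticUniq := by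
  intro hJ hC V _ G K hG r f f' p hs hf hf' hp
  obtain ⟨E, Γ, ψ1, ψ2, hAx, -, -, hiff, l1, -, l2, -⟩ := hJ V G K hG r r f f' hf hf' ⟨p, p, hp⟩
  have hA : {x : Fin (ne r) | ψ1 x = ψ2 x} = Set.univ := by
    refine hC r hs _ ⟨p.1, ?_⟩ ?_
    · exact ((hiff p.1 p.2 p.1 p.2).mp hp).1
    · intro k x y hk
      have h1 := l1 k x y hk
      have h2 := l2 k x y hk
      constructor
      · intro hx
        have hx' : ψ1 x = ψ2 x := hx
        rw [← hx'] at h2
        exact hAx.func k _ _ _ h1 h2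
      · intro hy
        have hy' : ψ1 y = ψ2 y := hy
        rw [← hy'] at h2
        exact hAx.inj k _ _ _ h1 h2
  funext z
  have hz : z.1 ∈ {x : Fin (ne r) | ψ1 x = ψ2 x} := by
    rw [hA]
    exact Set.mem_univ _
  exact (hiff z.1 z.2 z.1 z.2).mpr ⟨hz, rfl⟩

namespace StaticCountAux

/-- positions -/
abbrev T : Type := Σ r : RK, (Fin (ne r) × Fin 12) × (Fin (ne r) × Fin 12) × (Fin (ne r) × Fin 12)

theorem key (hu : stStaticUniq) {V : Type} [Fintype V] {G : SimpleGraph V} {K : Set V}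
    (hG : Good G K) (r r' : RK) (f : Fin (ne r) × Fin 12 → V) (f' : Fin (ne r') × Fin 12 → V)
    (x p q : Fin (ne r) × Fin 12) (x' p' q' : Fin (ne r') × Fin 12) (hs : isStatic r = true)
    (h : RCopy G K r f) (h' : RCopy G K r' f') (e1 : f x = f' x')
    (e2 : (⟨r, (x, p, q)⟩ : T) = ⟨r', (x', p', q')⟩) : s(f p, f q) = s(f' p', f' q') := by
  cases e2
  rw [hu V G K hG r f f' x hs h h' e1]

theorem cardAux {A V S : Type} [Fintype S] (Hs : Finset V) (J : Finset A)
    (g : {e // e ∈ J} → V × S) (h1 : ∀ e, (g e).1 ∈ Hs) (h2 : Function.Injective g) :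
    J.card ≤ Fintype.card S * Hs.card := by
  have hcard := Finset.card_le_card_of_injOn g (s := J.attach)
    (t := Hs ×ˢ (Finset.univ : Finset S)) (fun e _ => Finset.mem_coe.mpr
      (Finset.mem_product.mpr ⟨h1 e, Finset.mem_univ _⟩)) h2.injOn
  rw [Finset.card_attach, Finset.card_product, Finset.card_univ, Nat.mul_comm] at hcard
  exact hcard

end StaticCountAux

open StaticCountAux in
/-- E5. -/
theorem staticCount : stStaticUniq → stStaticCount := by
  intro hu
  obtain ⟨C, hC⟩ : ∃ C : ℕ, C = Fintype.card T := ⟨_, rfl⟩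
  refine ⟨C, fun V _ _ G K hG => ?_⟩
  have main : ∀ (Hs : Finset V) (J : Finset (Sym2 V)),
      (∀ e ∈ J, ∃ (r : RK) (f : Fin (ne r) × Fin 12 → V) (p q x : Fin (ne r) × Fin 12),
        isStatic r = true ∧ RCopy G K r f ∧ e = s(f p, f q) ∧ f x ∈ Hs) →
      J.card ≤ C * Hs.card := by
    intro Hs J hJ
    choose r f p q x h1 h2 h3 h4 using hJ
    rw [hC]
    refine cardAux Hs J (fun e => (f e.1 e.2 (x e.1 e.2),
        ⟨r e.1 e.2, (x e.1 e.2, p e.1 e.2, q e.1 e.2)⟩)) (fun e => h4 e.1 e.2) ?_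
    intro e e' hee
    have hee' := Prod.mk.inj hee
    have h5 := key hu hG _ _ _ _ _ _ _ _ _ _ (h1 e.1 e.2) (h2 e.1 e.2) (h2 e'.1 e'.2)
      hee'.1 hee'.2
    rw [← h3 e.1 e.2, ← h3 e'.1 e'.2] at h5
    exact Subtype.ext h5
  refine ⟨fun J hJ => ?_, main⟩
  have h := main Finset.univ J fun e he => by
    obtain ⟨r, f, p, q, h1, h2, h3⟩ := hJ e he
    exact ⟨r, f, p, q, p, h1, h2, h3, Finset.mem_univ _⟩
  rwa [Finset.card_univ] at h

end MPaef1a0

end
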