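import Mathlib
import Pool.Agent.Work.MP_aef1a0_co.Proc

/-! Bundle of small proof modules (one section per former module). -/

section

/-!
Definitions for the graph bootstrap percolation exponent (MP_aef1a0_co).
-/

set_option autoImplicit false

namespace MPaef1a0

open SimpleGraph

/-! ## Basic graph notions -/

/-- `f` is an injective homomorphism from `R` to `G` (a copy of `R` in `G`). -/
def IsCopy {V W : Type} (R : SimpleGraph W) (G : SimpleGraph V) (f : W → V) : Prop :=
  Function.Injective f ∧ ∀ a b, R.Adj a b → G.Adj (f a) (f b)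

/-- `f` is a copy of `R` in `G + uv` that uses the pair `uv`. -/
def Near {V W : Type} (R : SimpleGraph W) (G : SimpleGraph V) (f : W → V) (u v : V) : Prop :=
  Function.Injective f ∧
  (∀ a b, R.Adj a b → (G.Adj (f a) (f b) ∨ s(f a, f b) = s(u, v))) ∧
  ∃ a b, R.Adj a b ∧ f a = u ∧ f b = v

/-- 2-edge-connected on the vertex set `S`: every cut of `S` is crossed by two different edges. -/
def TwoECOn {V : Type} (G : SimpleGraph V) (S : Set V) : Prop :=
  ∀ A : Set V, A ⊆ S → A.Nonempty → (S \ A).Nonempty →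
    ∃ a b a' b', a ∈ A ∧ b ∈ S \ A ∧ a' ∈ A ∧ b' ∈ S \ A ∧ G.Adj a b ∧ G.Adj a' b' ∧
      (a ≠ a' ∨ b ≠ b')

/-- 2-edge-connected. -/
def TwoEC {V : Type} (G : SimpleGraph V) : Prop := TwoECOn G Set.univ

/-- No edge leaves `K`. -/
def Closed {V : Type} (G : SimpleGraph V) (K : Set V) : Prop :=
  ∀ x ∈ K, ∀ y, G.Adj x y → y ∈ K

/-- `K` is a clique. -/
def Clq {V : Type} (G : SimpleGraph V) (K : Set V) : Prop :=
  ∀ x ∈ K, ∀ y ∈ K, x ≠ y → G.Adj x y

/-! ## Disjoint unions -/

section Family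

variable {ι : Type} {F : ι → Type}

/-- Adjacency of the disjoint union. -/
inductive FamAdj (R : ∀ i, SimpleGraph (F i)) : (Σ i, F i) → (Σ i, F i) → Prop
  | mk (i : ι) (a b : F i) (h : (R i).Adj a b) : FamAdj R ⟨i, a⟩ ⟨i, b⟩

/-- The disjoint union of the graphs `R i`. -/
def famG (R : ∀ i, SimpleGraph (F i)) : SimpleGraph (Σ i, F i) where
  Adj := FamAdj R
  symm := ⟨fun _ _ h => by cases h with | mk i a b h => exact FamAdj.mk i b a h.symm⟩
  loopless := ⟨fun _ h => by
    cases h with | mk i a _ h => exact (R i).loopless.irrefl a h⟩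

/-- The components other than `c` can be hosted in `G` outside of `S`. -/
def Free {V : Type} (R : ∀ i, SimpleGraph (F i)) (G : SimpleGraph V) (c : ι) (S : Set V) : Prop :=
  ∃ g : (Σ i, F i) → V,
    (∀ p q, p.1 ≠ c → q.1 ≠ c → g p = g q → p = q) ∧
    (∀ i a b, i ≠ c → (R i).Adj a b → G.Adj (g ⟨i, a⟩) (g ⟨i, b⟩)) ∧
    (∀ p, p.1 ≠ c → g p ∉ S)

/-- The pair `uv` is infected at `G` through the component `c`, placed by `f`. -/
def InfBy {V : Type} (R : ∀ i, SimpleGraph (F i)) (G : SimpleGraph V) (c : ι) (f : F c → V)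
    (u v : V) : Prop :=
  Near (R c) G f u v ∧ Free R G c (Set.range f)

end Family

/-! ## Tags and typed structures -/

/-- The edges of the Frucht graph (3-regular, 12 vertices, no non-trivial automorphism). -/
def fruchtList : List (ℕ × ℕ) :=
  [(0, 1), (0, 7), (0, 11), (1, 2), (1, 11), (2, 3), (2, 10), (3, 4), (3, 5), (4, 5), (4, 9),
   (5, 6), (6, 7), (6, 8), (7, 8), (8, 9), (9, 10), (10, 11)]

/-- Adjacency in the Frucht graph. -/
def frucht (a b : Fin 12) : Prop :=
  (a.val, b.val) ∈ fruchtList ∨ (b.val, a.val) ∈ fruchtList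

instance (a b : Fin 12) : Decidable (frucht a b) := by unfold frucht; infer_instance

/-- The tag: the complement of the Frucht graph. -/
def tag : SimpleGraph (Fin 12) where
  Adj a b := a ≠ b ∧ ¬ frucht a b
  symm := ⟨fun _ _ h => ⟨h.1.symm, fun h' => h.2 (Or.symm h')⟩⟩
  loopless := ⟨fun _ h => h.1 rfl⟩

instance : DecidableRel tag.Adj := fun a b => by unfold tag; infer_instance

/-- Static kinds of links. -/
inductive SK
  | S | U | M | D | G | T
  deriving DecidableEq

instance : Fintype SK := ⟨{.S, .U, .M, .D, .G, .T}, by intro x; cases x <;> simp⟩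

/-- Typed structures: static links `lk`, dynamic links `dy` (`false` is `P1`, `true` is `P2`). -/
structure TStr (E : Type) where
  lk : SK → E → E → Prop
  dy : Bool → E → E → Prop

/-- Out-port of a static kind. -/
def op : SK → Fin 12
  | .S => 2 | .U => 3 | .M => 4 | .D => 5 | .G => 6 | .T => 7

/-- Source port of a dynamic kind. -/
def pp : Bool → Fin 12
  | false => 8 | true => 9

/-- Target port of a dynamic kind. -/
def rp : Bool → Fin 12
  | false => 10 | true => 11

/-- The directed connection between ports of two elements. -/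
def Conn {E : Type} (Γ : TStr E) (x : E) (a : Fin 12) (y : E) (b : Fin 12) : Prop :=
  (∃ k, Γ.lk k x y ∧ a = op k ∧ (b = 0 ∨ b = 1)) ∨ (∃ d, Γ.dy d x y ∧ a = pp d ∧ b = rp d)

/-- The plain graph of a typed structure. -/
def Phi {E : Type} (Γ : TStr E) : SimpleGraph (E × Fin 12) where
  Adj p q := (p.1 = q.1 ∧ tag.Adj p.2 q.2) ∨
    (p.1 ≠ q.1 ∧ (Conn Γ p.1 p.2 q.1 q.2 ∨ Conn Γ q.1 q.2 p.1 p.2))
  symm := ⟨fun _ _ h => h.elim (fun h => Or.inl ⟨h.1.symm, h.2.symm⟩)
    (fun h => Or.inr ⟨h.1.symm, h.2.symm⟩)⟩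
  loopless := ⟨fun _ h => h.elim (fun h => h.2.1 rfl) (fun h => h.1 rfl)⟩

/-- The axioms of good typed structures. -/
structure Ax {E : Type} (Γ : TStr E) : Prop where
  lk_ne : ∀ k x y, Γ.lk k x y → x ≠ y
  dy_ne : ∀ d x y, Γ.dy d x y → x ≠ y
  uniq : ∀ k k' x y, Γ.lk k x y → Γ.lk k' x y → k = k'
  func : ∀ k x y y', Γ.lk k x y → Γ.lk k x y' → y = y'
  inj : ∀ k x x' y, Γ.lk k x y → Γ.lk k x' y → x = x'
  um : ∀ x a b, Γ.lk .U x a → Γ.lk .M x b → False
  ug : ∀ x a b, Γ.lk .U x a → Γ.lk .G x b → False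
  base : ∀ w z1 z2 z3 z4, Γ.lk .S z1 z2 → Γ.lk .S z2 z3 → Γ.lk .S z3 z4 → Γ.lk .D z2 z4 →
    Γ.lk .S w z1 → False
  top : ∀ κ q w, Γ.lk .T κ q → Γ.lk .S q w → False

/-- Graphs that embed in the plain graph of a good typed structure. -/
def Emb {W : Type} (F : SimpleGraph W) : Prop :=
  ∃ (E : Type) (Γ : TStr E), Ax Γ ∧ ∃ f : W → E × Fin 12, IsCopy F (Phi Γ) f

/-- `Emb` for the graph induced on a set. -/
def EmbOn {V : Type} (G : SimpleGraph V) (X : Set V) : Prop := Emb (G.induce X)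

/-! ## The rules -/

/-- Names of the rules: five dynamic ones and their five static parts. -/
inductive RK
  | Du | Dm | Top | Dn | Base | DuX | DmX | TopX | SS | BaseX
  deriving DecidableEq

instance : Fintype RK :=
  ⟨{.Du, .Dm, .Top, .Dn, .Base, .DuX, .DmX, .TopX, .SS, .BaseX}, by intro x; cases x <;> simp⟩

/-- Number of elements of a rule. -/
def ne : RK → ℕ
  | .Du => 7 | .Dm => 9 | .Top => 5 | .Dn => 4 | .Base => 6
  | .DuX => 5 | .DmX => 7 | .TopX => 3 | .SS => 2 | .BaseX => 4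

/-- Static links of a rule. -/
def sl : RK → List (SK × ℕ × ℕ)
  | .Du => [(.S, 0, 1), (.S, 1, 2), (.S, 3, 4), (.D, 3, 0), (.D, 4, 2), (.U, 1, 0), (.U, 2, 1),
      (.U, 4, 3), (.S, 5, 6)]
  | .Dm => [(.S, 0, 1), (.S, 1, 2), (.S, 3, 4), (.D, 3, 0), (.D, 4, 2), (.U, 1, 0), (.M, 2, 1),
      (.M, 4, 3), (.G, 4, 5), (.G, 2, 6), (.S, 5, 6), (.S, 7, 8)]
  | .Top => [(.G, 0, 2), (.S, 1, 2), (.M, 2, 1), (.T, 2, 0), (.S, 3, 4)]
  | .Dn => [(.S, 0, 1), (.S, 2, 3)]
  | .Base => [(.S, 0, 1), (.S, 1, 2), (.S, 2, 3), (.D, 1, 3), (.G, 3, 0), (.M, 3, 2), (.U, 2, 1),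
      (.U, 1, 0), (.S, 4, 5)]
  | .DuX => [(.S, 0, 1), (.S, 1, 2), (.S, 3, 4), (.D, 3, 0), (.D, 4, 2), (.U, 1, 0), (.U, 2, 1),
      (.U, 4, 3)]
  | .DmX => [(.S, 0, 1), (.S, 1, 2), (.S, 3, 4), (.D, 3, 0), (.D, 4, 2), (.U, 1, 0), (.M, 2, 1),
      (.M, 4, 3), (.G, 4, 5), (.G, 2, 6), (.S, 5, 6)]
  | .TopX => [(.G, 0, 2), (.S, 1, 2), (.M, 2, 1), (.T, 2, 0)]
  | .SS => [(.S, 0, 1)]
  | .BaseX => [(.S, 0, 1), (.S, 1, 2), (.S, 2, 3), (.D, 1, 3), (.G, 3, 0), (.M, 3, 2), (.U, 2, 1),
      (.U, 1, 0)]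

/-- Dynamic links of a rule. -/
def dl : RK → List (Bool × ℕ × ℕ)
  | .Du => [(false, 0, 5), (false, 2, 5)]
  | .Dm => [(false, 0, 7), (false, 2, 7)]
  | .Top => [(false, 0, 3), (true, 0, 3)]
  | .Dn => [(true, 0, 2), (true, 1, 2)]
  | .Base => [(true, 3, 4), (false, 3, 5)]
  | _ => []

/-- The pattern of a rule. -/
def pat (r : RK) : TStr (Fin (ne r)) where
  lk k x y := (k, x.val, y.val) ∈ sl r
  dy d x y := (d, x.val, y.val) ∈ dl r

instance (r : RK) (k : SK) (x y : Fin (ne r)) : Decidable ((pat r).lk k x y) := by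
  unfold pat; infer_instance

instance (r : RK) (d : Bool) (x y : Fin (ne r)) : Decidable ((pat r).dy d x y) := by
  unfold pat; infer_instance

/-- The static rules. -/
def isStatic : RK → Bool
  | .DuX => true | .DmX => true | .TopX => true | .SS => true | .BaseX => true
  | _ => false

/-! ## The infection rule `H` -/

/-- The bad graphs used as further components. -/
def IsQ {n : ℕ} (Q : SimpleGraph (Fin n)) : Prop :=
  TwoEC Q ∧ ∀ a b, Q.Adj a b → ¬ Emb (Q.deleteEdges {s(a, b)})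

/-- Index type of the bad components on 14 to `m` vertices. -/
def QIdx (m : ℕ) : Type :=
  {q : Σ n : Fin (m + 1), SimpleGraph (Fin n) // 14 ≤ (q.1 : ℕ) ∧ IsQ q.2}

/-- Index type of all components. -/
abbrev Comp (m : ℕ) : Type := RK ⊕ QIdx m

/-- Vertex type of a component. -/
def CV (m : ℕ) : Comp m → Type
  | .inl r => Fin (ne r) × Fin 12
  | .inr q => Fin q.1.1

/-- The components. -/
def CG (m : ℕ) : ∀ c : Comp m, SimpleGraph (CV m c)
  | .inl r => Phi (pat r)
  | .inr q => q.1.2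

/-- The infection rule. -/
def HG (m : ℕ) : SimpleGraph (Σ c, CV m c) := famG (CG m)

noncomputable instance (m : ℕ) : Fintype (QIdx m) := by
  classical
  unfold QIdx
  haveI : Finite {q : Σ n : Fin (m + 1), SimpleGraph (Fin n) // 14 ≤ (q.1 : ℕ) ∧ IsQ q.2} :=
    inferInstance
  exact Fintype.ofFinite _

noncomputable instance (m : ℕ) : DecidableEq (QIdx m) := Classical.decEq _

instance (m : ℕ) (c : Comp m) : Fintype (CV m c) := by
  cases c with
  | inl r => unfold CV; infer_instance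
  | inr q => unfold CV; infer_instance

instance (m : ℕ) (c : Comp m) : DecidableEq (CV m c) := by
  cases c with
  | inl r => unfold CV; infer_instance
  | inr q => unfold CV; infer_instance

/-- Number of vertices of the infection rule. -/
noncomputable def hN (m : ℕ) : ℕ := Fintype.card (Σ c, CV m c)

end MPaef1a0

end

section

/-!
Statements, block A: tags, rigidity, patterns; block B: typed worlds and pure runs.
-/

set_option autoImplicit false

namespace MPaef1a0

open SimpleGraph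

/-! ## Block A -/

/-- A1: every injective map of the tag minus one edge to the tag is the identity. -/
def stTagRigid : Prop :=
  ∀ (σ : Fin 12 → Fin 12) (e : Sym2 (Fin 12)), Function.Injective σ →
    (∀ a b, tag.Adj a b → s(a, b) ≠ e → tag.Adj (σ a) (σ b)) → ∀ a, σ a = a

/-- A2: triangles of the plain graph lie inside one tag. -/
def stTriangle : Prop :=
  ∀ (E : Type) (Γ : TStr E), Ax Γ → ∀ p q r : E × Fin 12,
    (Phi Γ).Adj p q → (Phi Γ).Adj q r → (Phi Γ).Adj p r → p.1 = q.1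

/-- A3: rigidity of the plain graphs, with at most one missing pair `e`. -/
def stRigid : Prop :=
  ∀ (E E' : Type) (Δ : TStr E) (Γ : TStr E'), Ax Γ →
    (∀ k x y, Δ.lk k x y → x ≠ y) → (∀ d x y, Δ.dy d x y → x ≠ y) →
    ∀ (θ : E × Fin 12 → E' × Fin 12) (e : Sym2 (E × Fin 12)), Function.Injective θ →
      (∀ p q, (Phi Δ).Adj p q → s(p, q) ≠ e → (Phi Γ).Adj (θ p) (θ q)) →
      ∃ ψ : E → E', Function.Injective ψ ∧ (∀ x a, θ (x, a) = (ψ x, a)) ∧
        (∀ k x y, Δ.lk k x y → Γ.lk k (ψ x) (ψ y)) ∧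
        (∀ d x y, Δ.dy d x y → s((x, pp d), (y, rp d)) ≠ e → Γ.dy d (ψ x) (ψ y))

/-- A4: a tag with an additional pair `a0 b0`, minus at most one pair `e`, does not embed. -/
def stTagBad : Prop :=
  ∀ (W' : Type) (F : SimpleGraph W') (g : Fin 12 → W') (a0 b0 : Fin 12) (e : Sym2 W'),
    Function.Injective g → a0 ≠ b0 → ¬ tag.Adj a0 b0 → s(g a0, g b0) ≠ e → F.Adj (g a0) (g b0) →
    (∀ a b, tag.Adj a b → s(g a, g b) ≠ e → F.Adj (g a) (g b)) → ¬ Emb F

/-- A5: a complete graph on 12 vertices minus at most one pair does not embed. -/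
def stK12Bad : Prop :=
  ∀ (W' : Type) (F : SimpleGraph W') (g : Fin 12 → W') (e : Sym2 W'),
    Function.Injective g → (∀ a b, a ≠ b → s(g a, g b) ≠ e → F.Adj (g a) (g b)) → ¬ Emb F

/-- A6: all rule graphs are 2-edge-connected. -/
def stPatTwoEC : Prop := ∀ r : RK, TwoEC (Phi (pat r))

/-- A7: static patterns are connected. -/
def stPatConn : Prop :=
  ∀ r : RK, isStatic r = true → ∀ A : Set (Fin (ne r)), A.Nonempty →
    (∀ k x y, (pat r).lk k x y → (x ∈ A ↔ y ∈ A)) → A = Set.univ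

/-- The static rule that is the X-part of a rule. -/
def xp : RK → RK
  | .Du => .DuX | .Dm => .DmX | .Top => .TopX | .Dn => .SS | .Base => .BaseX
  | r => r

/-- A8: the static links of a dynamic rule are the links of its X-part (the elements with
value below `ne r - 2`) and one link `S` from `ne r - 2` to `ne r - 1`. -/
def stSplit : Prop :=
  ∀ r : RK, isStatic r = false →
    ne (xp r) + 2 = ne r ∧ isStatic (xp r) = true ∧
    (∀ k i j, (k, i, j) ∈ sl r ↔
      ((k, i, j) ∈ sl (xp r) ∨ (k = SK.S ∧ i = ne r - 2 ∧ j = ne r - 1))) ∧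
    (∀ k i j, (k, i, j) ∈ sl (xp r) → i < ne (xp r) ∧ j < ne (xp r)) ∧
    (∀ d i j, (d, i, j) ∈ dl r → i < ne (xp r) ∧ ne (xp r) ≤ j ∧ j < ne r)

/-! ## Block B -/

/-- Typed worlds. -/
structure World (E : Type) where
  lk : SK → E → E → Prop
  bs : E → E → E → E → Prop
  sfun : ∀ x y y', lk .S x y → lk .S x y' → y = y'
  sinj : ∀ x x' y, lk .S x y → lk .S x' y → x = x'
  sne : ∀ x, ¬ lk .S x x
  dinj : ∀ x x' y, lk .D x y → lk .D x' y → x = x'
  gfun : ∀ x y y', lk .G x y → lk .G x y' → y = y'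
  um : ∀ x a b, lk .U x a → lk .M x b → False
  ug : ∀ x a b, lk .U x a → lk .G x b → False
  top : ∀ κ q w, lk .T κ q → lk .S q w → False
  bsLinks : ∀ z1 z2 z3 z4, bs z1 z2 z3 z4 → lk .S z1 z2 ∧ lk .S z2 z3 ∧ lk .S z3 z4 ∧
    lk .D z2 z4 ∧ lk .G z4 z1 ∧ lk .M z4 z3 ∧ lk .U z3 z2 ∧ lk .U z2 z1
  bsTop : ∀ z1 z2 z3 z4 w, bs z1 z2 z3 z4 → lk .S w z1 → False

/-- The moves of the dynamic edges in a world. A state is `(d, x, y)` with `d = false` for `P1`
and `d = true` for `P2`. -/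
inductive Stp {E : Type} (w : World E) : Bool × E × E → Bool × E × E → Prop
  | du (t a b s s' y : E) : w.lk .S t a → w.lk .S a b → w.lk .S s s' → w.lk .D s t →
      w.lk .D s' b → w.lk .U a t → w.lk .U b a → w.lk .U s' s → Stp w (false, t, y) (false, b, y)
  | dm (t a b s s' i i' y : E) : w.lk .S t a → w.lk .S a b → w.lk .S s s' → w.lk .D s t →
      w.lk .D s' b → w.lk .U a t → w.lk .M b a → w.lk .M s' s → w.lk .G s' i → w.lk .G b i' →
      w.lk .S i i' → Stp w (false, t, y) (false, b, y)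
  | top (q κ' κ y : E) : w.lk .G q κ → w.lk .S κ' κ → w.lk .M κ κ' → w.lk .T κ q →
      Stp w (false, q, y) (true, q, y)
  | dn (a b y : E) : w.lk .S a b → Stp w (true, a, y) (true, b, y)
  | base (z1 z2 z3 z4 y y' : E) : w.bs z1 z2 z3 z4 → w.lk .S y y' →
      Stp w (true, z4, y) (false, z4, y')

/-- B1: a pure run is short unless a special number is at most the size of the world. -/
def stRun : Prop :=
  ∀ (E : Type) [Fintype E] (w : World E) (r : ℕ) (s : ℕ → Bool × E × E),
    (∀ i j, i ≤ r → j ≤ r → s i = s j → i = j) →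
    (∀ i, i < r → Stp w (s i) (s (i + 1)) ∨ Stp w (s (i + 1)) (s i)) →
    r + 1 ≤ 6 * Fintype.card E ∨
      ∃ l, 2 ≤ l ∧ 2 ^ (2 ^ l + 1) ≤ Fintype.card E ∧
        r + 1 ≤ 2 * 2 ^ (2 ^ l + 1) * Fintype.card E

end MPaef1a0

end

section

/-!
Items A7 and A8: connectivity of the static patterns and the splitting of the dynamic rules.
-/

set_option autoImplicit false

namespace MPaef1a0

open SimpleGraph

/-- Spreading along the links. -/
theorem patConn_aux {r : RK} (z : Fin (ne r)) (A : Set (Fin (ne r))) (hA : A.Nonempty)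
    (h : ∀ x, x ∈ A ↔ z ∈ A) : A = Set.univ := by
  obtain ⟨w, hw⟩ := hA
  have hz : z ∈ A := (h w).1 hw
  exact Set.eq_univ_of_forall fun x => (h x).2 hz

theorem patConn : stPatConn := by
  intro r hr A hA hlk
  cases r with
  | Du => exact absurd hr (by decide)
  | Dm => exact absurd hr (by decide)
  | Top => exact absurd hr (by decide)
  | Dn => exact absurd hr (by decide)
  | Base => exact absurd hr (by decide)
  | DuX =>
    refine patConn_aux (r := .DuX) (0 : Fin 5) A hA ?_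
    have h1 := hlk .S (0 : Fin 5) (1 : Fin 5) (by decide)
    have h2 := hlk .S (1 : Fin 5) (2 : Fin 5) (by decide)
    have h3 := hlk .S (3 : Fin 5) (4 : Fin 5) (by decide)
    have h4 := hlk .D (3 : Fin 5) (0 : Fin 5) (by decide)
    change ∀ x : Fin 5, _
    rw [Fin.forall_fin_succ, Fin.forall_fin_succ, Fin.forall_fin_succ, Fin.forall_fin_succ,
      Fin.forall_fin_succ]
    exact ⟨Iff.rfl, h1.symm, h2.symm.trans h1.symm, h4, h3.symm.trans h4, fun x => x.elim0⟩
  | DmX =>
    refine patConn_aux (r := .DmX) (0 : Fin 7) A hA ?_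
    have h1 := hlk .S (0 : Fin 7) (1 : Fin 7) (by decide)
    have h2 := hlk .S (1 : Fin 7) (2 : Fin 7) (by decide)
    have h3 := hlk .S (3 : Fin 7) (4 : Fin 7) (by decide)
    have h4 := hlk .D (3 : Fin 7) (0 : Fin 7) (by decide)
    have h5 := hlk .G (4 : Fin 7) (5 : Fin 7) (by decide)
    have h6 := hlk .G (2 : Fin 7) (6 : Fin 7) (by decide)
    change ∀ x : Fin 7, _
    rw [Fin.forall_fin_succ, Fin.forall_fin_succ, Fin.forall_fin_succ, Fin.forall_fin_succ,
      Fin.forall_fin_succ, Fin.forall_fin_succ, Fin.forall_fin_succ]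
    exact ⟨Iff.rfl, h1.symm, h2.symm.trans h1.symm, h4, h3.symm.trans h4,
      h5.symm.trans (h3.symm.trans h4), h6.symm.trans (h2.symm.trans h1.symm),
      fun x => x.elim0⟩
  | TopX =>
    refine patConn_aux (r := .TopX) (0 : Fin 3) A hA ?_
    have h1 := hlk .G (0 : Fin 3) (2 : Fin 3) (by decide)
    have h2 := hlk .S (1 : Fin 3) (2 : Fin 3) (by decide)
    change ∀ x : Fin 3, _
    rw [Fin.forall_fin_succ, Fin.forall_fin_succ, Fin.forall_fin_succ]
    exact ⟨Iff.rfl, h2.trans h1.symm, h1.symm, fun x => x.elim0⟩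
  | SS =>
    refine patConn_aux (r := .SS) (0 : Fin 2) A hA ?_
    have h1 := hlk .S (0 : Fin 2) (1 : Fin 2) (by decide)
    change ∀ x : Fin 2, _
    rw [Fin.forall_fin_succ, Fin.forall_fin_succ]
    exact ⟨Iff.rfl, h1.symm, fun x => x.elim0⟩
  | BaseX =>
    refine patConn_aux (r := .BaseX) (0 : Fin 4) A hA ?_
    have h1 := hlk .S (0 : Fin 4) (1 : Fin 4) (by decide)
    have h2 := hlk .S (1 : Fin 4) (2 : Fin 4) (by decide)
    have h3 := hlk .S (2 : Fin 4) (3 : Fin 4) (by decide)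
    change ∀ x : Fin 4, _
    rw [Fin.forall_fin_succ, Fin.forall_fin_succ, Fin.forall_fin_succ, Fin.forall_fin_succ]
    exact ⟨Iff.rfl, h1.symm, h2.symm.trans h1.symm, h3.symm.trans (h2.symm.trans h1.symm),
      fun x => x.elim0⟩

theorem split_sl (r : RK) (hr : isStatic r = false) :
    sl r = sl (xp r) ++ [(SK.S, ne r - 2, ne r - 1)] := by
  cases r <;> first | rfl | exact absurd hr (by decide)

theorem split_sl_bd (r : RK) (hr : isStatic r = false) :
    ∀ p ∈ sl (xp r), p.2.1 < ne (xp r) ∧ p.2.2 < ne (xp r) := by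
  revert hr
  cases r <;> decide

theorem split_dl_bd (r : RK) (hr : isStatic r = false) :
    ∀ p ∈ dl r, p.2.1 < ne (xp r) ∧ ne (xp r) ≤ p.2.2 ∧ p.2.2 < ne r := by
  revert hr
  cases r <;> decide

theorem split : stSplit := by
  intro r hr
  refine ⟨?_, ?_, ?_, ?_, ?_⟩
  · revert hr
    cases r <;> decide
  · revert hr
    cases r <;> decide
  · intro k i j
    rw [split_sl r hr, List.mem_append, List.mem_singleton, Prod.mk.injEq, Prod.mk.injEq]
  · exact fun k i j h => split_sl_bd r hr (k, i, j) h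
  · exact fun d i j h => split_dl_bd r hr (d, i, j) h

end MPaef1a0

end

section

/-!
# A6: the rule graphs are 2-edge-connected
-/

set_option autoImplicit false

namespace MPaef1a0

open SimpleGraph

namespace PatTwoEC

/-! ### The tag -/

theorem tag_deg : ∀ a : Fin 12, (Finset.univ.filter fun b => tag.Adj a b).card = 8 := by
  decide +kernel

/-- A vertex of a small set has two neighbours outside. -/
theorem tag_small (A : Finset (Fin 12)) (hA : A.card ≤ 6) (a : Fin 12) (ha : a ∈ A) :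
    ∃ b b', b ∉ A ∧ b' ∉ A ∧ b ≠ b' ∧ tag.Adj a b ∧ tag.Adj a b' := by
  have h1 : ((Finset.univ.filter fun b => tag.Adj a b) \ A) =
      (Finset.univ.filter fun b => tag.Adj a b) \ (A.erase a) := by
    ext b
    simp only [Finset.mem_sdiff, Finset.mem_filter, Finset.mem_univ, true_and, Finset.mem_erase]
    constructor
    · rintro ⟨h, h'⟩
      exact ⟨h, fun h'' => h' h''.2⟩
    · rintro ⟨h, h'⟩
      exact ⟨h, fun h'' => h' ⟨h.ne', h''⟩⟩
  have h2 : 1 < ((Finset.univ.filter fun b => tag.Adj a b) \ A).card := by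
    rw [h1]
    have h3 := Finset.le_card_sdiff (A.erase a) (Finset.univ.filter fun b => tag.Adj a b)
    rw [tag_deg a, Finset.card_erase_of_mem ha] at h3
    omega
  obtain ⟨b, hb, b', hb', hne⟩ := Finset.one_lt_card.mp h2
  simp only [Finset.mem_sdiff, Finset.mem_filter, Finset.mem_univ, true_and] at hb hb'
  exact ⟨b, b', hb.2, hb'.2, hne, hb.1, hb'.1⟩

theorem tag_cut (A : Set (Fin 12)) (a0 b0 : Fin 12) (ha : a0 ∈ A) (hb : b0 ∉ A) :
    ∃ a b a' b', a ∈ A ∧ b ∉ A ∧ a' ∈ A ∧ b' ∉ A ∧ tag.Adj a b ∧ tag.Adj a' b' ∧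
      (a ≠ a' ∨ b ≠ b') := by
  classical
  by_cases h : A.toFinset.card ≤ 6
  · obtain ⟨b, b', hb1, hb2, hne, h1, h2⟩ := tag_small A.toFinset h a0 (by simpa using ha)
    exact ⟨a0, b, a0, b', ha, by simpa using hb1, ha, by simpa using hb2, h1, h2, Or.inr hne⟩
  · have h' : (A.toFinsetᶜ).card ≤ 6 := by
      rw [Finset.card_compl, Fintype.card_fin]
      omega
    obtain ⟨a, a', ha1, ha2, hne, h1, h2⟩ := tag_small (A.toFinsetᶜ) h' b0 (by simpa using hb)
    refine ⟨a, b0, a', b0, by simpa using ha1, hb, by simpa using ha2, hb, h1.symm, h2.symm,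
      Or.inl hne⟩

/-! ### The links -/

theorem links {α : Type} (r : RK) (β : ℕ → α) (H : ∀ l ∈ sl r, β l.2.1 = β l.2.2) :
    (∀ i < ne r, β i = β 0) ∨ (∃ l ∈ dl r, ∃ l' ∈ dl r, l ≠ l' ∧ ¬ (β l.2.1 = β l.2.2) ∧
      β l.2.1 = β l'.2.1 ∧ β l.2.2 = β l'.2.2) := by
  cases r <;> simp only [sl, List.forall_mem_cons, List.not_mem_nil,
    IsEmpty.forall_iff, implies_true, and_true] at H <;>
    simp only [dl, ne, List.mem_cons]
  · by_cases h : β 0 = β 5
    · left
      intro i hi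
      interval_cases i <;> grind
    · right
      refine ⟨_, Or.inl rfl, _, Or.inr (Or.inl rfl), by simp, h, ?_, ?_⟩ <;> grind
  · by_cases h : β 0 = β 7
    · left
      intro i hi
      interval_cases i <;> grind
    · right
      refine ⟨_, Or.inl rfl, _, Or.inr (Or.inl rfl), by simp, h, ?_, ?_⟩ <;> grind
  · by_cases h : β 0 = β 3
    · left
      intro i hi
      interval_cases i <;> grind
    · right
      refine ⟨_, Or.inl rfl, _, Or.inr (Or.inl rfl), by simp, h, ?_, ?_⟩ <;> grind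
  · by_cases h : β 0 = β 2
    · left
      intro i hi
      interval_cases i <;> grind
    · right
      refine ⟨_, Or.inl rfl, _, Or.inr (Or.inl rfl), by simp, h, ?_, ?_⟩ <;> grind
  · by_cases h : β 3 = β 4
    · left
      intro i hi
      interval_cases i <;> grind
    · right
      refine ⟨_, Or.inl rfl, _, Or.inr (Or.inl rfl), by simp, h, ?_, ?_⟩ <;> grind
  all_goals
    left
    intro i hi
    interval_cases i <;> grind

theorem sl_bound : ∀ r : RK, ∀ l ∈ sl r, l.2.1 < ne r ∧ l.2.2 < ne r := by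
  decide +kernel

theorem dl_bound : ∀ r : RK, ∀ l ∈ dl r, l.2.1 < ne r ∧ l.2.2 < ne r := by
  decide +kernel

end PatTwoEC

open PatTwoEC in
/-- A6. -/
theorem patTwoEC : stPatTwoEC := by
  intro r A _ hA hB
  obtain ⟨⟨x1, c1⟩, h1⟩ := hA
  obtain ⟨⟨x2, c2⟩, -, h2⟩ := hB
  by_cases hsplit : ∃ x a b, (x, a) ∈ A ∧ (x, b) ∉ A
  · obtain ⟨x, a0, b0, ha, hb⟩ := hsplit
    obtain ⟨a, b, a', b', h3, h4, h5, h6, h7, h8, h9⟩ := tag_cut {c | (x, c) ∈ A} a0 b0 ha hb
    refine ⟨(x, a), (x, b), (x, a'), (x, b'), h3, ⟨trivial, h4⟩, h5, ⟨trivial, h6⟩,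
      Or.inl ⟨rfl, h7⟩, Or.inl ⟨rfl, h8⟩, ?_⟩
    rcases h9 with h9 | h9
    · exact Or.inl fun h => h9 (Prod.mk.inj h).2
    · exact Or.inr fun h => h9 (Prod.mk.inj h).2
  · push Not at hsplit
    have full : ∀ x a b, (x, a) ∈ A → (x, b) ∈ A := hsplit
    -- static links
    by_cases hst : ∃ k x y, (pat r).lk k x y ∧ ¬ ((x, (0 : Fin 12)) ∈ A ↔ (y, (0 : Fin 12)) ∈ A)
    · obtain ⟨k, x, y, hl, hxy⟩ := hst
      have hne : x ≠ y := by
        rintro rfl
        exact hxy Iff.rfl
      have e0 : (Phi (pat r)).Adj (x, op k) (y, 0) :=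
        Or.inr ⟨hne, Or.inl (Or.inl ⟨k, hl, rfl, Or.inl rfl⟩)⟩
      have e1 : (Phi (pat r)).Adj (x, op k) (y, 1) :=
        Or.inr ⟨hne, Or.inl (Or.inl ⟨k, hl, rfl, Or.inr rfl⟩)⟩
      by_cases hx : (x, (0 : Fin 12)) ∈ A
      · have hy : (y, (0 : Fin 12)) ∉ A := fun hy => hxy ⟨fun _ => hy, fun _ => hx⟩
        refine ⟨(x, op k), (y, 0), (x, op k), (y, 1), full _ _ _ hx, ⟨trivial, hy⟩,
          full _ _ _ hx, ⟨trivial, fun h => hy (full _ _ _ h)⟩, e0, e1, Or.inr ?_⟩
        intro h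
        exact absurd (Prod.mk.inj h).2 (by decide)
      · have hy : (y, (0 : Fin 12)) ∈ A := by
          by_contra hy
          exact hxy ⟨fun h => absurd h hx, fun h => absurd h hy⟩
        refine ⟨(y, 0), (x, op k), (y, 1), (x, op k), hy, ⟨trivial, fun h => hx (full _ _ _ h)⟩,
          full _ _ _ hy, ⟨trivial, fun h => hx (full _ _ _ h)⟩, e0.symm, e1.symm, Or.inl ?_⟩
        intro h
        exact absurd (Prod.mk.inj h).2 (by decide)
    · push Not at hst
      let β : ℕ → Prop := fun i => ∃ h : i < ne r, ((⟨i, h⟩ : Fin (ne r)), (0 : Fin 12)) ∈ A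
      have hβ : ∀ x : Fin (ne r), β x.val ↔ (x, (0 : Fin 12)) ∈ A := fun x =>
        ⟨fun ⟨_, h⟩ => h, fun h => ⟨x.2, h⟩⟩
      have hβ' : ∀ i (h : i < ne r), β i ↔ ((⟨i, h⟩ : Fin (ne r)), (0 : Fin 12)) ∈ A := fun i h =>
        hβ ⟨i, h⟩
      have H : ∀ l ∈ sl r, β l.2.1 = β l.2.2 := by
        intro l hl
        obtain ⟨b1, b2⟩ := sl_bound r l hl
        rw [eq_iff_iff, hβ' _ b1, hβ' _ b2]
        exact hst l.1 ⟨l.2.1, b1⟩ ⟨l.2.2, b2⟩ hl
      rcases links r β H with h | ⟨l, hl, l', hl', hne, hx, hs, ht⟩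
      · exfalso
        apply h2
        apply full x2 0
        rw [← hβ x2, h x2.val x2.2, ← h x1.val x1.2, hβ x1]
        exact full x1 c1 0 h1
      · obtain ⟨d, i, j⟩ := l
        obtain ⟨d', i', j'⟩ := l'
        obtain ⟨b1, b2⟩ := dl_bound r _ hl
        obtain ⟨b1', b2'⟩ := dl_bound r _ hl'
        simp only [eq_iff_iff] at b1 b2 b1' b2' hx hs ht
        have hij : i ≠ j := by
          rintro rfl
          exact hx Iff.rfl
        have hij' : i' ≠ j' := by
          rintro rfl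
          exact hx (hs.trans ht.symm)
        have e0 : (Phi (pat r)).Adj (⟨i, b1⟩, pp d) (⟨j, b2⟩, rp d) :=
          Or.inr ⟨fun h => hij (Fin.mk.inj_iff.mp h), Or.inl (Or.inr ⟨d, hl, rfl, rfl⟩)⟩
        have e1 : (Phi (pat r)).Adj (⟨i', b1'⟩, pp d') (⟨j', b2'⟩, rp d') :=
          Or.inr ⟨fun h => hij' (Fin.mk.inj_iff.mp h), Or.inl (Or.inr ⟨d', hl', rfl, rfl⟩)⟩
        have hpr : ((⟨i, b1⟩ : Fin (ne r)), pp d) ≠ (⟨i', b1'⟩, pp d') ∨
            ((⟨j, b2⟩ : Fin (ne r)), rp d) ≠ (⟨j', b2'⟩, rp d') := by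
          by_contra hcon
          push Not at hcon
          obtain ⟨q1, q2⟩ := hcon
          have q3 := Fin.mk.inj_iff.mp (Prod.mk.inj q1).1
          have q4 := Fin.mk.inj_iff.mp (Prod.mk.inj q2).1
          have q5 : d = d' := by
            have := (Prod.mk.inj q1).2
            revert this
            cases d <;> cases d' <;> simp [pp]
          apply hne
          rw [q3, q4, q5]
        rw [hβ' i b1, hβ' j b2] at hx
        rw [hβ' i b1, hβ' i' b1'] at hs
        rw [hβ' j b2, hβ' j' b2'] at ht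
        by_cases hi : ((⟨i, b1⟩ : Fin (ne r)), (0 : Fin 12)) ∈ A
        · have hj : ((⟨j, b2⟩ : Fin (ne r)), (0 : Fin 12)) ∉ A := fun hj =>
            hx ⟨fun _ => hj, fun _ => hi⟩
          exact ⟨_, _, _, _, full _ _ _ hi, ⟨trivial, fun h => hj (full _ _ _ h)⟩,
            full _ _ _ (hs.mp hi), ⟨trivial, fun h => hj (ht.mpr (full _ _ _ h))⟩, e0, e1, hpr⟩
        · have hj : ((⟨j, b2⟩ : Fin (ne r)), (0 : Fin 12)) ∈ A := by
            by_contra hj
            exact hx ⟨fun h => absurd h hi, fun h => absurd h hj⟩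
          exact ⟨_, _, _, _, full _ _ _ hj, ⟨trivial, fun h => hi (full _ _ _ h)⟩,
            full _ _ _ (ht.mp hj), ⟨trivial, fun h => hi (hs.mpr (full _ _ _ h))⟩, e0.symm,
            e1.symm, hpr.symm⟩

end MPaef1a0

end

section

/-!
Item A3: rigidity of the plain graphs.
-/

set_option autoImplicit false

namespace MPaef1a0

open SimpleGraph

/-- Any two different vertices of the tag have two common neighbours. -/
theorem rigid_two : ∀ a b : Fin 12, a ≠ b → ∃ c c' : Fin 12, c ≠ c' ∧ tag.Adj a c ∧ tag.Adj b c ∧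
    tag.Adj a c' ∧ tag.Adj b c' := by
  decide +kernel

theorem rigid_op : ∀ k k' : SK, op k = op k' → k = k' := by decide

theorem rigid_op_pp : ∀ (k : SK) (d : Bool), op k ≠ pp d := by decide

theorem rigid_op_01 : ∀ (k : SK), op k ≠ 0 ∧ op k ≠ 1 := by decide

theorem rigid_pp_01 : ∀ (d : Bool), pp d ≠ 0 ∧ pp d ≠ 1 := by decide

theorem rigid_pp : ∀ d d' : Bool, pp d = pp d' → d = d' := by decide

theorem rigid_rp_op : ∀ (d : Bool) (k : SK), rp d ≠ op k := by decide

theorem rigid_rp_pp : ∀ d d' : Bool, rp d ≠ pp d' := by decide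

section

variable {E E' : Type} {Δ : TStr E} {Γ : TStr E'}

theorem rigid_tagAdj (Δ : TStr E) (x : E) {a b : Fin 12} (h : tag.Adj a b) :
    (Phi Δ).Adj (x, a) (x, b) := Or.inl ⟨rfl, h⟩

/-- A pair kills at most one of two candidates. -/
theorem rigid_kill (x : E) (a b c c' : Fin 12) (e : Sym2 (E × Fin 12)) (hac : a ≠ c)
    (hbc : b ≠ c) (hac' : a ≠ c') (hbc' : b ≠ c') (hcc : c ≠ c')
    (h1 : ¬ (s((x, a), (x, c)) ≠ e ∧ s((x, b), (x, c)) ≠ e))
    (h2 : ¬ (s((x, a), (x, c')) ≠ e ∧ s((x, b), (x, c')) ≠ e)) : False := by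
  have k1 : (x, c) ∈ e := by
    by_contra hn
    apply h1
    constructor
    · rintro rfl
      exact hn (Sym2.mem_mk_right _ _)
    · rintro rfl
      exact hn (Sym2.mem_mk_right _ _)
  have k2 : (x, c') ∈ e := by
    by_contra hn
    apply h2
    constructor
    · rintro rfl
      exact hn (Sym2.mem_mk_right _ _)
    · rintro rfl
      exact hn (Sym2.mem_mk_right _ _)
  have hne : ((x, c) : E × Fin 12) ≠ (x, c') := by
    intro h
    exact hcc (congrArg Prod.snd h)
  have he : e = s((x, c), (x, c')) := (Sym2.mem_and_mem_iff hne).1 ⟨k1, k2⟩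
  subst he
  apply h1
  constructor
  · intro h
    have h3 : ((x, a) : E × Fin 12) ∈ s((x, c), (x, c')) := by
      rw [← h]
      exact Sym2.mem_mk_left _ _
    rw [Sym2.mem_iff] at h3
    rcases h3 with h3 | h3
    · exact hac (congrArg Prod.snd h3)
    · exact hac' (congrArg Prod.snd h3)
  · intro h
    have h3 : ((x, b) : E × Fin 12) ∈ s((x, c), (x, c')) := by
      rw [← h]
      exact Sym2.mem_mk_left _ _
    rw [Sym2.mem_iff] at h3
    rcases h3 with h3 | h3
    · exact hbc (congrArg Prod.snd h3)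
    · exact hbc' (congrArg Prod.snd h3)

theorem rigid_common (x : E) (e : Sym2 (E × Fin 12)) (a b : Fin 12) (hab : a ≠ b) :
    ∃ c, tag.Adj a c ∧ tag.Adj b c ∧ s((x, a), (x, c)) ≠ e ∧ s((x, b), (x, c)) ≠ e := by
  obtain ⟨c, c', hcc, h1, h2, h3, h4⟩ := rigid_two a b hab
  by_cases k1 : s((x, a), (x, c)) ≠ e ∧ s((x, b), (x, c)) ≠ e
  · exact ⟨c, h1, h2, k1.1, k1.2⟩
  · by_cases k2 : s((x, a), (x, c')) ≠ e ∧ s((x, b), (x, c')) ≠ e
    · exact ⟨c', h3, h4, k2.1, k2.2⟩
    · exact (rigid_kill x a b c c' e h1.ne h2.ne h3.ne h4.ne hcc k1 k2).elim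

theorem rigid_same (hT : stTriangle) (hΓ : Ax Γ) (θ : E × Fin 12 → E' × Fin 12)
    (e : Sym2 (E × Fin 12))
    (hθ : ∀ p q, (Phi Δ).Adj p q → s(p, q) ≠ e → (Phi Γ).Adj (θ p) (θ q)) (x : E)
    (a b : Fin 12) : (θ (x, a)).1 = (θ (x, b)).1 := by
  -- adjacent vertices whose edge is not `e`
  have h1 : ∀ a b : Fin 12, tag.Adj a b → s((x, a), (x, b)) ≠ e →
      (θ (x, a)).1 = (θ (x, b)).1 := by
    intro a b hab he
    obtain ⟨c, c1, c2, c3, c4⟩ := rigid_common x e a b hab.ne
    exact hT E' Γ hΓ (θ (x, a)) (θ (x, b)) (θ (x, c)) (hθ _ _ (rigid_tagAdj Δ x hab) he)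
      (hθ _ _ (rigid_tagAdj Δ x c2) c4) (hθ _ _ (rigid_tagAdj Δ x c1) c3)
  by_cases hab : a = b
  · rw [hab]
  · obtain ⟨c, c1, c2, c3, c4⟩ := rigid_common x e a b hab
    rw [h1 a c c1 c3, h1 b c c2 c4]

end

theorem rigid (hR : stTagRigid) (hT : stTriangle) : stRigid := by
  intro E E' Δ Γ hΓ hlk hdy θ e hinj hθ
  have hs := fun x a b => rigid_same hT hΓ θ e hθ x a b
  have hσ : ∀ x a, (θ (x, a)).2 = a := by
    intro x
    refine hR (fun a => (θ (x, a)).2) (e.map Prod.snd) ?_ ?_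
    · intro a b hab
      have h1 : θ (x, a) = θ (x, b) := Prod.ext (hs x a b) hab
      exact congrArg Prod.snd (hinj h1)
    · intro a b hab he
      have h1 : s((x, a), (x, b)) ≠ e := by
        rintro rfl
        exact he rfl
      rcases hθ _ _ (rigid_tagAdj Δ x hab) h1 with h2 | h2
      · exact h2.2
      · exact absurd (hs x a b) h2.1
  have hψ : ∀ x a, θ (x, a) = ((θ (x, 0)).1, a) := fun x a => Prod.ext (hs x a 0) (hσ x a)
  have hψi : Function.Injective (fun x => (θ (x, 0)).1) := by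
    intro x y hxy
    have h1 : θ (x, 0) = θ (y, 0) := by
      rw [hψ x 0, hψ y 0]
      exact Prod.ext hxy rfl
    exact congrArg Prod.fst (hinj h1)
  refine ⟨fun x => (θ (x, 0)).1, hψi, hψ, ?_, ?_⟩
  · intro k x y hk
    have hxy := hlk k x y hk
    have hadj : ∀ b : Fin 12, b = 0 ∨ b = 1 → (Phi Δ).Adj (x, op k) (y, b) :=
      fun b hb => Or.inr ⟨hxy, Or.inl (Or.inl ⟨k, hk, rfl, hb⟩)⟩
    obtain ⟨b, hb, hbe⟩ : ∃ b : Fin 12, (b = 0 ∨ b = 1) ∧ s((x, op k), (y, b)) ≠ e := by
      by_cases h0 : s((x, op k), (y, (0 : Fin 12))) ≠ e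
      · exact ⟨0, Or.inl rfl, h0⟩
      · refine ⟨1, Or.inr rfl, ?_⟩
        push Not at h0
        rw [← h0]
        intro h
        have h2 : ((y, (1 : Fin 12)) : E × Fin 12) ∈ s((x, op k), (y, (0 : Fin 12))) := by
          rw [← h]
          exact Sym2.mem_mk_right _ _
        rw [Sym2.mem_iff] at h2
        rcases h2 with h2 | h2
        · exact hxy (congrArg Prod.fst h2).symm
        · have := congrArg Prod.snd h2
          simp at this
    have h3 := hθ _ _ (hadj b hb) hbe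
    rw [hψ x (op k), hψ y b] at h3
    rcases h3 with h3 | ⟨-, h3 | h3⟩
    · exact absurd (hψi h3.1) hxy
    · rcases h3 with ⟨k', h4, h5, -⟩ | ⟨d, -, h5, -⟩
      · rw [rigid_op k k' h5]
        exact h4
      · exact absurd h5 (rigid_op_pp k d)
    · exfalso
      rcases h3 with ⟨k', -, h5, -⟩ | ⟨d, -, h5, -⟩
      · have h5' : b = op k' := h5
        rcases hb with hb | hb
        · exact (rigid_op_01 k').1 (h5'.symm.trans hb)
        · exact (rigid_op_01 k').2 (h5'.symm.trans hb)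
      · have h5' : b = pp d := h5
        rcases hb with hb | hb
        · exact (rigid_pp_01 d).1 (h5'.symm.trans hb)
        · exact (rigid_pp_01 d).2 (h5'.symm.trans hb)
  · intro d x y hd he
    have hxy := hdy d x y hd
    have h3 := hθ _ _ (Or.inr ⟨hxy, Or.inl (Or.inr ⟨d, hd, rfl, rfl⟩)⟩) he
    rw [hψ x (pp d), hψ y (rp d)] at h3
    rcases h3 with h3 | ⟨-, h3 | h3⟩
    · exact absurd (hψi h3.1) hxy
    · rcases h3 with ⟨k', -, h5, -⟩ | ⟨d', h4, h5, -⟩
      · exact absurd h5.symm (rigid_op_pp k' d)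
      · rw [rigid_pp d d' h5]
        exact h4
    · exfalso
      rcases h3 with ⟨k', -, h5, -⟩ | ⟨d', -, h5, -⟩
      · exact rigid_rp_op d k' h5
      · exact rigid_rp_pp d d' h5

end MPaef1a0

end

section

/-!
B1: pure runs in a typed world.
-/

set_option autoImplicit false

namespace MPaef1a0

namespace RunItem

variable {E : Type}

/-- Powers of two, at least four. -/
def Pw (i : ℕ) : Prop := ∃ p, 2 ≤ p ∧ i = 2 ^ p

/-- The reconstructed counter: elements `z 1, ..., z t`. -/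
structure St (w : World E) (t : ℕ) (z : ℕ → E) : Prop where
  ev : ∃ h, 2 ≤ h ∧ t = 2 * h
  b4 : w.bs (z 1) (z 2) (z 3) (z 4)
  sl : ∀ i, 1 ≤ i → i < t → w.lk .S (z i) (z (i + 1))
  dl : ∀ i, 2 ≤ i → 2 * i ≤ t → w.lk .D (z i) (z (2 * i))
  ml : ∀ i, 1 ≤ i → i + 1 ≤ t → Pw (i + 1) → w.lk .M (z (i + 1)) (z i)
  ul : ∀ i, 1 ≤ i → i + 1 ≤ t → ¬ Pw (i + 1) → w.lk .U (z (i + 1)) (z i)
  gl : ∀ p, 2 ≤ p → 2 ^ p ≤ t → w.lk .G (z (2 ^ p)) (z (p - 1))

lemma not_pw_odd {h : ℕ} : ¬ Pw (2 * h + 1) := by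
  rintro ⟨p, hp, hp'⟩
  obtain ⟨q, rfl⟩ : ∃ q, p = q + 1 := ⟨p - 1, by omega⟩
  rw [pow_succ] at hp'
  omega

lemma not_pw_small {i : ℕ} (hi : i < 4) : ¬ Pw i := by
  rintro ⟨p, hp, rfl⟩
  have : 2 ^ 2 ≤ 2 ^ p := Nat.pow_le_pow_right (by norm_num) hp
  omega

lemma pw_double {i : ℕ} (hi : 3 ≤ i) : Pw (2 * i) ↔ Pw i := by
  constructor
  · rintro ⟨p, hp, hp'⟩
    obtain ⟨q, rfl⟩ : ∃ q, p = q + 1 := ⟨p - 1, by omega⟩
    rw [pow_succ] at hp'
    refine ⟨q, ?_, by omega⟩
    by_contra hq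
    have h1 : 2 ^ q ≤ 2 ^ 1 := Nat.pow_le_pow_right (by norm_num) (by omega)
    omega
  · rintro ⟨p, hp, rfl⟩
    exact ⟨p + 1, by omega, by rw [pow_succ]; ring⟩

lemma lt_two_pow (p : ℕ) : p < 2 ^ p := Nat.lt_two_pow_self

lemma init (w : World E) {z1 z2 z3 z4 : E} (h : w.bs z1 z2 z3 z4) :
    ∃ z, St w 4 z ∧ z 4 = z4 := by
  obtain ⟨h1, h2, h3, h4, h5, h6, h7, h8⟩ := w.bsLinks _ _ _ _ h
  refine ⟨fun n => if n = 1 then z1 else if n = 2 then z2 else if n = 3 then z3 else z4, ?_, rfl⟩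
  refine ⟨⟨2, le_refl 2, rfl⟩, h, ?_, ?_, ?_, ?_, ?_⟩
  · intro i hi hi'
    interval_cases i
    · exact h1
    · exact h2
    · exact h3
  · intro i hi hi'
    have : i = 2 := by omega
    subst this
    exact h4
  · intro i hi hi' hp
    have h9 : i = 3 := by
      by_contra hne
      exact not_pw_small (by omega) hp
    subst h9
    exact h6
  · intro i hi hi' hp
    have h9 : i ≠ 3 := by
      rintro rfl
      exact hp ⟨2, le_refl 2, rfl⟩
    have h10 : i < 3 := by omega
    interval_cases i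
    · exact h8
    · exact h7
  · intro p hp hp'
    have h9 : p = 2 := by
      by_contra hne
      have : 2 ^ 3 ≤ 2 ^ p := Nat.pow_le_pow_right (by norm_num) (by omega)
      omega
    subst h9
    exact h5

lemma ext {w : World E} {t : ℕ} {z : ℕ → E} (h : St w t z) {a b : E}
    (h1 : w.lk .S (z t) a) (h2 : w.lk .S a b) (h3 : w.lk .D (z (t / 2 + 1)) b)
    (h4 : w.lk .U a (z t)) (h5 : Pw (t + 2) → w.lk .M b a) (h6 : ¬ Pw (t + 2) → w.lk .U b a)
    (h7 : ∀ p, 2 ≤ p → 2 ^ p = t + 2 → w.lk .G b (z (p - 1))) :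
    ∃ z', St w (t + 2) z' ∧ z' (t + 2) = b ∧ ∀ i ≤ t, z' i = z i := by
  obtain ⟨hh, hh2, hht⟩ := h.ev
  set z' : ℕ → E := fun n => if n ≤ t then z n else if n = t + 1 then a else b with hz'
  have e1 : ∀ i ≤ t, z' i = z i := fun i hi => if_pos hi
  have e2 : z' (t + 1) = a := by
    rw [hz']
    simp
  have e3 : z' (t + 2) = b := by
    rw [hz']
    simp
  refine ⟨z', ⟨⟨hh + 1, by omega, by omega⟩, ?_, ?_, ?_, ?_, ?_, ?_⟩, e3, e1⟩
  · rw [e1 1 (by omega), e1 2 (by omega), e1 3 (by omega), e1 4 (by omega)]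
    exact h.b4
  · intro i hi hi'
    rcases lt_trichotomy i t with hlt | heq | hgt
    · rw [e1 i hlt.le, e1 (i + 1) (by omega)]
      exact h.sl i hi hlt
    · subst heq
      rw [e1 i le_rfl, e2]
      exact h1
    · have : i = t + 1 := by omega
      subst this
      rw [e2, e3]
      exact h2
  · intro i hi hi'
    by_cases hle : 2 * i ≤ t
    · rw [e1 i (by omega), e1 (2 * i) hle]
      exact h.dl i hi hle
    · have h8 : 2 * i = t + 2 := by omega
      have h9 : i = t / 2 + 1 := by omega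
      rw [h8, e3, e1 i (by omega), h9]
      exact h3
  · intro i hi hi' hp
    by_cases hle : i + 1 ≤ t
    · rw [e1 (i + 1) hle, e1 i (by omega)]
      exact h.ml i hi hle hp
    · by_cases h8 : i = t
      · exfalso
        rw [h8, hht] at hp
        exact not_pw_odd hp
      · have h9 : i = t + 1 := by omega
        subst h9
        rw [e2, e3]
        exact h5 hp
  · intro i hi hi' hp
    by_cases hle : i + 1 ≤ t
    · rw [e1 (i + 1) hle, e1 i (by omega)]
      exact h.ul i hi hle hp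
    · by_cases h8 : i = t
      · subst h8
        rw [e2, e1 i le_rfl]
        exact h4
      · have h9 : i = t + 1 := by omega
        subst h9
        rw [e2, e3]
        exact h6 hp
  · intro p hp hp'
    have h8 := lt_two_pow p
    by_cases hle : 2 ^ p ≤ t
    · rw [e1 _ hle, e1 (p - 1) (by omega)]
      exact h.gl p hp hle
    · have h9 : 2 ^ p ≠ t + 1 := by
        intro h9
        exact not_pw_odd (h := hh) ⟨p, hp, by omega⟩
      have h10 : 2 ^ p = t + 2 := by omega
      rw [h10, e3, e1 (p - 1) ?_]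
      · exact h7 p hp h10
      · have : p + 1 < 2 ^ p := by
          obtain ⟨q, rfl⟩ : ∃ q, p = q + 2 := ⟨p - 2, by omega⟩
          have := lt_two_pow (q + 1)
          rw [pow_succ] at *
          omega
        omega

/-- The top move can be made at `z t`. -/
def Top (w : World E) (q : E) : Prop :=
  ∃ κ' κ, w.lk .G q κ ∧ w.lk .S κ' κ ∧ w.lk .M κ κ' ∧ w.lk .T κ q

/-- A complete counter with `z 4 = x`. -/
def Goal (w : World E) (x : E) : Prop := ∃ t z, St w t z ∧ z 4 = x ∧ Top w (z t)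

/-- Moves in both directions. -/
def Sym (w : World E) (a b : Bool × E × E) : Prop := Stp w a b ∨ Stp w b a

lemma du_ext {w : World E} {t : ℕ} {z : ℕ → E} (h : St w t z) {a b s s' : E}
    (h1 : w.lk .S (z t) a) (h2 : w.lk .S a b) (h3 : w.lk .S s s') (h4 : w.lk .D s (z t))
    (h5 : w.lk .D s' b) (h6 : w.lk .U a (z t)) (h7 : w.lk .U b a) (h8 : w.lk .U s' s) :
    ∃ z', St w (t + 2) z' ∧ z' (t + 2) = b ∧ ∀ i ≤ t, z' i = z i := by
  obtain ⟨hh, hh2, hht⟩ := h.ev
  have e1 : s = z hh := w.dinj _ _ _ h4 (by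
    have := h.dl hh hh2 (by omega)
    rwa [← hht] at this)
  subst e1
  have e2 : s' = z (hh + 1) := w.sfun _ _ _ h3 (h.sl hh (by omega) (by omega))
  subst e2
  have hnp : ¬ Pw (hh + 1) := by
    intro hp
    exact w.um _ _ _ h8 (h.ml hh (by omega) (by omega) hp)
  have hnp' : ¬ Pw (t + 2) := by
    intro hp
    apply hnp
    rw [← pw_double (by omega)]
    have : 2 * (hh + 1) = t + 2 := by omega
    rw [this]
    exact hp
  have e3 : t / 2 + 1 = hh + 1 := by omega
  refine ext h h1 h2 ?_ h6 (fun hp => absurd hp hnp') (fun _ => h7) ?_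
  · rw [e3]
    exact h5
  · intro p hp hp'
    exact absurd ⟨p, hp, hp'.symm⟩ hnp'

lemma dm_ext {w : World E} {t : ℕ} {z : ℕ → E} (h : St w t z) {a b s s' i i' : E}
    (h1 : w.lk .S (z t) a) (h2 : w.lk .S a b) (h3 : w.lk .S s s') (h4 : w.lk .D s (z t))
    (h5 : w.lk .D s' b) (h6 : w.lk .U a (z t)) (h7 : w.lk .M b a) (h8 : w.lk .M s' s)
    (h9 : w.lk .G s' i) (h10 : w.lk .G b i') (h11 : w.lk .S i i') :
    ∃ z', St w (t + 2) z' ∧ z' (t + 2) = b ∧ ∀ i ≤ t, z' i = z i := by
  obtain ⟨hh, hh2, hht⟩ := h.ev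
  have e1 : s = z hh := w.dinj _ _ _ h4 (by
    have := h.dl hh hh2 (by omega)
    rwa [← hht] at this)
  subst e1
  have e2 : s' = z (hh + 1) := w.sfun _ _ _ h3 (h.sl hh (by omega) (by omega))
  subst e2
  have hp : Pw (hh + 1) := by
    by_contra hnp
    exact w.um _ _ _ (h.ul hh (by omega) (by omega) hnp) h8
  obtain ⟨p, hp2, hpe⟩ := hp
  have hpl := lt_two_pow p
  have hp' : Pw (t + 2) := ⟨p + 1, by omega, by rw [pow_succ]; omega⟩
  have e3 : i = z (p - 1) := by
    apply w.gfun _ _ _ h9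
    rw [hpe]
    exact h.gl p hp2 (by omega)
  subst e3
  have e4 : i' = z p := by
    apply w.sfun _ _ _ h11
    have := h.sl (p - 1) (by omega) (by omega)
    have e5 : p - 1 + 1 = p := by omega
    rwa [e5] at this
  subst e4
  have e6 : t / 2 + 1 = hh + 1 := by omega
  refine ext h h1 h2 ?_ h6 (fun _ => h7) (fun hn => absurd hp' hn) ?_
  · rw [e6]
    exact h5
  · intro q hq hq'
    have : 2 ^ q = 2 ^ (p + 1) := by
      rw [pow_succ]
      omega
    have e7 : q = p + 1 := Nat.pow_right_injective (le_refl 2) this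
    subst e7
    exact h10

/-- One more step of the reconstruction. -/
lemma core (w : World E) (u : ℕ → Bool × E × E) (M : ℕ) (z1 z2 z3 z4 y0 y : E)
    (hinj : ∀ i j, i ≤ M + 1 → j ≤ M + 1 → u i = u j → i = j)
    (hstep : ∀ i, i ≤ M → Sym w (u i) (u (i + 1))) (h0 : u 0 = (true, z4, y0))
    (h1 : u 1 = (false, z4, y)) (hb : w.bs z1 z2 z3 z4) (hy : w.lk .S y0 y) :
    ∀ k, k ≤ M → Goal w z4 ∨ ∃ z, St w (4 + 2 * k) z ∧ z 4 = z4 ∧
      u (1 + k) = (false, z (4 + 2 * k), y) ∧ (1 ≤ k → u k = (false, z (2 + 2 * k), y)) := by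
  intro k
  induction k with
  | zero =>
    intro _
    obtain ⟨z, hz, hz4⟩ := init w hb
    refine Or.inr ⟨z, hz, hz4, ?_, fun h => absurd h (by norm_num)⟩
    rw [mul_zero, add_zero, add_zero, hz4]
    exact h1
  | succ k ih =>
    intro hk
    rcases ih (by omega) with hg | ⟨z, hz, hz4, hu, hprev⟩
    · exact Or.inl hg
    have hsym := hstep (1 + k) (by omega)
    have hidx : 1 + k + 1 = 1 + (k + 1) := by ring
    rw [hidx] at hsym
    -- predecessors in the chain
    have hpre : ∀ a b : E, w.lk .S a b → w.lk .S b (z (4 + 2 * k)) →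
        b = z (3 + 2 * k) ∧ a = z (2 + 2 * k) := by
      intro a b hab hb'
      have e1 : b = z (3 + 2 * k) := by
        apply w.sinj _ _ _ hb'
        have := hz.sl (3 + 2 * k) (by omega) (by omega)
        have e : 3 + 2 * k + 1 = 4 + 2 * k := by ring
        rwa [e] at this
      subst e1
      refine ⟨rfl, ?_⟩
      apply w.sinj _ _ _ hab
      have := hz.sl (2 + 2 * k) (by omega) (by omega)
      have e : 2 + 2 * k + 1 = 3 + 2 * k := by ring
      rwa [e] at this
    have hidx2 : 4 + 2 * (k + 1) = 4 + 2 * k + 2 := by ring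
    have hidx3 : 2 + 2 * (k + 1) = 4 + 2 * k := by ring
    have hfin : ∀ b : E, (∃ z', St w (4 + 2 * k + 2) z' ∧ z' (4 + 2 * k + 2) = b ∧
        ∀ i ≤ 4 + 2 * k, z' i = z i) → u (1 + (k + 1)) = (false, b, y) →
        ∃ z, St w (4 + 2 * (k + 1)) z ∧ z 4 = z4 ∧
          u (1 + (k + 1)) = (false, z (4 + 2 * (k + 1)), y) ∧
          (1 ≤ k + 1 → u (k + 1) = (false, z (2 + 2 * (k + 1)), y)) := by
      rintro b ⟨z', g1, g2, g3⟩ hub
      rw [hidx2, hidx3]
      refine ⟨z', g1, ?_, ?_, ?_⟩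
      · rw [g3 4 (by omega)]
        exact hz4
      · rw [g2]
        exact hub
      · intro _
        rw [g3 _ le_rfl, add_comm k 1]
        exact hu
    rw [hu] at hsym
    rcases hsym with hs | hs
    · generalize hv : u (1 + (k + 1)) = v at hs
      cases hs with
      | du t a b s s' y g1 g2 g3 g4 g5 g6 g7 g8 =>
        right
        rw [← hv]
        exact hfin b (du_ext hz g1 g2 g3 g4 g5 g6 g7 g8) hv
      | dm t a b s s' i i' y g1 g2 g3 g4 g5 g6 g7 g8 g9 g10 g11 =>
        right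
        rw [← hv]
        exact hfin b (dm_ext hz g1 g2 g3 g4 g5 g6 g7 g8 g9 g10 g11) hv
      | top q κ' κ y g1 g2 g3 g4 =>
        exact Or.inl ⟨4 + 2 * k, z, hz, hz4, κ', κ, g1, g2, g3, g4⟩
    · exfalso
      have hback : ∀ a : E, a = z (2 + 2 * k) → u (1 + (k + 1)) = (false, a, y) → 1 ≤ k →
          False := by
        intro a ha hu' hk1
        have g := hprev hk1
        rw [ha, ← g] at hu'
        have := hinj _ _ (by omega) (by omega) hu'
        omega
      generalize hv : u (1 + (k + 1)) = v at hs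
      generalize hx : z (4 + 2 * k) = x at hs
      cases hs with
      | du t a b s s' y g1 g2 g3 g4 g5 g6 g7 g8 =>
        subst hx
        obtain ⟨e1, e2⟩ := hpre _ _ g1 g2
        by_cases hk1 : 1 ≤ k
        · exact hback _ e2 hv hk1
        · have hk0 : k = 0 := by omega
          subst hk0
          have g9 := hz.ml 3 (by norm_num) (by norm_num) ⟨2, le_refl 2, rfl⟩
          exact w.um _ _ _ g7 g9
      | dm t a b s s' i i' y g1 g2 g3 g4 g5 g6 g7 g8 g9 g10 g11 =>
        subst hx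
        obtain ⟨e1, e2⟩ := hpre _ _ g1 g2
        by_cases hk1 : 1 ≤ k
        · exact hback _ e2 hv hk1
        · have hk0 : k = 0 := by omega
          subst hk0
          have g12 := hz.dl 2 le_rfl (by norm_num)
          have e3 : s' = z 2 := w.dinj _ _ _ g5 g12
          subst e3
          exact w.um _ _ _ (hz.ul 1 le_rfl (by norm_num) (not_pw_small (by norm_num))) g8
      | base a1 a2 a3 a4 y' y'' g1 g2 =>
        subst hx
        obtain ⟨b1, b2, b3, b4, b5, b6, b7, b8⟩ := w.bsLinks _ _ _ _ g1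
        by_cases hk1 : 1 ≤ k
        · obtain ⟨e1, e2⟩ := hpre _ _ b2 b3
          subst e2
          have e3 : a1 = z (1 + 2 * k) := by
            apply w.sinj _ _ _ b1
            have := hz.sl (1 + 2 * k) (by omega) (by omega)
            have e : 1 + 2 * k + 1 = 2 + 2 * k := by ring
            rwa [e] at this
          subst e3
          have g3 := hz.sl (2 * k) (by omega) (by omega)
          have e : 2 * k + 1 = 1 + 2 * k := by ring
          rw [e] at g3
          exact w.bsTop _ _ _ _ _ g1 g3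
        · have hk0 : k = 0 := by omega
          subst hk0
          have e1 : y' = y0 := w.sinj _ _ _ g2 hy
          subst e1
          have e2 : u (1 + (0 + 1)) = u 0 := by
            rw [hv, h0, ← hz4]
          have := hinj _ _ (by omega) (by omega) e2
          omega

lemma special {w : World E} {t : ℕ} {z : ℕ → E} (h : St w t z) (hT : Top w (z t)) :
    ∃ l, 2 ≤ l ∧ t = 2 ^ (2 ^ l + 1) := by
  obtain ⟨κ', κ, g1, g2, g3, g4⟩ := hT
  obtain ⟨hh, hh2, hht⟩ := h.ev
  have et : t - 1 + 1 = t := by omega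
  have hp : Pw t := by
    by_contra hnp
    have := h.ul (t - 1) (by omega) (by omega) (by rwa [et])
    rw [et] at this
    exact w.ug _ _ _ this g1
  obtain ⟨p, hp2, hpe⟩ := hp
  have hpl := lt_two_pow p
  have e1 : κ = z (p - 1) := by
    apply w.gfun _ _ _ g1
    rw [hpe]
    exact h.gl p hp2 (by omega)
  subst e1
  by_cases hp3 : p = 2
  · subst hp3
    exact (w.bsTop _ _ _ _ _ h.b4 g2).elim
  · have ep : p - 2 + 1 = p - 1 := by omega
    have hpw : Pw (p - 1) := by
      by_contra hn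
      have := h.ul (p - 2) (by omega) (by omega) (by rwa [ep])
      rw [ep] at this
      exact w.um _ _ _ this g3
    obtain ⟨l, hl, hle⟩ := hpw
    have e2 : p = 2 ^ l + 1 := by omega
    exact ⟨l, hl, by rw [hpe, e2]⟩

lemma dist {w : World E} {t : ℕ} {z : ℕ → E} (h : St w t z) :
    ∀ i j, 1 ≤ i → i < j → j ≤ t → z i ≠ z j := by
  intro i
  induction i with
  | zero =>
    intro j hi
    omega
  | succ i ih =>
    intro j _ hij hjt heq
    have ej : j - 1 + 1 = j := by omega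
    have h1 := h.sl (j - 1) (by omega) (by omega)
    rw [ej] at h1
    by_cases hi : i = 0
    · subst hi
      rw [← heq] at h1
      exact w.bsTop _ _ _ _ _ h.b4 h1
    · have h2 := h.sl i (by omega) (by omega)
      rw [← heq] at h1
      exact ih (j - 1) (by omega) (by omega) (by omega) (w.sinj _ _ _ h2 h1)

/-- `x` is one of the elements of the counter. -/
def Cl (t : ℕ) (z : ℕ → E) (x : E) : Prop := ∃ i, 1 ≤ i ∧ i ≤ t ∧ x = z i

lemma s_iff {w : World E} {t : ℕ} {z : ℕ → E} (h : St w t z) (hT : Top w (z t)) {a b : E}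
    (hS : w.lk .S a b) : Cl t z a ↔ Cl t z b := by
  constructor
  · rintro ⟨i, hi, hit, rfl⟩
    by_cases hlt : i < t
    · exact ⟨i + 1, by omega, by omega, w.sfun _ _ _ hS (h.sl i hi hlt)⟩
    · have : i = t := by omega
      subst this
      obtain ⟨κ', κ, g1, g2, g3, g4⟩ := hT
      exact (w.top _ _ _ g4 hS).elim
  · rintro ⟨i, hi, hit, rfl⟩
    by_cases h1 : i = 1
    · subst h1
      exact (w.bsTop _ _ _ _ _ h.b4 hS).elim
    · have e : i - 1 + 1 = i := by omega
      have h2 := h.sl (i - 1) (by omega) (by omega)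
      rw [e] at h2
      exact ⟨i - 1, by omega, by omega, w.sinj _ _ _ hS h2⟩

lemma stp_iff {w : World E} {t : ℕ} {z : ℕ → E} (h : St w t z) (hT : Top w (z t))
    {a b : Bool × E × E} (hs : Stp w a b) : Cl t z a.2.1 ↔ Cl t z b.2.1 := by
  cases hs with
  | du t' a b s s' y g1 g2 g3 g4 g5 g6 g7 g8 => exact (s_iff h hT g1).trans (s_iff h hT g2)
  | dm t' a b s s' i i' y g1 g2 g3 g4 g5 g6 g7 g8 g9 g10 g11 =>
    exact (s_iff h hT g1).trans (s_iff h hT g2)
  | top q κ' κ y g1 g2 g3 g4 => exact Iff.rfl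
  | dn a b y g1 => exact s_iff h hT g1
  | base z1 z2 z3 z4 y y' g1 g2 => exact Iff.rfl

lemma sym_iff {w : World E} {t : ℕ} {z : ℕ → E} (h : St w t z) (hT : Top w (z t))
    {a b : Bool × E × E} (hs : Sym w a b) : Cl t z a.2.1 ↔ Cl t z b.2.1 := by
  rcases hs with hs | hs
  · exact stp_iff h hT hs
  · exact (stp_iff h hT hs).symm

/-- A move that changes the third component is a base move. -/
lemma base_of_ne {w : World E} {a b : Bool × E × E} (hs : Stp w a b) (hne : a.2.2 ≠ b.2.2) :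
    ∃ z1 z2 z3 z4 y y', w.bs z1 z2 z3 z4 ∧ w.lk .S y y' ∧ a = (true, z4, y) ∧
      b = (false, z4, y') := by
  cases hs with
  | du t' a b s s' y g1 g2 g3 g4 g5 g6 g7 g8 => exact absurd rfl hne
  | dm t' a b s s' i i' y g1 g2 g3 g4 g5 g6 g7 g8 g9 g10 g11 => exact absurd rfl hne
  | top q κ' κ y g1 g2 g3 g4 => exact absurd rfl hne
  | dn a b y g1 => exact absurd rfl hne
  | base z1 z2 z3 z4 y y' g1 g2 => exact ⟨z1, z2, z3, z4, y, y', g1, g2, rfl, rfl⟩

/-- A forward change of the third component followed by another change gives a counter. -/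
lemma goal_of (w : World E) (u : ℕ → Bool × E × E) (M : ℕ) (hM : 1 ≤ M) (z1 z2 z3 z4 y0 y : E)
    (hinj : ∀ i j, i ≤ M + 1 → j ≤ M + 1 → u i = u j → i = j)
    (hstep : ∀ i, i ≤ M → Sym w (u i) (u (i + 1))) (h0 : u 0 = (true, z4, y0))
    (h1 : u 1 = (false, z4, y)) (hb : w.bs z1 z2 z3 z4) (hy : w.lk .S y0 y)
    (hch : (u M).2.2 ≠ (u (M + 1)).2.2) : Goal w z4 := by
  rcases core w u M z1 z2 z3 z4 y0 y hinj hstep h0 h1 hb hy M le_rfl with h | ⟨z, _, _, h2, h3⟩
  · exact h
  · exfalso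
    apply hch
    rw [h3 hM, add_comm M 1, h2]

lemma img_le [DecidableEq E] (f : ℕ → E) (r : ℕ) :
    ((Finset.range (r + 1)).image f).card ≤
      ((Finset.range r).filter (fun i => f i ≠ f (i + 1))).card + 1 := by
  induction r with
  | zero => simp
  | succ r ih =>
    rw [Finset.range_add_one, Finset.image_insert, Finset.range_add_one (n := r),
      Finset.filter_insert]
    rw [Finset.range_add_one] at ih
    split_ifs with h
    · have h5 : (insert r ((Finset.range r).filter (fun i => f i ≠ f (i + 1)))).card =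
          ((Finset.range r).filter (fun i => f i ≠ f (i + 1))).card + 1 :=
        Finset.card_insert_of_notMem (by simp)
      refine (Finset.card_insert_le _ _).trans ?_
      rw [h5]
      omega
    · push Not at h
      rw [Finset.insert_eq_of_mem]
      · exact ih
      · rw [← h]
        exact Finset.mem_image_of_mem _ (Finset.mem_insert_self _ _)

end RunItem

open RunItem in
theorem run : stRun := by
  intro E _ w r s hinj hstep
  classical
  set f : ℕ → E := fun i => (s i).2.2 with hf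
  set ch : Finset ℕ := (Finset.range r).filter (fun i => f i ≠ f (i + 1)) with hchd
  by_cases hc : ch.card ≤ 2
  · left
    have h1 := img_le f r
    rw [← hchd] at h1
    have h2 : (Finset.range (r + 1)).card ≤ ((Finset.univ : Finset Bool) ×ˢ
        ((Finset.univ : Finset E) ×ˢ (Finset.range (r + 1)).image f)).card := by
      apply Finset.card_le_card_of_injOn s
      · intro i hi
        rw [Finset.mem_coe] at hi ⊢
        rw [Finset.mem_product, Finset.mem_product]
        exact ⟨Finset.mem_univ _, Finset.mem_univ _, Finset.mem_image_of_mem f hi⟩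
      · intro i hi j hj hij
        rw [Finset.mem_coe, Finset.mem_range] at hi hj
        exact hinj i j (by omega) (by omega) hij
    rw [Finset.card_product, Finset.card_product, Finset.card_univ, Finset.card_univ,
      Fintype.card_bool, Finset.card_range] at h2
    have h3 : ((Finset.range (r + 1)).image f).card ≤ 3 := by omega
    have h4 : Fintype.card E * ((Finset.range (r + 1)).image f).card ≤ Fintype.card E * 3 :=
      Nat.mul_le_mul_left _ h3
    omega
  · right
    have hmid : ∃ i1 i2 i3, i1 < i2 ∧ i2 < i3 ∧ i1 ∈ ch ∧ i2 ∈ ch ∧ i3 ∈ ch := by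
      obtain ⟨a, ha, b, hb, c, hc', hab, hac, hbc⟩ :=
        Finset.two_lt_card.mp (not_le.mp hc)
      have key : (a < b ∧ b < c) ∨ (a < c ∧ c < b) ∨ (b < a ∧ a < c) ∨ (b < c ∧ c < a) ∨
          (c < a ∧ a < b) ∨ (c < b ∧ b < a) := by omega
      rcases key with h | h | h | h | h | h
      · exact ⟨a, b, c, h.1, h.2, ha, hb, hc'⟩
      · exact ⟨a, c, b, h.1, h.2, ha, hc', hb⟩
      · exact ⟨b, a, c, h.1, h.2, hb, ha, hc'⟩
      · exact ⟨b, c, a, h.1, h.2, hb, hc', ha⟩
      · exact ⟨c, a, b, h.1, h.2, hc', ha, hb⟩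
      · exact ⟨c, b, a, h.1, h.2, hc', hb, ha⟩
    obtain ⟨i1, i2, i3, h12, h23, hi1, hi2, hi3⟩ := hmid
    rw [hchd, Finset.mem_filter, Finset.mem_range] at hi1 hi2 hi3
    have hG : ∃ x, x = (s i2).2.1 ∧ Goal w x := by
      rcases hstep i2 hi2.1 with hs | hs
      · obtain ⟨z1, z2, z3, z4, y0, y, hb, hy, e1, e2⟩ := base_of_ne hs hi2.2
        refine ⟨z4, by rw [e1], ?_⟩
        apply goal_of w (fun n => s (i2 + n)) (i3 - i2) (by omega) z1 z2 z3 z4 y0 y
        · intro i j hi hj hij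
          have := hinj (i2 + i) (i2 + j) (by omega) (by omega) hij
          omega
        · intro i hi
          exact hstep (i2 + i) (by omega)
        · exact e1
        · exact e2
        · exact hb
        · exact hy
        · have e3 : i2 + (i3 - i2) = i3 := by omega
          have e4 : i2 + (i3 - i2 + 1) = i3 + 1 := by omega
          show (s (i2 + (i3 - i2))).2.2 ≠ (s (i2 + (i3 - i2 + 1))).2.2
          rw [e3, e4]
          exact hi3.2
      · obtain ⟨z1, z2, z3, z4, y0, y, hb, hy, e1, e2⟩ := base_of_ne hs hi2.2.symm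
        refine ⟨z4, by rw [e2], ?_⟩
        apply goal_of w (fun n => s (i2 + 1 - n)) (i2 - i1) (by omega) z1 z2 z3 z4 y0 y
        · intro i j hi hj hij
          have := hinj (i2 + 1 - i) (i2 + 1 - j) (by omega) (by omega) hij
          omega
        · intro i hi
          have e3 : i2 + 1 - i = (i2 - i) + 1 := by omega
          have e4 : i2 + 1 - (i + 1) = i2 - i := by omega
          show Sym w (s (i2 + 1 - i)) (s (i2 + 1 - (i + 1)))
          rw [e3, e4]
          exact (hstep (i2 - i) (by omega)).symm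
        · exact e1
        · exact e2
        · exact hb
        · exact hy
        · have e3 : i2 + 1 - (i2 - i1) = i1 + 1 := by omega
          have e4 : i2 + 1 - (i2 - i1 + 1) = i1 := by omega
          show (s (i2 + 1 - (i2 - i1))).2.2 ≠ (s (i2 + 1 - (i2 - i1 + 1))).2.2
          rw [e3, e4]
          exact hi1.2.symm
    obtain ⟨x, hx, t, z, hz, hz4, hT⟩ := hG
    obtain ⟨l, hl, hlt⟩ := special hz hT
    obtain ⟨hh, hh2, hht⟩ := hz.ev
    have hall0 : ∀ i, i ≤ r → (Cl t z (s i).2.1 ↔ Cl t z (s 0).2.1) := by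
      intro i
      induction i with
      | zero => exact fun _ => Iff.rfl
      | succ i ih =>
        intro hi
        exact (sym_iff hz hT (hstep i (by omega))).symm.trans (ih (by omega))
    have hall : ∀ i, i ≤ r → Cl t z (s i).2.1 := by
      intro i hi
      rw [hall0 i hi, ← hall0 i2 (by omega), ← hx, ← hz4]
      exact ⟨4, by norm_num, by omega, rfl⟩
    have htN : t ≤ Fintype.card E := by
      have h1 : (Finset.Icc 1 t).card ≤ (Finset.univ : Finset E).card := by
        apply Finset.card_le_card_of_injOn z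
        · intro i _
          exact Finset.mem_coe.mpr (Finset.mem_univ _)
        · intro i hi j hj hij
          rw [Finset.mem_coe, Finset.mem_Icc] at hi hj
          rcases lt_trichotomy i j with h | h | h
          · exact (dist hz i j hi.1 h hj.2 hij).elim
          · exact h
          · exact (dist hz j i hj.1 h hi.2 hij.symm).elim
      rw [Nat.card_Icc, Finset.card_univ] at h1
      omega
    refine ⟨l, hl, by rw [← hlt]; exact htN, ?_⟩
    rw [← hlt]
    have h2 : (Finset.range (r + 1)).card ≤ ((Finset.univ : Finset Bool) ×ˢ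
        ((Finset.Icc 1 t).image z ×ˢ (Finset.univ : Finset E))).card := by
      apply Finset.card_le_card_of_injOn s
      · intro i hi
        rw [Finset.mem_coe, Finset.mem_range] at hi
        rw [Finset.mem_coe, Finset.mem_product, Finset.mem_product]
        refine ⟨Finset.mem_univ _, ?_, Finset.mem_univ _⟩
        obtain ⟨j, hj1, hj2, hj3⟩ := hall i (by omega)
        rw [hj3]
        exact Finset.mem_image_of_mem z (Finset.mem_Icc.mpr ⟨hj1, hj2⟩)
      · intro i hi j hj hij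
        rw [Finset.mem_coe, Finset.mem_range] at hi hj
        exact hinj i j (by omega) (by omega) hij
    rw [Finset.card_product, Finset.card_product, Finset.card_univ, Finset.card_univ,
      Fintype.card_bool, Finset.card_range] at h2
    have h3 : ((Finset.Icc 1 t).image z).card ≤ t := by
      have := Finset.card_image_le (s := Finset.Icc 1 t) (f := z)
      rw [Nat.card_Icc] at this
      omega
    have h4 : ((Finset.Icc 1 t).image z).card * Fintype.card E ≤ t * Fintype.card E :=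
      Nat.mul_le_mul_right _ h3
    calc r + 1 ≤ 2 * (((Finset.Icc 1 t).image z).card * Fintype.card E) := h2
      _ ≤ 2 * (t * Fintype.card E) := Nat.mul_le_mul_left _ h4
      _ = 2 * t * Fintype.card E := by ring

end MPaef1a0

end

section

/-!
Statements, block D: the process, hosting, growth of cliques, availability, chains.
-/

set_option autoImplicit false

namespace MPaef1a0

open SimpleGraph

/-! ## General facts about the process -/

/-- D1: adding a non-edge `uv` increases the number of copies of `H` iff some copy of `H` in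
`G + uv` uses `uv`. -/
def stCount : Prop :=
  ∀ (V W : Type) [Fintype V] [Fintype W] (H : SimpleGraph W) (G : SimpleGraph V) (u v : V),
    ¬ G.Adj u v →
    (G.copyCount H < (G ⊔ SimpleGraph.edge u v).copyCount H ↔ ∃ f : W → V, Near H G f u v)

/-- D2: one step of the process for a disjoint union. -/
def stStep : Prop :=
  ∀ (V ι : Type) [Fintype V] [Fintype ι] (F : ι → Type) [∀ i, Fintype (F i)]
    (R : ∀ i, SimpleGraph (F i)) (G : SimpleGraph V) (u v : V),
    (step (famG R) G).Adj u v ↔ (G.Adj u v ∨ ∃ (c : ι) (f : F c → V), InfBy R G c f u v)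

/-- D3: a copy of a 2-edge-connected graph in `G + uv` lies inside or outside of a closed set. -/
def stNearClosed : Prop :=
  ∀ (V W : Type) (R : SimpleGraph W) (G : SimpleGraph V) (f : W → V) (u v : V) (K : Set V),
    TwoEC R → Near R G f u v → Closed G K → (∀ a, f a ∈ K) ∨ (∀ a, f a ∉ K)

/-- D4: closed sets stay closed. -/
def stStepClosed : Prop :=
  ∀ (V ι : Type) [Fintype V] [Fintype ι] (F : ι → Type) [∀ i, Fintype (F i)]
    (R : ∀ i, SimpleGraph (F i)) (G : SimpleGraph V) (K : Set V),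
    (∀ i, TwoEC (R i)) → Closed G K → ∀ t, Closed (proc (famG R) G t) K

/-- D5: union of two 2-edge-connected sets that meet. -/
def stUnion : Prop :=
  ∀ (V : Type) (G : SimpleGraph V) (X Y : Set V), TwoECOn G X → TwoECOn G Y → (X ∩ Y).Nonempty →
    TwoECOn G (X ∪ Y)

/-! ## Hosting -/

/-- A host system: a copy of `HG m` in `G` in which the `Q`-components are cliques. -/
structure HS {V : Type} (m : ℕ) (G : SimpleGraph V) (φ : (Σ c, CV m c) → V) : Prop where
  inj : Function.Injective φ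
  hom : ∀ c a b, (CG m c).Adj a b → G.Adj (φ ⟨c, a⟩) (φ ⟨c, b⟩)
  clq : ∀ (q : QIdx m) (a b : CV m (.inr q)), a ≠ b → G.Adj (φ ⟨.inr q, a⟩) (φ ⟨.inr q, b⟩)

/-- The host of a component. -/
def host {V : Type} {m : ℕ} (φ : (Σ c, CV m c) → V) (c : Comp m) : Set V :=
  Set.range (fun a : CV m c => φ ⟨c, a⟩)

/-- `IsQ` on a vertex set. -/
def QOn {V : Type} (G : SimpleGraph V) (X : Set V) : Prop :=
  TwoECOn G X ∧ ∀ a ∈ X, ∀ b ∈ X, G.Adj a b → ¬ EmbOn (G.deleteEdges {s(a, b)}) X

/-- D6: swapping `Q` and `Q + ab`. -/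
def stSwap : Prop :=
  ∀ (m : ℕ) (V : Type) [Fintype V] (G : SimpleGraph V) (φ : (Σ c, CV m c) → V),
    Function.Injective φ → (∀ c a b, (CG m c).Adj a b → G.Adj (φ ⟨c, a⟩) (φ ⟨c, b⟩)) →
    ∀ (q : QIdx m) (a b : CV m (.inr q)), a ≠ b →
      (step (HG m) G).Adj (φ ⟨.inr q, a⟩) (φ ⟨.inr q, b⟩)

/-- D7: host systems exist after two steps. -/
def stHS : Prop :=
  ∀ (m : ℕ) (V : Type) [Fintype V] (G : SimpleGraph V), step (HG m) G ≠ G →
    ∃ φ : (Σ c, CV m c) → V, HS m (step (HG m) (step (HG m) G)) φ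

/-- D8: after an infection through a `Q`-component its vertex set becomes a clique. -/
def stQclq : Prop :=
  ∀ (m : ℕ) (V : Type) [Fintype V] (G : SimpleGraph V) (q : QIdx m) (f : CV m (.inr q) → V)
    (u v : V), InfBy (CG m) G (.inr q) f u v →
    Clq (step (HG m) (step (HG m) G)) (Set.range f)

/-- D9: rehosting for saturated sets. -/
def stRH1 : Prop :=
  ∀ (m : ℕ) (V : Type) [Fintype V] (G : SimpleGraph V) (φ : (Σ c, CV m c) → V), HS m G φ →
    ∀ (X : Set V) (u v : V), u ∈ X → v ∈ X → u ≠ v → 14 ≤ X.ncard → X.ncard ≤ m →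
      (∀ c, host φ c ⊆ X ∨ Disjoint (host φ c) X) →
      QOn (G ⊔ SimpleGraph.edge u v) X → (step (HG m) G).Adj u v

/-- D10: rehosting for sets meeting exactly one `Q`-host, of the same size. -/
def stRH2 : Prop :=
  ∀ (m : ℕ) (V : Type) [Fintype V] (G : SimpleGraph V) (φ : (Σ c, CV m c) → V), HS m G φ →
    ∀ (X : Set V) (u v : V) (q' : QIdx m), u ∈ X → v ∈ X → u ≠ v → X.ncard = (q'.1.1 : ℕ) →
      (∀ r : RK, host φ (.inl r) ⊆ X ∨ Disjoint (host φ (.inl r)) X) →
      (∀ q : QIdx m, q ≠ q' → Disjoint (host φ (.inr q)) X) →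
      QOn (G ⊔ SimpleGraph.edge u v) X → (step (HG m) G).Adj u v

/-- The vertex `u` together with the rule host containing it (if any). -/
def Uof {V : Type} {m : ℕ} (φ : (Σ c, CV m c) → V) (u : V) : Set V :=
  {x | x = u ∨ ∃ r : RK, u ∈ host φ (.inl r) ∧ x ∈ host φ (.inl r)}

/-- A growing clique. -/
structure Blob {V : Type} (m : ℕ) (G : SimpleGraph V) (φ : (Σ c, CV m c) → V) (W : Set V) :
    Prop where
  clq : Clq G W
  card : 14 ≤ W.ncard
  sat : ∀ c, host φ c ⊆ W ∨ Disjoint (host φ c) W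
  one : ∀ q q' : QIdx m, host φ (.inr q) ⊆ W → host φ (.inr q') ⊆ W → q = q'

/-- D11: a clique absorbs a neighbour in two steps. -/
def stGrow : Prop :=
  ∀ (m : ℕ), 3000 ≤ m → ∀ (V : Type) [Fintype V] (G : SimpleGraph V) (φ : (Σ c, CV m c) → V),
    HS m G φ → ∀ (W : Set V), Blob m G φ W → ∀ u w', w' ∈ W → u ∉ W → G.Adj u w' →
      (∀ q : QIdx m, u ∉ host φ (.inr q)) →
      Blob m (step (HG m) (step (HG m) G)) φ (W ∪ Uof φ u)

/-- D12: dichotomy for the components meeting `Q`-hosts. -/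
def stDich : Prop :=
  ∀ (m : ℕ), 3000 ≤ m → ∀ (V : Type) [Fintype V] (G : SimpleGraph V) (φ : (Σ c, CV m c) → V),
    HS m G φ → ∀ N : ℕ,
      (∃ K : Set V, Clq (proc (HG m) G (2 * (N * Fintype.card (QIdx m)))) K ∧ N ≤ K.ncard) ∨
      (∃ K : Set V, Closed G K ∧ (∀ q : QIdx m, host φ (.inr q) ⊆ K) ∧
        K.ncard ≤ N * Fintype.card (QIdx m))

/-- A bad window: 2-edge-connected, contains a tag, at most 216 vertices, does not embed. -/
def BadWin {V : Type} (G : SimpleGraph V) (X : Set V) : Prop :=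
  14 ≤ X.ncard ∧ X.ncard ≤ 216 ∧ TwoECOn G X ∧
    (∃ α : Fin 12 → V, IsCopy tag G α ∧ ∀ a, α a ∈ X) ∧ ¬ EmbOn G X

/-- D13: a bad window away from the `Q`-hosts explodes. -/
def stBad : Prop :=
  ∀ (m : ℕ), 3000 ≤ m → ∀ (V : Type) [Fintype V] (G : SimpleGraph V) (φ : (Σ c, CV m c) → V),
    HS m G φ → ∀ KF : Set V, Closed G KF → (∀ q : QIdx m, host φ (.inr q) ⊆ KF) →
    ∀ X : Set V, BadWin G X → Disjoint X KF → ∀ N : ℕ,
      (∃ K : Set V, Clq (proc (HG m) G (2 * N + 2)) K ∧ N ≤ K.ncard) ∨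
      (∃ K : Set V, Closed G K ∧ X ⊆ K ∧ K.ncard < N)

/-- D14: with a giant clique everything can be hosted. -/
def stIdeal : Prop :=
  ∀ (m : ℕ) (V : Type) [Fintype V] (G : SimpleGraph V) (W : Set V), Clq G W →
    2 * hN m ≤ W.ncard → ∀ (c : Comp m) (f : CV m c → V), Free (CG m) G c (Set.range f)

/-- D15: with a giant clique, cliques fill their components. -/
def stIdealGrow : Prop :=
  ∀ (m : ℕ), 3000 ≤ m → ∀ (V : Type) [Fintype V] (G : SimpleGraph V) (W : Set V), Clq G W →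
    2 * hN m ≤ W.ncard → ∀ X : Set V, Clq G X → 14 ≤ X.ncard →
      ∃ K : Set V, Closed G K ∧ X ⊆ K ∧ Clq (proc (HG m) G (Fintype.card V)) K

/-- D16: with a giant clique, bad windows fill their components. -/
def stIdealBad : Prop :=
  ∀ (m : ℕ), 3000 ≤ m → ∀ (V : Type) [Fintype V] (G : SimpleGraph V) (W : Set V), Clq G W →
    2 * hN m ≤ W.ncard → ∀ X : Set V, BadWin G X →
      ∃ K : Set V, Closed G K ∧ X ⊆ K ∧ Clq (proc (HG m) G (Fintype.card V + 2)) K

/-! ## Availability and chains -/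

/-- D17: skew set pairs. -/
def stSkew : Prop :=
  ∀ (V : Type) [DecidableEq V] (a b : ℕ) (I : Finset ℕ) (A S : ℕ → Finset V),
    (∀ i ∈ I, (A i).card ≤ a ∧ (S i).card ≤ b ∧ Disjoint (A i) (S i)) →
    (∀ i ∈ I, ∀ j ∈ I, i < j → ¬ Disjoint (A i) (S j)) → I.card ≤ (a + 1) ^ b

/-- Something becomes available between time `t` and `t + 1`. -/
def Chg {V ι : Type} {F : ι → Type} (R : ∀ i, SimpleGraph (F i)) (Gs : ℕ → SimpleGraph V)
    (t : ℕ) : Prop :=
  ∃ (c : ι) (f : F c → V), Free R (Gs (t + 1)) c (Set.range f) ∧ ¬ Free R (Gs t) c (Set.range f)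

/-- D18: availability changes rarely. -/
def stChange : Prop :=
  ∀ (V ι : Type) [Fintype V] [Fintype ι] (F : ι → Type) [∀ i, Fintype (F i)]
    (R : ∀ i, SimpleGraph (F i)) (Gs : ℕ → SimpleGraph V), (∀ t, Gs t ≤ Gs (t + 1)) →
    ∀ J : Finset ℕ, (∀ t ∈ J, Chg R Gs t) →
      J.card ≤ Fintype.card ι *
        (Fintype.card (Σ i, F i) + 1) ^ (Fintype.card (Σ i, F i))

/-- D19: chains, when availability does not change on `[a, b]`. -/
def stChain : Prop :=
  ∀ (V ι : Type) [Fintype V] [Fintype ι] (F : ι → Type) [∀ i, Fintype (F i)]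
    (R : ∀ i, SimpleGraph (F i)) (pref : ι → Prop) (G : SimpleGraph V) (a b : ℕ), a ≤ b →
    (∀ t, a ≤ t → t < b → ¬ Chg R (proc (famG R) G) t) →
    ∀ u v : V, ¬ (proc (famG R) G b).Adj u v → (proc (famG R) G (b + 1)).Adj u v →
    ∃ (eu ev : ℕ → V) (c : ℕ → ι) (f : ∀ t, F (c t) → V), eu b = u ∧ ev b = v ∧
      ∀ t, a ≤ t → t ≤ b →
        ¬ (proc (famG R) G t).Adj (eu t) (ev t) ∧
        InfBy R (proc (famG R) G t) (c t) (f t) (eu t) (ev t) ∧
        ((∃ (c' : ι) (f' : F c' → V), pref c' ∧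
          InfBy R (proc (famG R) G t) c' f' (eu t) (ev t)) → pref (c t)) ∧
        (a < t → ∃ x y, (R (c t)).Adj x y ∧ f t x = eu (t - 1) ∧ f t y = ev (t - 1))

end MPaef1a0

end

section

/-!
Items A4 and A5: bad tags and nearly complete graphs.
-/

set_option autoImplicit false

namespace MPaef1a0

open SimpleGraph

theorem tagBad (hR : stRigid) : stTagBad := by
  intro W' F g a0 b0 e hg _ hab _ hF htag hEmb
  obtain ⟨E, Γ, hAx, f, hf, hcopy⟩ := hEmb
  set Δ : TStr Unit := ⟨fun _ _ _ => False, fun _ _ _ => False⟩ with hΔ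
  have key : ∃ e' : Sym2 (Unit × Fin 12), ∀ p q : Unit × Fin 12, s(p, q) ≠ e' →
      s(g p.2, g q.2) ≠ e := by
    by_cases h : ∃ a b : Fin 12, s(g a, g b) = e
    · obtain ⟨a1, b1, rfl⟩ := h
      refine ⟨s(((), a1), ((), b1)), fun p q hpq heq => hpq ?_⟩
      rw [Sym2.eq_iff] at heq ⊢
      rcases heq with ⟨h1, h2⟩ | ⟨h1, h2⟩
      · exact Or.inl ⟨Prod.ext rfl (hg h1), Prod.ext rfl (hg h2)⟩
      · exact Or.inr ⟨Prod.ext rfl (hg h1), Prod.ext rfl (hg h2)⟩
    · push Not at h
      exact ⟨s(((), 0), ((), 0)), fun p q _ => h p.2 q.2⟩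
  obtain ⟨e', he'⟩ := key
  obtain ⟨ψ, -, hψ, -, -⟩ := hR Unit E Δ Γ hAx (fun _ _ _ h => h.elim) (fun _ _ _ h => h.elim)
    (fun p => f (g p.2)) e'
    (fun p q h => Prod.ext rfl (hg (hf h)))
    (fun p q hpq hne => by
      refine hcopy _ _ (htag _ _ ?_ (he' p q hne))
      rcases hpq with h | h
      · exact h.2
      · exact absurd rfl h.1)
  have h1 : f (g a0) = (ψ (), a0) := hψ () a0
  have h2 : f (g b0) = (ψ (), b0) := hψ () b0
  have h3 := hcopy _ _ hF
  rw [h1, h2] at h3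
  rcases h3 with h | h
  · exact hab h.2
  · exact h.1 rfl

theorem k12Bad (hT : stTagBad) : stK12Bad := by
  intro W' F g e hg hF
  have htag : ∀ a b, tag.Adj a b → s(g a, g b) ≠ e → F.Adj (g a) (g b) :=
    fun a b h hne => hF a b h.1 hne
  by_cases h : s(g 0, g 1) = e
  · have h7 : s(g 0, g 7) ≠ e := by
      rw [← h]
      intro h7
      rw [Sym2.eq_iff] at h7
      rcases h7 with ⟨-, h7⟩ | ⟨h7, -⟩
      · exact absurd (hg h7) (by decide)
      · exact absurd (hg h7) (by decide)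
    exact hT W' F g 0 7 e hg (by decide) (by decide) h7 (hF 0 7 (by decide) h7) htag
  · exact hT W' F g 0 1 e hg (by decide) (by decide) h (hF 0 1 (by decide) h) htag

end MPaef1a0

end

section

/-!
A1: rigidity of the tag (the complement of the Frucht graph).
-/

set_option autoImplicit false

namespace MPaef1a0

open SimpleGraph

namespace TagRigid

/-- Boolean adjacency of the Frucht graph on natural numbers. -/
def fb (a b : ℕ) : Bool := fruchtList.elem (a, b) || fruchtList.elem (b, a)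

theorem fb_iff (a b : Fin 12) : fb a.val b.val = true ↔ frucht a b := by
  unfold fb frucht
  rw [Bool.or_eq_true, List.elem_eq_mem, List.elem_eq_mem, decide_eq_true_eq, decide_eq_true_eq]

/-- compare the new image `v` of `j` with the images `w :: l` of `n-1, n-2, ...` -/
def chk (j v : ℕ) : ℕ → List ℕ → Bool
  | _, [] => true
  | n, w :: l => (v != w) && (fb v w == fb j (n - 1)) && chk j v (n - 1) l

/-- exhaustive search -/
def srch : ℕ → ℕ → List ℕ → Bool
  | 0, _, l => l == [11, 10, 9, 8, 7, 6, 5, 4, 3, 2, 1, 0]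
  | k + 1, j, l => (List.range 12).all (fun v => !(chk j v j l) || srch k (j + 1) (v :: l))

theorem srch_ok : srch 12 0 [] = true := by decide +kernel

/-- list of the images of `j-1, ..., 0` -/
def im (f : ℕ → ℕ) : ℕ → List ℕ
  | 0 => []
  | j + 1 => f j :: im f j

theorem chk_im (f : ℕ → ℕ) (hinj : ∀ i j, i < 12 → j < 12 → f i = f j → i = j)
    (hf : ∀ i j, i < 12 → j < 12 → fb (f i) (f j) = fb i j) (j : ℕ) (hj : j < 12) :
    ∀ n, n ≤ j → chk j (f j) n (im f n) = true := by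
  intro n
  induction n with
  | zero => intro _; rfl
  | succ n ih =>
    intro hn
    have h1 : f j ≠ f n := fun h => by
      have := hinj j n hj (by omega) h
      omega
    simp only [im, chk, Nat.add_sub_cancel, ih (by omega), hf j n hj (by omega), bne_iff_ne,
      beq_self_eq_true, Bool.and_true, ne_eq, h1, not_false_eq_true]

theorem srch_sound (f : ℕ → ℕ) (hlt : ∀ i, i < 12 → f i < 12)
    (hinj : ∀ i j, i < 12 → j < 12 → f i = f j → i = j)
    (hf : ∀ i j, i < 12 → j < 12 → fb (f i) (f j) = fb i j) :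
    ∀ k j, k + j = 12 → srch k j (im f j) = true →
      im f 12 = [11, 10, 9, 8, 7, 6, 5, 4, 3, 2, 1, 0] := by
  intro k
  induction k with
  | zero =>
    intro j hj h
    have : j = 12 := by omega
    subst this
    simpa [srch] using h
  | succ k ih =>
    intro j hj h
    unfold srch at h
    rw [List.all_eq_true] at h
    have h1 := h (f j) (List.mem_range.mpr (hlt j (by omega)))
    rw [chk_im f hinj hf j (by omega) j le_rfl] at h1
    exact ih (j + 1) (by omega) (by simpa [im] using h1)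

theorem im_get (f : ℕ → ℕ) (h : im f 12 = [11, 10, 9, 8, 7, 6, 5, 4, 3, 2, 1, 0]) :
    ∀ i, i < 12 → f i = i := by
  simp only [im, List.cons.injEq, and_true] at h
  intro i hi
  interval_cases i <;> tauto

/-- automorphisms of the Frucht graph are trivial -/
theorem aut_triv (σ : Fin 12 → Fin 12) (hinj : Function.Injective σ)
    (h : ∀ a b, frucht (σ a) (σ b) ↔ frucht a b) : ∀ a, σ a = a := by
  have key := srch_sound (fun i => if hi : i < 12 then (σ ⟨i, hi⟩).val else 0)
    (fun i hi => by simp only [dif_pos hi]; exact (σ ⟨i, hi⟩).isLt)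
    (fun i j hi hj hij => by
      simp only [dif_pos hi, dif_pos hj] at hij
      have := hinj (Fin.ext hij)
      simpa using this)
    (fun i j hi hj => by
      simp only [dif_pos hi, dif_pos hj]
      rw [Bool.eq_iff_iff, fb_iff, h ⟨i, hi⟩ ⟨j, hj⟩, ← fb_iff])
    12 0 rfl srch_ok
  intro a
  have := im_get _ key a.val a.isLt
  simp only [Fin.is_lt, dif_pos, Fin.eta] at this
  exact Fin.ext this

/-- tag neighbours -/
def nb (a : Fin 12) : Finset (Fin 12) := Finset.univ.filter (fun x => tag.Adj a x)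

theorem nb_card : ∀ a : Fin 12, (nb a).card = 8 := by decide +kernel

theorem mem_nb (a x : Fin 12) : x ∈ nb a ↔ tag.Adj a x := by simp [nb]

/-- rigidity, step 1: `σ` is an automorphism of the tag -/
theorem step1 (σ : Fin 12 → Fin 12) (e : Sym2 (Fin 12)) (hinj : Function.Injective σ)
    (h : ∀ a b, tag.Adj a b → s(a, b) ≠ e → tag.Adj (σ a) (σ b)) :
    ∀ a x, s(a, x) ≠ e → tag.Adj (σ a) (σ x) → tag.Adj a x := by
  have hsurj : Function.Surjective σ := Finite.surjective_of_injective hinj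
  -- vertices outside of `e`
  have out : ∀ a, a ∉ e → ∀ x, tag.Adj (σ a) (σ x) → tag.Adj a x := by
    intro a ha x hx
    have hsub : (nb a).image σ ⊆ nb (σ a) := by
      intro y hy
      rw [Finset.mem_image] at hy
      obtain ⟨z, hz, rfl⟩ := hy
      rw [mem_nb] at hz ⊢
      refine h a z hz ?_
      rintro rfl
      exact ha (Sym2.mem_mk_left _ _)
    have heq : (nb a).image σ = nb (σ a) := by
      apply Finset.eq_of_subset_of_card_le hsub
      rw [Finset.card_image_of_injective _ hinj, nb_card, nb_card]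
    have : σ x ∈ (nb a).image σ := by
      rw [heq, mem_nb]
      exact hx
    rw [Finset.mem_image] at this
    obtain ⟨z, hz, hzx⟩ := this
    rw [← hinj hzx, ← mem_nb]
    exact hz
  intro a x hne hx
  by_cases ha : a ∈ e
  · by_cases hb : x ∈ e
    · exfalso
      by_cases hax : a = x
      · subst hax
        exact tag.loopless.irrefl _ hx
      · exact hne ((Sym2.mem_and_mem_iff hax).mp ⟨ha, hb⟩).symm
    · exact (out x hb a hx.symm).symm
  · exact out a ha x hx

/-- rigidity, step 2: the pair `e` is mapped correctly as well -/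
theorem step2 (σ : Fin 12 → Fin 12) (a0 b0 : Fin 12) (hne : a0 ≠ b0)
    (hinj : Function.Injective σ)
    (h1 : ∀ a b, tag.Adj a b → s(a, b) ≠ s(a0, b0) → tag.Adj (σ a) (σ b))
    (h2 : ∀ a b, s(a, b) ≠ s(a0, b0) → tag.Adj (σ a) (σ b) → tag.Adj a b) :
    tag.Adj (σ a0) (σ b0) ↔ tag.Adj a0 b0 := by
  have hsurj : Function.Surjective σ := Finite.surjective_of_injective hinj
  have himg : ((nb a0).erase b0).image σ = (nb (σ a0)).erase (σ b0) := by
    ext y
    obtain ⟨z, rfl⟩ := hsurj y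
    rw [Finset.mem_image, Finset.mem_erase, mem_nb]
    constructor
    · rintro ⟨w, hw, hwz⟩
      rw [hinj hwz] at hw
      rw [Finset.mem_erase, mem_nb] at hw
      refine ⟨fun h' => hw.1 (hinj h'), h1 _ _ hw.2 ?_⟩
      intro h'
      rw [Sym2.eq_iff] at h'
      rcases h' with h' | h'
      · exact hw.1 h'.2
      · exact hne h'.1
    · rintro ⟨hz1, hz2⟩
      refine ⟨z, ?_, rfl⟩
      rw [Finset.mem_erase, mem_nb]
      have hzb : z ≠ b0 := fun h' => hz1 (by rw [h'])
      refine ⟨hzb, h2 _ _ ?_ hz2⟩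
      intro h'
      rw [Sym2.eq_iff] at h'
      rcases h' with h' | h'
      · exact hzb h'.2
      · exact hne h'.1
  have hcard := congrArg Finset.card himg
  rw [Finset.card_image_of_injective _ hinj] at hcard
  by_cases ha : tag.Adj a0 b0
  · by_cases hb : tag.Adj (σ a0) (σ b0)
    · exact ⟨fun _ => ha, fun _ => hb⟩
    · exfalso
      rw [Finset.card_erase_of_mem ((mem_nb _ _).mpr ha), Finset.erase_eq_of_notMem
        (fun h' => hb ((mem_nb _ _).mp h')), nb_card, nb_card] at hcard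
      omega
  · by_cases hb : tag.Adj (σ a0) (σ b0)
    · exfalso
      rw [Finset.card_erase_of_mem ((mem_nb _ _).mpr hb), Finset.erase_eq_of_notMem
        (fun h' => ha ((mem_nb _ _).mp h')), nb_card, nb_card] at hcard
      omega
    · exact ⟨fun h' => absurd h' hb, fun h' => absurd h' ha⟩

end TagRigid

open TagRigid in
theorem tagRigid : stTagRigid := by
  intro σ e hinj h
  have h2 := step1 σ e hinj h
  have h3 : ∀ a b, tag.Adj (σ a) (σ b) ↔ tag.Adj a b := by
    intro a b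
    by_cases hab : a = b
    · subst hab
      exact ⟨fun h' => absurd h' (tag.loopless.irrefl _), fun h' => absurd h' (tag.loopless.irrefl _)⟩
    · by_cases he : s(a, b) = e
      · subst he
        exact step2 σ a b hab hinj h h2
      · exact ⟨h2 a b he, fun h' => h a b h' he⟩
  refine aut_triv σ hinj ?_
  intro a b
  have h4 : ∀ x y : Fin 12, frucht x y ↔ x ≠ y ∧ ¬ tag.Adj x y := by decide +kernel
  rw [h4, h4, h3]
  exact ⟨fun h' => ⟨fun h'' => h'.1 (by rw [h'']), h'.2⟩,
    fun h' => ⟨fun h'' => h'.1 (hinj h''), h'.2⟩⟩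

end MPaef1a0

end

section

/-!
A2: triangles of the plain graph lie inside one tag.
-/

set_option autoImplicit false

namespace MPaef1a0

open SimpleGraph

namespace Triangle

/-- out-ports -/
def isOut (a : Fin 12) : Prop := 2 ≤ a.val ∧ a.val ≤ 9

lemma isOut_op (k : SK) : isOut (op k) := by
  cases k <;> (unfold isOut op; decide)

lemma isOut_pp (d : Bool) : isOut (pp d) := by
  cases d <;> (unfold isOut pp; decide)

lemma not_isOut_rp (d : Bool) : ¬ isOut (rp d) := by
  cases d <;> (unfold isOut rp; decide)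

lemma not_isOut_zero : ¬ isOut 0 := by
  unfold isOut; decide

lemma not_isOut_one : ¬ isOut 1 := by
  unfold isOut; decide

lemma op_inj {k k' : SK} (h : op k = op k') : k = k' := by
  revert k k'; decide

lemma op_ne_pp (k : SK) (d : Bool) : op k ≠ pp d := by
  revert k d; decide

lemma rp_inj {d d' : Bool} (h : rp d = rp d') : d = d' := by
  revert d d'; decide

lemma pp_inj {d d' : Bool} (h : pp d = pp d') : d = d' := by
  revert d d'; decide

lemma rp_ne_zero (d : Bool) : rp d ≠ 0 := by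
  revert d; decide

lemma rp_ne_one (d : Bool) : rp d ≠ 1 := by
  revert d; decide

variable {E : Type} {Γ : TStr E}

lemma Conn.out {x y : E} {a b : Fin 12} (h : Conn Γ x a y b) : isOut a := by
  rcases h with ⟨k, -, rfl, -⟩ | ⟨d, -, rfl, -⟩
  · exact isOut_op k
  · exact isOut_pp d

lemma Conn.inn {x y : E} {a b : Fin 12} (h : Conn Γ x a y b) : ¬ isOut b := by
  rcases h with ⟨k, -, -, rfl | rfl⟩ | ⟨d, -, -, rfl⟩
  · exact not_isOut_zero
  · exact not_isOut_one
  · exact not_isOut_rp d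

/-- two out-ports joined to the same vertex are equal -/
lemma src_eq (hΓ : Ax Γ) {x y : E} {a c b : Fin 12} (h1 : Conn Γ x a y b)
    (h2 : Conn Γ x c y b) : a = c := by
  rcases h1 with ⟨k, hk, rfl, hb⟩ | ⟨d, hd, rfl, hb⟩ <;>
    rcases h2 with ⟨k', hk', rfl, hb'⟩ | ⟨d', hd', rfl, hb'⟩
  · rw [hΓ.uniq k k' x y hk hk']
  · rcases hb with rfl | rfl
    · exact absurd hb'.symm (rp_ne_zero d')
    · exact absurd hb'.symm (rp_ne_one d')
  · rcases hb' with rfl | rfl
    · exact absurd hb.symm (rp_ne_zero d)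
    · exact absurd hb.symm (rp_ne_one d)
  · rw [rp_inj (hb.symm.trans hb')]

/-- two in-ports joined to the same vertex are not adjacent -/
lemma tgt_not {x y : E} {a c b : Fin 12} (h1 : Conn Γ y b x a)
    (h2 : Conn Γ y b x c) : ¬ tag.Adj a c := by
  rcases h1 with ⟨k, hk, rfl, hb⟩ | ⟨d, hd, rfl, rfl⟩ <;>
    rcases h2 with ⟨k', hk', h3, hb'⟩ | ⟨d', hd', h3, rfl⟩
  · rcases hb with rfl | rfl <;> rcases hb' with rfl | rfl <;> decide
  · exact absurd h3 (op_ne_pp k d')
  · exact absurd h3.symm (op_ne_pp k' d)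
  · rw [pp_inj h3]
    exact tag.loopless.irrefl _

lemma core (hΓ : Ax Γ) {x y : E} {a c b : Fin 12} (hac : tag.Adj a c)
    (h1 : Conn Γ x a y b ∨ Conn Γ y b x a) (h2 : Conn Γ x c y b ∨ Conn Γ y b x c) : False := by
  rcases h1 with h1 | h1 <;> rcases h2 with h2 | h2
  · exact hac.ne (src_eq hΓ h1 h2)
  · exact Conn.inn h1 (Conn.out h2)
  · exact Conn.inn h2 (Conn.out h1)
  · exact tgt_not h1 h2 hac

end Triangle

open Triangle in
theorem triangle : stTriangle := by
  intro E Γ hΓ p q r hpq hqr hpr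
  by_contra hne
  rcases hpq with h1 | ⟨-, h1⟩
  · exact hne h1.1
  rcases hqr with ⟨h2, h2'⟩ | ⟨-, h2⟩
  · -- `r` in the tag of `q`
    rcases hpr with ⟨h3, -⟩ | ⟨-, h3⟩
    · exact hne (h3.trans h2.symm)
    · rw [← h2] at h3
      exact core hΓ h2' h1.symm h3.symm
  · rcases hpr with ⟨h3, h3'⟩ | ⟨-, h3⟩
    · rw [← h3] at h2
      exact core hΓ h3' h1 h2.symm
    · rcases h1 with h1 | h1 <;> rcases h2 with h2 | h2 <;> rcases h3 with h3 | h3
      · exact Conn.inn h1 (Conn.out h2)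
      · exact Conn.inn h1 (Conn.out h2)
      · exact Conn.inn h2 (Conn.out h2 |> fun _ => by
          exact absurd (Conn.out h2) (by
            intro h4
            exact Conn.inn h3 h4))
      · exact Conn.inn h3 (Conn.out h1)
      · exact Conn.inn h1 (Conn.out h3)
      · exact Conn.inn h2 (Conn.out h3)
      · exact Conn.inn h2 (Conn.out h1)
      · exact Conn.inn h2 (Conn.out h1)

end MPaef1a0

end

section

/-!
D13: bad windows explode.
-/

set_option autoImplicit false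

namespace MPaef1a0

open SimpleGraph

namespace Bad

variable {V W : Type}

theorem le_step [Fintype V] (H : SimpleGraph W) (G : SimpleGraph V) : G ≤ step H G := by
  intro u v h
  simp only [step, SimpleGraph.fromRel_adj]
  exact ⟨h.ne, Or.inl (Or.inl h)⟩

theorem proc_mono [Fintype V] (H : SimpleGraph W) (G : SimpleGraph V) : Monotone (proc H G) :=
  monotone_nat_of_le_succ (fun t => le_step H (proc H G t))

theorem HS_mono {m : ℕ} {G G' : SimpleGraph V} (h : G ≤ G') {φ : (Σ c, CV m c) → V}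
    (hs : HS m G φ) : HS m G' φ :=
  ⟨hs.inj, fun c a b hab => h (hs.hom c a b hab), fun q a b hab => h (hs.clq q a b hab)⟩

theorem TwoECOn_mono {G G' : SimpleGraph V} (h : G ≤ G') {S : Set V} (hs : TwoECOn G S) :
    TwoECOn G' S := by
  intro A hA hn hc
  obtain ⟨a, b, a', b', h1, h2, h3, h4, h5, h6, h7⟩ := hs A hA hn hc
  exact ⟨a, b, a', b', h1, h2, h3, h4, h h5, h h6, h7⟩

theorem Clq_mono {G G' : SimpleGraph V} (h : G ≤ G') {S : Set V} (hs : Clq G S) :
    Clq G' S := fun x hx y hy hxy => h (hs x hx y hy hxy)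

theorem EmbOn_mono {G G' : SimpleGraph V} (h : G ≤ G') {X X' : Set V} (hX : X ⊆ X')
    (he : EmbOn G' X') : EmbOn G X := by
  obtain ⟨E, Γ, hΓ, f, hf, hf2⟩ := he
  refine ⟨E, Γ, hΓ, fun x => f ⟨x.1, hX x.2⟩, ?_, ?_⟩
  · intro x y hxy
    have := hf hxy
    exact Subtype.ext (Subtype.mk.inj this)
  · intro a b hab
    exact hf2 _ _ (h hab)

theorem twoEC_range (R : SimpleGraph W) (G : SimpleGraph V) (f : W → V)
    (hf : ∀ a b, R.Adj a b → G.Adj (f a) (f b)) (hi : Function.Injective f) (h : TwoEC R) :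
    TwoECOn G (Set.range f) := by
  intro A hA hn hc
  obtain ⟨x, hx⟩ := hn
  obtain ⟨y, hy, hyA⟩ := hc
  obtain ⟨x', rfl⟩ := hA hx
  obtain ⟨y', rfl⟩ := hy
  obtain ⟨a, b, a', b', h1, h2, h3, h4, h5, h6, h7⟩ := h (f ⁻¹' A) (Set.subset_univ _) ⟨x', hx⟩
    ⟨y', Set.mem_univ _, hyA⟩
  refine ⟨f a, f b, f a', f b', h1, ⟨⟨b, rfl⟩, h2.2⟩, h3, ⟨⟨b', rfl⟩, h4.2⟩, hf _ _ h5,
    hf _ _ h6, ?_⟩
  rcases h7 with h7 | h7
  · exact Or.inl (fun h => h7 (hi h))
  · exact Or.inr (fun h => h7 (hi h))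

theorem closed_of_twoEC {G : SimpleGraph V} {S K : Set V} (hS : TwoECOn G S) (hK : Closed G K)
    {x : V} (hx : x ∈ S) (hxK : x ∈ K) : S ⊆ K := by
  by_contra hn
  rw [Set.not_subset] at hn
  obtain ⟨y, hy, hyK⟩ := hn
  obtain ⟨a, b, a', b', h1, h2, h3, h4, h5, h6, h7⟩ := hS (S ∩ K) Set.inter_subset_left
    ⟨x, hx, hxK⟩ ⟨y, hy, fun h => hyK h.2⟩
  exact h2.2 ⟨h2.1, hK a h1.2 b h5⟩

theorem twoEC_union {I : Type} {G : SimpleGraph V} {X : Set V} {Y : I → Set V}
    (hX : TwoECOn G X) (hY : ∀ i, TwoECOn G (Y i)) (hm : ∀ i, (Y i ∩ X).Nonempty) :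
    TwoECOn G (X ∪ ⋃ i, Y i) := by
  intro A hA hn hc
  have key : ∀ i, (A ∩ Y i).Nonempty → (Y i \ A).Nonempty → ∃ a b a' b', a ∈ A ∧
      b ∈ (X ∪ ⋃ i, Y i) \ A ∧ a' ∈ A ∧ b' ∈ (X ∪ ⋃ i, Y i) \ A ∧ G.Adj a b ∧ G.Adj a' b' ∧
      (a ≠ a' ∨ b ≠ b') := by
    intro i h1 h2
    have hsub : Y i ⊆ X ∪ ⋃ i, Y i := fun z hz => Or.inr (Set.mem_iUnion.2 ⟨i, hz⟩)
    obtain ⟨a, b, a', b', h1, h2, h3, h4, h5, h6, h7⟩ := hY i (A ∩ Y i) Set.inter_subset_right
      h1 (by
        obtain ⟨z, hz, hzA⟩ := h2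
        exact ⟨z, hz, fun h => hzA h.1⟩)
    exact ⟨a, b, a', b', h1.1, ⟨hsub h2.1, fun h => h2.2 ⟨h, h2.1⟩⟩, h3.1,
      ⟨hsub h4.1, fun h => h4.2 ⟨h, h4.1⟩⟩, h5, h6, h7⟩
  by_cases hXA : X ⊆ A
  · obtain ⟨b, hb, hbA⟩ := hc
    rcases hb with hb | hb
    · exact absurd (hXA hb) hbA
    · obtain ⟨i, hi⟩ := Set.mem_iUnion.1 hb
      obtain ⟨z, hz, hzX⟩ := hm i
      exact key i ⟨z, hXA hzX, hz⟩ ⟨b, hi, hbA⟩
  · rw [Set.not_subset] at hXA
    obtain ⟨x, hx, hxA⟩ := hXA
    by_cases hXA' : (A ∩ X).Nonempty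
    · obtain ⟨a, b, a', b', h1, h2, h3, h4, h5, h6, h7⟩ := hX (A ∩ X) Set.inter_subset_right
        hXA' ⟨x, hx, fun h => hxA h.1⟩
      exact ⟨a, b, a', b', h1.1, ⟨Or.inl h2.1, fun h => h2.2 ⟨h, h2.1⟩⟩, h3.1,
        ⟨Or.inl h4.1, fun h => h4.2 ⟨h, h4.1⟩⟩, h5, h6, h7⟩
    · obtain ⟨a, ha⟩ := hn
      rcases hA ha with h | h
      · exact absurd ⟨a, ha, h⟩ hXA'
      · obtain ⟨i, hi⟩ := Set.mem_iUnion.1 h
        obtain ⟨z, hz, hzX⟩ := hm i
        exact key i ⟨a, ha, hi⟩ ⟨z, hz, fun h => hXA' ⟨z, h, hzX⟩⟩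

theorem sym2_sub {X : Set V} (p q x y : X) :
    s((p : V), (q : V)) = s((x : V), (y : V)) ↔ s(p, q) = s(x, y) := by
  simp only [Sym2.eq_iff, Subtype.ext_iff]

/-- The saturation of `X` under the rule hosts. -/
def satu {m : ℕ} (φ : (Σ c, CV m c) → V) (X : Set V) : Set V :=
  X ∪ ⋃ i : {r : RK // (host φ (.inl r) ∩ X).Nonempty}, host φ (.inl i.1)

theorem card_rules (m : ℕ) (φ : (Σ c, CV m c) → V) :
    (⋃ r : RK, host φ (.inl r)).ncard ≤ 624 := by
  have h1 : (⋃ r : RK, host φ (.inl r)) ⊆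
      Set.range (fun p : (Σ r : RK, Fin (ne r) × Fin 12) => φ ⟨.inl p.1, p.2⟩) := by
    intro x hx
    obtain ⟨r, hr⟩ := Set.mem_iUnion.1 hx
    obtain ⟨a, rfl⟩ := hr
    exact ⟨⟨r, a⟩, rfl⟩
  have h2 := Set.ncard_le_ncard h1 (Set.finite_range _)
  refine h2.trans ?_
  rw [← Set.image_univ]
  refine (Set.ncard_image_le (Set.toFinite _)).trans ?_
  rw [Set.ncard_univ, Nat.card_eq_fintype_card, Fintype.card_sigma]
  simp only [Fintype.card_prod, Fintype.card_fin]
  decide

theorem mem_satu {m : ℕ} (φ : (Σ c, CV m c) → V) (X : Set V) (r : RK)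
    (h : (host φ (.inl r) ∩ X).Nonempty) : host φ (.inl r) ⊆ satu φ X := fun _ hx =>
  Or.inr (Set.mem_iUnion.2 ⟨⟨r, h⟩, hx⟩)

theorem satu_ncard [Fintype V] {m : ℕ} (φ : (Σ c, CV m c) → V) (X : Set V) :
    (satu φ X).ncard ≤ X.ncard + 624 := by
  have h1 : satu φ X ⊆ X ∪ ⋃ r : RK, host φ (.inl r) := by
    intro x hx
    rcases hx with hx | hx
    · exact Or.inl hx
    · obtain ⟨i, hi⟩ := Set.mem_iUnion.1 hx
      exact Or.inr (Set.mem_iUnion.2 ⟨i.1, hi⟩)
  refine (Set.ncard_le_ncard h1 (Set.toFinite _)).trans ?_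
  refine (Set.ncard_union_le _ _).trans ?_
  have := card_rules m φ
  omega

theorem host_disj {m : ℕ} {φ : (Σ c, CV m c) → V} (hi : Function.Injective φ) {c c' : Comp m}
    (h : c ≠ c') : Disjoint (host φ c) (host φ c') := by
  rw [Set.disjoint_left]
  rintro x ⟨a, rfl⟩ ⟨b, hb⟩
  have := hi hb
  exact h (congrArg Sigma.fst this).symm

theorem satu_sat {m : ℕ} {φ : (Σ c, CV m c) → V} (hi : Function.Injective φ) (X KF : Set V)
    (hQ : ∀ q : QIdx m, host φ (.inr q) ⊆ KF) (hd : Disjoint (satu φ X) KF) (c : Comp m) :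
    host φ c ⊆ satu φ X ∨ Disjoint (host φ c) (satu φ X) := by
  cases c with
  | inl r =>
    by_cases h : (host φ (.inl r) ∩ X).Nonempty
    · exact Or.inl (mem_satu φ X r h)
    · right
      rw [Set.disjoint_left]
      intro x hx hx'
      rcases hx' with hx' | hx'
      · exact h ⟨x, hx, hx'⟩
      · obtain ⟨i, hi'⟩ := Set.mem_iUnion.1 hx'
        by_cases hr : r = i.1
        · exact h (hr ▸ i.2)
        · exact Set.disjoint_left.1 (host_disj hi (c := .inl r) (c' := .inl i.1)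
            (fun h => hr (Sum.inl.inj h))) hx hi'
  | inr q =>
    right
    exact (hd.mono_right (hQ q)).symm

end Bad

theorem bad (h9 : stRH1) (h4 : stTagBad) (h5 : stK12Bad) (h6 : stPatTwoEC) (h11 : stGrow) :
    stBad := by
  intro m hm V _ G φ hs KF hKF hQ X hX hXK N
  obtain ⟨hX1, hX2, hX3, ⟨α, hα, hαX⟩, hX4⟩ := hX
  have hhost : ∀ r : RK, TwoECOn G (host φ (.inl r)) := by
    intro r
    refine Bad.twoEC_range (Phi (pat r)) G (fun a : CV m (.inl r) => φ ⟨.inl r, a⟩)
      (fun a b hab => hs.hom (.inl r) a b hab) ?_ (h6 r)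
    intro a b hab
    have h := hs.inj hab
    exact eq_of_heq (Sigma.mk.inj h).2
  have hhostK : ∀ (r : RK) (x : V), x ∈ host φ (.inl r) → x ∉ KF →
      Disjoint (host φ (.inl r)) KF := by
    intro r x hx hxK
    rw [Set.disjoint_left]
    intro y hy hyK
    exact hxK (Bad.closed_of_twoEC (hhost r) hKF hy hyK hx)
  set X1 := Bad.satu φ X with hX1d
  have hXX1 : X ⊆ X1 := fun x hx => Or.inl hx
  have h2ec : TwoECOn G X1 :=
    Bad.twoEC_union hX3 (fun i => hhost i.1) (fun i => i.2)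
  have hdis : Disjoint X1 KF := by
    rw [Set.disjoint_left]
    intro x hx hxK
    rcases hx with hx | hx
    · exact Set.disjoint_left.1 hXK hx hxK
    · obtain ⟨i, hi⟩ := Set.mem_iUnion.1 hx
      obtain ⟨y, hy, hyX⟩ := i.2
      exact Set.disjoint_left.1 (hhostK i.1 y hy (Set.disjoint_left.1 hXK hyX)) hi hxK
  have hsat : ∀ c, host φ c ⊆ X1 ∨ Disjoint (host φ c) X1 :=
    Bad.satu_sat hs.inj X KF hQ hdis
  have hc1 : 14 ≤ X1.ncard := hX1.trans (Set.ncard_le_ncard hXX1 (Set.toFinite _))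
  have hc2 : X1.ncard ≤ m := by
    have : X1.ncard ≤ X.ncard + 624 := Bad.satu_ncard φ X
    omega
  -- step 1
  have step1 : ∀ a b, a ≠ b → (step (HG m) G).Adj (α a) (α b) := by
    intro a b hab
    by_cases hadj : G.Adj (α a) (α b)
    · exact Bad.le_step _ _ hadj
    have htag : ¬ tag.Adj a b := fun h => hadj (hα.2 a b h)
    refine h9 m V G φ hs X1 (α a) (α b) (hXX1 (hαX a)) (hXX1 (hαX b)) (fun h => hab (hα.1 h))
      hc1 hc2 hsat ⟨Bad.TwoECOn_mono le_sup_left h2ec, fun x hx y hy hxy => ?_⟩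
    by_cases he : s(x, y) = s(α a, α b)
    · intro hemb
      refine hX4 (Bad.EmbOn_mono ?_ hXX1 hemb)
      intro p q hpq
      rw [SimpleGraph.deleteEdges_adj]
      refine ⟨Or.inl hpq, ?_⟩
      rw [Set.mem_singleton_iff, he]
      intro h
      rw [Sym2.eq_iff] at h
      rcases h with ⟨rfl, rfl⟩ | ⟨rfl, rfl⟩
      · exact hadj hpq
      · exact hadj hpq.symm
    · have hne : α a ≠ α b := fun h => hab (hα.1 h)
      refine h4 X1 _ (fun i => ⟨α i, hXX1 (hαX i)⟩) a b s(⟨x, hx⟩, ⟨y, hy⟩) ?_ hab htag ?_ ?_ ?_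
      · intro i j hij
        exact hα.1 (Subtype.mk.inj hij)
      · intro h
        exact he ((Bad.sym2_sub _ _ _ _).2 h).symm
      · show (((G ⊔ SimpleGraph.edge (α a) (α b)).deleteEdges {s(x, y)})).Adj (α a) (α b)
        rw [SimpleGraph.deleteEdges_adj]
        refine ⟨Or.inr ?_, fun h => he (Set.mem_singleton_iff.1 h).symm⟩
        rw [SimpleGraph.edge_adj]
        exact ⟨Or.inl ⟨rfl, rfl⟩, hne⟩
      · intro i j hij hne'
        show (((G ⊔ SimpleGraph.edge (α a) (α b)).deleteEdges {s(x, y)})).Adj (α i) (α j)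
        rw [SimpleGraph.deleteEdges_adj]
        refine ⟨Or.inl (hα.2 i j hij), fun h => hne' ?_⟩
        exact (Bad.sym2_sub _ _ _ _).1 (Set.mem_singleton_iff.1 h)
  -- step 2
  have hG1 : G ≤ step (HG m) G := Bad.le_step _ _
  have step2 : Clq (step (HG m) (step (HG m) G)) X1 := by
    intro u hu v hv huv
    refine h9 m V _ φ (Bad.HS_mono hG1 hs) X1 u v hu hv huv hc1 hc2 hsat
      ⟨Bad.TwoECOn_mono (hG1.trans le_sup_left) h2ec, fun x hx y hy hxy => ?_⟩
    refine h5 X1 _ (fun i => ⟨α i, hXX1 (hαX i)⟩) s(⟨x, hx⟩, ⟨y, hy⟩) ?_ ?_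
    · intro i j hij
      exact hα.1 (Subtype.mk.inj hij)
    · intro i j hij hne'
      show (((step (HG m) G ⊔ SimpleGraph.edge u v).deleteEdges {s(x, y)})).Adj (α i) (α j)
      rw [SimpleGraph.deleteEdges_adj]
      refine ⟨Or.inl (step1 i j hij), fun h => hne' ?_⟩
      exact (Bad.sym2_sub _ _ _ _).1 (Set.mem_singleton_iff.1 h)
  have hGt : ∀ t, G ≤ proc (HG m) G t := fun t => Bad.proc_mono (HG m) G (Nat.zero_le t)
  -- growth
  have grow : ∀ j : ℕ, (∃ K : Set V, Clq (proc (HG m) G (2 * j + 2)) K ∧ N ≤ K.ncard) ∨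
      (∃ K : Set V, Closed G K ∧ X ⊆ K ∧ K.ncard < N) ∨
      ∃ W : Set V, Blob m (proc (HG m) G (2 * j + 2)) φ W ∧ Disjoint W KF ∧ X ⊆ W ∧
        j ≤ W.ncard := by
    intro j
    induction j with
    | zero =>
      right; right
      refine ⟨X1, ⟨step2, hc1, hsat, ?_⟩, hdis, hXX1, Nat.zero_le _⟩
      intro q q' hq _
      exfalso
      have hq14 : 14 ≤ (q.1.1 : ℕ) := q.2.1
      have hx : φ ⟨.inr q, (⟨0, by omega⟩ : Fin q.1.1)⟩ ∈ host φ (.inr q) :=
        ⟨(⟨0, by omega⟩ : Fin q.1.1), rfl⟩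
      exact Set.disjoint_left.1 hdis (hq hx) (hQ q hx)
    | succ j ih =>
      rcases ih with ⟨K, hK1, hK2⟩ | h | ⟨W, hW, hWK, hXW, hjW⟩
      · left
        exact ⟨K, Bad.Clq_mono (Bad.proc_mono (HG m) G (by omega)) hK1, hK2⟩
      · right; left
        exact h
      · by_cases hN : N ≤ W.ncard
        · left
          exact ⟨W, Bad.Clq_mono (Bad.proc_mono (HG m) G (by omega)) hW.clq, hN⟩
        by_cases hcl : Closed G W
        · right; left
          exact ⟨W, hcl, hXW, not_le.1 hN⟩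
        right; right
        simp only [Closed, not_forall] at hcl
        obtain ⟨w, hw, u, hwu, hu⟩ := hcl
        have huK : u ∉ KF := fun h => Set.disjoint_left.1 hWK hw (hKF u h w hwu.symm)
        have hb := h11 m hm V (proc (HG m) G (2 * j + 2)) φ (Bad.HS_mono (hGt _) hs) W hW u w hw
          hu (hGt _ hwu.symm) (fun q h => huK (hQ q h))
        refine ⟨W ∪ Uof φ u, hb, ?_, fun x hx => Or.inl (hXW hx), ?_⟩
        · rw [Set.disjoint_left]
          intro x hx hxK
          rcases hx with hx | hx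
          · exact Set.disjoint_left.1 hWK hx hxK
          · rcases hx with hx | ⟨r, hur, hxr⟩
            · exact huK (hx ▸ hxK)
            · exact Set.disjoint_left.1 (hhostK r u hur huK) hxr hxK
        · have : W.ncard < (W ∪ Uof φ u).ncard := by
            refine Set.ncard_lt_ncard ?_ (Set.toFinite _)
            refine ⟨Set.subset_union_left, fun h => hu (h (Or.inr (Or.inl rfl)))⟩
          omega
  rcases grow N with h | h | ⟨W, hW, -, -, hNW⟩
  · exact Or.inl h
  · exact Or.inr h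
  · exact Or.inl ⟨W, hW.clq, hNW⟩

end MPaef1a0

end

section

/-!
D19: chains of infections.
-/

set_option autoImplicit false

namespace MPaef1a0

open SimpleGraph

theorem chain : stStep → stChain := by
  intro hS V ι _ _ F _ R pref G a b hab
  classical
  set Gs := proc (famG R) G with hGs
  -- choice with preference
  have choice : ∀ t, ∀ u v : V, ¬ (Gs t).Adj u v → (Gs (t + 1)).Adj u v →
      ∃ (c : ι) (f : F c → V), InfBy R (Gs t) c f u v ∧
        ((∃ (c' : ι) (f' : F c' → V), pref c' ∧ InfBy R (Gs t) c' f' u v) → pref c) := by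
    intro t u v h0 h1
    by_cases hp : ∃ (c' : ι) (f' : F c' → V), pref c' ∧ InfBy R (Gs t) c' f' u v
    · obtain ⟨c', f', hc, hi⟩ := hp
      exact ⟨c', f', hi, fun _ => hc⟩
    · have h2 : (step (famG R) (Gs t)).Adj u v := h1
      rw [hS V ι F R (Gs t) u v] at h2
      rcases h2 with h2 | ⟨c, f, h2⟩
      · exact absurd h2 h0
      · exact ⟨c, f, h2, fun h => absurd h hp⟩
  -- the link step
  have link : ∀ t, ¬ Chg R Gs t → ∀ u v : V, ¬ (Gs (t + 1)).Adj u v → ∀ (c : ι) (f : F c → V),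
      InfBy R (Gs (t + 1)) c f u v →
      ∃ x y, (R c).Adj x y ∧ ¬ (Gs t).Adj (f x) (f y) ∧ (Gs (t + 1)).Adj (f x) (f y) := by
    intro t hch u v hn c f ⟨⟨hinj, hadj, huse⟩, hfree⟩
    by_contra hcon
    push Not at hcon
    apply hn
    have hfree' : Free R (Gs t) c (Set.range f) := by
      by_contra hf
      exact hch ⟨c, f, hfree, hf⟩
    have : (step (famG R) (Gs t)).Adj u v := by
      rw [hS V ι F R (Gs t) u v]
      right
      refine ⟨c, f, ⟨hinj, ?_, huse⟩, hfree'⟩
      intro x y hxy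
      rcases hadj x y hxy with h | h
      · left
        by_contra h'
        exact hcon x y hxy h' h
      · right
        exact h
    exact this
  have main : ∀ b, a ≤ b → (∀ t, a ≤ t → t < b → ¬ Chg R Gs t) →
      ∀ u v : V, ¬ (Gs b).Adj u v → (Gs (b + 1)).Adj u v →
      ∃ s : ℕ → (Σ c : ι, (F c → V) × V × V), (s b).2.2.1 = u ∧ (s b).2.2.2 = v ∧
        ∀ t, a ≤ t → t ≤ b →
          ¬ (Gs t).Adj (s t).2.2.1 (s t).2.2.2 ∧
          InfBy R (Gs t) (s t).1 (s t).2.1 (s t).2.2.1 (s t).2.2.2 ∧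
          ((∃ (c' : ι) (f' : F c' → V), pref c' ∧
            InfBy R (Gs t) c' f' (s t).2.2.1 (s t).2.2.2) → pref (s t).1) ∧
          (a < t → ∃ x y, (R (s t).1).Adj x y ∧ (s t).2.1 x = (s (t - 1)).2.2.1 ∧
            (s t).2.1 y = (s (t - 1)).2.2.2) := by
    intro b hab
    induction b, hab using Nat.le_induction with
    | base =>
      intro _ u v h0 h1
      obtain ⟨c, f, hi, hp⟩ := choice a u v h0 h1
      refine ⟨fun _ => ⟨c, f, u, v⟩, rfl, rfl, ?_⟩
      intro t ht ht'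
      have : t = a := le_antisymm ht' ht
      subst this
      exact ⟨h0, hi, hp, fun h => absurd h (lt_irrefl _)⟩
    | succ b hab ih =>
      intro hch u v h0 h1
      obtain ⟨c, f, hi, hp⟩ := choice (b + 1) u v h0 h1
      obtain ⟨x, y, hxy, hn, hy⟩ := link b (hch b hab (Nat.lt_succ_self b)) u v h0 c f hi
      obtain ⟨s, e1, e2, hall⟩ := ih (fun t h h' => hch t h (by omega)) (f x) (f y) hn hy
      refine ⟨Function.update s (b + 1) ⟨c, f, u, v⟩, ?_, ?_, ?_⟩
      · rw [Function.update_self]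
      · rw [Function.update_self]
      intro t ht ht'
      by_cases htb : t = b + 1
      · subst htb
        rw [Function.update_self, Function.update_of_ne (by omega : b + 1 - 1 ≠ b + 1)]
        refine ⟨h0, hi, hp, fun _ => ⟨x, y, hxy, ?_, ?_⟩⟩
        · simpa using e1.symm
        · simpa using e2.symm
      · rw [Function.update_of_ne htb, Function.update_of_ne (by omega : t - 1 ≠ b + 1)]
        exact hall t ht (by omega)
  intro hch u v h0 h1
  obtain ⟨s, h1, h2, h3⟩ := main b hab hch u v h0 h1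
  exact ⟨fun t => (s t).2.2.1, fun t => (s t).2.2.2, fun t => (s t).1, fun t => (s t).2.1,
    h1, h2, h3⟩

end MPaef1a0

end

section

/-!
D3, D4, D5: closed sets and unions.
-/

set_option autoImplicit false

namespace MPaef1a0

open SimpleGraph

theorem nearClosed : stNearClosed := by
  intro V W R G f u v K hR hN hK
  obtain ⟨hinj, hadj, -⟩ := hN
  by_contra hcon
  rw [not_or] at hcon
  obtain ⟨h1, h2⟩ := hcon
  push Not at h1 h2
  obtain ⟨y, hy⟩ := h1
  obtain ⟨x, hx⟩ := h2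
  have hmem : ∀ a, a ∈ {a | f a ∈ K} ↔ f a ∈ K := fun a => Iff.rfl
  obtain ⟨a, b, a', b', ha, hb, ha', hb', hab, hab', hne⟩ :=
    hR {a | f a ∈ K} (Set.subset_univ _) ⟨x, hx⟩ ⟨y, Set.mem_univ y, hy⟩
  rw [hmem] at ha ha'
  have hb1 : f b ∉ K := hb.2
  have hb1' : f b' ∉ K := hb'.2
  have key : ∀ c d, R.Adj c d → f c ∈ K → f d ∉ K → s(f c, f d) = s(u, v) := by
    intro c d hcd hc hd
    rcases hadj c d hcd with h | h
    · exact absurd (hK (f c) hc (f d) h) hd
    · exact h
  have h3 := (key a b hab ha hb1).trans (key a' b' hab' ha' hb1').symm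
  rw [Sym2.eq_iff] at h3
  rcases h3 with ⟨h4, h5⟩ | ⟨h4, h5⟩
  · rcases hne with h6 | h6
    · exact h6 (hinj h4)
    · exact h6 (hinj h5)
  · rw [h4] at ha
    exact hb1' ha

theorem stepClosed : stStep → stNearClosed → stStepClosed := by
  intro hS hN V ι _ _ F _ R G K hR hK t
  induction t with
  | zero => exact hK
  | succ t ih =>
    intro x hx y hxy
    have h1 : (step (famG R) (proc (famG R) G t)).Adj x y := hxy
    rw [hS] at h1
    rcases h1 with h1 | ⟨c, f, h1, -⟩
    · exact ih x hx y h1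
    · obtain ⟨a, b, -, ha, hb⟩ := h1.2.2
      rcases hN _ _ (R c) _ f x y K (hR c) h1 ih with h2 | h2
      · rw [← hb]
        exact h2 b
      · rw [← ha] at hx
        exact absurd hx (h2 a)

theorem union : stUnion := by
  intro V G X Y hX hY hXY A hA hAn hAc
  obtain ⟨z, hzX, hzY⟩ := hXY
  have key : ∀ S : Set V, S ⊆ X ∪ Y → TwoECOn G S → (∃ p ∈ S, p ∈ A) → (∃ p ∈ S, p ∉ A) →
      ∃ a b a' b', a ∈ A ∧ b ∈ (X ∪ Y) \ A ∧ a' ∈ A ∧ b' ∈ (X ∪ Y) \ A ∧ G.Adj a b ∧
        G.Adj a' b' ∧ (a ≠ a' ∨ b ≠ b') := by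
    intro S hS h h1 h2
    obtain ⟨p, hp, hpA⟩ := h1
    obtain ⟨q, hq, hqA⟩ := h2
    obtain ⟨a, b, a', b', ha, hb, ha', hb', hab, hab', hne⟩ := h (A ∩ S) Set.inter_subset_right
      ⟨p, hpA, hp⟩ ⟨q, hq, fun h => hqA h.1⟩
    refine ⟨a, b, a', b', ha.1, ⟨hS hb.1, fun h => hb.2 ⟨h, hb.1⟩⟩, ha'.1,
      ⟨hS hb'.1, fun h => hb'.2 ⟨h, hb'.1⟩⟩, hab, hab', hne⟩
  by_cases hz : z ∈ A
  · obtain ⟨w, hw, hwA⟩ := hAc
    rcases hw with hw | hw
    · exact key X Set.subset_union_left hX ⟨z, hzX, hz⟩ ⟨w, hw, hwA⟩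
    · exact key Y Set.subset_union_right hY ⟨z, hzY, hz⟩ ⟨w, hw, hwA⟩
  · obtain ⟨w, hw⟩ := hAn
    rcases hA hw with hw' | hw'
    · exact key X Set.subset_union_left hX ⟨w, hw', hw⟩ ⟨z, hzX, hz⟩
    · exact key Y Set.subset_union_right hY ⟨w, hw', hw⟩ ⟨z, hzY, hz⟩

end MPaef1a0

end

section

/-!
Item D1: adding a non-edge increases the number of copies iff a copy uses it.
-/

set_option autoImplicit false

namespace MPaef1a0

open SimpleGraph

namespace ItemD1

variable {V W : Type}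

/-- a subgraph of `G` as a subgraph of a larger graph -/
def lift {G G' : SimpleGraph V} (h : G ≤ G') (K : G.Subgraph) : G'.Subgraph where
  verts := K.verts
  Adj := K.Adj
  adj_sub := fun h1 => h (K.adj_sub h1)
  edge_vert := K.edge_vert
  symm := K.symm

lemma lift_injective {G G' : SimpleGraph V} (h : G ≤ G') : Function.Injective (lift h) := by
  intro K K' hK
  have h1 : K.verts = K'.verts := congrArg (fun L : G'.Subgraph => L.verts) hK
  have h2 : K.Adj = K'.Adj := congrArg (fun L : G'.Subgraph => L.Adj) hK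
  exact Subgraph.ext h1 h2

theorem lower_sub {G : SimpleGraph V} {u v : V} (K : (G ⊔ SimpleGraph.edge u v).Subgraph)
    (hKuv : ¬ K.Adj u v) {x y : V} (hxy : K.Adj x y) : G.Adj x y := by
  have h2 := K.adj_sub hxy
  rw [SimpleGraph.sup_adj, SimpleGraph.edge_adj] at h2
  rcases h2 with h2 | h2
  · exact h2
  · exfalso
    rcases h2.1 with h3 | h3
    · rw [h3.1, h3.2] at hxy
      exact hKuv hxy
    · rw [h3.1, h3.2] at hxy
      exact hKuv hxy.symm

/-- a subgraph of `G + uv` not using `uv` as a subgraph of `G` -/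
def lower {G : SimpleGraph V} {u v : V} (K : (G ⊔ SimpleGraph.edge u v).Subgraph)
    (hKuv : ¬ K.Adj u v) : G.Subgraph where
  verts := K.verts
  Adj := K.Adj
  adj_sub := fun hxy => lower_sub K hKuv hxy
  edge_vert := K.edge_vert
  symm := K.symm

lemma near_iff {H : SimpleGraph W} {G : SimpleGraph V} {u v : V} :
    (∃ K : (G ⊔ SimpleGraph.edge u v).Subgraph, Nonempty (H ≃g K.coe) ∧ K.Adj u v) ↔
      ∃ f : W → V, Near H G f u v := by
  constructor
  · rintro ⟨K, ⟨e⟩, hK⟩
    refine ⟨fun w => (e w : V), ?_, ?_, ?_⟩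
    · intro a b hab
      exact e.injective (Subtype.ext hab)
    · intro a b hab
      have h1 : K.coe.Adj (e a) (e b) := e.map_rel_iff.mpr hab
      have h2 : (G ⊔ SimpleGraph.edge u v).Adj (e a : V) (e b : V) := K.adj_sub h1
      rw [SimpleGraph.sup_adj, SimpleGraph.edge_adj] at h2
      rcases h2 with h2 | h2
      · exact Or.inl h2
      · right
        rw [Sym2.eq_iff]
        exact h2.1
    · refine ⟨e.symm ⟨u, K.edge_vert hK⟩, e.symm ⟨v, K.edge_vert hK.symm⟩, ?_, ?_, ?_⟩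
      · apply e.map_rel_iff.mp
        rw [e.apply_symm_apply, e.apply_symm_apply]
        exact hK
      · show ((e (e.symm _) : K.verts) : V) = u
        rw [e.apply_symm_apply]
      · show ((e (e.symm _) : K.verts) : V) = v
        rw [e.apply_symm_apply]
  · rintro ⟨f, hinj, hhom, a, b, hab, hfa, hfb⟩
    have huv : u ≠ v := by
      rintro rfl
      exact hab.ne (hinj (hfa.trans hfb.symm))
    have hom : ∀ x y, H.Adj x y → (G ⊔ SimpleGraph.edge u v).Adj (f x) (f y) := by
      intro x y hxy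
      rw [SimpleGraph.sup_adj, SimpleGraph.edge_adj]
      rcases hhom x y hxy with h | h
      · exact Or.inl h
      · right
        rw [Sym2.eq_iff] at h
        refine ⟨h, fun h1 => hxy.ne (hinj h1)⟩
    let c : H.Copy (G ⊔ SimpleGraph.edge u v) := ⟨⟨f, fun {x y} h => hom x y h⟩, hinj⟩
    refine ⟨c.toSubgraph, ⟨c.isoToSubgraph⟩, ?_⟩
    rw [Copy.toSubgraph, Subgraph.map_adj]
    exact ⟨a, b, hab, hfa, hfb⟩

theorem cc_eq [Fintype V] (H : SimpleGraph W) (G : SimpleGraph V) :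
    G.copyCount H = Set.ncard {K : G.Subgraph | Nonempty (H ≃g K.coe)} := by
  classical
  unfold SimpleGraph.copyCount
  rw [← Set.ncard_coe_finset]
  congr 1
  ext K
  simp

end ItemD1

open ItemD1 in
/-- D1 -/
theorem count : stCount := by
  classical
  intro V W _ _ H G u v huv
  have hle : G ≤ G ⊔ SimpleGraph.edge u v := le_sup_left
  rw [← near_iff, cc_eq, cc_eq]
  rw [← Set.ncard_image_of_injective _ (lift_injective hle)]
  have hsub : (lift hle '' {K : G.Subgraph | Nonempty (H ≃g K.coe)}) ⊆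
      {K : (G ⊔ SimpleGraph.edge u v).Subgraph | Nonempty (H ≃g K.coe)} := by
    rintro _ ⟨K0, h0, rfl⟩
    exact h0
  have himg : ∀ K : (G ⊔ SimpleGraph.edge u v).Subgraph, Nonempty (H ≃g K.coe) → ¬ K.Adj u v →
      K ∈ (lift hle '' {K : G.Subgraph | Nonempty (H ≃g K.coe)}) := by
    intro K hK hKuv
    exact ⟨lower K hKuv, hK, rfl⟩
  have hfin : {K : (G ⊔ SimpleGraph.edge u v).Subgraph | Nonempty (H ≃g K.coe)}.Finite :=
    Set.toFinite _
  constructor
  · intro h
    by_contra hcon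
    push Not at hcon
    have h1 : {K : (G ⊔ SimpleGraph.edge u v).Subgraph | Nonempty (H ≃g K.coe)} ⊆
        (lift hle '' {K : G.Subgraph | Nonempty (H ≃g K.coe)}) := by
      intro K hK
      exact himg K hK (hcon K hK)
    have h2 := Set.ncard_le_ncard h1 (hfin.subset hsub)
    exact absurd h (Nat.not_lt.mpr h2)
  · rintro ⟨K, hK, hKuv⟩
    refine Set.ncard_lt_ncard ⟨hsub, fun h => ?_⟩ hfin
    obtain ⟨K0, -, h1⟩ := h hK
    have h2 : (lift hle K0).Adj u v := by rw [h1]; exact hKuv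
    exact huv (K0.adj_sub h2)

end MPaef1a0

end

section

/-!
MP_aef1a0_co, item D12: the dichotomy for the components meeting Q-hosts.
-/

set_option autoImplicit false

namespace MPaef1a0

open SimpleGraph

namespace Dich

theorem le_step {V W : Type} [Fintype V] (H : SimpleGraph W) (G : SimpleGraph V) :
    G ≤ step H G := by
  intro u v h
  unfold step
  rw [SimpleGraph.fromRel_adj]
  exact ⟨h.ne, Or.inl (Or.inl h)⟩

theorem proc_mono {V W : Type} [Fintype V] (H : SimpleGraph W) (G : SimpleGraph V) :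
    Monotone (proc H G) :=
  monotone_nat_of_le_succ (fun t => le_step H (proc H G t))

theorem hs_mono {V : Type} {m : ℕ} {G G' : SimpleGraph V} {φ : (Σ c, CV m c) → V}
    (hG : G ≤ G') (h : HS m G φ) : HS m G' φ :=
  ⟨h.inj, fun c a b hab => hG (h.hom c a b hab), fun q a b hab => hG (h.clq q a b hab)⟩

theorem clq_mono {V : Type} {G G' : SimpleGraph V} {K : Set V}
    (hG : G ≤ G') (h : Clq G K) : Clq G' K :=
  fun x hx y hy hxy => hG (h x hx y hy hxy)

theorem blob_mono {V : Type} {m : ℕ} {G G' : SimpleGraph V} {φ : (Σ c, CV m c) → V} {W : Set V}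
    (hG : G ≤ G') (h : Blob m G φ W) : Blob m G' φ W :=
  ⟨clq_mono hG h.clq, h.card, h.sat, h.one⟩

theorem closed_anti {V : Type} {G G' : SimpleGraph V} {K : Set V}
    (hG : G ≤ G') (h : Closed G' K) : Closed G K :=
  fun x hx y hxy => h x hx y (hG hxy)

/-- The family of growing cliques. -/
structure Fam {V : Type} (m : ℕ) (G : SimpleGraph V) (φ : (Σ c, CV m c) → V)
    (Wf : QIdx m → Set V) : Prop where
  sub : ∀ q, host φ (.inr q) ⊆ Wf q
  blob : ∀ q, Blob m G φ (Wf q)
  disj : ∀ q q', q ≠ q' → Disjoint (Wf q) (Wf q')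

/-- Different hosts are disjoint. -/
theorem host_disj {V : Type} {m : ℕ} {G : SimpleGraph V} {φ : (Σ c, CV m c) → V}
    (h : HS m G φ) {c c' : Comp m} (hc : c ≠ c') : Disjoint (host φ c) (host φ c') := by
  rw [Set.disjoint_left]
  rintro x ⟨a, rfl⟩ ⟨b, hb⟩
  have := h.inj hb
  exact hc (Sigma.mk.inj_iff.1 this).1.symm

theorem host_nonempty {V : Type} {m : ℕ} (φ : (Σ c, CV m c) → V) (q : QIdx m) :
    (host φ (.inr q)).Nonempty := by
  have h14 : 14 ≤ (q.1.1 : ℕ) := q.2.1
  exact ⟨φ ⟨.inr q, (⟨0, by omega⟩ : Fin q.1.1)⟩, ⟨_, rfl⟩⟩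

theorem host_ncard {V : Type} {m : ℕ} {G : SimpleGraph V} {φ : (Σ c, CV m c) → V}
    (h : HS m G φ) (q : QIdx m) : (host φ (.inr q)).ncard = (q.1.1 : ℕ) := by
  have hinj : Function.Injective (fun a : Fin q.1.1 => φ ⟨.inr q, a⟩) := by
    intro a b hab
    have := h.inj hab
    exact eq_of_heq (Sigma.mk.inj_iff.1 this).2
  have h1 : host φ (.inr q) = (fun a : Fin q.1.1 => φ ⟨.inr q, a⟩) '' Set.univ := by
    rw [Set.image_univ]; rfl
  rw [h1, Set.ncard_image_of_injective _ hinj, Set.ncard_univ, Nat.card_eq_fintype_card,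
    Fintype.card_fin]

theorem start {V : Type} {m : ℕ} {G : SimpleGraph V} {φ : (Σ c, CV m c) → V}
    (h : HS m G φ) : Fam m G φ (fun q => host φ (.inr q)) where
  sub q := subset_rfl
  blob q := by
    refine ⟨?_, ?_, ?_, ?_⟩
    · rintro x ⟨a, rfl⟩ y ⟨b, rfl⟩ hxy
      exact h.clq q a b (fun hab => hxy (by rw [hab]))
    · rw [host_ncard h q]
      exact q.2.1
    · intro c
      by_cases hc : c = .inr q
      · left
        rw [hc]
      · right
        exact host_disj h hc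
    · intro q1 q2 h1 h2
      have e1 : q1 = q := by
        by_contra hne
        have hd := host_disj h (c := .inr q1) (c' := .inr q) (by simpa using hne)
        obtain ⟨x, hx⟩ := host_nonempty φ q1
        exact (Set.disjoint_left.1 hd hx) (h1 hx)
      have e2 : q2 = q := by
        by_contra hne
        have hd := host_disj h (c := .inr q2) (c' := .inr q) (by simpa using hne)
        obtain ⟨x, hx⟩ := host_nonempty φ q2
        exact (Set.disjoint_left.1 hd hx) (h2 hx)
      rw [e1, e2]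
  disj q q' hq := host_disj h (by simpa using hq)

/-- One absorption. -/
theorem grow (hG : stGrow) {m : ℕ} (hm : 3000 ≤ m) {V : Type} [Fintype V] {G : SimpleGraph V}
    {φ : (Σ c, CV m c) → V} (h : HS m G φ) {Wf : QIdx m → Set V} (hF : Fam m G φ Wf)
    (hn : ¬ Closed G (⋃ q, Wf q)) :
    ∃ Wf' : QIdx m → Set V, Fam m (step (HG m) (step (HG m) G)) φ Wf' ∧
      (⋃ q, Wf q).ncard + 1 ≤ (⋃ q, Wf' q).ncard := by
  classical
  unfold Closed at hn
  push Not at hn
  obtain ⟨w', hw', u, hadj, hu⟩ := hn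
  obtain ⟨q, hq⟩ := Set.mem_iUnion.1 hw'
  have hu' : ∀ q', u ∉ Wf q' := fun q' h' => hu (Set.mem_iUnion.2 ⟨q', h'⟩)
  have hle : G ≤ step (HG m) (step (HG m) G) := le_trans (le_step _ _) (le_step _ _)
  have hgrow := hG m hm V G φ h (Wf q) (hF.blob q) u w' hq (hu' q) hadj.symm
    (fun q' h' => hu' q' (hF.sub q' h'))
  have hU : ∀ q', Disjoint (Uof φ u) (Wf q') := by
    intro q'
    rw [Set.disjoint_left]
    rintro x (rfl | ⟨r, hr, hx⟩) hxW
    · exact hu' q' hxW
    · rcases (hF.blob q').sat (.inl r) with hs | hd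
      · exact hu' q' (hs hr)
      · exact (Set.disjoint_left.1 hd hx) hxW
  refine ⟨Function.update Wf q (Wf q ∪ Uof φ u), ⟨?_, ?_, ?_⟩, ?_⟩
  · intro q'
    by_cases hqq : q' = q
    · subst hqq
      rw [Function.update_self]
      exact (hF.sub q').trans Set.subset_union_left
    · rw [Function.update_of_ne hqq]
      exact hF.sub q'
  · intro q'
    by_cases hqq : q' = q
    · subst hqq
      rw [Function.update_self]
      exact hgrow
    · rw [Function.update_of_ne hqq]
      exact blob_mono hle (hF.blob q')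
  · intro q1 q2 h12
    by_cases h1 : q1 = q
    · subst h1
      rw [Function.update_self, Function.update_of_ne (Ne.symm h12), Set.disjoint_union_left]
      exact ⟨hF.disj _ _ h12, hU q2⟩
    · rw [Function.update_of_ne h1]
      by_cases h2 : q2 = q
      · subst h2
        rw [Function.update_self, Set.disjoint_union_right]
        exact ⟨hF.disj _ _ h12, (hU q1).symm⟩
      · rw [Function.update_of_ne h2]
        exact hF.disj _ _ h12
  · have hsub : insert u (⋃ q, Wf q) ⊆ ⋃ q', Function.update Wf q (Wf q ∪ Uof φ u) q' := by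
      rintro x (rfl | hx)
      · refine Set.mem_iUnion.2 ⟨q, ?_⟩
        rw [Function.update_self]
        exact Or.inr (Or.inl rfl)
      · obtain ⟨q', hq'⟩ := Set.mem_iUnion.1 hx
        refine Set.mem_iUnion.2 ⟨q', ?_⟩
        by_cases hqq : q' = q
        · subst hqq
          rw [Function.update_self]
          exact Or.inl hq'
        · rw [Function.update_of_ne hqq]
          exact hq'
    have hfin : (⋃ q', Function.update Wf q (Wf q ∪ Uof φ u) q').Finite := Set.toFinite _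
    have h1 := Set.ncard_le_ncard hsub hfin
    rwa [Set.ncard_insert_of_notMem hu (Set.toFinite _)] at h1

/-- After `s` absorptions. -/
theorem iter (hG : stGrow) {m : ℕ} (hm : 3000 ≤ m) {V : Type} [Fintype V] {G : SimpleGraph V}
    {φ : (Σ c, CV m c) → V} (h : HS m G φ) (s : ℕ) :
    (∃ s' ≤ s, ∃ Wf : QIdx m → Set V, Fam m (proc (HG m) G (2 * s')) φ Wf ∧
      Closed (proc (HG m) G (2 * s')) (⋃ q, Wf q)) ∨
    (∃ Wf : QIdx m → Set V, Fam m (proc (HG m) G (2 * s)) φ Wf ∧ s ≤ (⋃ q, Wf q).ncard) := by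
  induction s with
  | zero =>
    right
    exact ⟨_, start h, Nat.zero_le _⟩
  | succ s ih =>
    rcases ih with ⟨s', hs', Wf, hF, hc⟩ | ⟨Wf, hF, hs⟩
    · left
      exact ⟨s', by omega, Wf, hF, hc⟩
    · by_cases hc : Closed (proc (HG m) G (2 * s)) (⋃ q, Wf q)
      · left
        exact ⟨s, by omega, Wf, hF, hc⟩
      · right
        have hHS : HS m (proc (HG m) G (2 * s)) φ :=
          hs_mono (proc_mono (HG m) G (Nat.zero_le _)) h
        obtain ⟨Wf', hF', hle⟩ := grow hG hm hHS hF hc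
        refine ⟨Wf', ?_, by omega⟩
        exact hF'

theorem ncard_iUnion_le {V : Type} {m : ℕ} [Fintype V] (Wf : QIdx m → Set V) :
    (⋃ q, Wf q).ncard ≤ ∑ q, (Wf q).ncard := by
  classical
  have key : ∀ s : Finset (QIdx m), (⋃ q ∈ s, Wf q).ncard ≤ ∑ q ∈ s, (Wf q).ncard := by
    intro s
    induction s using Finset.induction_on with
    | empty => simp
    | insert a s ha ih =>
      rw [Finset.sum_insert ha, Finset.set_biUnion_insert]
      exact (Set.ncard_union_le _ _).trans (Nat.add_le_add_left ih _)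
  have := key Finset.univ
  simpa using this

end Dich

/-- D12 from D11 alone. -/
theorem dich' (hG : stGrow) : stDich := by
  intro m hm V _ G φ h N
  have hmono := Dich.proc_mono (HG m) G
  rcases Dich.iter hG hm h (N * Fintype.card (QIdx m)) with
    ⟨s', hs', Wf, hF, hc⟩ | ⟨Wf, hF, hs⟩
  · by_cases hbig : ∃ q, N ≤ (Wf q).ncard
    · obtain ⟨q, hq⟩ := hbig
      left
      exact ⟨Wf q, Dich.clq_mono (hmono (Nat.mul_le_mul_left 2 hs')) (hF.blob q).clq, hq⟩
    · right
      push Not at hbig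
      refine ⟨⋃ q, Wf q, Dich.closed_anti (hmono (Nat.zero_le _)) hc, ?_, ?_⟩
      · intro q
        exact (hF.sub q).trans (Set.subset_iUnion Wf q)
      · refine (Dich.ncard_iUnion_le Wf).trans ?_
        refine (Finset.sum_le_card_nsmul Finset.univ _ N (fun q _ => (hbig q).le)).trans ?_
        rw [Finset.card_univ, smul_eq_mul, Nat.mul_comm]
  · by_cases hbig : ∃ q, N ≤ (Wf q).ncard
    · obtain ⟨q, hq⟩ := hbig
      left
      exact ⟨Wf q, (hF.blob q).clq, hq⟩
    · push Not at hbig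
      have h1 : (⋃ q, Wf q).ncard ≤ N * Fintype.card (QIdx m) := by
        refine (Dich.ncard_iUnion_le Wf).trans ?_
        refine (Finset.sum_le_card_nsmul Finset.univ _ N (fun q _ => (hbig q).le)).trans ?_
        rw [Finset.card_univ, smul_eq_mul, Nat.mul_comm]
      rcases isEmpty_or_nonempty (QIdx m) with hE | hE
      · right
        refine ⟨∅, fun x hx => absurd hx (Set.notMem_empty x), fun q => (hE.false q).elim, ?_⟩
        simp
      · exfalso
        have h2 : (⋃ q, Wf q).ncard < N * Fintype.card (QIdx m) := by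
          refine (Dich.ncard_iUnion_le Wf).trans_lt ?_
          have h3 : ∑ q, (Wf q).ncard < ∑ _q : QIdx m, N :=
            Finset.sum_lt_sum_of_nonempty Finset.univ_nonempty (fun q _ => hbig q)
          rw [Finset.sum_const, Finset.card_univ, smul_eq_mul, Nat.mul_comm] at h3
          exact h3
        omega

/-- D12: the dichotomy for the components meeting Q-hosts. -/
theorem dich : stStep → stGrow → stStepClosed → stDich := fun _ hG _ => dich' hG

end MPaef1a0

end

section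

/-!
D11: a clique absorbs a neighbour in two steps.
-/

set_option autoImplicit false
set_option linter.unusedSectionVars false

namespace MPaef1a0

open SimpleGraph

namespace GrowAux

theorem le_step {V W : Type} [Fintype V] (H : SimpleGraph W) (G : SimpleGraph V) :
    G ≤ step H G := by
  intro u v h
  unfold step
  rw [SimpleGraph.fromRel_adj]
  exact ⟨h.ne, Or.inl (Or.inl h)⟩

theorem hs_mono {V : Type} {m : ℕ} {G G' : SimpleGraph V} {φ : (Σ c, CV m c) → V}
    (hle : G ≤ G') (h : HS m G φ) : HS m G' φ :=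
  ⟨h.inj, fun c a b hab => hle (h.hom c a b hab), fun q a b hab => hle (h.clq q a b hab)⟩

theorem twoEC_mono {V : Type} {G G' : SimpleGraph V} {S : Set V}
    (hle : G ≤ G') (h : TwoECOn G S) : TwoECOn G' S := by
  intro A hA h1 h2
  obtain ⟨a, b, a', b', ha, hb, ha', hb', h3, h4, h5⟩ := h A hA h1 h2
  exact ⟨a, b, a', b', ha, hb, ha', hb', hle h3, hle h4, h5⟩

theorem clq_mono {V : Type} {G G' : SimpleGraph V} {S : Set V}
    (hle : G ≤ G') (h : Clq G S) : Clq G' S :=
  fun x hx y hy hxy => hle (h x hx y hy hxy)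

/-- A clique on at least three vertices is 2-edge-connected. -/
theorem twoEC_clq {V : Type} [Fintype V] {G : SimpleGraph V} {S : Set V}
    (h : Clq G S) (h3 : 3 ≤ S.ncard) : TwoECOn G S := by
  classical
  intro A hA h1 h2
  obtain ⟨a, ha⟩ := h1
  obtain ⟨b, hb⟩ := h2
  have haS := hA ha
  have hab : a ≠ b := fun e => hb.2 (e ▸ ha)
  -- a third vertex
  have : ∃ c ∈ S, c ≠ a ∧ c ≠ b := by
    by_contra hcon
    push Not at hcon
    have hsub : S ⊆ {a, b} := by
      intro c hc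
      by_cases hca : c = a
      · simp [hca]
      · have := hcon c hc hca
        simp [this]
    have h1 := Set.ncard_le_ncard hsub (Set.toFinite _)
    have h2 := Set.ncard_insert_le a {b}
    rw [Set.ncard_singleton] at h2
    omega
  obtain ⟨c, hcS, hca, hcb⟩ := this
  by_cases hcA : c ∈ A
  · exact ⟨a, b, c, b, ha, hb, hcA, hb, h a haS b hb.1 hab, h c hcS b hb.1 hcb, Or.inl hca.symm⟩
  · exact ⟨a, b, a, c, ha, hb, ha, ⟨hcS, hcA⟩, h a haS b hb.1 hab, h a haS c hcS hca.symm,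
      Or.inr hcb.symm⟩

/-- Gluing by two edges. -/
theorem twoEC_glue {V : Type} {G : SimpleGraph V} {S U : Set V} {s1 s2 u1 u2 : V}
    (hS : TwoECOn G S) (hU : TwoECOn G U) (hs1 : s1 ∈ S) (hs2 : s2 ∈ S) (hu1 : u1 ∈ U)
    (hu2 : u2 ∈ U) (h1 : G.Adj s1 u1) (h2 : G.Adj s2 u2) (hne : s1 ≠ s2 ∨ u1 ≠ u2) :
    TwoECOn G (S ∪ U) := by
  intro A hA hAn hAc
  by_cases hSs : (A ∩ S).Nonempty ∧ (S \ A).Nonempty
  · obtain ⟨a, b, a', b', ha, hb, ha', hb', h3, h4, h5⟩ := hS (A ∩ S) Set.inter_subset_right hSs.1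
      (by
        obtain ⟨x, hx⟩ := hSs.2
        exact ⟨x, hx.1, fun h => hx.2 h.1⟩)
    exact ⟨a, b, a', b', ha.1, ⟨Or.inl hb.1, fun h => hb.2 ⟨h, hb.1⟩⟩, ha'.1,
      ⟨Or.inl hb'.1, fun h => hb'.2 ⟨h, hb'.1⟩⟩, h3, h4, h5⟩
  by_cases hUs : (A ∩ U).Nonempty ∧ (U \ A).Nonempty
  · obtain ⟨a, b, a', b', ha, hb, ha', hb', h3, h4, h5⟩ := hU (A ∩ U) Set.inter_subset_right hUs.1
      (by
        obtain ⟨x, hx⟩ := hUs.2
        exact ⟨x, hx.1, fun h => hx.2 h.1⟩)
    exact ⟨a, b, a', b', ha.1, ⟨Or.inr hb.1, fun h => hb.2 ⟨h, hb.1⟩⟩, ha'.1,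
      ⟨Or.inr hb'.1, fun h => hb'.2 ⟨h, hb'.1⟩⟩, h3, h4, h5⟩
  -- both sides are unsplit
  have hS' : (∀ x ∈ S, x ∈ A) ∨ (∀ x ∈ S, x ∉ A) := by
    by_contra hcon
    push Not at hcon
    obtain ⟨⟨x, hx, hxA⟩, y, hy, hyA⟩ := hcon
    exact hSs ⟨⟨y, hyA, hy⟩, ⟨x, hx, hxA⟩⟩
  have hU' : (∀ x ∈ U, x ∈ A) ∨ (∀ x ∈ U, x ∉ A) := by
    by_contra hcon
    push Not at hcon
    obtain ⟨⟨x, hx, hxA⟩, y, hy, hyA⟩ := hcon
    exact hUs ⟨⟨y, hyA, hy⟩, ⟨x, hx, hxA⟩⟩
  rcases hS' with hS' | hS' <;> rcases hU' with hU' | hU'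
  · obtain ⟨x, hx, hxA⟩ := hAc
    exact absurd (hx.elim (hS' x) (hU' x)) hxA
  · exact ⟨s1, u1, s2, u2, hS' _ hs1, ⟨Or.inr hu1, hU' _ hu1⟩, hS' _ hs2, ⟨Or.inr hu2, hU' _ hu2⟩,
      h1, h2, hne⟩
  · exact ⟨u1, s1, u2, s2, hU' _ hu1, ⟨Or.inl hs1, hS' _ hs1⟩, hU' _ hu2, ⟨Or.inl hs2, hS' _ hs2⟩,
      h1.symm, h2.symm, hne.symm⟩
  · obtain ⟨x, hx⟩ := hAn
    exact absurd hx ((hA hx).elim (hS' x) (hU' x))

/-- Joining vertices completely adjacent to a clique. -/
theorem twoEC_join {V : Type} [Fintype V] {G : SimpleGraph V} {S U : Set V}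
    (hS : Clq G S) (h3 : 3 ≤ S.ncard) (hSU : ∀ s ∈ S, ∀ u ∈ U, G.Adj s u) :
    TwoECOn G (S ∪ U) := by
  classical
  have hS2 := twoEC_clq hS h3
  -- two different elements of S
  obtain ⟨s1, hs1, s2, hs2, hs12⟩ : ∃ s1 ∈ S, ∃ s2 ∈ S, s1 ≠ s2 := by
    have h1 : 1 < S.ncard := by omega
    exact (Set.one_lt_ncard_iff (Set.toFinite _)).1 h1 |>.elim fun a h => h.elim fun b h =>
      ⟨a, h.1, b, h.2.1, h.2.2⟩
  intro A hA hAn hAc
  by_cases hSs : (A ∩ S).Nonempty ∧ (S \ A).Nonempty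
  · obtain ⟨a, b, a', b', ha, hb, ha', hb', h3, h4, h5⟩ := hS2 (A ∩ S) Set.inter_subset_right
      hSs.1 (by
        obtain ⟨x, hx⟩ := hSs.2
        exact ⟨x, hx.1, fun h => hx.2 h.1⟩)
    exact ⟨a, b, a', b', ha.1, ⟨Or.inl hb.1, fun h => hb.2 ⟨h, hb.1⟩⟩, ha'.1,
      ⟨Or.inl hb'.1, fun h => hb'.2 ⟨h, hb'.1⟩⟩, h3, h4, h5⟩
  have hS' : (∀ x ∈ S, x ∈ A) ∨ (∀ x ∈ S, x ∉ A) := by
    by_contra hcon
    push Not at hcon
    obtain ⟨⟨x, hx, hxA⟩, y, hy, hyA⟩ := hcon
    exact hSs ⟨⟨y, hyA, hy⟩, ⟨x, hx, hxA⟩⟩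
  rcases hS' with hS' | hS'
  · obtain ⟨x, hx, hxA⟩ := hAc
    have hxU : x ∈ U := hx.elim (fun h => absurd (hS' x h) hxA) id
    exact ⟨s1, x, s2, x, hS' _ hs1, ⟨hx, hxA⟩, hS' _ hs2, ⟨hx, hxA⟩, hSU _ hs1 _ hxU,
      hSU _ hs2 _ hxU, Or.inl hs12⟩
  · obtain ⟨x, hx⟩ := hAn
    have hxU : x ∈ U := (hA hx).elim (fun h => absurd hx (hS' x h)) id
    exact ⟨x, s1, x, s2, hx, ⟨Or.inl hs1, hS' _ hs1⟩, hx, ⟨Or.inl hs2, hS' _ hs2⟩,
      (hSU _ hs1 _ hxU).symm, (hSU _ hs2 _ hxU).symm, Or.inr hs12⟩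

/-- A 2-edge-connected set that contains a clique on 12 vertices is a bad graph. -/
theorem qon (hK : stK12Bad) {V : Type} [Fintype V] {G : SimpleGraph V} {S X : Set V}
    (hS : Clq G S) (h12 : 12 ≤ S.ncard) (hSX : S ⊆ X) (h2 : TwoECOn G X) : QOn G X := by
  classical
  refine ⟨h2, ?_⟩
  intro a ha b hb _
  obtain ⟨T, hTS, hT⟩ : ∃ T ⊆ S, T.ncard = 12 := by
    obtain ⟨T, h1, h2⟩ := Set.exists_subset_card_eq h12
    exact ⟨T, h1, h2⟩
  have hTf : Fintype T := Fintype.ofFinite _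
  have hc : Fintype.card T = 12 := by
    rw [← hT, ← Nat.card_coe_set_eq, Nat.card_eq_fintype_card]
  let e : Fin 12 ≃ T := (Fintype.equivFinOfCardEq hc).symm
  unfold EmbOn
  refine hK X _ (fun i => ⟨(e i : V), hSX (hTS (e i).2)⟩) s(⟨a, ha⟩, ⟨b, hb⟩) ?_ ?_
  · intro i j hij
    have : (e i : V) = (e j : V) := Subtype.mk.inj hij
    exact e.injective (Subtype.ext this)
  · intro i j hij hne
    rw [SimpleGraph.induce_adj, SimpleGraph.deleteEdges_adj]
    have hijv : (e i : V) ≠ (e j : V) := fun h => hij (e.injective (Subtype.ext h))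
    refine ⟨hS _ (hTS (e i).2) _ (hTS (e j).2) hijv, ?_⟩
    intro hmem
    rw [Set.mem_singleton_iff] at hmem
    apply hne
    rw [Sym2.eq_iff] at hmem ⊢
    rcases hmem with ⟨h1, h2⟩ | ⟨h1, h2⟩
    · exact Or.inl ⟨Subtype.ext h1, Subtype.ext h2⟩
    · exact Or.inr ⟨Subtype.ext h1, Subtype.ext h2⟩

section Hosts

variable {V : Type} [Fintype V] {m : ℕ} {G : SimpleGraph V} {φ : (Σ c, CV m c) → V}

theorem host_disj (h : HS m G φ) {c c' : Comp m} {x : V} (hx : x ∈ host φ c)
    (hx' : x ∈ host φ c') : c = c' := by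
  obtain ⟨a, rfl⟩ := hx
  obtain ⟨b, hb⟩ := hx'
  have := h.inj hb
  exact (congrArg Sigma.fst this).symm

/-- `Uof` is a single vertex or a rule host. -/
theorem Uof_cases (h : HS m G φ) (u : V) :
    (Uof φ u = {u} ∧ ∀ r : RK, u ∉ host φ (.inl r)) ∨
      ∃ r : RK, u ∈ host φ (.inl r) ∧ Uof φ u = host φ (.inl r) := by
  by_cases hr : ∃ r : RK, u ∈ host φ (.inl r)
  · obtain ⟨r, hr⟩ := hr
    refine Or.inr ⟨r, hr, ?_⟩
    ext x
    constructor
    · rintro (rfl | ⟨r', h1, h2⟩)
      · exact hr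
      · have := host_disj h hr h1
        rw [this]
        exact h2
    · intro hx
      exact Or.inr ⟨r, hr, hx⟩
  · push Not at hr
    refine Or.inl ⟨?_, hr⟩
    ext x
    constructor
    · rintro (rfl | ⟨r', h1, h2⟩)
      · rfl
      · exact absurd h1 (hr r')
    · rintro rfl
      exact Or.inl rfl

theorem host_ncard_le (c : Comp m) : (host φ c).ncard ≤ Fintype.card (CV m c) := by
  unfold host
  rw [← Set.image_univ]
  refine (Set.ncard_image_le (Set.toFinite _)).trans ?_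
  rw [Set.ncard_univ, Nat.card_eq_fintype_card]

theorem host_ncard_q (h : HS m G φ) (q : QIdx m) : (host φ (.inr q)).ncard = (q.1.1 : ℕ) := by
  unfold host
  rw [← Set.image_univ, Set.ncard_image_of_injective, Set.ncard_univ, Nat.card_eq_fintype_card]
  · exact Fintype.card_fin _
  · intro a b hab
    have := h.inj hab
    exact eq_of_heq (Sigma.mk.inj this).2

theorem Uof_ncard (h : HS m G φ) (u : V) : (Uof φ u).ncard ≤ 108 := by
  rcases Uof_cases h u with ⟨h1, -⟩ | ⟨r, -, h1⟩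
  · rw [h1, Set.ncard_singleton]; norm_num
  · rw [h1]
    refine (host_ncard_le (φ := φ) (.inl r)).trans ?_
    have : Fintype.card (CV m (.inl r)) = ne r * 12 := by
      have h2 : Fintype.card (Fin (ne r) × Fin 12) = ne r * 12 := by simp
      rw [← h2]
      exact Fintype.card_congr (Equiv.refl _)
    rw [this]
    cases r <;> simp [ne]

/-- The union of the rule hosts inside `W`. -/
def RW (φ : (Σ c, CV m c) → V) (W : Set V) : Set V :=
  {x | ∃ r : RK, x ∈ host φ (.inl r) ∧ host φ (.inl r) ⊆ W}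

theorem RW_sub (W : Set V) : RW φ W ⊆ W := by
  rintro x ⟨r, h1, h2⟩
  exact h2 h1

theorem RW_ncard (W : Set V) : (RW φ W).ncard ≤ 624 := by
  classical
  have hsub : RW φ W ⊆
      Set.range (fun p : (Σ r : RK, Fin (ne r) × Fin 12) => φ ⟨.inl p.1, p.2⟩) := by
    rintro x ⟨r, ⟨a, rfl⟩, -⟩
    exact ⟨⟨r, a⟩, rfl⟩
  refine (Set.ncard_le_ncard hsub (Set.toFinite _)).trans ?_
  rw [← Set.image_univ]
  refine (Set.ncard_image_le (Set.toFinite _)).trans ?_
  rw [Set.ncard_univ, Nat.card_eq_fintype_card, Fintype.card_sigma]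
  simp only [Fintype.card_prod, Fintype.card_fin]
  decide

theorem Uof_disj_W (h : HS m G φ) {W : Set V} (hW : Blob m G φ W) {u : V} (hu : u ∉ W) :
    Disjoint (Uof φ u) W := by
  rcases Uof_cases h u with ⟨h1, -⟩ | ⟨r, hr, h1⟩
  · rw [h1]; exact Set.disjoint_singleton_left.2 hu
  · rw [h1]
    rcases hW.sat (.inl r) with h2 | h2
    · exact absurd (h2 hr) hu
    · exact h2

theorem Uof_disj_Q (h : HS m G φ) {u : V} (hu : ∀ q : QIdx m, u ∉ host φ (.inr q))
    (q : QIdx m) : Disjoint (host φ (.inr q)) (Uof φ u) := by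
  rcases Uof_cases h u with ⟨h1, -⟩ | ⟨r, hr, h1⟩
  · rw [h1]; exact Set.disjoint_singleton_right.2 (hu q)
  · rw [h1, Set.disjoint_left]
    intro x hx hx'
    have := host_disj h hx hx'
    cases this

theorem Uof_rule (h : HS m G φ) (u : V) (r : RK) :
    host φ (.inl r) ⊆ Uof φ u ∨ Disjoint (host φ (.inl r)) (Uof φ u) := by
  rcases Uof_cases h u with ⟨h1, h2⟩ | ⟨r', hr, h1⟩
  · right
    rw [h1]; exact Set.disjoint_singleton_right.2 (h2 r)
  · by_cases hrr : r = r'
    · subst hrr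
      left; rw [h1]
    · right
      rw [h1, Set.disjoint_left]
      intro x hx hx'
      have := host_disj h hx hx'
      exact hrr (Sum.inl.inj this)

/-- Rule hosts against `W0 ∪ Uof φ u` when `W0` contains all the rule hosts inside `W`. -/
theorem rule_sat (h : HS m G φ) {W W0 : Set V} (hW : Blob m G φ W) (hsub : W0 ⊆ W)
    (hR : RW φ W ⊆ W0) (u : V) (r : RK) :
    host φ (.inl r) ⊆ W0 ∪ Uof φ u ∨ Disjoint (host φ (.inl r)) (W0 ∪ Uof φ u) := by
  rcases hW.sat (.inl r) with h1 | h1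
  · left
    intro x hx
    exact Or.inl (hR ⟨r, hx, h1⟩)
  · rcases Uof_rule h u r with h2 | h2
    · left
      exact h2.trans Set.subset_union_right
    · right
      rw [Set.disjoint_union_right]
      exact ⟨h1.mono_right hsub, h2⟩

/-- The choice of the clique part of the window. -/
theorem choose (hRH1 : stRH1) (hRH2 : stRH2) (hm : 3000 ≤ m) (h : HS m G φ) {W : Set V}
    (hW : Blob m G φ W) {u w w' : V} (hw : w ∈ W) (hw' : w' ∈ W)
    (hu : ∀ q : QIdx m, u ∉ host φ (.inr q)) (huW : u ∉ W) :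
    ∃ W0 : Set V, W0 ⊆ W ∧ w ∈ W0 ∧ w' ∈ W0 ∧ 12 ≤ W0.ncard ∧
      ∀ G' : SimpleGraph V, HS m G' φ → ∀ x ∈ W0 ∪ Uof φ u, ∀ y ∈ W0 ∪ Uof φ u, x ≠ y →
        QOn (G' ⊔ SimpleGraph.edge x y) (W0 ∪ Uof φ u) → (step (HG m) G').Adj x y := by
  classical
  have hUc := Uof_ncard h u
  have hRc := RW_ncard (φ := φ) W
  have hRs := RW_sub (φ := φ) W
  have hdis := Uof_disj_W h hW huW
  -- the base set
  set B : Set V := {w, w'} ∪ RW φ W with hB
  have hBW : B ⊆ W := by
    rw [hB]
    refine Set.union_subset ?_ hRs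
    intro x hx
    rcases hx with rfl | rfl
    · exact hw
    · exact hw'
  have hBc : B.ncard ≤ 626 := by
    refine (Set.ncard_union_le _ _).trans ?_
    have h1 := Set.ncard_insert_le w {w'}
    rw [Set.ncard_singleton] at h1
    omega
  by_cases hQ : ∃ q : QIdx m, host φ (.inr q) ⊆ W
  · obtain ⟨q, hq⟩ := hQ
    have hqc := host_ncard_q h q
    have hone : ∀ q' : QIdx m, q' ≠ q → Disjoint (host φ (.inr q')) W := by
      intro q' hne
      rcases hW.sat (.inr q') with h1 | h1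
      · exact absurd (hW.one _ _ h1 hq) hne
      · exact h1
    by_cases hbig : (q.1.1 : ℕ) + 800 ≤ m
    · -- (ii)
      refine ⟨B ∪ host φ (.inr q), Set.union_subset hBW hq, Or.inl (Or.inl (Or.inl rfl)),
        Or.inl (Or.inl (Or.inr rfl)), ?_, ?_⟩
      · have h1 := Set.ncard_le_ncard (Set.subset_union_right : host φ (.inr q) ⊆
          B ∪ host φ (.inr q)) (Set.toFinite _)
        have h14 : 14 ≤ (q.1.1 : ℕ) := q.2.1
        omega
      · intro G' hG' x hx y hy hxy hQO
        refine hRH1 m V G' φ hG' _ x y hx hy hxy ?_ ?_ ?_ hQO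
        · have h1 : (host φ (.inr q)).ncard ≤ ((B ∪ host φ (.inr q)) ∪ Uof φ u).ncard :=
            Set.ncard_le_ncard (Set.subset_union_right.trans Set.subset_union_left)
              (Set.toFinite _)
          have h14 : 14 ≤ (q.1.1 : ℕ) := q.2.1
          omega
        · have h1 := Set.ncard_union_le (B ∪ host φ (.inr q)) (Uof φ u)
          have h2 := Set.ncard_union_le B (host φ (.inr q))
          omega
        · intro c
          cases c with
          | inl r =>
            exact rule_sat h hW (Set.union_subset hBW hq)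
              (Set.subset_union_right.trans Set.subset_union_left) u r
          | inr q' =>
            by_cases hqq : q' = q
            · subst hqq
              left
              exact Set.subset_union_right.trans Set.subset_union_left
            · right
              rw [Set.disjoint_union_right]
              exact ⟨(hone q' hqq).mono_right (Set.union_subset hBW hq), Uof_disj_Q h hu q'⟩
    · -- (iii)
      have hWc : (q.1.1 : ℕ) ≤ W.ncard := by
        rw [← hqc]
        exact Set.ncard_le_ncard hq (Set.toFinite _)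
      obtain ⟨W0, hBW0, hW0W, hW0c⟩ : ∃ W0 : Set V, B ⊆ W0 ∧ W0 ⊆ W ∧
          W0.ncard = (q.1.1 : ℕ) - (Uof φ u).ncard := by
        obtain ⟨T, h1, h2, h3⟩ := Set.exists_subsuperset_card_eq hBW
          (n := (q.1.1 : ℕ) - (Uof φ u).ncard) (by omega) (by omega)
        exact ⟨T, h1, h2, h3⟩
      have hww0 : w ∈ W0 := hBW0 (Or.inl (Or.inl rfl))
      have hww0' : w' ∈ W0 := hBW0 (Or.inl (Or.inr rfl))
      refine ⟨W0, hW0W, hww0, hww0', by omega, ?_⟩
      intro G' hG' x hx y hy hxy hQO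
      refine hRH2 m V G' φ hG' _ x y q hx hy hxy ?_ ?_ ?_ hQO
      · rw [Set.ncard_union_eq ((hdis.mono_right hW0W).symm) (Set.toFinite _) (Set.toFinite _)]
        omega
      · intro r
        exact rule_sat h hW hW0W (Set.subset_union_right.trans hBW0) u r
      · intro q' hqq
        rw [Set.disjoint_union_right]
        exact ⟨(hone q' hqq).mono_right hW0W, Uof_disj_Q h hu q'⟩
  · -- (i)
    push Not at hQ
    have hno : ∀ q' : QIdx m, Disjoint (host φ (.inr q')) W := by
      intro q'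
      rcases hW.sat (.inr q') with h1 | h1
      · exact absurd h1 (hQ q')
      · exact h1
    obtain ⟨T, hTW, hTc⟩ : ∃ T ⊆ W, T.ncard = 14 := by
      obtain ⟨T, h1, h2⟩ := Set.exists_subset_card_eq hW.card
      exact ⟨T, h1, h2⟩
    refine ⟨B ∪ T, Set.union_subset hBW hTW, Or.inl (Or.inl (Or.inl rfl)),
      Or.inl (Or.inl (Or.inr rfl)), ?_, ?_⟩
    · have h1 := Set.ncard_le_ncard (Set.subset_union_right : T ⊆ B ∪ T) (Set.toFinite _)
      omega
    · intro G' hG' x hx y hy hxy hQO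
      refine hRH1 m V G' φ hG' _ x y hx hy hxy ?_ ?_ ?_ hQO
      · have h1 : T.ncard ≤ ((B ∪ T) ∪ Uof φ u).ncard :=
          Set.ncard_le_ncard (Set.subset_union_right.trans Set.subset_union_left)
            (Set.toFinite _)
        omega
      · have h1 := Set.ncard_union_le (B ∪ T) (Uof φ u)
        have h2 := Set.ncard_union_le B T
        omega
      · intro c
        cases c with
        | inl r =>
          exact rule_sat h hW (Set.union_subset hBW hTW)
            (Set.subset_union_right.trans Set.subset_union_left) u r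
        | inr q' =>
          right
          rw [Set.disjoint_union_right]
          exact ⟨(hno q').mono_right (Set.union_subset hBW hTW), Uof_disj_Q h hu q'⟩

/-- Hosts of rules are 2-edge-connected, hence so is `Uof`. -/
theorem Uof_twoEC (hP : stPatTwoEC) (h : HS m G φ) (u : V) : TwoECOn G (Uof φ u) := by
  rcases Uof_cases h u with ⟨h1, -⟩ | ⟨r, -, h1⟩
  · rw [h1]
    intro A hA hAn hAc
    exfalso
    obtain ⟨x, hx⟩ := hAn
    obtain ⟨y, hy, hyA⟩ := hAc
    have hxu : x = u := hA hx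
    have hyu : y = u := hy
    exact hyA (by rw [hyu, ← hxu]; exact hx)
  · rw [h1]
    intro A hA hAn hAc
    have hP' : TwoEC (CG m (.inl r)) := hP r
    obtain ⟨a, b, a', b', ha, hb, ha', hb', h3, h4, h5⟩ := hP' {a | φ ⟨.inl r, a⟩ ∈ A}
      (Set.subset_univ _)
      (by
        obtain ⟨x, hx⟩ := hAn
        obtain ⟨a, rfl⟩ := hA hx
        exact ⟨a, hx⟩)
      (by
        obtain ⟨x, ⟨a, rfl⟩, hxA⟩ := hAc
        exact ⟨a, trivial, hxA⟩)
    have hinj : ∀ a b : CV m (.inl r), φ ⟨.inl r, a⟩ = φ ⟨.inl r, b⟩ → a = b := by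
      intro a b hab
      exact eq_of_heq (Sigma.mk.inj (h.inj hab)).2
    refine ⟨φ ⟨.inl r, a⟩, φ ⟨.inl r, b⟩, φ ⟨.inl r, a'⟩, φ ⟨.inl r, b'⟩, ha, ⟨⟨b, rfl⟩, hb.2⟩,
      ha', ⟨⟨b', rfl⟩, hb'.2⟩, h.hom _ _ _ h3, h.hom _ _ _ h4, ?_⟩
    rcases h5 with h5 | h5
    · exact Or.inl fun e => h5 (hinj _ _ e)
    · exact Or.inr fun e => h5 (hinj _ _ e)

end Hosts

theorem edge_adj_self {V : Type} (G : SimpleGraph V) {x y : V} (h : x ≠ y) :
    (G ⊔ SimpleGraph.edge x y).Adj x y := by
  rw [SimpleGraph.sup_adj, SimpleGraph.edge_adj]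
  exact Or.inr ⟨Or.inl ⟨rfl, rfl⟩, h⟩

end GrowAux

open GrowAux in
theorem grow : stStep → stRH1 → stRH2 → stK12Bad → stPatTwoEC → stUnion → stGrow := by
  classical
  intro _ hRH1 hRH2 hK hP _ m hm V _ G φ h W hW u w' hw' huW huw' hu
  have hdis := Uof_disj_W h hW huW
  have huU : u ∈ Uof φ u := Or.inl rfl
  have hle1 : G ≤ step (HG m) G := le_step _ _
  have hle2 : step (HG m) G ≤ step (HG m) (step (HG m) G) := le_step _ _
  have h' : HS m (step (HG m) G) φ := hs_mono hle1 h
  -- step 1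
  have step1 : ∀ w ∈ W, ∀ u1 ∈ Uof φ u, (step (HG m) G).Adj w u1 := by
    intro w hw u1 hu1
    have hne : w ≠ u1 := fun e => (Set.disjoint_left.1 hdis hu1) (e ▸ hw)
    by_cases hadj : G.Adj w u1
    · exact hle1 hadj
    obtain ⟨W0, hW0, hw0, hw0', h12, hall⟩ := choose hRH1 hRH2 hm h hW hw hw' hu huW
    refine hall G h w (Or.inl hw0) u1 (Or.inr hu1) hne ?_
    have hleE : G ≤ G ⊔ SimpleGraph.edge w u1 := le_sup_left
    have hclq : Clq (G ⊔ SimpleGraph.edge w u1) W0 :=
      clq_mono hleE fun x hx y hy hxy => hW.clq x (hW0 hx) y (hW0 hy) hxy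
    refine qon hK hclq h12 Set.subset_union_left ?_
    refine twoEC_glue (s1 := w') (s2 := w) (u1 := u) (u2 := u1) (twoEC_clq hclq (by omega))
      (twoEC_mono hleE (Uof_twoEC hP h u)) hw0' hw0 huU hu1 (hleE huw'.symm)
      (edge_adj_self G hne) ?_
    by_contra hcon
    push Not at hcon
    apply hadj
    rw [← hcon.1, ← hcon.2]
    exact huw'.symm
  -- step 2
  have step2 : ∀ u1 ∈ Uof φ u, ∀ u2 ∈ Uof φ u, u1 ≠ u2 →
      (step (HG m) (step (HG m) G)).Adj u1 u2 := by
    intro u1 hu1 u2 hu2 hne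
    obtain ⟨W0, hW0, -, -, h12, hall⟩ := choose hRH1 hRH2 hm h hW hw' hw' hu huW
    refine hall _ h' u1 (Or.inr hu1) u2 (Or.inr hu2) hne ?_
    have hleE : step (HG m) G ≤ step (HG m) G ⊔ SimpleGraph.edge u1 u2 := le_sup_left
    have hclq : Clq (step (HG m) G ⊔ SimpleGraph.edge u1 u2) W0 :=
      clq_mono (hle1.trans hleE) fun x hx y hy hxy => hW.clq x (hW0 hx) y (hW0 hy) hxy
    refine qon hK hclq h12 Set.subset_union_left ?_
    exact twoEC_join hclq (by omega) fun s hs x hx => hleE (step1 s (hW0 hs) x hx)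
  refine ⟨?_, ?_, ?_, ?_⟩
  · intro x hx y hy hxy
    rcases hx with hx | hx <;> rcases hy with hy | hy
    · exact hle2 (hle1 (hW.clq x hx y hy hxy))
    · exact hle2 (step1 x hx y hy)
    · exact hle2 (step1 y hy x hx).symm
    · exact step2 x hx y hy hxy
  · exact hW.card.trans (Set.ncard_le_ncard Set.subset_union_left (Set.toFinite _))
  · intro c
    rcases hW.sat c with h1 | h1
    · exact Or.inl (h1.trans Set.subset_union_left)
    · cases c with
      | inl r =>
        rcases Uof_rule h u r with h2 | h2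
        · exact Or.inl (h2.trans Set.subset_union_right)
        · right
          rw [Set.disjoint_union_right]
          exact ⟨h1, h2⟩
      | inr q =>
        right
        rw [Set.disjoint_union_right]
        exact ⟨h1, Uof_disj_Q h hu q⟩
  · intro q q' hq hq'
    have key : ∀ q : QIdx m, host φ (.inr q) ⊆ W ∪ Uof φ u → host φ (.inr q) ⊆ W := by
      intro q hq x hx
      rcases hq hx with h1 | h1
      · exact h1
      · exact absurd h1 (Set.disjoint_left.1 (Uof_disj_Q h hu q) hx)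
    exact hW.one q q' (key q hq) (key q' hq')

end MPaef1a0

end
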