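import Pool.Agent.Work.MP_aef1a0_co.Bd.B02
import Pool.Agent.Work.MP_aef1a0_co.Bd.B01

/-! Bundle of small proof modules (one section per former module). -/

section

/-!
Item E7: the non-dynamic edges of a copy lie in a static copy that is a typed part of it.
-/

set_option autoImplicit false

namespace MPaef1a0

open SimpleGraph

namespace ItemE7

/-- `j` embeds the static rule `r'` in the rule `r` -/
def Good' (r r' : RK) (j : Fin (ne r') → Fin (ne r)) : Prop :=
  isStatic r' = true ∧ Function.Injective j ∧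
    ∀ k x y, (pat r').lk k x y → (pat r).lk k (j x) (j y)

lemma goodX (h : stSplit) (r : RK) (hr : isStatic r = false) :
    ∃ j : Fin (ne (xp r)) → Fin (ne r), (∀ x, (j x).val = x.val) ∧ Good' r (xp r) j := by
  obtain ⟨h1, h2, h3, h4, h5⟩ := h r hr
  refine ⟨fun x => ⟨x.val, by have := x.isLt; omega⟩, fun x => rfl, h2, ?_, ?_⟩
  · intro x y hxy
    have := congrArg Fin.val hxy
    exact Fin.ext this
  · intro k x y hk
    exact (h3 k x.val y.val).mpr (Or.inl hk)

lemma goodS (h : stSplit) (r : RK) (hr : isStatic r = false) :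
    ∃ j : Fin (ne RK.SS) → Fin (ne r), (∀ x, (j x).val = ne r - 2 + x.val) ∧
      Good' r RK.SS j := by
  obtain ⟨h1, h2, h3, h4, h5⟩ := h r hr
  refine ⟨fun x => ⟨ne r - 2 + x.val, by have : x.val < 2 := x.isLt; omega⟩, fun x => rfl, rfl,
    ?_, ?_⟩
  · intro x y hxy
    have := congrArg Fin.val hxy
    simp only [Nat.add_left_cancel_iff] at this
    exact Fin.ext this
  · intro k x y hk
    have hk' : (k, x.val, y.val) ∈ [(SK.S, 0, 1)] := hk
    rw [List.mem_singleton, Prod.mk.injEq, Prod.mk.injEq] at hk'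
    obtain ⟨e1, e2, e3⟩ := hk'
    refine (h3 k (ne r - 2 + x.val) (ne r - 2 + y.val)).mpr (Or.inr ⟨e1, by omega, by omega⟩)

lemma partTag (h : stSplit) (r : RK) (x : Fin (ne r)) :
    ∃ (r' : RK) (j : Fin (ne r') → Fin (ne r)) (x' : Fin (ne r')), Good' r r' j ∧ j x' = x := by
  cases hr : isStatic r with
  | true => exact ⟨r, id, x, ⟨hr, Function.injective_id, fun _ _ _ h => h⟩, rfl⟩
  | false =>
    obtain ⟨h1, h2, h3, h4, h5⟩ := h r hr
    by_cases hx : x.val < ne (xp r)
    · obtain ⟨j, hj, hg⟩ := goodX h r hr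
      exact ⟨xp r, j, ⟨x.val, hx⟩, hg, Fin.ext (hj _)⟩
    · obtain ⟨j, hj, hg⟩ := goodS h r hr
      have hx2 := x.isLt
      refine ⟨RK.SS, j, ⟨x.val - (ne r - 2), ?_⟩, hg, Fin.ext ?_⟩
      · show x.val - (ne r - 2) < 2
        omega
      · rw [hj]
        show ne r - 2 + (x.val - (ne r - 2)) = x.val
        omega

lemma partLink (h : stSplit) (r : RK) (k : SK) (x y : Fin (ne r)) (hk : (pat r).lk k x y) :
    ∃ (r' : RK) (j : Fin (ne r') → Fin (ne r)) (x' y' : Fin (ne r')), Good' r r' j ∧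
      (pat r').lk k x' y' ∧ j x' = x ∧ j y' = y := by
  cases hr : isStatic r with
  | true => exact ⟨r, id, x, y, ⟨hr, Function.injective_id, fun _ _ _ h => h⟩, hk, rfl, rfl⟩
  | false =>
    obtain ⟨h1, h2, h3, h4, h5⟩ := h r hr
    rcases (h3 k x.val y.val).mp hk with hk1 | hk1
    · obtain ⟨j, hj, hg⟩ := goodX h r hr
      obtain ⟨hx, hy⟩ := h4 k x.val y.val hk1
      exact ⟨xp r, j, ⟨x.val, hx⟩, ⟨y.val, hy⟩, hg, hk1, Fin.ext (hj _), Fin.ext (hj _)⟩
    · obtain ⟨j, hj, hg⟩ := goodS h r hr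
      obtain ⟨e1, e2, e3⟩ := hk1
      have hz : (0 : ℕ) < ne RK.SS := by decide
      have ho : (1 : ℕ) < ne RK.SS := by decide
      refine ⟨RK.SS, j, ⟨0, hz⟩, ⟨1, ho⟩, hg, ?_, Fin.ext ?_, Fin.ext ?_⟩
      · rw [e1]
        show (SK.S, 0, 1) ∈ [(SK.S, 0, 1)]
        exact List.mem_singleton.mpr rfl
      · rw [hj]
        show ne r - 2 + 0 = x.val
        omega
      · rw [hj]
        show ne r - 2 + 1 = y.val
        omega

end ItemE7

open ItemE7 in
/-- E7 -/
theorem staticPart : stSplit → stStaticPart := by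
  intro h r p q hadj hd1 hd2
  rcases hadj with ⟨h1, h2⟩ | ⟨hne, h1 | h1⟩
  · obtain ⟨r', j, x', ⟨g1, g2, g3⟩, hx⟩ := partTag h r p.1
    refine ⟨r', j, (x', p.2), (x', q.2), g1, g2, g3, Or.inl ⟨rfl, h2⟩, ?_, ?_⟩
    · show (j x', p.2) = p
      rw [hx]
    · show (j x', q.2) = q
      rw [hx, h1]
  · rcases h1 with ⟨k, hk, ha, hb⟩ | ⟨d, hd, ha, hb⟩
    · obtain ⟨r', j, x', y', ⟨g1, g2, g3⟩, hk', hx, hy⟩ := partLink h r k p.1 q.1 hk
      refine ⟨r', j, (x', p.2), (y', q.2), g1, g2, g3, Or.inr ⟨?_, Or.inl (Or.inl ⟨k, hk', ha, hb⟩)⟩,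
        ?_, ?_⟩
      · intro hxy
        apply hne
        rw [← hx, ← hy]
        exact congrArg j hxy
      · show (j x', p.2) = p
        rw [hx]
      · show (j y', q.2) = q
        rw [hy]
    · exact absurd ⟨hd, ha, hb⟩ (hd1 d)
  · rcases h1 with ⟨k, hk, ha, hb⟩ | ⟨d, hd, ha, hb⟩
    · obtain ⟨r', j, x', y', ⟨g1, g2, g3⟩, hk', hx, hy⟩ := partLink h r k q.1 p.1 hk
      refine ⟨r', j, (y', p.2), (x', q.2), g1, g2, g3, Or.inr ⟨?_, Or.inr (Or.inl ⟨k, hk', ha, hb⟩)⟩,
        ?_, ?_⟩
      · intro hxy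
        apply hne
        rw [← hx, ← hy]
        exact congrArg j hxy
      · show (j y', p.2) = p
        rw [hy]
      · show (j x', q.2) = q
        rw [hx]
    · exact absurd ⟨hd, ha, hb⟩ (hd2 d)

end MPaef1a0

end

section

/-!
Statements, block C: the lower bound; block G: transfer, asymptotics, final theorem.
-/

set_option autoImplicit false

namespace MPaef1a0

open SimpleGraph Filter Topology

/-! ## Block C -/

/-- The powers of two from 4 on. -/
def isPow (t : ℕ) : Prop := ∃ k, 2 ≤ k ∧ t = 2 ^ k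

/-- The special numbers. -/
def sq (l : ℕ) : ℕ := 2 ^ (2 ^ l + 1)

/-- Static links between numbers. -/
def numLk (l : ℕ) : SK → ℕ → ℕ → Prop
  | .S, a, b => b = a + 1
  | .U, a, b => a = b + 1 ∧ ¬ isPow a
  | .M, a, b => a = b + 1 ∧ isPow a
  | .D, a, b => 2 ≤ a ∧ b = 2 * a
  | .G, a, b => ∃ k, 2 ≤ k ∧ a = 2 ^ k ∧ b = k - 1
  | .T, a, b => a = 2 ^ l ∧ b = sq l

/-- Elements: `inl n` is the number `n + 1`, `inr i` is the element `y_i`. -/
abbrev EL (l w : ℕ) : Type := Fin (sq l) ⊕ Fin (w + 1)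

/-- Static links of the intended structure. -/
def ysLk (l w : ℕ) (k : SK) : EL l w → EL l w → Prop
  | .inl a, .inl b => numLk l k (a.val + 1) (b.val + 1)
  | .inr a, .inr b => k = .S ∧ b.val = a.val + 1
  | _, _ => False

/-- Dynamic links of the intended structure. -/
def ysDy (l w : ℕ) (P : Bool → ℕ → ℕ → Prop) (d : Bool) : EL l w → EL l w → Prop
  | .inl a, .inr b => P d (a.val + 1) b.val
  | _, _ => False

/-- The intended structure with dynamic links `P`. -/
def YS (l w : ℕ) (P : Bool → ℕ → ℕ → Prop) : TStr (EL l w) where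
  lk := ysLk l w
  dy := ysDy l w P

/-- C1. -/
def stYAx : Prop := ∀ (l w : ℕ) (P : Bool → ℕ → ℕ → Prop), 2 ≤ l → Ax (YS l w P)

/-- The rank of a dynamic link. -/
def gr (l : ℕ) : Bool → ℕ → ℕ → ℕ
  | false, t, i => i * ((sq l - 4) / 2) + (t - 4) / 2
  | true, _, i => (i + 1) * ((sq l - 4) / 2)

/-- C2: one move changes the rank by at most one. -/
def stRank : Prop :=
  ∀ (l w : ℕ), 2 ≤ l → ∀ (r : RK) (ψ : Fin (ne r) → EL l w),
    (∀ k x y, (pat r).lk k x y → ysLk l w k (ψ x) (ψ y)) →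
    ∀ d x y d' x' y', (pat r).dy d x y → (pat r).dy d' x' y' →
      ∀ (n : Fin (sq l)) (i : Fin (w + 1)), ψ x = .inl n → ψ y = .inr i →
        ∃ (n' : Fin (sq l)) (i' : Fin (w + 1)), ψ x' = .inl n' ∧ ψ y' = .inr i' ∧
          gr l d' (n'.val + 1) i'.val ≤ gr l d (n.val + 1) i.val + 1

/-- `P` is closed under the moves. -/
def ClosedP (l w : ℕ) (P : Bool → ℕ → ℕ → Prop) : Prop :=
  ∀ (r : RK) (ψ : Fin (ne r) → EL l w), Function.Injective ψ →
    (∀ k x y, (pat r).lk k x y → ysLk l w k (ψ x) (ψ y)) →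
    ∀ d x y d' x' y', (pat r).dy d x y → (pat r).dy d' x' y' →
      ysDy l w P d (ψ x) (ψ y) → ysDy l w P d' (ψ x') (ψ y')

/-- C3: the moves reach the end. -/
def stReach : Prop :=
  ∀ (l w : ℕ) (P : Bool → ℕ → ℕ → Prop), 2 ≤ l → P false 4 0 → ClosedP l w P → P false 4 w

/-- The starting graph of the lower bound: a typed graph next to a clique. -/
def glue (l w : ℕ) (P : Bool → ℕ → ℕ → Prop) (N : ℕ) :
    SimpleGraph ((EL l w × Fin 12) ⊕ Fin N) where
  Adj p q := match p, q with
    | .inl a, .inl b => (Phi (YS l w P)).Adj a b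
    | .inr a, .inr b => a ≠ b
    | _, _ => False
  symm := ⟨fun p q h => by
    cases p <;> cases q <;> simp_all [SimpleGraph.adj_comm, eq_comm]⟩
  loopless := ⟨fun p h => by cases p <;> simp_all⟩

/-- C4: one step of the process on the intended structure. -/
def stLowStep : Prop :=
  ∀ (m l w N t : ℕ) (P : Bool → ℕ → ℕ → Prop), 2 ≤ l → (∀ d n i, P d n i → gr l d n i ≤ t) →
    ∃ P' : Bool → ℕ → ℕ → Prop, (∀ d n i, P d n i → P' d n i) ∧
      (∀ d n i, P' d n i → gr l d n i ≤ t + 1) ∧
      step (HG m) (glue l w P N) = glue l w P' N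

/-- C5: a stable structure is closed under the moves. -/
def stLowStable : Prop :=
  ∀ (m l w N : ℕ) (P : Bool → ℕ → ℕ → Prop), 2 ≤ l → hN m ≤ N →
    step (HG m) (glue l w P N) = glue l w P N → ClosedP l w P

/-- C6: the process becomes stable; running times are bounded. -/
def stStable : Prop :=
  ∀ (V W : Type) [Fintype V] (H : SimpleGraph W) (G : SimpleGraph V),
    ∃ t, proc H G t = proc H G (t + 1)

/-- C7: the lower bound on the running time. -/
def stLower : Prop :=
  ∀ (m l w : ℕ), 2 ≤ l →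
    w * ((sq l - 4) / 2) ≤
      runTime (HG m) (glue l w (fun d n i => d = false ∧ n = 4 ∧ i = 0) (hN m))

/-! ## Block G -/

/-- G1: isomorphic starting graphs have the same running time. -/
def stIsoV : Prop :=
  ∀ (V V' W : Type) [Fintype V] [Fintype V'] [Fintype W] (H : SimpleGraph W) (G : SimpleGraph V)
    (G' : SimpleGraph V'), Nonempty (G ≃g G') → runTime H G = runTime H G'

/-- G2: isomorphic rules give the same maximum running times. -/
def stIsoH : Prop :=
  ∀ (W W' : Type) [Fintype W] [Fintype W'] (H : SimpleGraph W) (H' : SimpleGraph W'),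
    Nonempty (H ≃g H') → ∀ n, maxRun H n = maxRun H' n

/-- G3: every running time is at most the maximum, and the maximum is attained. -/
def stMax : Prop :=
  ∀ (W : Type) [Fintype W] (H : SimpleGraph W) (n : ℕ),
    (∀ G : SimpleGraph (Fin n), runTime H G ≤ maxRun H n) ∧
    ∃ G : SimpleGraph (Fin n), runTime H G = maxRun H n

/-- The conclusion for a sequence. -/
def Concl (M : ℕ → ℕ) : Prop :=
  (∃ c : ℝ, 0 < c ∧ ∃ᶠ n : ℕ in atTop, c * (n : ℝ) ^ 2 ≤ (M n : ℝ)) ∧
  (∃ C : ℝ, ∃ᶠ n : ℕ in atTop, (M n : ℝ) ≤ C * (n : ℝ) ^ (3 / 2 : ℝ)) ∧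
  ¬ ∃ L : ℝ, Tendsto (fun n : ℕ => Real.log (M n) / Real.log n) atTop (𝓝 L)

/-- G4: the asymptotic argument. -/
def stAsym : Prop :=
  ∀ (M : ℕ → ℕ) (C h0 : ℕ), (∀ n Q, QB n Q → M n ≤ C * ((n + 1) * Q)) →
    (∀ l w, 2 ≤ l → w * ((sq l - 4) / 2) ≤ M (12 * (sq l + w + 1) + h0)) → Concl M

/-- The final statement. -/
def stFinal : Prop :=
  ∃ (v : ℕ) (H : SimpleGraph (Fin v)), H ≠ ⊥ ∧ Concl (fun n => maxRun H n)

end MPaef1a0

end

section

/-!
Block F, item F3: the upper bound.
-/

set_option autoImplicit false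

namespace MPaef1a0

open SimpleGraph

theorem UP_step_le {V W : Type} [Fintype V] (H : SimpleGraph W) (G : SimpleGraph V) :
    G ≤ step H G := by
  intro u v h
  unfold step
  rw [SimpleGraph.fromRel_adj]
  exact ⟨h.ne, Or.inl (Or.inl h)⟩

theorem UP_proc_mono {V W : Type} [Fintype V] (H : SimpleGraph W) (G : SimpleGraph V) {s t : ℕ}
    (h : s ≤ t) : proc H G s ≤ proc H G t := by
  induction t, h using Nat.le_induction with
  | base => exact le_rfl
  | succ k _ ih => exact ih.trans (UP_step_le H _)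

theorem UP_proc_add {V W : Type} [Fintype V] (H : SimpleGraph W) (G : SimpleGraph V) (s t : ℕ) :
    proc H G (s + t) = proc H (proc H G s) t := by
  induction t with
  | zero => rfl
  | succ k ih =>
    show step H (proc H G (s + k)) = step H (proc H (proc H G s) k)
    rw [ih]

theorem upper : stHS → stChange → stNonIdeal → stIdealTime → stUpper := by
  intro hHS hCh hNI hId m hm
  obtain ⟨C1, hC1⟩ := hNI m hm
  obtain ⟨C2, hC2⟩ := hId m hm
  set N0 : ℕ := Fintype.card (Comp m) * (hN m + 1) ^ (hN m) with hN0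
  set T1 : ℕ := 2 * (2 * hN m * Fintype.card (QIdx m)) with hT1
  refine ⟨T1 + (N0 + 1) * (C1 + 1) + 4 * hN m + 3 + C2 + 2, ?_⟩
  intro V _ G Q hQ
  set L : ℕ := (Fintype.card V + 1) * Q with hL
  have hL1 : 1 ≤ L := Nat.mul_pos (Nat.succ_pos _) hQ.1
  by_cases hst : step (HG m) G = G
  · have h0 : runTime (HG m) G ≤ 0 := Nat.sInf_le (show proc (HG m) G 0 = proc (HG m) G 1 from
      hst.symm)
    omega
  obtain ⟨φ, hφ⟩ := hHS m V G hst
  set G' : SimpleGraph V := step (HG m) (step (HG m) G) with hG'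
  have hG2 : proc (HG m) G 2 = G' := rfl
  set Lam : ℕ := C1 * L with hLam
  set T : ℕ := T1 + (N0 + 1) * (Lam + 1) + 4 * hN m + 3 with hT
  have key : ∃ τ, τ ≤ T + C2 * L ∧ proc (HG m) G' τ = proc (HG m) G' (τ + 1) := by
    by_cases hstab : ∃ τ, τ ≤ T ∧ proc (HG m) G' τ = proc (HG m) G' (τ + 1)
    · obtain ⟨τ, h1, h2⟩ := hstab
      exact ⟨τ, h1.trans (Nat.le_add_right _ _), h2⟩
    push Not at hstab
    by_cases hcl : ∃ K : Set V, Clq (proc (HG m) G' T) K ∧ 2 * hN m ≤ K.ncard
    · obtain ⟨K, hK1, hK2⟩ := hcl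
      obtain ⟨τ, h1, h2⟩ := hC2 V (proc (HG m) G' T) K hK1 hK2 Q hQ
      refine ⟨T + τ, Nat.add_le_add_left h1 T, ?_⟩
      have h7 := UP_proc_add (HG m) G' T τ
      have h8 := UP_proc_add (HG m) G' T (τ + 1)
      rw [h7, h2, ← h8]
      rfl
    exfalso
    push Not at hcl
    -- a block without changes
    have hblock : ∃ i, i < N0 + 1 ∧ ∀ t, T1 + i * (Lam + 1) ≤ t → t < T1 + (i + 1) * (Lam + 1) →
        ¬ Chg (CG m) (proc (HG m) G') t := by
      by_contra hno
      push Not at hno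
      choose! tt h1 h2 h3 using hno
      have hinj : Set.InjOn tt (Finset.range (N0 + 1) : Set ℕ) := by
        intro i hi j hj hij
        have hi' := Finset.mem_range.1 (Finset.mem_coe.1 hi)
        have hj' := Finset.mem_range.1 (Finset.mem_coe.1 hj)
        rcases lt_trichotomy i j with h | h | h
        · have h4 : (i + 1) * (Lam + 1) ≤ j * (Lam + 1) := Nat.mul_le_mul_right _ h
          have h5 := h2 i hi'
          have h6 := h1 j hj'
          omega
        · exact h
        · have h4 : (j + 1) * (Lam + 1) ≤ i * (Lam + 1) := Nat.mul_le_mul_right _ h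
          have h5 := h2 j hj'
          have h6 := h1 i hi'
          omega
      have hcard := hCh V (Comp m) (CV m) (CG m) (proc (HG m) G')
        (fun t => UP_step_le (HG m) _) ((Finset.range (N0 + 1)).image tt) (by
          intro t ht
          obtain ⟨i, hi, rfl⟩ := Finset.mem_image.1 ht
          exact h3 i (Finset.mem_range.1 hi))
      rw [Finset.card_image_of_injOn hinj, Finset.card_range] at hcard
      have : N0 + 1 ≤ N0 := hcard
      omega
    obtain ⟨i, hi, hch⟩ := hblock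
    set a : ℕ := T1 + i * (Lam + 1) with ha
    have hbE : T1 + (i + 1) * (Lam + 1) = a + (Lam + 1) := by
      rw [ha]; ring
    rw [hbE] at hch
    set b : ℕ := a + (Lam + 1) with hb
    have hbT : b + 4 * hN m + 2 ≤ T := by
      have h4 : (i + 1) * (Lam + 1) ≤ (N0 + 1) * (Lam + 1) := Nat.mul_le_mul_right _ hi
      omega
    have hfin := hC1 V G' φ hφ Q hQ a b (Nat.le_add_right _ _) (Nat.le_add_right _ _) hch
      (fun K hK => by
        refine hcl K fun x hx y hy hxy => ?_
        exact UP_proc_mono (HG m) G' hbT (hK x hx y hy hxy))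
      (hstab b (by omega))
    have : b - a = Lam + 1 := by omega
    rw [this] at hfin
    have : Lam + 1 ≤ Lam := hfin
    omega
  obtain ⟨τ, h1, h2⟩ := key
  have hrun : runTime (HG m) G ≤ 2 + τ := by
    refine Nat.sInf_le ?_
    show proc (HG m) G (2 + τ) = proc (HG m) G (2 + τ + 1)
    rw [add_assoc, UP_proc_add, UP_proc_add _ _ 2 (τ + 1), hG2, h2]
  have h3 : Lam + 1 ≤ (C1 + 1) * L := by
    rw [hLam, add_mul, one_mul]
    exact Nat.add_le_add_left hL1 _
  have h4 : (N0 + 1) * (Lam + 1) ≤ (N0 + 1) * (C1 + 1) * L := by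
    rw [mul_assoc]
    exact Nat.mul_le_mul_left _ h3
  have h5 : ∀ x : ℕ, x ≤ x * L := fun x => Nat.le_mul_of_pos_right x hL1
  have h6 := h5 T1
  have h7 := h5 (4 * hN m)
  have h8 := h5 3
  have h9 := h5 2
  calc runTime (HG m) G ≤ 2 + τ := hrun
    _ ≤ T1 * L + (N0 + 1) * (C1 + 1) * L + 4 * hN m * L + 3 * L + C2 * L + 2 * L := by omega
    _ = (T1 + (N0 + 1) * (C1 + 1) + 4 * hN m + 3 + C2 + 2) * L := by ring

end MPaef1a0

end

section

/-!
E2, E3: the elements of a good set and its typed world.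
-/

set_option autoImplicit false

namespace MPaef1a0

open SimpleGraph

/-- E2. -/
theorem elt : stJoint → stElt := by
  intro hJ V _ G K hK α β a b hab
  obtain ⟨r1, f1, x, h1, hx⟩ := α.2
  obtain ⟨r2, f2, y, h2, hy⟩ := β.2
  obtain ⟨E, Γ, ψ1, ψ2, _, _, _, hiff, _⟩ := hJ V G K hK r1 r2 f1 f2 h1 h2
    ⟨(x, a), (y, b), by rw [← hx, ← hy]; exact hab⟩
  have h3 := (hiff x a y b).1 (by rw [← hx, ← hy]; exact hab)
  refine ⟨Subtype.ext (funext fun c => ?_), h3.2⟩
  rw [hx c, hy c]
  exact (hiff x c y c).2 ⟨h3.1, rfl⟩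

namespace WorldOf

/-- The joint typed image of two copies that share an element. -/
theorem joint2 (hJ : stJoint) {V : Type} [Fintype V] {G : SimpleGraph V} {K : Set V}
    (hK : Good G K) {r1 r2 : RK} {f1 : Fin (ne r1) × Fin 12 → V} {f2 : Fin (ne r2) × Fin 12 → V}
    {x : Fin (ne r1)} {x' : Fin (ne r2)} (h1 : RCopy G K r1 f1) (h2 : RCopy G K r2 f2)
    (α : Elt G K) (hx : ∀ a, α.1 a = f1 (x, a)) (hx' : ∀ a, α.1 a = f2 (x', a)) :
    ∃ (E : Type) (Γ : TStr E) (ψ1 : Fin (ne r1) → E) (ψ2 : Fin (ne r2) → E), Ax Γ ∧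
      ψ1 x = ψ2 x' ∧ (∀ y y' a, ψ1 y = ψ2 y' → f1 (y, a) = f2 (y', a)) ∧
      (∀ k x y, (pat r1).lk k x y → Γ.lk k (ψ1 x) (ψ1 y)) ∧
      (∀ k x y, (pat r2).lk k x y → Γ.lk k (ψ2 x) (ψ2 y)) := by
  have h0 : f1 (x, 0) = f2 (x', 0) := by rw [← hx, ← hx']
  obtain ⟨E, Γ, ψ1, ψ2, hA, _, _, hiff, l1, _, l2, _⟩ := hJ V G K hK r1 r2 f1 f2 h1 h2
    ⟨(x, 0), (x', 0), h0⟩
  exact ⟨E, Γ, ψ1, ψ2, hA, ((hiff x 0 x' 0).1 h0).1, fun y y' a h => (hiff y a y' a).2 ⟨h, rfl⟩,
    l1, l2⟩

/-- The links of the world. -/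
def Lk {V : Type} (G : SimpleGraph V) (K : Set V) (k : SK) (α β : Elt G K) : Prop :=
  ∃ (r : RK) (f : Fin (ne r) × Fin 12 → V) (x y : Fin (ne r)),
    RCopy G K r f ∧ (pat r).lk k x y ∧ (∀ a, α.1 a = f (x, a)) ∧ (∀ a, β.1 a = f (y, a))

/-- The base copies of the world. -/
def Bs {V : Type} (G : SimpleGraph V) (K : Set V) (z1 z2 z3 z4 : Elt G K) : Prop :=
  ∃ f : Fin (ne .BaseX) × Fin 12 → V,
    RCopy G K .BaseX f ∧ (∀ a, z1.1 a = f (⟨0, by decide⟩, a)) ∧
    (∀ a, z2.1 a = f (⟨1, by decide⟩, a)) ∧ (∀ a, z3.1 a = f (⟨2, by decide⟩, a)) ∧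
    (∀ a, z4.1 a = f (⟨3, by decide⟩, a))

section
variable {V : Type} [Fintype V] {G : SimpleGraph V} {K : Set V}

theorem func (hJ : stJoint) (hE : stElt) (hK : Good G K) (k : SK) (x y y' : Elt G K)
    (h : Lk G K k x y) (h' : Lk G K k x y') : y = y' := by
  obtain ⟨r1, f1, a1, b1, c1, l1, e1, e1'⟩ := h
  obtain ⟨r2, f2, a2, b2, c2, l2, e2, e2'⟩ := h'
  obtain ⟨E, Γ, ψ1, ψ2, hA, hψ, hf, m1, m2⟩ := joint2 hJ hK c1 c2 x e1 e2
  have h1 := m1 _ _ _ l1
  have h2 := m2 _ _ _ l2
  rw [hψ] at h1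
  have h3 := hA.func _ _ _ _ h1 h2
  refine (hE V G K hK y y' 0 0 ?_).1
  rw [e1', e2']
  exact hf _ _ _ h3

theorem inj (hJ : stJoint) (hE : stElt) (hK : Good G K) (k : SK) (x x' y : Elt G K)
    (h : Lk G K k x y) (h' : Lk G K k x' y) : x = x' := by
  obtain ⟨r1, f1, a1, b1, c1, l1, e1, e1'⟩ := h
  obtain ⟨r2, f2, a2, b2, c2, l2, e2, e2'⟩ := h'
  obtain ⟨E, Γ, ψ1, ψ2, hA, hψ, hf, m1, m2⟩ := joint2 hJ hK c1 c2 y e1' e2'
  have h1 := m1 _ _ _ l1
  have h2 := m2 _ _ _ l2
  rw [hψ] at h1
  have h3 := hA.inj _ _ _ _ h1 h2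
  refine (hE V G K hK x x' 0 0 ?_).1
  rw [e1, e2]
  exact hf _ _ _ h3

theorem irr (hJ : stJoint) (hK : Good G K) (k : SK) (x : Elt G K) (h : Lk G K k x x) :
    False := by
  obtain ⟨r1, f1, a1, b1, c1, l1, e1, e1'⟩ := h
  obtain ⟨E, Γ, ψ1, ψ2, hA, hψ, hf, m1, m2⟩ := joint2 hJ hK c1 c1 x e1 e1'
  have hab : a1 = b1 := by
    have h0 : f1 (a1, 0) = f1 (b1, 0) := by rw [← e1, ← e1']
    have h1 := c1.1.1 h0
    exact (Prod.ext_iff.1 h1).1
  have h1 := m1 _ _ _ l1
  rw [hab] at h1
  exact hA.lk_ne _ _ _ h1 rfl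

theorem src (hJ : stJoint) (hK : Good G K) (k k' : SK)
    (hax : ∀ (E : Type) (Γ : TStr E), Ax Γ → ∀ x a b, Γ.lk k x a → Γ.lk k' x b → False)
    (x a b : Elt G K) (h : Lk G K k x a) (h' : Lk G K k' x b) : False := by
  obtain ⟨r1, f1, a1, b1, c1, l1, e1, e1'⟩ := h
  obtain ⟨r2, f2, a2, b2, c2, l2, e2, e2'⟩ := h'
  obtain ⟨E, Γ, ψ1, ψ2, hA, hψ, hf, m1, m2⟩ := joint2 hJ hK c1 c2 x e1 e2
  have h1 := m1 _ _ _ l1
  have h2 := m2 _ _ _ l2
  rw [hψ] at h1
  exact hax E Γ hA _ _ _ h1 h2

theorem topF (hJ : stJoint) (hK : Good G K) (κ q w : Elt G K) (h : Lk G K .T κ q)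
    (h' : Lk G K .S q w) : False := by
  obtain ⟨r1, f1, a1, b1, c1, l1, e1, e1'⟩ := h
  obtain ⟨r2, f2, a2, b2, c2, l2, e2, e2'⟩ := h'
  obtain ⟨E, Γ, ψ1, ψ2, hA, hψ, hf, m1, m2⟩ := joint2 hJ hK c1 c2 q e1' e2
  have h1 := m1 _ _ _ l1
  have h2 := m2 _ _ _ l2
  rw [hψ] at h1
  exact hA.top _ _ _ h1 h2

theorem bsTopF (hJ : stJoint) (hK : Good G K) (z1 z2 z3 z4 w : Elt G K)
    (h : Bs G K z1 z2 z3 z4) (h' : Lk G K .S w z1) : False := by
  obtain ⟨f1, c1, e1, e2, e3, e4⟩ := h
  obtain ⟨r2, f2, a2, b2, c2, l2, e2', e2''⟩ := h'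
  obtain ⟨E, Γ, ψ1, ψ2, hA, hψ, hf, m1, m2⟩ := joint2 hJ hK c1 c2 z1 e1 e2''
  have h2 := m2 _ _ _ l2
  rw [← hψ] at h2
  exact hA.base _ _ _ _ _ (m1 .S ⟨0, by decide⟩ ⟨1, by decide⟩ (by decide))
    (m1 .S ⟨1, by decide⟩ ⟨2, by decide⟩ (by decide))
    (m1 .S ⟨2, by decide⟩ ⟨3, by decide⟩ (by decide))
    (m1 .D ⟨1, by decide⟩ ⟨3, by decide⟩ (by decide)) h2

end

end WorldOf

open WorldOf in
/-- E3. -/
theorem worldOf : stJoint → stElt → stWorld := by
  intro hJ hE V _ G K hK
  refine ⟨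
    { lk := Lk G K
      bs := Bs G K
      sfun := fun x y y' h h' => func hJ hE hK _ x y y' h h'
      sinj := fun x x' y h h' => inj hJ hE hK _ x x' y h h'
      sne := fun x h => irr hJ hK _ x h
      dinj := fun x x' y h h' => inj hJ hE hK _ x x' y h h'
      gfun := fun x y y' h h' => func hJ hE hK _ x y y' h h'
      um := fun x a b h h' => src hJ hK _ _ (fun E Γ hA x a b => hA.um x a b) x a b h h'
      ug := fun x a b h h' => src hJ hK _ _ (fun E Γ hA x a b => hA.ug x a b) x a b h h'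
      top := fun κ q w h h' => topF hJ hK κ q w h h'
      bsLinks := ?_
      bsTop := fun z1 z2 z3 z4 w h h' => bsTopF hJ hK z1 z2 z3 z4 w h h' }, ?_, ?_⟩
  · rintro z1 z2 z3 z4 ⟨f, c, e1, e2, e3, e4⟩
    exact ⟨⟨_, f, _, _, c, by decide, e1, e2⟩, ⟨_, f, _, _, c, by decide, e2, e3⟩,
      ⟨_, f, _, _, c, by decide, e3, e4⟩, ⟨_, f, _, _, c, by decide, e2, e4⟩,
      ⟨_, f, _, _, c, by decide, e4, e1⟩, ⟨_, f, _, _, c, by decide, e4, e3⟩,
      ⟨_, f, _, _, c, by decide, e3, e2⟩, ⟨_, f, _, _, c, by decide, e2, e1⟩⟩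
  · intro k α β
    exact Iff.rfl
  · intro z1 z2 z3 z4
    exact Iff.rfl

end MPaef1a0

end

section

/-!
G4: the asymptotic argument.
-/

set_option autoImplicit false

namespace MPaef1a0

open Filter Topology

theorem sq_sq (l : ℕ) : sq l * sq l = 2 * sq (l + 1) := by
  unfold sq
  rw [← pow_add, ← pow_succ']
  congr 1
  rw [pow_succ]
  ring

theorem sq_lt_succ (l : ℕ) : sq l < sq (l + 1) := by
  unfold sq
  apply Nat.pow_lt_pow_right (by norm_num)
  have : 2 ^ l < 2 ^ (l + 1) := Nat.pow_lt_pow_right (by norm_num) (Nat.lt_succ_self l)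
  omega

theorem sq_mono : StrictMono sq := strictMono_nat_of_lt_succ sq_lt_succ

theorem le_sq (l : ℕ) : l ≤ sq l := sq_mono.id_le l

theorem sq_two : sq 2 = 32 := by
  unfold sq
  norm_num

theorem asym_lower {M : ℕ → ℕ} {h0 : ℕ}
    (h : ∀ l w, 2 ≤ l → w * ((sq l - 4) / 2) ≤ M (12 * (sq l + w + 1) + h0)) :
    ∃ c : ℝ, 0 < c ∧ ∃ᶠ n : ℕ in atTop, c * (n : ℝ) ^ 2 ≤ (M n : ℝ) := by
  refine ⟨1 / (4 * (36 + (h0 : ℝ)) ^ 2), by positivity, frequently_atTop.2 fun a => ?_⟩
  set l := max 2 a with hl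
  have hl2 : 2 ≤ l := le_max_left _ _
  have hla : a ≤ l := le_max_right _ _
  have hls := le_sq l
  have h32 : 32 ≤ sq l := by
    rw [← sq_two]
    exact sq_mono.monotone hl2
  refine ⟨12 * (sq l + sq l + 1) + h0, by omega, ?_⟩
  have h1 := h l (sq l) hl2
  have h2 : sq l ≤ 4 * ((sq l - 4) / 2) := by omega
  have h3 : sq l * sq l ≤ 4 * M (12 * (sq l + sq l + 1) + h0) := by
    calc sq l * sq l ≤ sq l * (4 * ((sq l - 4) / 2)) := Nat.mul_le_mul_left _ h2
      _ = 4 * (sq l * ((sq l - 4) / 2)) := by ring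
      _ ≤ _ := Nat.mul_le_mul_left _ h1
  have h4 : 12 * (sq l + sq l + 1) + h0 ≤ (36 + h0) * sq l := by
    have h5 : h0 ≤ h0 * sq l := Nat.le_mul_of_pos_right _ (by omega)
    calc 12 * (sq l + sq l + 1) + h0 ≤ 36 * sq l + h0 * sq l := by omega
      _ = _ := by ring
  have h3' : (sq l : ℝ) * sq l ≤ 4 * (M (12 * (sq l + sq l + 1) + h0) : ℝ) := by
    exact_mod_cast h3
  have h4' : ((12 * (sq l + sq l + 1) + h0 : ℕ) : ℝ) ≤ (36 + h0) * sq l := by
    exact_mod_cast h4
  have h6 : ((12 * (sq l + sq l + 1) + h0 : ℕ) : ℝ) ^ 2 ≤ ((36 + h0) * sq l) ^ 2 :=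
    pow_le_pow_left₀ (by positivity) h4' 2
  calc 1 / (4 * (36 + (h0 : ℝ)) ^ 2) * ((12 * (sq l + sq l + 1) + h0 : ℕ) : ℝ) ^ 2
      ≤ 1 / (4 * (36 + (h0 : ℝ)) ^ 2) * ((36 + h0) * sq l) ^ 2 :=
        mul_le_mul_of_nonneg_left h6 (by positivity)
    _ = (sq l : ℝ) * sq l / 4 := by
        field_simp
    _ ≤ _ := by linarith

theorem asym_upper {M : ℕ → ℕ} {C : ℕ} (h : ∀ n Q, QB n Q → M n ≤ C * ((n + 1) * Q)) :
    ∃ C' : ℝ, 1 ≤ C' ∧ ∃ᶠ n : ℕ in atTop, (M n : ℝ) ≤ C' * (n : ℝ) ^ (3 / 2 : ℝ) := by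
  refine ⟨4 * C + 1, by linarith [(Nat.cast_nonneg C : (0 : ℝ) ≤ C)],
    frequently_atTop.2 fun a => ?_⟩
  set l := max 2 a with hl
  have hl2 : 2 ≤ l := le_max_left _ _
  have hla : a ≤ l := le_max_right _ _
  have hls := le_sq l
  have hlt := sq_lt_succ l
  obtain ⟨n, hn⟩ : ∃ n, sq (l + 1) = n + 1 := ⟨sq (l + 1) - 1, by omega⟩
  have hQB : QB n (sq l) := by
    refine ⟨by omega, fun l' _ hl' => ?_⟩
    have h1 : sq l' < sq (l + 1) := by
      rw [hn]
      exact Nat.lt_succ_of_le hl'
    have h2 : l' < l + 1 := sq_mono.lt_iff_lt.1 h1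
    exact sq_mono.monotone (Nat.lt_succ_iff.1 h2)
  have h1 := h n (sq l) hQB
  have hn1 : 1 ≤ n := by omega
  have hnR : (1 : ℝ) ≤ n := by exact_mod_cast hn1
  refine ⟨n, by omega, ?_⟩
  have h2 : (sq l : ℝ) * sq l = 2 * (n + 1) := by
    have := sq_sq l
    rw [hn] at this
    exact_mod_cast this
  have h3 : (sq l : ℝ) ≤ 2 * Real.sqrt n := by
    apply abs_le_of_sq_le_sq' _ (by positivity) |>.2
    rw [mul_pow, Real.sq_sqrt (by positivity)]
    nlinarith
  have h4 : (n : ℝ) ^ (3 / 2 : ℝ) = n * Real.sqrt n := by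
    rw [show (3 / 2 : ℝ) = 1 + 1 / 2 by norm_num, Real.rpow_add (by linarith), Real.rpow_one,
      ← Real.sqrt_eq_rpow]
  rw [h4]
  have h5 : (M n : ℝ) ≤ C * ((n + 1) * sq l) := by exact_mod_cast h1
  have hs : (0 : ℝ) ≤ Real.sqrt n := Real.sqrt_nonneg _
  have hC : (0 : ℝ) ≤ C := Nat.cast_nonneg _
  calc (M n : ℝ) ≤ C * ((n + 1) * sq l) := h5
    _ ≤ C * ((2 * n) * (2 * Real.sqrt n)) := by
        apply mul_le_mul_of_nonneg_left _ hC
        apply mul_le_mul (by linarith) h3 (by positivity) (by positivity)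
    _ = 4 * C * (n * Real.sqrt n) := by ring
    _ ≤ (4 * C + 1) * (n * Real.sqrt n) := by
        apply mul_le_mul_of_nonneg_right (by linarith) (by positivity)

theorem asym : stAsym := by
  intro M C h0 hU hL
  obtain ⟨c, hc, hlow⟩ := asym_lower hL
  obtain ⟨C', hC', hup⟩ := asym_upper hU
  refine ⟨⟨c, hc, hlow⟩, ⟨C', hup⟩, ?_⟩
  rintro ⟨L, hLim⟩
  have hlog : Tendsto (fun n : ℕ => Real.log n) atTop atTop :=
    Real.tendsto_log_atTop.comp tendsto_natCast_atTop_atTop
  have hev : ∀ᶠ n : ℕ in atTop, 0 < Real.log n := hlog.eventually_gt_atTop 0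
  have h1 : 2 ≤ L := by
    have hl1 : Tendsto (fun n : ℕ => Real.log (M n) / Real.log n - Real.log c / Real.log n)
        atTop (𝓝 (L - 0)) := hLim.sub (hlog.const_div_atTop _)
    rw [sub_zero] at hl1
    refine ge_of_tendsto_of_frequently hl1 ?_
    refine (hlow.and_eventually (hev.and (eventually_ge_atTop 1))).mono ?_
    rintro n ⟨hn, hn1, hn2⟩
    have hnR : (0 : ℝ) < n := by exact_mod_cast hn2
    rw [← sub_div, le_div_iff₀ hn1]
    have h2 : Real.log (c * (n : ℝ) ^ 2) ≤ Real.log (M n) := Real.log_le_log (by positivity) hn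
    rw [Real.log_mul hc.ne' (by positivity), Real.log_pow] at h2
    push_cast at h2
    linarith
  have h2 : L ≤ 3 / 2 := by
    have hl1 : Tendsto (fun n : ℕ => Real.log (M n) / Real.log n - Real.log C' / Real.log n)
        atTop (𝓝 (L - 0)) := hLim.sub (hlog.const_div_atTop _)
    rw [sub_zero] at hl1
    refine le_of_tendsto_of_frequently hl1 ?_
    refine (hup.and_eventually (hev.and (eventually_ge_atTop 1))).mono ?_
    rintro n ⟨hn, hn1, hn2⟩
    have hnR : (0 : ℝ) < n := by exact_mod_cast hn2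
    rw [← sub_div, div_le_iff₀ hn1]
    have hC0 : 0 ≤ Real.log C' := Real.log_nonneg hC'
    rcases Nat.eq_zero_or_pos (M n) with hM | hM
    · rw [hM]
      simp only [Nat.cast_zero, Real.log_zero]
      nlinarith
    · have hMR : (0 : ℝ) < M n := by exact_mod_cast hM
      have h2 : Real.log (M n) ≤ Real.log (C' * (n : ℝ) ^ (3 / 2 : ℝ)) := Real.log_le_log hMR hn
      rw [Real.log_mul (by linarith) (by positivity), Real.log_rpow hnR] at h2
      linarith
  linarith

end MPaef1a0

end

section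

/-!
G5: the final assembly.
-/

set_option autoImplicit false

namespace MPaef1a0

open SimpleGraph

namespace FinalAux

theorem HG_edge (m : ℕ) : ∃ p q, (HG m).Adj p q := by
  refine ⟨⟨Sum.inl RK.SS, ((⟨0, by decide⟩ : Fin (ne .SS)), (0 : Fin 12))⟩,
    ⟨Sum.inl RK.SS, ((⟨0, by decide⟩ : Fin (ne .SS)), (2 : Fin 12))⟩, ?_⟩
  refine FamAdj.mk (Sum.inl RK.SS) _ _ ?_
  show (Phi (pat .SS)).Adj _ _
  exact Or.inl ⟨rfl, by decide⟩

end FinalAux

open FinalAux in
/-- G5. -/
theorem final : stUpper → stLower → stIsoV → stIsoH → stMax → stAsym → stFinal := by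
  intro hU hL hV hH hM hA
  let e : (Σ c, CV 3000 c) ≃ Fin (Fintype.card (Σ c, CV 3000 c)) := Fintype.equivFin _
  let H : SimpleGraph (Fin (Fintype.card (Σ c, CV 3000 c))) := (HG 3000).map e.toEmbedding
  have hiso : Nonempty (HG 3000 ≃g H) := ⟨SimpleGraph.Iso.map e (HG 3000)⟩
  have hrun : ∀ n, maxRun (HG 3000) n = maxRun H n := hH _ _ (HG 3000) H hiso
  refine ⟨_, H, ?_, ?_⟩
  · intro hbot
    obtain ⟨p, q, hpq⟩ := HG_edge 3000
    obtain ⟨i⟩ := hiso
    obtain ⟨a, b, hab⟩ : ∃ a b, H.Adj a b := ⟨i p, i q, i.map_adj_iff.mpr hpq⟩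
    rw [hbot] at hab
    exact hab
  · obtain ⟨C, hC⟩ := hU 3000 le_rfl
    refine hA (fun n => maxRun H n) C (hN 3000) ?_ ?_
    · intro n Q hQ
      show maxRun H n ≤ _
      rw [← hrun]
      obtain ⟨G, hG⟩ := (hM _ (HG 3000) n).2
      rw [← hG]
      have h2 := hC (Fin n) G Q (by rw [Fintype.card_fin]; exact hQ)
      rw [Fintype.card_fin] at h2
      exact h2
    · intro l w hl
      show _ ≤ maxRun H _
      rw [← hrun]
      refine le_trans (hL 3000 l w hl) ?_
      have hcard : Fintype.card ((EL l w × Fin 12) ⊕ Fin (hN 3000)) =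
          12 * (sq l + w + 1) + hN 3000 := by
        simp only [Fintype.card_sum, Fintype.card_prod, Fintype.card_fin]
        ring
      let e' : ((EL l w × Fin 12) ⊕ Fin (hN 3000)) ≃ Fin (12 * (sq l + w + 1) + hN 3000) :=
        Fintype.equivFinOfCardEq hcard
      have h3 := hV _ _ _ (HG 3000)
        (glue l w (fun d n i => d = false ∧ n = 4 ∧ i = 0) (hN 3000))
        ((glue l w (fun d n i => d = false ∧ n = 4 ∧ i = 0) (hN 3000)).map e'.toEmbedding)
        ⟨SimpleGraph.Iso.map e' _⟩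
      rw [h3]
      exact (hM _ (HG 3000) _).1 _

end MPaef1a0

end

section

/-!
C5: a stable structure is closed under the moves.
-/

set_option autoImplicit false

namespace MPaef1a0

open SimpleGraph

namespace LowStableAux

theorem dl_two (r : RK) : ∀ a ∈ dl r, ∀ b ∈ dl r, ∀ c ∈ dl r, a ≠ b → c = a ∨ c = b := by
  cases r <;> decide

theorem dl_ne (r : RK) : ∀ a ∈ dl r, a.2.1 ≠ a.2.2 := by
  cases r <;> decide

theorem pp_op (d : Bool) (k : SK) : pp d ≠ op k := by
  cases d <;> cases k <;> decide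

theorem rp_op (d : Bool) (k : SK) : rp d ≠ op k := by
  cases d <;> cases k <;> decide

theorem rp_pp (d d' : Bool) : rp d ≠ pp d' := by
  cases d <;> cases d' <;> decide

theorem pp_inj {d d' : Bool} (h : pp d = pp d') : d = d' := by
  revert h
  cases d <;> cases d' <;> decide

end LowStableAux

open LowStableAux in
/-- C5. -/
theorem lowStable : stStep → stYAx → stLowStable := by
  intro hstep _ m l w N P hl hN hst r ψ hinj hψ d x y d' x' y' h h' hd
  by_contra hcon
  have hne' : x' ≠ y' := fun e => dl_ne r _ h' (congrArg Fin.val e)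
  have hdiff : ((d, x.val, y.val) : Bool × ℕ × ℕ) ≠ (d', x'.val, y'.val) := by
    intro e
    simp only [Prod.mk.injEq] at e
    obtain ⟨rfl, e1, e2⟩ := e
    rw [Fin.ext e1, Fin.ext e2] at hd
    exact hcon hd
  let f : Fin (ne r) × Fin 12 → (EL l w × Fin 12) ⊕ Fin N := fun p => .inl (ψ p.1, p.2)
  have hf : Function.Injective f := by
    rintro ⟨a, b⟩ ⟨a', b'⟩ hab
    have h1 := Sum.inl_injective hab
    simp only [Prod.mk.injEq] at h1
    rw [hinj h1.1, h1.2]
  have hconn : ∀ (x1 x2 : Fin (ne r)) (a1 a2 : Fin 12), Conn (pat r) x1 a1 x2 a2 →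
      Conn (YS l w P) (ψ x1) a1 (ψ x2) a2 ∨ (x1 = x' ∧ a1 = pp d' ∧ x2 = y' ∧ a2 = rp d') := by
    intro x1 x2 a1 a2 hc
    rcases hc with ⟨k, hk, e1, e2⟩ | ⟨d2, hk, e1, e2⟩
    · exact Or.inl (Or.inl ⟨k, hψ k x1 x2 hk, e1, e2⟩)
    · rcases dl_two r _ h _ h' _ hk hdiff with e | e
      · simp only [Prod.mk.injEq] at e
        obtain ⟨rfl, e3, e4⟩ := e
        refine Or.inl (Or.inr ⟨d2, ?_, e1, e2⟩)
        rw [Fin.ext e3, Fin.ext e4]
        exact hd
      · simp only [Prod.mk.injEq] at e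
        obtain ⟨rfl, e3, e4⟩ := e
        exact Or.inr ⟨Fin.ext e3, e1, Fin.ext e4, e2⟩
  have hnear : Near (CG m (.inl r)) (glue l w P N) f (.inl (ψ x', pp d')) (.inl (ψ y', rp d')) := by
    refine ⟨hf, ?_, (x', pp d'), (y', rp d'), ?_, rfl, rfl⟩
    · rintro ⟨x1, a1⟩ ⟨x2, a2⟩ hadj
      have hadj' : (x1 = x2 ∧ tag.Adj a1 a2) ∨
          (x1 ≠ x2 ∧ (Conn (pat r) x1 a1 x2 a2 ∨ Conn (pat r) x2 a2 x1 a1)) := hadj
      rcases hadj' with ⟨e, ht⟩ | ⟨hne, hc | hc⟩
      · refine Or.inl ?_
        show (Phi (YS l w P)).Adj (ψ x1, a1) (ψ x2, a2)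
        exact Or.inl ⟨congrArg ψ e, ht⟩
      · rcases hconn _ _ _ _ hc with h1 | ⟨rfl, rfl, rfl, rfl⟩
        · refine Or.inl ?_
          show (Phi (YS l w P)).Adj (ψ x1, a1) (ψ x2, a2)
          exact Or.inr ⟨fun e => hne (hinj e), Or.inl h1⟩
        · exact Or.inr rfl
      · rcases hconn _ _ _ _ hc with h1 | ⟨rfl, rfl, rfl, rfl⟩
        · refine Or.inl ?_
          show (Phi (YS l w P)).Adj (ψ x1, a1) (ψ x2, a2)
          exact Or.inr ⟨fun e => hne (hinj e), Or.inr h1⟩
        · exact Or.inr Sym2.eq_swap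
    · show (Phi (pat r)).Adj (x', pp d') (y', rp d')
      exact Or.inr ⟨hne', Or.inl (Or.inr ⟨d', h', rfl, rfl⟩)⟩
  have hfree : Free (CG m) (glue l w P N) (.inl r) (Set.range f) := by
    have hcard : Fintype.card (Σ c, CV m c) ≤ Fintype.card (Fin N) := by
      rw [Fintype.card_fin]
      exact hN
    obtain ⟨e⟩ := Function.Embedding.nonempty_of_card_le hcard
    refine ⟨fun p => .inr (e p), ?_, ?_, ?_⟩
    · intro p q _ _ hpq
      exact e.injective (Sum.inr_injective hpq)
    · intro i a b _ hab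
      show e ⟨i, a⟩ ≠ e ⟨i, b⟩
      intro he
      have h1 := e.injective he
      have h2 : a = b := eq_of_heq (Sigma.mk.inj h1).2
      exact hab.ne h2
    · rintro p _ ⟨q, hq⟩
      exact Sum.inl_ne_inr hq
  have hadj : (step (HG m) (glue l w P N)).Adj (.inl (ψ x', pp d')) (.inl (ψ y', rp d')) := by
    have := (hstep _ _ (CV m) (CG m) (glue l w P N) (.inl (ψ x', pp d'))
      (.inl (ψ y', rp d'))).mpr (Or.inr ⟨.inl r, f, hnear, hfree⟩)
    exact this
  rw [hst] at hadj
  have hadj2 : (ψ x' = ψ y' ∧ tag.Adj (pp d') (rp d')) ∨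
      (ψ x' ≠ ψ y' ∧ (Conn (YS l w P) (ψ x') (pp d') (ψ y') (rp d') ∨
        Conn (YS l w P) (ψ y') (rp d') (ψ x') (pp d'))) := hadj
  rcases hadj2 with ⟨e, -⟩ | ⟨-, hc | hc⟩
  · exact hne' (hinj e)
  · rcases hc with ⟨k, -, e, -⟩ | ⟨d2, h2, e, -⟩
    · exact pp_op _ _ e
    · rw [← pp_inj e] at h2
      exact hcon h2
  · rcases hc with ⟨k, -, e, -⟩ | ⟨d2, -, e, -⟩
    · exact rp_op _ _ e
    · exact rp_pp _ _ e

end MPaef1a0

end

section

/-!
C4: one step of the process on the intended structure.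
-/

set_option autoImplicit false

namespace MPaef1a0

open SimpleGraph

namespace LowStep

theorem pat_lk_ne : ∀ (r : RK) (k : SK) (x y : Fin (ne r)), (pat r).lk k x y → x ≠ y := by
  decide +kernel

theorem pat_dy_ne : ∀ (r : RK) (d : Bool) (x y : Fin (ne r)), (pat r).dy d x y → x ≠ y := by
  decide +kernel

theorem pat_other : ∀ (r : RK) (d' : Bool) (x' y' : Fin (ne r)), (pat r).dy d' x' y' →
    ∃ (d : Bool) (x y : Fin (ne r)), (pat r).dy d x y ∧ (d, x, y) ≠ (d', x', y') := by
  decide +kernel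

theorem pp_ne_rp : ∀ d d' : Bool, pp d ≠ rp d' := by decide
theorem pp_inj : ∀ d d' : Bool, pp d = pp d' → d = d' := by decide
theorem rp_inj : ∀ d d' : Bool, rp d = rp d' → d = d' := by decide

/-- adjacency of dynamic ports -/
theorem phi_ports (l w : ℕ) (P : Bool → ℕ → ℕ → Prop) (d : Bool) (a : Fin (sq l))
    (b : Fin (w + 1)) (h : (Phi (YS l w P)).Adj (.inl a, pp d) (.inr b, rp d)) :
    P d (a.val + 1) b.val := by
  rcases h with h | h
  · exact absurd h.1 (by simp)
  · rcases h.2 with h' | h'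
    · rcases h' with ⟨k, hk, _⟩ | ⟨d0, hd, hp, _⟩
      · exact absurd hk (by simp [YS, ysLk])
      · have := pp_inj _ _ hp
        subst this
        exact hd
    · rcases h' with ⟨k, hk, _⟩ | ⟨d0, hd, _⟩
      · exact absurd hk (by simp [YS, ysLk])
      · exact absurd hd (by simp [YS, ysDy])

theorem closed_inl (l w N : ℕ) (P : Bool → ℕ → ℕ → Prop) :
    Closed (glue l w P N) (Set.range Sum.inl) := by
  rintro x ⟨a, rfl⟩ y hy
  cases y with
  | inl b => exact ⟨b, rfl⟩
  | inr b => exact absurd hy (by simp [glue])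

theorem main (hnc : stNearClosed) (h2 : stPatTwoEC) (hrig : stRigid) (hyax : stYAx)
    (hrank : stRank) (m l w N t : ℕ) (P : Bool → ℕ → ℕ → Prop) (hl : 2 ≤ l)
    (hP : ∀ d n i, P d n i → gr l d n i ≤ t) (c : Comp m)
    (f : CV m c → (EL l w × Fin 12) ⊕ Fin N) (u v : (EL l w × Fin 12) ⊕ Fin N)
    (hne : ¬ (glue l w P N).Adj u v) (hN : Near (CG m c) (glue l w P N) f u v) :
    ∃ (d : Bool) (n : Fin (sq l)) (i : Fin (w + 1)), gr l d (n.val + 1) i.val ≤ t + 1 ∧
      ((u = .inl (.inl n, pp d) ∧ v = .inl (.inr i, rp d)) ∨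
        (v = .inl (.inl n, pp d) ∧ u = .inl (.inr i, rp d))) := by
  have hTE : TwoEC (CG m c) := by
    cases c with
    | inl r => exact h2 r
    | inr q => exact q.2.2.1
  have hclo := hnc _ _ (CG m c) (glue l w P N) f u v (Set.range Sum.inl) hTE hN
    (closed_inl l w N P)
  obtain ⟨hinj, hhom, a, b, hab, hfa, hfb⟩ := hN
  rcases hclo with hin | hout
  swap
  · exfalso
    have ha := hout a
    have hb := hout b
    rw [hfa] at ha
    rw [hfb] at hb
    cases u with
    | inl x => exact ha ⟨x, rfl⟩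
    | inr x =>
      cases v with
      | inl y => exact hb ⟨y, rfl⟩
      | inr y =>
        apply hne
        show x ≠ y
        intro hxy
        have : f a = f b := by rw [hfa, hfb, hxy]
        exact hab.ne (hinj this)
  · -- all on the typed side
    choose f' hf' using hin
    have hinj' : Function.Injective f' := by
      intro x y hxy
      apply hinj
      rw [← hf' x, ← hf' y, hxy]
    have hhom' : ∀ x y, (CG m c).Adj x y → s(x, y) ≠ s(a, b) →
        (Phi (YS l w P)).Adj (f' x) (f' y) := by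
      intro x y hxy hs
      rcases hhom x y hxy with h | h
      · rw [← hf' x, ← hf' y] at h
        exact h
      · exfalso
        apply hs
        rw [← hfa, ← hfb, Sym2.eq_iff] at h
        rw [Sym2.eq_iff]
        rcases h with h | h
        · exact Or.inl ⟨hinj h.1, hinj h.2⟩
        · exact Or.inr ⟨hinj h.1, hinj h.2⟩
    have hnadj : ¬ (Phi (YS l w P)).Adj (f' a) (f' b) := by
      intro h
      apply hne
      rw [← hfa, ← hfb, ← hf' a, ← hf' b]
      exact h
    cases c with
    | inr q =>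
      exfalso
      refine q.2.2.2 a b hab ⟨EL l w, YS l w P, hyax l w P hl, f', hinj', ?_⟩
      intro x y hxy
      rw [SimpleGraph.deleteEdges_adj, Set.mem_singleton_iff] at hxy
      exact hhom' x y hxy.1 hxy.2
    | inl r =>
      obtain ⟨ψ, hψ, hψ2, hlk, hdy⟩ := hrig (Fin (ne r)) (EL l w) (pat r) (YS l w P)
        (hyax l w P hl) (pat_lk_ne r) (pat_dy_ne r) f' s(a, b) hinj' hhom'
      -- normal form of the new pair
      have norm : ∀ a b : Fin (ne r) × Fin 12, ¬ (Phi (YS l w P)).Adj (f' a) (f' b) →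
          (∀ d x y, (pat r).dy d x y → s((x, pp d), (y, rp d)) ≠ s(a, b) →
            (YS l w P).dy d (ψ x) (ψ y)) →
          a.1 ≠ b.1 → Conn (pat r) a.1 a.2 b.1 b.2 →
          ∃ (d : Bool) (n : Fin (sq l)) (i : Fin (w + 1)), gr l d (n.val + 1) i.val ≤ t + 1 ∧
            f' a = (.inl n, pp d) ∧ f' b = (.inr i, rp d) := by
        intro a b hnadj hdy hab1 hconn
        rcases hconn with ⟨k, hk, ha2, hb2⟩ | ⟨d', hd', ha2, hb2⟩
        · exfalso
          apply hnadj
          have e1 : f' a = (ψ a.1, a.2) := hψ2 a.1 a.2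
          have e2 : f' b = (ψ b.1, b.2) := hψ2 b.1 b.2
          rw [e1, e2]
          exact Or.inr ⟨fun h => hab1 (hψ h), Or.inl (Or.inl ⟨k, hlk k _ _ hk, ha2, hb2⟩)⟩
        · obtain ⟨d, x, y, hxy, hne'⟩ := pat_other r d' a.1 b.1 hd'
          have hs : s((x, pp d), (y, rp d)) ≠ s(a, b) := by
            intro h
            rw [Sym2.eq_iff] at h
            rcases h with ⟨h1, h2⟩ | ⟨h1, h2⟩
            · apply hne'
              have e1 : x = a.1 := congrArg Prod.fst h1
              have e2 : y = b.1 := congrArg Prod.fst h2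
              have e3 : pp d = a.2 := congrArg Prod.snd h1
              rw [ha2] at e3
              rw [e1, e2, pp_inj _ _ e3]
            · have e3 : pp d = b.2 := congrArg Prod.snd h1
              rw [hb2] at e3
              exact pp_ne_rp _ _ e3
          have hdyn := hdy d x y hxy hs
          have hdyn' : ysDy l w P d (ψ x) (ψ y) := hdyn
          cases hx : ψ x with
          | inr x0 => rw [hx] at hdyn'; exact absurd hdyn' (by simp [ysDy])
          | inl n =>
            cases hy : ψ y with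
            | inl y0 => rw [hx, hy] at hdyn'; exact absurd hdyn' (by simp [ysDy])
            | inr i =>
              rw [hx, hy] at hdyn'
              have hPd : P d (n.val + 1) i.val := hdyn'
              obtain ⟨n', i', hn', hi', hgr⟩ := hrank l w hl r ψ hlk d x y d' a.1 b.1 hxy hd'
                n i hx hy
              refine ⟨d', n', i', hgr.trans (Nat.add_le_add_right (hP _ _ _ hPd) 1), ?_, ?_⟩
              · have e1 : f' a = (ψ a.1, a.2) := hψ2 a.1 a.2
                rw [e1, hn', ha2]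
              · have e1 : f' b = (ψ b.1, b.2) := hψ2 b.1 b.2
                rw [e1, hi', hb2]
      have hab' : (Phi (pat r)).Adj a b := hab
      rcases hab' with h | h
      · exfalso
        apply hnadj
        have e1 : f' a = (ψ a.1, a.2) := hψ2 a.1 a.2
        have e2 : f' b = (ψ b.1, b.2) := hψ2 b.1 b.2
        rw [e1, e2]
        exact Or.inl ⟨by rw [h.1], h.2⟩
      · rcases h.2 with hc | hc
        · obtain ⟨d, n, i, hg, h1, h2⟩ := norm a b hnadj hdy h.1 hc
          refine ⟨d, n, i, hg, Or.inl ⟨?_, ?_⟩⟩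
          · rw [← hfa, ← hf' a, h1]
          · rw [← hfb, ← hf' b, h2]
        · obtain ⟨d, n, i, hg, h1, h2⟩ := norm b a (fun h' => hnadj h'.symm)
            (fun d x y hxy hs => hdy d x y hxy (fun h' => hs (h'.trans Sym2.eq_swap)))
            h.1.symm hc
          refine ⟨d, n, i, hg, Or.inr ⟨?_, ?_⟩⟩
          · rw [← hfb, ← hf' b, h1]
          · rw [← hfa, ← hf' a, h2]

theorem phi_mono (l w : ℕ) (P P' : Bool → ℕ → ℕ → Prop) (h : ∀ d n i, P d n i → P' d n i)
    (p q : EL l w × Fin 12) (hpq : (Phi (YS l w P)).Adj p q) : (Phi (YS l w P')).Adj p q := by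
  have hdy : ∀ d x y, (YS l w P).dy d x y → (YS l w P').dy d x y := by
    intro d x y hxy
    cases x with
    | inr x => exact absurd hxy (by simp [YS, ysDy])
    | inl x =>
      cases y with
      | inl y => exact absurd hxy (by simp [YS, ysDy])
      | inr y => exact h _ _ _ hxy
  have hconn : ∀ x a y b, Conn (YS l w P) x a y b → Conn (YS l w P') x a y b := by
    intro x a y b hc
    rcases hc with ⟨k, hk, hr⟩ | ⟨d, hd, hr⟩
    · exact Or.inl ⟨k, hk, hr⟩
    · exact Or.inr ⟨d, hdy _ _ _ hd, hr⟩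
  rcases hpq with h' | h'
  · exact Or.inl h'
  · exact Or.inr ⟨h'.1, h'.2.imp (hconn _ _ _ _) (hconn _ _ _ _)⟩

end LowStep

open LowStep in
theorem lowStep (hstep : stStep) (hnc : stNearClosed) (h2 : stPatTwoEC) (hrig : stRigid)
    (hyax : stYAx) (hrank : stRank) : stLowStep := by
  intro m l w N t P hl hP
  have hs := hstep ((EL l w × Fin 12) ⊕ Fin N) (Comp m) (CV m) (CG m) (glue l w P N)
  have hst : ∀ u v, (step (HG m) (glue l w P N)).Adj u v ↔
      ((glue l w P N).Adj u v ∨ ∃ (c : Comp m) (f : CV m c → _),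
        InfBy (CG m) (glue l w P N) c f u v) := hs
  let P' : Bool → ℕ → ℕ → Prop := fun d n i => P d n i ∨
    ∃ (a : Fin (sq l)) (b : Fin (w + 1)), a.val + 1 = n ∧ b.val = i ∧
      (step (HG m) (glue l w P N)).Adj (.inl (.inl a, pp d)) (.inl (.inr b, rp d))
  have hPP' : ∀ d n i, P d n i → P' d n i := fun d n i h => Or.inl h
  refine ⟨P', hPP', ?_, ?_⟩
  · rintro d n i (h | ⟨a, b, rfl, rfl, h⟩)
    · exact (hP d n i h).trans (Nat.le_succ t)
    · by_cases hG : (glue l w P N).Adj (.inl (.inl a, pp d)) (.inl (.inr b, rp d))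
      · exact (hP _ _ _ (phi_ports l w P d a b hG)).trans (Nat.le_succ t)
      · rcases (hst _ _).mp h with h | ⟨c, f, hinf⟩
        · exact absurd h hG
        · obtain ⟨d', n', i', hg, h' | h'⟩ :=
            main hnc h2 hrig hyax hrank m l w N t P hl hP c f _ _ hG hinf.1
          · obtain ⟨e1, e2⟩ := h'
            simp only [Sum.inl.injEq, Sum.inr.injEq, Prod.mk.injEq] at e1 e2
            rw [pp_inj _ _ e1.2, e1.1, e2.1]
            exact hg
          · obtain ⟨e1, e2⟩ := h'
            simp only [Sum.inl.injEq, Prod.mk.injEq] at e1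
            exact absurd e1.1 (by simp)
  · ext p q
    constructor
    · intro h
      by_cases hG : (glue l w P N).Adj p q
      · cases p with
        | inl p =>
          cases q with
          | inl q => exact phi_mono l w P P' hPP' p q hG
          | inr q => exact absurd hG (by simp [glue])
        | inr p =>
          cases q with
          | inl q => exact absurd hG (by simp [glue])
          | inr q => exact hG
      · rcases (hst _ _).mp h with h' | ⟨c, f, hinf⟩
        · exact absurd h' hG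
        · obtain ⟨d', n', i', hg, h' | h'⟩ :=
            main hnc h2 hrig hyax hrank m l w N t P hl hP c f _ _ hG hinf.1
          · obtain ⟨e1, e2⟩ := h'
            rw [e1, e2] at h ⊢
            show (Phi (YS l w P')).Adj _ _
            exact Or.inr ⟨by simp, Or.inl (Or.inr ⟨d', Or.inr ⟨n', i', rfl, rfl, h⟩, rfl, rfl⟩)⟩
          · obtain ⟨e1, e2⟩ := h'
            rw [e1, e2] at h ⊢
            show (Phi (YS l w P')).Adj _ _
            exact Or.inr ⟨by simp, Or.inr (Or.inr ⟨d', Or.inr ⟨n', i', rfl, rfl, h.symm⟩,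
              rfl, rfl⟩)⟩
    · intro h
      have hdyn : ∀ d x y, (YS l w P').dy d x y →
          (step (HG m) (glue l w P N)).Adj (.inl (x, pp d)) (.inl (y, rp d)) := by
        intro d x y hxy
        cases x with
        | inr x => exact absurd hxy (by simp [YS, ysDy])
        | inl x =>
          cases y with
          | inl y => exact absurd hxy (by simp [YS, ysDy])
          | inr y =>
            rcases (hxy : P' d (x.val + 1) y.val) with h' | ⟨a, b, ha, hb, h'⟩
            · refine (hst _ _).mpr (Or.inl ?_)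
              show (Phi (YS l w P)).Adj _ _
              exact Or.inr ⟨by simp, Or.inl (Or.inr ⟨d, h', rfl, rfl⟩)⟩
            · have e1 : a = x := Fin.ext (by omega)
              have e2 : b = y := Fin.ext hb
              rw [e1, e2] at h'
              exact h'
      have hconn : ∀ x a y b, x ≠ y → Conn (YS l w P') x a y b →
          (step (HG m) (glue l w P N)).Adj (.inl (x, a)) (.inl (y, b)) := by
        intro x a y b hxy hc
        rcases hc with ⟨k, hk, hr⟩ | ⟨d, hd, hr1, hr2⟩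
        · refine (hst _ _).mpr (Or.inl ?_)
          show (Phi (YS l w P)).Adj _ _
          exact Or.inr ⟨hxy, Or.inl (Or.inl ⟨k, hk, hr⟩)⟩
        · rw [hr1, hr2]
          exact hdyn d x y hd
      cases p with
      | inl p =>
        cases q with
        | inl q =>
          have h' : (Phi (YS l w P')).Adj p q := h
          rcases h' with h' | h'
          · refine (hst _ _).mpr (Or.inl ?_)
            show (Phi (YS l w P)).Adj _ _
            exact Or.inl h'
          · rcases h'.2 with hc | hc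
            · exact hconn p.1 p.2 q.1 q.2 h'.1 hc
            · exact (hconn q.1 q.2 p.1 p.2 h'.1.symm hc).symm
        | inr q => exact absurd h (by simp [glue])
      | inr p =>
        cases q with
        | inl q => exact absurd h (by simp [glue])
        | inr q => exact (hst _ _).mpr (Or.inl h)

end MPaef1a0

end

section

/-!
C6: the process becomes stable; C7: the lower bound on the running time.
-/

set_option autoImplicit false

namespace MPaef1a0

open SimpleGraph

lemma Lower_le_step {V W : Type} [Fintype V] (H : SimpleGraph W) (G : SimpleGraph V) :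
    G ≤ step H G := by
  intro u v h
  rw [step, SimpleGraph.fromRel_adj]
  exact ⟨h.ne, Or.inl (Or.inl h)⟩

/-- C6. -/
theorem stable : stStable := by
  intro V W _ H G
  by_contra hcon
  push Not at hcon
  have hlt : ∀ t, proc H G t < proc H G (t + 1) := fun t =>
    lt_of_le_of_ne (Lower_le_step H (proc H G t)) (hcon t)
  have hmono : StrictMono (proc H G) := strictMono_nat_of_lt_succ hlt
  exact not_injective_infinite_finite (proc H G) hmono.injective

/-- C7. -/
theorem lower : stLowStep → stLowStable → stReach → stStable → stLower := by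
  intro hstep hsta hreach hstb m l w hl
  set P0 : Bool → ℕ → ℕ → Prop := fun d n i => d = false ∧ n = 4 ∧ i = 0 with hP0
  set G0 := glue l w P0 (hN m) with hG0
  have key : ∀ t, ∃ P : Bool → ℕ → ℕ → Prop, P false 4 0 ∧
      (∀ d n i, P d n i → gr l d n i ≤ t) ∧ proc (HG m) G0 t = glue l w P (hN m) := by
    intro t
    induction t with
    | zero =>
      refine ⟨P0, ⟨rfl, rfl, rfl⟩, ?_, rfl⟩
      rintro d n i ⟨rfl, rfl, rfl⟩
      simp [gr]
    | succ t ih =>
      obtain ⟨P, h1, h2, h3⟩ := ih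
      obtain ⟨P', g1, g2, g3⟩ := hstep m l w (hN m) t P hl h2
      refine ⟨P', g1 _ _ _ h1, g2, ?_⟩
      rw [proc, h3, g3]
  obtain ⟨P, h1, h2, h3⟩ := key (runTime (HG m) G0)
  have hfix : proc (HG m) G0 (runTime (HG m) G0) = proc (HG m) G0 (runTime (HG m) G0 + 1) :=
    Nat.sInf_mem (s := {t : ℕ | proc (HG m) G0 t = proc (HG m) G0 (t + 1)}) (hstb _ _ (HG m) G0)
  have hst : step (HG m) (glue l w P (hN m)) = glue l w P (hN m) := by
    have h4 : proc (HG m) G0 (runTime (HG m) G0 + 1)
        = step (HG m) (proc (HG m) G0 (runTime (HG m) G0)) := rfl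
    rw [h4, h3] at hfix
    exact hfix.symm
  have hcl : ClosedP l w P := hsta m l w (hN m) P hl le_rfl hst
  have hend := hreach l w P hl h1 hcl
  have := h2 _ _ _ hend
  simpa [gr] using this

end MPaef1a0

end

section

/-!
C2: one move changes the rank by at most one.
-/

set_option autoImplicit false

namespace MPaef1a0

open SimpleGraph

namespace RankAux

theorem gr_f (l t i : ℕ) : gr l false t i = i * ((sq l - 4) / 2) + (t - 4) / 2 := rfl

theorem gr_t (l t i : ℕ) : gr l true t i = (i + 1) * ((sq l - 4) / 2) := rfl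

theorem S_left {l w : ℕ} {a : Fin (sq l)} {q : EL l w} (h : ysLk l w .S (.inl a) q) :
    ∃ b : Fin (sq l), q = .inl b ∧ b.val = a.val + 1 := by
  rcases q with b | b
  · refine ⟨b, rfl, ?_⟩
    have h1 : b.val + 1 = a.val + 1 + 1 := h
    omega
  · exact absurd h (fun h => h)

theorem S_right {l w : ℕ} {b : Fin (sq l)} {p : EL l w} (h : ysLk l w .S p (.inl b)) :
    ∃ a : Fin (sq l), p = .inl a ∧ b.val = a.val + 1 := by
  rcases p with a | a
  · refine ⟨a, rfl, ?_⟩
    have h1 : b.val + 1 = a.val + 1 + 1 := h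
    omega
  · exact absurd h (fun h => h)

theorem S_left' {l w : ℕ} {a : Fin (w + 1)} {q : EL l w} (h : ysLk l w .S (.inr a) q) :
    ∃ b : Fin (w + 1), q = .inr b ∧ b.val = a.val + 1 := by
  rcases q with b | b
  · exact absurd h (fun h => h)
  · exact ⟨b, rfl, h.2⟩

theorem S_right' {l w : ℕ} {b : Fin (w + 1)} {p : EL l w} (h : ysLk l w .S p (.inr b)) :
    ∃ a : Fin (w + 1), p = .inr a ∧ b.val = a.val + 1 := by
  rcases p with a | a
  · exact absurd h (fun h => h)
  · exact ⟨a, rfl, h.2⟩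

theorem D_right {l w : ℕ} {b : Fin (sq l)} {p : EL l w} (h : ysLk l w .D p (.inl b)) :
    ∃ a : Fin (sq l), p = .inl a ∧ b.val + 1 = 2 * (a.val + 1) := by
  rcases p with a | a
  · exact ⟨a, rfl, h.2⟩
  · exact absurd h (fun h => h)

theorem T_right {l w : ℕ} {b : Fin (sq l)} {p : EL l w} (h : ysLk l w .T p (.inl b)) :
    b.val + 1 = sq l := by
  rcases p with a | a
  · exact h.2
  · exact absurd h (fun h => h)

end RankAux

open RankAux in
/-- C2. -/
theorem rank : stRank := by
  intro l w hl r ψ hψ d x y d' x' y' h h' n i hx hy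
  cases r
  case Du =>
    have s01 := hψ .S ⟨0, by decide⟩ ⟨1, by decide⟩ (by decide)
    have s12 := hψ .S ⟨1, by decide⟩ ⟨2, by decide⟩ (by decide)
    simp only [pat, dl, List.mem_cons, Prod.mk.injEq, List.not_mem_nil, or_false] at h h'
    rcases h with ⟨rfl, hx0, hy0⟩ | ⟨rfl, hx0, hy0⟩ <;>
    rcases h' with ⟨rfl, hx0', hy0'⟩ | ⟨rfl, hx0', hy0'⟩
    · obtain rfl : x' = x := Fin.ext (hx0'.trans hx0.symm)
      obtain rfl : y' = y := Fin.ext (hy0'.trans hy0.symm)
      exact ⟨n, i, hx, hy, by simp only [gr_f, gr_t]; omega⟩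
    · obtain rfl : x = ⟨0, by decide⟩ := Fin.ext hx0
      obtain rfl : x' = ⟨2, by decide⟩ := Fin.ext hx0'
      obtain rfl : y' = y := Fin.ext (hy0'.trans hy0.symm)
      rw [hx] at s01
      obtain ⟨n1, h1, e1⟩ := S_left s01
      rw [h1] at s12
      obtain ⟨n2, h2, e2⟩ := S_left s12
      exact ⟨n2, i, h2, hy, by simp only [gr_f, gr_t]; omega⟩
    · obtain rfl : x = ⟨2, by decide⟩ := Fin.ext hx0
      obtain rfl : x' = ⟨0, by decide⟩ := Fin.ext hx0'
      obtain rfl : y' = y := Fin.ext (hy0'.trans hy0.symm)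
      rw [hx] at s12
      obtain ⟨n1, h1, e1⟩ := S_right s12
      rw [h1] at s01
      obtain ⟨n2, h2, e2⟩ := S_right s01
      exact ⟨n2, i, h2, hy, by simp only [gr_f, gr_t]; omega⟩
    · obtain rfl : x' = x := Fin.ext (hx0'.trans hx0.symm)
      obtain rfl : y' = y := Fin.ext (hy0'.trans hy0.symm)
      exact ⟨n, i, hx, hy, by simp only [gr_f, gr_t]; omega⟩
  case Dm =>
    have s01 := hψ .S ⟨0, by decide⟩ ⟨1, by decide⟩ (by decide)
    have s12 := hψ .S ⟨1, by decide⟩ ⟨2, by decide⟩ (by decide)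
    simp only [pat, dl, List.mem_cons, Prod.mk.injEq, List.not_mem_nil, or_false] at h h'
    rcases h with ⟨rfl, hx0, hy0⟩ | ⟨rfl, hx0, hy0⟩ <;>
    rcases h' with ⟨rfl, hx0', hy0'⟩ | ⟨rfl, hx0', hy0'⟩
    · obtain rfl : x' = x := Fin.ext (hx0'.trans hx0.symm)
      obtain rfl : y' = y := Fin.ext (hy0'.trans hy0.symm)
      exact ⟨n, i, hx, hy, by simp only [gr_f, gr_t]; omega⟩
    · obtain rfl : x = ⟨0, by decide⟩ := Fin.ext hx0
      obtain rfl : x' = ⟨2, by decide⟩ := Fin.ext hx0'
      obtain rfl : y' = y := Fin.ext (hy0'.trans hy0.symm)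
      rw [hx] at s01
      obtain ⟨n1, h1, e1⟩ := S_left s01
      rw [h1] at s12
      obtain ⟨n2, h2, e2⟩ := S_left s12
      exact ⟨n2, i, h2, hy, by simp only [gr_f, gr_t]; omega⟩
    · obtain rfl : x = ⟨2, by decide⟩ := Fin.ext hx0
      obtain rfl : x' = ⟨0, by decide⟩ := Fin.ext hx0'
      obtain rfl : y' = y := Fin.ext (hy0'.trans hy0.symm)
      rw [hx] at s12
      obtain ⟨n1, h1, e1⟩ := S_right s12
      rw [h1] at s01
      obtain ⟨n2, h2, e2⟩ := S_right s01
      exact ⟨n2, i, h2, hy, by simp only [gr_f, gr_t]; omega⟩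
    · obtain rfl : x' = x := Fin.ext (hx0'.trans hx0.symm)
      obtain rfl : y' = y := Fin.ext (hy0'.trans hy0.symm)
      exact ⟨n, i, hx, hy, by simp only [gr_f, gr_t]; omega⟩
  case Top =>
    have t20 := hψ .T ⟨2, by decide⟩ ⟨0, by decide⟩ (by decide)
    simp only [pat, dl, List.mem_cons, Prod.mk.injEq, List.not_mem_nil, or_false] at h h'
    have hx0 : x.val = 0 := by rcases h with ⟨-, h, -⟩ | ⟨-, h, -⟩ <;> exact h
    have hx0' : x'.val = 0 := by rcases h' with ⟨-, h, -⟩ | ⟨-, h, -⟩ <;> exact h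
    have hy0 : y.val = 3 := by rcases h with ⟨-, -, h⟩ | ⟨-, -, h⟩ <;> exact h
    have hy0' : y'.val = 3 := by rcases h' with ⟨-, -, h⟩ | ⟨-, -, h⟩ <;> exact h
    obtain rfl : x' = x := Fin.ext (hx0'.trans hx0.symm)
    obtain rfl : y' = y := Fin.ext (hy0'.trans hy0.symm)
    obtain rfl : x' = ⟨0, by decide⟩ := Fin.ext hx0
    rw [hx] at t20
    have e1 := T_right t20
    refine ⟨n, i, hx, hy, ?_⟩
    have key : ∀ d'' : Bool, gr l d'' (n.val + 1) i.val = (i.val + 1) * ((sq l - 4) / 2) := by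
      intro d''
      cases d''
      · show i.val * ((sq l - 4) / 2) + (n.val + 1 - 4) / 2 = _
        rw [e1, add_mul, one_mul]
      · rfl
    rw [key, key]
    omega
  case Dn =>
    have s01 := hψ .S ⟨0, by decide⟩ ⟨1, by decide⟩ (by decide)
    simp only [pat, dl, List.mem_cons, Prod.mk.injEq, List.not_mem_nil, or_false] at h h'
    rcases h with ⟨rfl, hx0, hy0⟩ | ⟨rfl, hx0, hy0⟩ <;>
    rcases h' with ⟨rfl, hx0', hy0'⟩ | ⟨rfl, hx0', hy0'⟩
    · obtain rfl : x' = x := Fin.ext (hx0'.trans hx0.symm)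
      obtain rfl : y' = y := Fin.ext (hy0'.trans hy0.symm)
      exact ⟨n, i, hx, hy, by simp only [gr_f, gr_t]; omega⟩
    · obtain rfl : x = ⟨0, by decide⟩ := Fin.ext hx0
      obtain rfl : x' = ⟨1, by decide⟩ := Fin.ext hx0'
      obtain rfl : y' = y := Fin.ext (hy0'.trans hy0.symm)
      rw [hx] at s01
      obtain ⟨n1, h1, e1⟩ := S_left s01
      exact ⟨n1, i, h1, hy, by simp only [gr_f, gr_t]; omega⟩
    · obtain rfl : x = ⟨1, by decide⟩ := Fin.ext hx0
      obtain rfl : x' = ⟨0, by decide⟩ := Fin.ext hx0'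
      obtain rfl : y' = y := Fin.ext (hy0'.trans hy0.symm)
      rw [hx] at s01
      obtain ⟨n1, h1, e1⟩ := S_right s01
      exact ⟨n1, i, h1, hy, by simp only [gr_f, gr_t]; omega⟩
    · obtain rfl : x' = x := Fin.ext (hx0'.trans hx0.symm)
      obtain rfl : y' = y := Fin.ext (hy0'.trans hy0.symm)
      exact ⟨n, i, hx, hy, by simp only [gr_f, gr_t]; omega⟩
  case Base =>
    have s12 := hψ .S ⟨1, by decide⟩ ⟨2, by decide⟩ (by decide)
    have s23 := hψ .S ⟨2, by decide⟩ ⟨3, by decide⟩ (by decide)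
    have d13 := hψ .D ⟨1, by decide⟩ ⟨3, by decide⟩ (by decide)
    have s45 := hψ .S ⟨4, by decide⟩ ⟨5, by decide⟩ (by decide)
    simp only [pat, dl, List.mem_cons, Prod.mk.injEq, List.not_mem_nil, or_false] at h h'
    have hx0 : x.val = 3 := by rcases h with ⟨-, h, -⟩ | ⟨-, h, -⟩ <;> exact h
    have hx0' : x'.val = 3 := by rcases h' with ⟨-, h, -⟩ | ⟨-, h, -⟩ <;> exact h
    obtain rfl : x' = x := Fin.ext (hx0'.trans hx0.symm)
    obtain rfl : x' = ⟨3, by decide⟩ := Fin.ext hx0
    rw [hx] at s23 d13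
    obtain ⟨n2, h2, e2⟩ := S_right s23
    rw [h2] at s12
    obtain ⟨n1, h1, e1⟩ := S_right s12
    rw [h1] at d13
    obtain ⟨n1', h1', e1'⟩ := D_right d13
    have e3 : n1 = n1' := Sum.inl_injective h1'
    have e4 : n.val + 1 = 4 := by
      rw [← e3] at e1'
      omega
    rcases h with ⟨rfl, -, hy0⟩ | ⟨rfl, -, hy0⟩ <;>
    rcases h' with ⟨rfl, -, hy0'⟩ | ⟨rfl, -, hy0'⟩
    · obtain rfl : y' = y := Fin.ext (hy0'.trans hy0.symm)
      exact ⟨n, i, hx, hy, by simp only [gr_f, gr_t]; omega⟩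
    · obtain rfl : y = ⟨4, by decide⟩ := Fin.ext hy0
      obtain rfl : y' = ⟨5, by decide⟩ := Fin.ext hy0'
      rw [hy] at s45
      obtain ⟨i', hi', ei'⟩ := S_left' s45
      refine ⟨n, i', hx, hi', ?_⟩
      rw [e4, ei']
      show (i.val + 1) * ((sq l - 4) / 2) + (4 - 4) / 2 ≤ (i.val + 1) * ((sq l - 4) / 2) + 1
      omega
    · obtain rfl : y = ⟨5, by decide⟩ := Fin.ext hy0
      obtain rfl : y' = ⟨4, by decide⟩ := Fin.ext hy0'
      rw [hy] at s45
      obtain ⟨i', hi', ei'⟩ := S_right' s45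
      refine ⟨n, i', hx, hi', ?_⟩
      rw [e4, ei']
      show (i'.val + 1) * ((sq l - 4) / 2) ≤ (i'.val + 1) * ((sq l - 4) / 2) + (4 - 4) / 2 + 1
      omega
    · obtain rfl : y' = y := Fin.ext (hy0'.trans hy0.symm)
      exact ⟨n, i, hx, hy, by simp only [gr_f, gr_t]; omega⟩
  all_goals exact absurd h (by simp [pat, dl])

end MPaef1a0

end

section

/-!
C3: the moves reach the end.
-/

set_option autoImplicit false

namespace MPaef1a0

namespace ReachItem

variable {l w : ℕ}

/-- the number `n` -/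
def el (l w n : ℕ) : EL l w := if h : n - 1 < sq l then .inl ⟨n - 1, h⟩ else .inr 0

/-- the element `y_i` -/
def yy (l w i : ℕ) : EL l w := if h : i < w + 1 then .inr ⟨i, h⟩ else .inr 0

lemma el_eq {n : ℕ} (h1 : 1 ≤ n) (h2 : n ≤ sq l) :
    el l w n = .inl ⟨n - 1, by omega⟩ := dif_pos (by omega)

lemma yy_eq {i : ℕ} (h : i ≤ w) : yy l w i = .inr ⟨i, by omega⟩ := dif_pos (by omega)

/-- an injective code -/
def code : EL l w → ℕ
  | .inl a => a.val + 1
  | .inr b => sq l + 1 + b.val

lemma code_el {n : ℕ} (h1 : 1 ≤ n) (h2 : n ≤ sq l) : code (el l w n) = n := by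
  rw [el_eq h1 h2, code]
  show n - 1 + 1 = n
  omega

lemma code_yy {i : ℕ} (h : i ≤ w) : code (yy l w i) = sq l + 1 + i := by
  rw [yy_eq h, code]

lemma lk_el {k : SK} {a b : ℕ} (ha : 1 ≤ a) (ha' : a ≤ sq l) (hb : 1 ≤ b) (hb' : b ≤ sq l)
    (h : numLk l k a b) : ysLk l w k (el l w a) (el l w b) := by
  rw [el_eq ha ha', el_eq hb hb']
  show numLk l k (a - 1 + 1) (b - 1 + 1)
  rw [Nat.sub_add_cancel ha, Nat.sub_add_cancel hb]
  exact h

lemma lk_yy {i : ℕ} (h : i + 1 ≤ w) : ysLk l w .S (yy l w i) (yy l w (i + 1)) := by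
  rw [yy_eq (by omega), yy_eq h]
  exact ⟨rfl, rfl⟩

lemma dy_iff {P : Bool → ℕ → ℕ → Prop} {d : Bool} {n i : ℕ} (h1 : 1 ≤ n) (h2 : n ≤ sq l)
    (hi : i ≤ w) : ysDy l w P d (el l w n) (yy l w i) ↔ P d n i := by
  rw [el_eq h1 h2, yy_eq hi]
  show P d (n - 1 + 1) i ↔ P d n i
  rw [Nat.sub_add_cancel h1]

/-- a move given by a list of elements -/
lemma mv {P : Bool → ℕ → ℕ → Prop} (hP : ClosedP l w P) (r : RK) (L : List (EL l w)) (V : List ℕ)
    (hlen : L.length = ne r) (hv : L.map code = V) (hinj : V.Nodup)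
    (hl : ∀ e ∈ sl r, ysLk l w e.1 (L.getD e.2.1 (.inr 0)) (L.getD e.2.2 (.inr 0)))
    (d d' : Bool) (i j i' j' : ℕ)
    (hi : i < ne r) (hj : j < ne r) (hi' : i' < ne r) (hj' : j' < ne r)
    (h : (d, i, j) ∈ dl r) (h' : (d', i', j') ∈ dl r)
    (hd : ysDy l w P d (L.getD i (.inr 0)) (L.getD j (.inr 0))) :
    ysDy l w P d' (L.getD i' (.inr 0)) (L.getD j' (.inr 0)) := by
  refine hP r (fun x => L.getD x.val (.inr 0)) ?_ ?_ d ⟨i, hi⟩ ⟨j, hj⟩ d' ⟨i', hi'⟩ ⟨j', hj'⟩
    h h' hd
  · intro x y hxy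
    have hL : L.Nodup := by
      rw [← hv] at hinj
      exact hinj.of_map code
    have hx : x.val < L.length := by
      rw [hlen]
      exact x.isLt
    have hy : y.val < L.length := by
      rw [hlen]
      exact y.isLt
    have h1 : L.getD x.val (.inr 0) = L.getD y.val (.inr 0) := hxy
    rw [List.getD_eq_getElem _ _ hx, List.getD_eq_getElem _ _ hy] at h1
    exact Fin.ext ((List.Nodup.getElem_inj_iff hL).mp h1)
  · intro k x y hk
    exact hl _ hk

lemma four_le_sq (hl : 2 ≤ l) : 32 ≤ sq l := by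
  have h1 : 2 ^ 2 ≤ 2 ^ l := Nat.pow_le_pow_right (by norm_num) hl
  have h2 : 2 ^ 5 ≤ 2 ^ (2 ^ l + 1) := Nat.pow_le_pow_right (by norm_num) (by omega)
  exact h2

lemma not_isPow_odd {h : ℕ} : ¬ isPow (2 * h + 1) := by
  rintro ⟨p, hp, hp'⟩
  obtain ⟨q, rfl⟩ : ∃ q, p = q + 1 := ⟨p - 1, by omega⟩
  rw [pow_succ] at hp'
  omega

lemma not_isPow_small {i : ℕ} (hi : i < 4) : ¬ isPow i := by
  rintro ⟨p, hp, rfl⟩
  have : 2 ^ 2 ≤ 2 ^ p := Nat.pow_le_pow_right (by norm_num) hp
  omega

lemma isPow_double {i : ℕ} (hi : 3 ≤ i) (h : isPow (2 * i)) : isPow i := by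
  obtain ⟨p, hp, hp'⟩ := h
  obtain ⟨q, rfl⟩ : ∃ q, p = q + 1 := ⟨p - 1, by omega⟩
  rw [pow_succ] at hp'
  refine ⟨q, ?_, by omega⟩
  by_contra hq
  have h1 : 2 ^ q ≤ 2 ^ 1 := Nat.pow_le_pow_right (by norm_num) (by omega)
  omega

lemma mdu {P : Bool → ℕ → ℕ → Prop} (hP : ClosedP l w P) {s i : ℕ} (hs : 2 ≤ s)
    (hsq : 2 * s + 2 ≤ sq l) (hi : i + 1 ≤ w) (hnp : ¬ isPow (s + 1)) (h : P false (2 * s) i) :
    P false (2 * s + 2) i := by
  have hnp' : ¬ isPow (2 * s + 2) := fun h => hnp (isPow_double (by omega) h)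
  have := mv hP .Du
    [el l w (2 * s), el l w (2 * s + 1), el l w (2 * s + 2), el l w s, el l w (s + 1), yy l w i, yy l w (i + 1)]
    [2 * s, 2 * s + 1, 2 * s + 2, s, s + 1, sq l + 1 + i, sq l + 1 + (i + 1)] rfl ?_ ?_ ?_ false false 0 5 2 5 (by decide) (by decide) (by decide)
      (by decide) (by decide) (by decide) ((dy_iff (by omega) (by omega) (by omega)).mpr h)
  · exact (dy_iff (by omega) (by omega) (by omega)).mp this
  · simp only [List.map_cons, List.map_nil]
    repeat rw [List.cons.injEq]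
    refine ⟨code_el (by omega) (by omega), code_el (by omega) (by omega), code_el (by omega) (by omega), code_el (by omega) (by omega), code_el (by omega) (by omega), code_yy (by omega), code_yy (by omega), rfl⟩
  · simp only [List.nodup_cons, List.mem_cons, List.not_mem_nil, or_false, not_false_eq_true,
      List.nodup_nil, and_true]
    omega
  · intro e he
    simp only [sl, List.mem_cons, List.not_mem_nil, or_false] at he
    rcases he with rfl | rfl | rfl | rfl | rfl | rfl | rfl | rfl | rfl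
    · exact lk_el (by omega) (by omega) (by omega) (by omega) rfl
    · exact lk_el (by omega) (by omega) (by omega) (by omega) rfl
    · exact lk_el (by omega) (by omega) (by omega) (by omega) rfl
    · exact lk_el (by omega) (by omega) (by omega) (by omega) ⟨hs, rfl⟩
    · exact lk_el (by omega) (by omega) (by omega) (by omega) ⟨by omega, by ring⟩
    · exact lk_el (by omega) (by omega) (by omega) (by omega) ⟨rfl, not_isPow_odd⟩
    · exact lk_el (by omega) (by omega) (by omega) (by omega) ⟨rfl, hnp'⟩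
    · exact lk_el (by omega) (by omega) (by omega) (by omega) ⟨rfl, hnp⟩
    · exact lk_yy hi

lemma mdm {P : Bool → ℕ → ℕ → Prop} (hP : ClosedP l w P) {s i : ℕ} (hs : 2 ≤ s)
    (hsq : 2 * s + 2 ≤ sq l) (hi : i + 1 ≤ w) (hp : isPow (s + 1)) (h : P false (2 * s) i) :
    P false (2 * s + 2) i := by
  obtain ⟨k, hk, hks⟩ := hp
  have hp' : 2 * s + 2 = 2 ^ (k + 1) := by rw [pow_succ]; omega
  have hkl : k < s := by
    obtain ⟨q, rfl⟩ : ∃ q, k = q + 2 := ⟨k - 2, by omega⟩
    have h1 : q < 2 ^ q := Nat.lt_two_pow_self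
    rw [pow_add] at hks
    omega
  have := mv hP .Dm
    [el l w (2 * s), el l w (2 * s + 1), el l w (2 * s + 2), el l w s, el l w (s + 1), el l w (k - 1), el l w k, yy l w i, yy l w (i + 1)]
    [2 * s, 2 * s + 1, 2 * s + 2, s, s + 1, k - 1, k, sq l + 1 + i, sq l + 1 + (i + 1)] rfl ?_ ?_ ?_ false false 0 7 2 7 (by decide) (by decide) (by decide)
      (by decide) (by decide) (by decide) ((dy_iff (by omega) (by omega) (by omega)).mpr h)
  · exact (dy_iff (by omega) (by omega) (by omega)).mp this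
  · simp only [List.map_cons, List.map_nil]
    repeat rw [List.cons.injEq]
    refine ⟨code_el (by omega) (by omega), code_el (by omega) (by omega), code_el (by omega) (by omega), code_el (by omega) (by omega), code_el (by omega) (by omega), code_el (by omega) (by omega), code_el (by omega) (by omega), code_yy (by omega), code_yy (by omega), rfl⟩
  · simp only [List.nodup_cons, List.mem_cons, List.not_mem_nil, or_false, not_false_eq_true,
      List.nodup_nil, and_true]
    omega
  · intro e he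
    simp only [sl, List.mem_cons, List.not_mem_nil, or_false] at he
    rcases he with rfl | rfl | rfl | rfl | rfl | rfl | rfl | rfl | rfl | rfl | rfl | rfl
    · exact lk_el (by omega) (by omega) (by omega) (by omega) rfl
    · exact lk_el (by omega) (by omega) (by omega) (by omega) rfl
    · exact lk_el (by omega) (by omega) (by omega) (by omega) rfl
    · exact lk_el (by omega) (by omega) (by omega) (by omega) ⟨hs, rfl⟩
    · exact lk_el (by omega) (by omega) (by omega) (by omega) ⟨by omega, by ring⟩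
    · exact lk_el (by omega) (by omega) (by omega) (by omega) ⟨rfl, not_isPow_odd⟩
    · exact lk_el (by omega) (by omega) (by omega) (by omega) ⟨rfl, k + 1, by omega, hp'⟩
    · exact lk_el (by omega) (by omega) (by omega) (by omega) ⟨rfl, k, hk, hks⟩
    · exact lk_el (by omega) (by omega) (by omega) (by omega) ⟨k, hk, hks, rfl⟩
    · exact lk_el (by omega) (by omega) (by omega) (by omega) ⟨k + 1, by omega, hp', rfl⟩
    · refine lk_el (by omega) (by omega) (by omega) (by omega) ?_
      show k = k - 1 + 1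
      omega
    · exact lk_yy hi

lemma mtop {P : Bool → ℕ → ℕ → Prop} (hP : ClosedP l w P) (hl : 2 ≤ l) {i : ℕ}
    (hi : i + 1 ≤ w) (h : P false (sq l) i) : P true (sq l) i := by
  have h32 := four_le_sq hl
  have h4 : 2 ^ 2 ≤ 2 ^ l := Nat.pow_le_pow_right (by norm_num) hl
  have hlt : 2 ^ l < sq l := by
    have h1 : 2 ^ l < 2 ^ (2 ^ l) := Nat.lt_two_pow_self
    have h2 : sq l = 2 ^ (2 ^ l) * 2 := pow_succ _ _
    omega
  have := mv hP .Top
    [el l w (sq l), el l w (2 ^ l - 1), el l w (2 ^ l), yy l w i, yy l w (i + 1)]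
    [sq l, 2 ^ l - 1, 2 ^ l, sq l + 1 + i, sq l + 1 + (i + 1)] rfl ?_ ?_ ?_ false true 0 3 0 3 (by decide) (by decide) (by decide)
      (by decide) (by decide) (by decide) ((dy_iff (by omega) (by omega) (by omega)).mpr h)
  · exact (dy_iff (by omega) (by omega) (by omega)).mp this
  · simp only [List.map_cons, List.map_nil]
    repeat rw [List.cons.injEq]
    refine ⟨code_el (by omega) (by omega), code_el (by omega) (by omega), code_el (by omega) (by omega), code_yy (by omega), code_yy (by omega), rfl⟩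
  · simp only [List.nodup_cons, List.mem_cons, List.not_mem_nil, or_false, not_false_eq_true,
      List.nodup_nil, and_true]
    omega
  · intro e he
    simp only [sl, List.mem_cons, List.not_mem_nil, or_false] at he
    rcases he with rfl | rfl | rfl | rfl | rfl
    · refine lk_el (by omega) (by omega) (by omega) (by omega) ⟨2 ^ l + 1, by omega, rfl, ?_⟩
      omega
    · refine lk_el (by omega) (by omega) (by omega) (by omega) ?_
      show 2 ^ l = 2 ^ l - 1 + 1
      omega
    · refine lk_el (by omega) (by omega) (by omega) (by omega) ⟨?_, l, hl, rfl⟩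
      show 2 ^ l = 2 ^ l - 1 + 1
      omega
    · exact lk_el (by omega) (by omega) (by omega) (by omega) ⟨rfl, rfl⟩
    · exact lk_yy hi

lemma mdn {P : Bool → ℕ → ℕ → Prop} (hP : ClosedP l w P) {a i : ℕ} (ha : 1 ≤ a)
    (hsq : a + 1 ≤ sq l) (hi : i + 1 ≤ w) (h : P true (a + 1) i) : P true a i := by
  have := mv hP .Dn
    [el l w a, el l w (a + 1), yy l w i, yy l w (i + 1)]
    [a, a + 1, sq l + 1 + i, sq l + 1 + (i + 1)] rfl ?_ ?_ ?_ true true 1 2 0 2 (by decide) (by decide) (by decide)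
      (by decide) (by decide) (by decide) ((dy_iff (by omega) (by omega) (by omega)).mpr h)
  · exact (dy_iff (by omega) (by omega) (by omega)).mp this
  · simp only [List.map_cons, List.map_nil]
    repeat rw [List.cons.injEq]
    refine ⟨code_el (by omega) (by omega), code_el (by omega) (by omega), code_yy (by omega), code_yy (by omega), rfl⟩
  · simp only [List.nodup_cons, List.mem_cons, List.not_mem_nil, or_false, not_false_eq_true,
      List.nodup_nil, and_true]
    omega
  · intro e he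
    simp only [sl, List.mem_cons, List.not_mem_nil, or_false] at he
    rcases he with rfl | rfl
    · exact lk_el (by omega) (by omega) (by omega) (by omega) rfl
    · exact lk_yy hi

lemma mbase {P : Bool → ℕ → ℕ → Prop} (hP : ClosedP l w P) (hl : 2 ≤ l) {i : ℕ}
    (hi : i + 1 ≤ w) (h : P true 4 i) : P false 4 (i + 1) := by
  have h32 := four_le_sq hl
  have := mv hP .Base
    [el l w 1, el l w 2, el l w 3, el l w 4, yy l w i, yy l w (i + 1)]
    [1, 2, 3, 4, sq l + 1 + i, sq l + 1 + (i + 1)] rfl ?_ ?_ ?_ true false 3 4 3 5 (by decide) (by decide) (by decide)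
      (by decide) (by decide) (by decide) ((dy_iff (by omega) (by omega) (by omega)).mpr h)
  · exact (dy_iff (by omega) (by omega) (by omega)).mp this
  · simp only [List.map_cons, List.map_nil]
    repeat rw [List.cons.injEq]
    refine ⟨code_el (by omega) (by omega), code_el (by omega) (by omega), code_el (by omega) (by omega), code_el (by omega) (by omega), code_yy (by omega), code_yy (by omega), rfl⟩
  · simp only [List.nodup_cons, List.mem_cons, List.not_mem_nil, or_false, not_false_eq_true,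
      List.nodup_nil, and_true]
    omega
  · intro e he
    simp only [sl, List.mem_cons, List.not_mem_nil, or_false] at he
    rcases he with rfl | rfl | rfl | rfl | rfl | rfl | rfl | rfl | rfl
    · exact lk_el (by omega) (by omega) (by omega) (by omega) rfl
    · exact lk_el (by omega) (by omega) (by omega) (by omega) rfl
    · exact lk_el (by omega) (by omega) (by omega) (by omega) rfl
    · exact lk_el (by omega) (by omega) (by omega) (by omega) ⟨le_rfl, rfl⟩
    · exact lk_el (by omega) (by omega) (by omega) (by omega) ⟨2, le_rfl, rfl, rfl⟩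
    · exact lk_el (by omega) (by omega) (by omega) (by omega) ⟨rfl, 2, le_rfl, rfl⟩
    · exact lk_el (by omega) (by omega) (by omega) (by omega) ⟨rfl, not_isPow_small (by omega)⟩
    · exact lk_el (by omega) (by omega) (by omega) (by omega) ⟨rfl, not_isPow_small (by omega)⟩
    · exact lk_yy hi

/-- one round of the counter -/
lemma round {P : Bool → ℕ → ℕ → Prop} (hP : ClosedP l w P) (hl : 2 ≤ l) {i : ℕ}
    (hi : i + 1 ≤ w) (h : P false 4 i) : P false 4 (i + 1) := by
  have h32 := four_le_sq hl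
  have hup : ∀ n, 2 * (n + 2) ≤ sq l → P false (2 * (n + 2)) i := by
    intro n
    induction n with
    | zero => exact fun _ => h
    | succ n ih =>
      intro hn
      have h1 := ih (by omega)
      have e : 2 * (n + 1 + 2) = 2 * (n + 2) + 2 := by ring
      rw [e]
      by_cases hp : isPow (n + 2 + 1)
      · exact mdm hP (by omega) (by omega) hi hp h1
      · exact mdu hP (by omega) (by omega) hi hp h1
  have htop : P false (sq l) i := by
    have h2 : sq l = 2 ^ (2 ^ l) * 2 := pow_succ _ _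
    have h3 := hup (2 ^ (2 ^ l) - 2) (by omega)
    have e : 2 * (2 ^ (2 ^ l) - 2 + 2) = sq l := by omega
    rw [e] at h3
    exact h3
  have hdn : ∀ n, n + 4 ≤ sq l → P true (sq l - n) i := by
    intro n
    induction n with
    | zero => exact fun _ => mtop hP hl hi htop
    | succ n ih =>
      intro hn
      have h1 := ih (by omega)
      have e : sq l - n = sq l - (n + 1) + 1 := by omega
      rw [e] at h1
      exact mdn hP (by omega) (by omega) hi h1
  apply mbase hP hl hi
  have h1 := hdn (sq l - 4) (by omega)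
  have e : sq l - (sq l - 4) = 4 := by omega
  rw [e] at h1
  exact h1

end ReachItem

theorem reach : stReach := by
  intro l w P hl h0 hP
  have h : ∀ i, i ≤ w → P false 4 i := by
    intro i
    induction i with
    | zero => exact fun _ => h0
    | succ i ih => exact fun hi => ReachItem.round hP hl hi (ih (by omega))
  exact h w le_rfl

end MPaef1a0

end

section

/-!
Transfer of the running times along isomorphisms; the maximum is attained (items G1, G2, G3).
-/

set_option autoImplicit false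

namespace MPaef1a0

open SimpleGraph

namespace Transfer

/-- The relation of one step, in terms of `Near`. -/
theorem rel_iff {V W : Type} [Fintype V] [Fintype W] (H : SimpleGraph W) (G : SimpleGraph V)
    (u v : V) : (G.Adj u v ∨ G.copyCount H < (G ⊔ SimpleGraph.edge u v).copyCount H) ↔
      (G.Adj u v ∨ ∃ f : W → V, Near H G f u v) := by
  by_cases h : G.Adj u v
  · exact iff_of_true (Or.inl h) (Or.inl h)
  · rw [or_iff_right h, or_iff_right h]
    exact count V W H G u v h

theorem step_adj {V W : Type} [Fintype V] [Fintype W] (H : SimpleGraph W) (G : SimpleGraph V)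
    (u v : V) : (step H G).Adj u v ↔ (u ≠ v ∧ ((G.Adj u v ∨ ∃ f : W → V, Near H G f u v) ∨
      (G.Adj v u ∨ ∃ f : W → V, Near H G f v u))) := by
  unfold step
  rw [SimpleGraph.fromRel_adj, rel_iff, rel_iff]

theorem near_map {V V' W : Type} (H : SimpleGraph W) {G : SimpleGraph V} {G' : SimpleGraph V'}
    (e : V ≃ V') (he : ∀ a b, G.Adj a b → G'.Adj (e a) (e b)) {u v : V} {f : W → V}
    (h : Near H G f u v) : Near H G' (fun w => e (f w)) (e u) (e v) := by
  obtain ⟨h1, h2, a, b, hab, ha, hb⟩ := h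
  refine ⟨fun x y hxy => h1 (e.injective hxy), ?_, a, b, hab, by simp only [ha], by simp only [hb]⟩
  intro x y hxy
  rcases h2 x y hxy with h | h
  · exact Or.inl (he _ _ h)
  · right
    have := congrArg (Sym2.map e) h
    simpa only [Sym2.map_mk] using this

theorem step_iso {V V' W : Type} [Fintype V] [Fintype V'] [Fintype W] (H : SimpleGraph W)
    {G : SimpleGraph V} {G' : SimpleGraph V'} (e : V ≃ V')
    (he : ∀ a b, G.Adj a b ↔ G'.Adj (e a) (e b)) (u v : V) :
    (step H G).Adj u v ↔ (step H G').Adj (e u) (e v) := by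
  have key : ∀ a b, (∃ f : W → V, Near H G f a b) ↔ ∃ f : W → V', Near H G' f (e a) (e b) := by
    intro a b
    constructor
    · rintro ⟨f, hf⟩
      exact ⟨_, near_map H e (fun x y => (he x y).1) hf⟩
    · rintro ⟨f, hf⟩
      have he' : ∀ x y, G'.Adj x y → G.Adj (e.symm x) (e.symm y) := by
        intro x y hxy
        rw [he, e.apply_symm_apply, e.apply_symm_apply]
        exact hxy
      have := near_map H e.symm he' hf
      rw [e.symm_apply_apply, e.symm_apply_apply] at this
      exact ⟨_, this⟩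
  rw [step_adj, step_adj, key u v, key v u, he u v, he v u]
  simp only [ne_eq, EmbeddingLike.apply_eq_iff_eq]

theorem proc_iso {V V' W : Type} [Fintype V] [Fintype V'] [Fintype W] (H : SimpleGraph W)
    {G : SimpleGraph V} {G' : SimpleGraph V'} (e : V ≃ V')
    (he : ∀ a b, G.Adj a b ↔ G'.Adj (e a) (e b)) (t : ℕ) :
    ∀ a b, (proc H G t).Adj a b ↔ (proc H G' t).Adj (e a) (e b) := by
  induction t with
  | zero => exact he
  | succ t ih => exact fun a b => step_iso H e ih a b

theorem eq_iff {V V' : Type} {A B : SimpleGraph V} {A' B' : SimpleGraph V'} (e : V ≃ V')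
    (hA : ∀ a b, A.Adj a b ↔ A'.Adj (e a) (e b)) (hB : ∀ a b, B.Adj a b ↔ B'.Adj (e a) (e b)) :
    A = B ↔ A' = B' := by
  constructor
  · intro h
    ext x y
    have h1 := hA (e.symm x) (e.symm y)
    have h2 := hB (e.symm x) (e.symm y)
    rw [e.apply_symm_apply, e.apply_symm_apply] at h1 h2
    rw [← h1, ← h2, h]
  · intro h
    ext x y
    rw [hA, hB, h]

theorem step_isoH {V W W' : Type} [Fintype V] [Fintype W] [Fintype W'] {H : SimpleGraph W}
    {H' : SimpleGraph W'} (h : H ≃g H') (G : SimpleGraph V) : step H G = step H' G := by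
  have key : ∀ a b, (∃ f : W → V, Near H G f a b) ↔ ∃ f : W' → V, Near H' G f a b := by
    intro a b
    constructor
    · rintro ⟨f, h1, h2, x, y, hxy, hx, hy⟩
      refine ⟨fun w => f (h.symm w), fun p q hpq => h.symm.injective (h1 hpq), ?_, h x, h y,
        h.map_adj_iff.2 hxy, ?_, ?_⟩
      · intro p q hpq
        exact h2 _ _ (h.symm.map_adj_iff.2 hpq)
      · change f (h.symm (h x)) = a
        rw [h.symm_apply_apply, hx]
      · change f (h.symm (h y)) = b
        rw [h.symm_apply_apply, hy]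
    · rintro ⟨f, h1, h2, x, y, hxy, hx, hy⟩
      refine ⟨fun w => f (h w), fun p q hpq => h.injective (h1 hpq), ?_, h.symm x, h.symm y,
        h.symm.map_adj_iff.2 hxy, ?_, ?_⟩
      · intro p q hpq
        exact h2 _ _ (h.map_adj_iff.2 hpq)
      · change f (h (h.symm x)) = a
        rw [h.apply_symm_apply, hx]
      · change f (h (h.symm y)) = b
        rw [h.apply_symm_apply, hy]
  ext u v
  rw [step_adj, step_adj, key u v, key v u]

end Transfer

theorem isoV : stIsoV := by
  intro V V' W _ _ _ H G G' ⟨e⟩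
  have he : ∀ a b, G.Adj a b ↔ G'.Adj (e.toEquiv a) (e.toEquiv b) := fun a b =>
    (e.map_adj_iff).symm
  unfold runTime
  congr 1
  ext t
  exact Transfer.eq_iff e.toEquiv (Transfer.proc_iso H e.toEquiv he t)
    (Transfer.proc_iso H e.toEquiv he (t + 1))

theorem isoH : stIsoH := by
  intro W W' _ _ H H' ⟨h⟩ n
  have hp : ∀ (G : SimpleGraph (Fin n)) (t : ℕ), proc H G t = proc H' G t := by
    intro G t
    induction t with
    | zero => rfl
    | succ t ih =>
      change step H (proc H G t) = step H' (proc H' G t)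
      rw [ih, Transfer.step_isoH h]
  have hr : ∀ G : SimpleGraph (Fin n), runTime H G = runTime H' G := by
    intro G
    unfold runTime
    congr 1
    ext t
    simp only [Set.mem_ofPred_eq, hp]
  unfold maxRun
  simp only [hr]

theorem maxAttained : stMax := by
  intro W _ H n
  have hfin : (Set.range fun G : SimpleGraph (Fin n) => runTime H G).Finite :=
    Set.finite_range _
  constructor
  · intro G
    exact le_csSup hfin.bddAbove ⟨G, rfl⟩
  · exact Nat.sSup_mem (s := Set.range fun G : SimpleGraph (Fin n) => runTime H G)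
      (Set.range_nonempty _) hfin.bddAbove

end MPaef1a0

end

section

/-!
C1: the intended structure satisfies the axioms.
-/

set_option autoImplicit false

namespace MPaef1a0

namespace YAxP

theorem pow_gt (k : ℕ) : k < 2 ^ k := Nat.lt_two_pow_self

theorem sq_even (l : ℕ) : ∃ c, sq l = 2 * c := ⟨2 ^ (2 ^ l), by unfold sq; ring⟩

theorem pow_even {l : ℕ} (hl : 2 ≤ l) : ∃ c, 2 ^ l = 2 * c := by
  obtain ⟨m, rfl⟩ : ∃ m, l = m + 1 := ⟨l - 1, by omega⟩
  exact ⟨2 ^ m, by ring⟩

theorem lt_sq (l : ℕ) : 2 ^ l < sq l := by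
  have h1 := pow_gt l
  have h2 : (2 : ℕ) ^ l < 2 ^ (2 ^ l + 1) := Nat.pow_lt_pow_right (by norm_num) (by omega)
  simpa [sq] using h2

theorem num_ne (l : ℕ) (k : SK) (a b : ℕ) (h : numLk l k a b) : a ≠ b := by
  cases k with
  | S => simp only [numLk] at h; omega
  | U => simp only [numLk] at h; omega
  | M => simp only [numLk] at h; omega
  | D => simp only [numLk] at h; omega
  | G =>
    simp only [numLk] at h
    obtain ⟨k, hk, rfl, rfl⟩ := h
    have := pow_gt k
    omega
  | T =>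
    simp only [numLk] at h
    obtain ⟨rfl, rfl⟩ := h
    exact (lt_sq l).ne

/-- The links which go up. -/
def up : SK → Bool
  | .S => true | .D => true | .T => true
  | _ => false

theorem num_up (l : ℕ) (k : SK) (a b : ℕ) (h : numLk l k a b) :
    (up k = true → a < b) ∧ (up k = false → b < a) := by
  cases k with
  | S => simp only [numLk] at h; simp [up]; omega
  | U => simp only [numLk] at h; simp [up]; omega
  | M => simp only [numLk] at h; simp [up]; omega
  | D => simp only [numLk] at h; simp [up]; omega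
  | G =>
    simp only [numLk] at h
    obtain ⟨k, hk, rfl, rfl⟩ := h
    have := pow_gt k
    simp [up]; omega
  | T =>
    simp only [numLk] at h
    obtain ⟨rfl, rfl⟩ := h
    have := lt_sq l
    simp [up]; omega

theorem SD (l a b : ℕ) (h : numLk l .S a b) (h' : numLk l .D a b) : False := by
  simp only [numLk] at h h'; omega

theorem ST (l a b : ℕ) (hl : 2 ≤ l) (h : numLk l .S a b) (h' : numLk l .T a b) : False := by
  simp only [numLk] at h h'
  obtain ⟨rfl, rfl⟩ := h'
  obtain ⟨c, hc⟩ := sq_even l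
  obtain ⟨d, hd⟩ := pow_even hl
  omega

theorem DT (l a b : ℕ) (h : numLk l .D a b) (h' : numLk l .T a b) : False := by
  simp only [numLk] at h h'
  obtain ⟨rfl, rfl⟩ := h'
  have h1 : (2 : ℕ) ^ (2 ^ l + 1) = 2 ^ (l + 1) := by
    have := h.2
    unfold sq at this
    rw [this]; ring
  have h2 := Nat.pow_right_injective (le_refl 2) h1
  have := pow_gt l
  omega

theorem UM (l a b b' : ℕ) (h : numLk l .U a b) (h' : numLk l .M a b') : False := by
  simp only [numLk] at h h'
  exact h.2 h'.2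

theorem UG (l a b b' : ℕ) (h : numLk l .U a b) (h' : numLk l .G a b') : False := by
  simp only [numLk] at h h'
  obtain ⟨k, hk, rfl, rfl⟩ := h'
  exact h.2 ⟨k, hk, rfl⟩

theorem MG (l a b : ℕ) (h : numLk l .M a b) (h' : numLk l .G a b) : False := by
  simp only [numLk] at h h'
  obtain ⟨k, hk, rfl, rfl⟩ := h'
  have := pow_gt k
  omega

theorem num_uniq (l : ℕ) (hl : 2 ≤ l) (k k' : SK) (a b : ℕ) (h : numLk l k a b)
    (h' : numLk l k' a b) : k = k' := by
  have u := num_up l k a b h
  have u' := num_up l k' a b h'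
  cases k <;> cases k' <;> first
    | rfl
    | exact (SD l a b h h').elim
    | exact (SD l a b h' h).elim
    | exact (ST l a b hl h h').elim
    | exact (ST l a b hl h' h).elim
    | exact (DT l a b h h').elim
    | exact (DT l a b h' h).elim
    | exact (UM l a b b h h').elim
    | exact (UM l a b b h' h).elim
    | exact (UG l a b b h h').elim
    | exact (UG l a b b h' h).elim
    | exact (MG l a b h h').elim
    | exact (MG l a b h' h).elim
    | (exfalso; simp [up] at u u'; omega)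

theorem num_func (l : ℕ) (k : SK) (a b b' : ℕ) (h : numLk l k a b) (h' : numLk l k a b') :
    b = b' := by
  cases k with
  | S => simp only [numLk] at h h'; omega
  | U => simp only [numLk] at h h'; omega
  | M => simp only [numLk] at h h'; omega
  | D => simp only [numLk] at h h'; omega
  | G =>
    simp only [numLk] at h h'
    obtain ⟨k, hk, rfl, rfl⟩ := h
    obtain ⟨k', hk', h1, rfl⟩ := h'
    have := Nat.pow_right_injective (le_refl 2) h1
    omega
  | T =>
    simp only [numLk] at h h'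
    rw [h.2, h'.2]

theorem num_inj (l : ℕ) (k : SK) (a a' b : ℕ) (h : numLk l k a b) (h' : numLk l k a' b) :
    a = a' := by
  cases k with
  | S => simp only [numLk] at h h'; omega
  | U => simp only [numLk] at h h'; omega
  | M => simp only [numLk] at h h'; omega
  | D => simp only [numLk] at h h'; omega
  | G =>
    simp only [numLk] at h h'
    obtain ⟨k, hk, rfl, rfl⟩ := h
    obtain ⟨k', hk', rfl, h1⟩ := h'
    have : k = k' := by omega
    rw [this]
  | T =>
    simp only [numLk] at h h'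
    rw [h.1, h'.1]

end YAxP

open YAxP in
theorem yAx : stYAx := by
  intro l w P hl
  refine ⟨?_, ?_, ?_, ?_, ?_, ?_, ?_, ?_, ?_⟩
  · rintro k (x | x) (y | y) h hxy
    · have h1 : x = y := Sum.inl_injective hxy
      exact num_ne l k _ _ h (by rw [h1])
    · exact h
    · exact h
    · have h1 : x = y := Sum.inr_injective hxy
      have h2 : y.val = x.val + 1 := h.2
      rw [h1] at h2
      omega
  · rintro d (x | x) (y | y) h hxy
    · exact h
    · cases hxy
    · exact h
    · exact h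
  · rintro k k' (x | x) (y | y) h h'
    · exact num_uniq l hl k k' _ _ h h'
    · exact h.elim
    · exact h.elim
    · have h1 : k = .S := h.1
      have h2 : k' = .S := h'.1
      rw [h1, h2]
  · rintro k (x | x) (y | y) (y' | y') h h'
    · have := num_func l k _ _ _ h h'
      congr 1
      apply Fin.ext
      omega
    · exact h'.elim
    · exact h.elim
    · exact h.elim
    · exact h.elim
    · exact h.elim
    · exact h'.elim
    · have h1 : y.val = x.val + 1 := h.2
      have h2 : y'.val = x.val + 1 := h'.2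
      congr 1
      apply Fin.ext
      omega
  · rintro k (x | x) (x' | x') (y | y) h h'
    · have := num_inj l k _ _ _ h h'
      congr 1
      apply Fin.ext
      omega
    · exact h.elim
    · exact h'.elim
    · exact h.elim
    · exact h.elim
    · exact h'.elim
    · exact h.elim
    · have h1 : y.val = x.val + 1 := h.2
      have h2 : y.val = x'.val + 1 := h'.2
      congr 1
      apply Fin.ext
      omega
  · rintro (x | x) (a | a) (b | b) h h'
    · exact UM l _ _ _ h h'
    · exact h'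
    · exact h
    · exact h
    · exact h
    · exact h
    · exact h'
    · have h1 : SK.U = SK.S := h.1
      cases h1
  · rintro (x | x) (a | a) (b | b) h h'
    · exact UG l _ _ _ h h'
    · exact h'
    · exact h
    · exact h
    · exact h
    · exact h
    · exact h'
    · have h1 : SK.U = SK.S := h.1
      cases h1
  · intro v z1 z2 z3 z4 h12 h23 h34 hD hv
    rcases z2 with z2 | z2
    · rcases z4 with z4 | z4
      · rcases z3 with z3 | z3
        · rcases z1 with z1 | z1
          · rcases v with v | v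
            · have e1 : z2.val + 1 = z1.val + 1 + 1 := h12
              have e2 : z3.val + 1 = z2.val + 1 + 1 := h23
              have e3 : z4.val + 1 = z3.val + 1 + 1 := h34
              have e4 : 2 ≤ z2.val + 1 ∧ z4.val + 1 = 2 * (z2.val + 1) := hD
              have e5 : z1.val + 1 = v.val + 1 + 1 := hv
              omega
            · exact hv
          · exact h12
        · exact h23
      · exact hD
    · rcases z4 with z4 | z4
      · exact hD
      · have h1 : SK.D = SK.S := hD.1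
        cases h1
  · intro κ q v hT hS
    rcases κ with κ | κ
    · rcases q with q | q
      · rcases v with v | v
        · have e1 : κ.val + 1 = 2 ^ l ∧ q.val + 1 = sq l := hT
          have e2 : v.val + 1 = q.val + 1 + 1 := hS
          have := v.isLt
          omega
        · exact hS
      · exact hT
    · rcases q with q | q
      · exact hT
      · have h1 : SK.T = SK.S := hT.1
        cases h1

end MPaef1a0

end
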